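import Pool.Agent.Helper57.KNB.KN4

/-!
Row KNB, part 5: kernel side of the family tests.
-/

set_option autoImplicit false
noncomputable section
namespace Pool.Agent.Helper57.KNB

open Pool.Agent.Helper86.C75 (Z)
open Pool.Agent.Helper86.CX (Cx andB)

variable {M PH : Type}

/-! ### the simple eigenvalue -/

/-- `v³ - T v² + E v + 1` -/
def cub (A : Ar M PH) (v T E : M) : M :=
  A.add (A.mul (A.add (A.mul (A.sub v T) v) E) v) (c1 A)
/-- `3 v² - 2 T v + E` -/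
def cubD (A : Ar M PH) (v T E : M) : M :=
  A.add (A.mul (A.sub (A.add v (dbl A v)) (dbl A T)) v) E
/-- radius of the root near `v` -/
def nuR (A : Ar M PH) (v T E : M) : Nat :=
  Nat.add (Nat.div (Nat.mul (nat_lit 3) (Nat.mul (A.nb (cub A v T E)) (A.nb (A.inv (cubD A v T E)))))
    (nat_lit 281474976710656)) (nat_lit 1)
def nuM (A : Ar M PH) (v T E : M) : M := A.wd (nuR A v T E) v

/-- scalars of the cycle: `ν`, `s = T - ν`, `1/s`, `d = ν² - T ν + E`, `1/χ'(ν)`,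
`c = 1 - τ = 4 d / s²`, `g = 2 ν / s` -/
structure Sc (M : Type) where
  nu : M
  s : M
  is : M
  d : M
  ic : M
  c : M
  g : M

def mkSc2 (A : Ar M PH) (nu s is d ic : M) : Sc M :=
  ⟨nu, s, is, d, ic, A.mul (A.mul (c4 A) d) (A.mul is is), A.mul (dbl A nu) is⟩
def mkSc1 (A : Ar M PH) (nu s T E : M) : Sc M :=
  mkSc2 A nu s (A.inv s) (A.sub E (A.mul nu s)) (A.inv (cubD A nu T E))
/-- `d = E - ν s` -/
def mkSc (A : Ar M PH) (nu T E : M) : Sc M := mkSc1 A nu (A.sub T nu) T E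
def scOK (A : Ar M PH) (nu T E : M) : Bool := andB (A.ok (A.sub T nu)) (A.ok (cubD A nu T E))

/-! ### the three matrices of the family -/

structure Fm (M : Type) where
  n : F9 M
  q : F9 M
  p : F9 M

def mkP (A : Ar M PH) (S : Sc M) (W : F9 M) : F9 M :=
  smu9 A S.ic (adI A S.d (sub9 A (mul9 A W W) (smu9 A S.s W)))
def mkFm2 (A : Ar M PH) (S : Sc M) (W P Q : F9 M) : Fm M :=
  ⟨sub9 A (smu9 A (dbl A S.is) (sub9 A W (smu9 A S.nu P))) Q, Q, P⟩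
def mkFm1 (A : Ar M PH) (S : Sc M) (W P : F9 M) : Fm M := mkFm2 A S W P (Isb A (c1 A) P)
def mkFm (A : Ar M PH) (S : Sc M) (W : F9 M) : Fm M := mkFm1 A S W (mkP A S W)

/-- times the basis -/
def bsF (A : Ar M PH) (F : Fm M) (B : F9 M) : Fm M :=
  ⟨mul9 A F.n B, mul9 A F.q B, mul9 A F.p B⟩

/-! ### records -/

/-- `Fᴴ X G` for the pairs of `N, Q, P`, and `Bᴴ E B` (packed) -/
structure HR (PH : Type) where
  h00 : PH
  h11 : PH
  h22 : PH
  h01 : PH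
  k01 : PH
  h02 : PH
  k02 : PH
  h12 : PH
  k12 : PH
  e : PH

def mkHR3 (A : Ar M PH) (a b c g01 g02 g12 : F9 M) (e : H6 M) : HR PH :=
  ⟨A.pk (up a), A.pk (up b), A.pk (up c), A.pk (her A g01), A.pk (skw A g01), A.pk (her A g02),
    A.pk (skw A g02), A.pk (her A g12), A.pk (skw A g12), A.pk e⟩
def mkHR2 (A : Ar M PH) (cn cq cp xn xq xp : F9 M) (e : H6 M) : HR PH :=
  mkHR3 A (mul9 A cn xn) (mul9 A cq xq) (mul9 A cp xp) (mul9 A cn xq) (mul9 A cn xp)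
    (mul9 A cq xp) e
def mkHR1 (A : Ar M PH) (X : H6 M) (F : Fm M) (e : H6 M) : HR PH :=
  mkHR2 A (ct9 A F.n) (ct9 A F.q) (ct9 A F.p) (XF A X F.n) (XF A X F.q) (XF A X F.p) e
/-- `F` already times the basis `B` -/
def mkHR (A : Ar M PH) (X E : H6 M) (F : Fm M) (B : F9 M) : HR PH := mkHR1 A X F (cg A B E)

/-- the test at `A = a`, `ρ = r` -/
def tFam3 (A : Ar M PH) (d : D3) (H : HR PH) (a r ar lam : M) : Bool :=
  A.lt d [⟨c1 A, H.h00⟩, ⟨A.mul a (A.cj a), H.h11⟩, ⟨A.mul r (A.cj r), H.h22⟩, ⟨A.re a, H.h01⟩,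
    ⟨A.im a, H.k01⟩, ⟨A.re r, H.h02⟩, ⟨A.im r, H.k02⟩, ⟨A.re ar, H.h12⟩, ⟨A.im ar, H.k12⟩,
    ⟨neg A lam, H.e⟩]
def tFam (A : Ar M PH) (d : D3) (H : HR PH) (a r lam : M) : Bool :=
  tFam3 A d H a r (A.mul (A.cj a) r) lam

/-- `m = 0, 1, ..`; `T` is the test of the last pair -/
def tQ (A : Ar M PH) (H : HR PH) (c g : M) (T : M → M → Bool) (L : List (LD M)) : M → M → Bool :=
  List.rec (motive := fun _ => M → M → Bool) T
    (fun l _ ih a r => andB (tFam A l.d H a r l.l) (andB (A.ok (A.add (c1 A) a))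
      (ih (A.sub (c1 A) (A.mul c (A.inv (A.add (c1 A) a))))
        (A.mul (A.mul g r) (A.inv (A.add (c1 A) a)))))) L

/-! ### all phases in the tail -/

def col (k : Nat) (P : F9 M) : V3m M :=
  Nat.rec (motive := fun _ => V3m M) ⟨P.a, P.d, P.g⟩
    (fun k _ => Nat.rec (motive := fun _ => V3m M) ⟨P.b, P.e, P.h⟩ (fun _ _ => ⟨P.c, P.f, P.i⟩) k) k
def row (k : Nat) (P : F9 M) : V3m M :=
  Nat.rec (motive := fun _ => V3m M) ⟨P.a, P.b, P.c⟩
    (fun k _ => Nat.rec (motive := fun _ => V3m M) ⟨P.d, P.e, P.f⟩ (fun _ _ => ⟨P.g, P.h, P.i⟩) k) k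
def piv (k : Nat) (P : F9 M) : M :=
  Nat.rec (motive := fun _ => M) P.a
    (fun k _ => Nat.rec (motive := fun _ => M) P.e (fun _ _ => P.i) k) k

/-- row times matrix -/
def rm (A : Ar M PH) (u : V3m M) (F : F9 M) : V3m M :=
  ⟨dt A u.x u.y u.z F.a F.d F.g, dt A u.x u.y u.z F.b F.e F.h, dt A u.x u.y u.z F.c F.f F.i⟩
/-- `aᴴ X` -/
def aX (A : Ar M PH) (a : V3m M) (X : H6 M) : V3m M :=
  rm A ⟨A.cj a.x, A.cj a.y, A.cj a.z⟩ ⟨X.a, X.x, X.y, A.cj X.x, X.b, X.w, A.cj X.y, A.cj X.w, X.c⟩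
/-- `conj u_i v_j` -/
def r1 (A : Ar M PH) (u v : V3m M) : F9 M :=
  ⟨A.mul (A.cj u.x) v.x, A.mul (A.cj u.x) v.y, A.mul (A.cj u.x) v.z,
    A.mul (A.cj u.y) v.x, A.mul (A.cj u.y) v.y, A.mul (A.cj u.y) v.z,
    A.mul (A.cj u.z) v.x, A.mul (A.cj u.z) v.y, A.mul (A.cj u.z) v.z⟩

structure BR (M PH : Type) where
  b00 : PH
  b11 : PH
  b01 : PH
  k01 : PH
  g : PH
  xi : M

def mkBR3 (A : Ar M PH) (f00 f11 f01 fg : F9 M) (xi : M) : BR M PH :=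
  ⟨A.pk (up f00), A.pk (up f11), A.pk (her A f01), A.pk (skw A f01), A.pk (up fg), xi⟩
def mkBR2 (A : Ar M PH) (b0 b1 g : V3m M) (xi : M) : BR M PH :=
  mkBR3 A (r1 A b0 b0) (r1 A b1 b1) (r1 A b0 b1) (r1 A g g) xi
def mkBR1 (A : Ar M PH) (a ax g : V3m M) (F : Fm M) : BR M PH :=
  mkBR2 A (rm A ax F.n) (rm A ax F.q) g (dt A ax.x ax.y ax.z a.x a.y a.z)
/-- `P` projector, `F` the family times the basis -/
def mkBR (A : Ar M PH) (k : Nat) (X : H6 M) (P : F9 M) (F : Fm M) : BR M PH :=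
  mkBR1 A (col k P) (aX A (col k P) X) (row k F.p) F

/-- `a + z ≤ b` resp. `a ≤ z + b` -/
def leZ1 (a : Nat) (z : Z) (b : Nat) : Bool :=
  Z.rec (motive := fun _ => Bool) (fun n => Nat.ble (Nat.add a n) b)
    (fun n => Nat.ble a (Nat.add b n)) z
def leZ2 (a : Nat) (z : Z) (b : Nat) : Bool :=
  Z.rec (motive := fun _ => Bool) (fun n => Nat.ble a (Nat.add n b))
    (fun n => Nat.ble (Nat.add a n) b) z
/-- `σ - w ≤ Re ξ ≤ σ` -/
def xiOK (sg w r : Nat) (l : List Cx) : Bool :=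
  List.rec (motive := fun _ => Bool) true
    (fun x _ ih => andB (leZ1 r x.re sg) (andB (leZ2 (Nat.add sg r) x.re w) ih)) l

/-- a polygon of `A` (unit `2 ^ (-24)`) with its circle, multiplier, and `1/σ`, `σ`, `w`;
`ng <> 0`: the conjugate polygon -/
structure TP (M : Type) where
  V : List (Nat × Nat)
  cx : Nat
  cy : Nat
  R : Nat
  l : LD M
  is : Nat
  sg : Nat
  w : Nat
  ng : Nat

/-- with the sign -/
def sZ (ng y : Nat) : Z := Nat.rec (motive := fun _ => Z) (Z.p y) (fun _ _ => Z.m y) ng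

def dsq (a b : Nat) : Nat :=
  Nat.mul (Nat.add (Nat.sub a b) (Nat.sub b a)) (Nat.add (Nat.sub a b) (Nat.sub b a))

/-- `w (ρ₀ |κ|)²`, rounded up; `t = ρ₀ |κ|` -/
def cR4b (w t : Nat) : Nat :=
  Nat.add (Nat.div (Nat.mul w (Nat.add (Nat.div (Nat.mul t t) (nat_lit 281474976710656)) (nat_lit 1)))
    (nat_lit 281474976710656)) (nat_lit 1)
def cR4 (w r0 kb : Nat) : Nat :=
  cR4b w (Nat.add (Nat.div (Nat.mul r0 kb) (nat_lit 281474976710656)) (nat_lit 1))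

def tV3 (A : Ar M PH) (d : D3) (H : HR PH) (B : BR M PH) (x y n js c lam : M) : Bool :=
  A.lt d [⟨c1 A, H.h00⟩, ⟨n, H.h11⟩, ⟨x, H.h01⟩, ⟨y, H.k01⟩, ⟨js, B.b00⟩, ⟨A.mul js n, B.b11⟩,
    ⟨A.mul js x, B.b01⟩, ⟨A.mul js y, B.k01⟩, ⟨c, B.g⟩, ⟨neg A lam, H.e⟩]
/-- vertex `(X, Y)`, `n` -/
def tV2 (A : Ar M PH) (H : HR PH) (B : BR M PH) (l : LD M) (ng is c4 : Nat) (x y : Nat) (n : Z) :
    Bool :=
  tV3 A l.d H B (cR A (Z.p (Nat.mul (nat_lit 16777216) x)))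
    (cR A (sZ ng (Nat.mul (nat_lit 16777216) y))) (cR A n) (cR A (Z.m is)) (cR A (Z.m c4)) l.l
def tV1 (A : Ar M PH) (H : HR PH) (B : BR M PH) (l : LD M) (ng is c4 R x y n : Nat) : Bool :=
  andB (tV2 A H B l ng is c4 x y (Z.p n)) (tV2 A H B l ng is c4 x y (Z.sub (Z.p n) (Z.p R)))
def tV (A : Ar M PH) (H : HR PH) (B : BR M PH) (l : LD M) (ng is c4 R x y : Nat) : Bool :=
  tV1 A H B l ng is c4 R x y (Nat.add (Nat.mul x x) (Nat.mul y y))

def tPV (A : Ar M PH) (H : HR PH) (B : BR M PH) (P : TP M) (c4 : Nat) (l : List (Nat × Nat)) : Bool :=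
  List.rec (motive := fun _ => Bool) true
    (fun x _ ih => andB (Nat.ble (Nat.add (dsq x.1 P.cx) (dsq x.2 P.cy)) P.R)
      (andB (tV A H B P.l P.ng P.is c4 P.R x.1 x.2) ih)) l
/-- a polygon; `r0` bound of `ρ`, `kb` bound of `1 / P_kk` -/
def tP (A : Ar M PH) (H : HR PH) (B : BR M PH) (r0 kb : Nat) (P : TP M) : Bool :=
  andB (xiOK P.sg P.w (A.rd B.xi) (A.ctl B.xi))
    (andB (Nat.ble (nat_lit 79228162514264337593543950336) (Nat.mul P.is P.sg))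
      (tPV A H B P (cR4 P.w r0 kb) P.V))
def tPL (A : Ar M PH) (H : HR PH) (B : BR M PH) (r0 kb : Nat) (l : List (TP M)) : Bool :=
  List.rec (motive := fun _ => Bool) true (fun x _ ih => andB (tP A H B r0 kb x) ih) l

end Pool.Agent.Helper57.KNB
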