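import Pool.Agent.Helper57.KNB.KN3
import Pool.Agent.Helper57.KNB.KN5
import Pool.Agent.Helper90.CX.KM1

/-!
Row KNB, part 6: soundness of the matrix arithmetic, for any sound arithmetic of models.
-/

set_option autoImplicit false
noncomputable section
namespace Pool.Agent.Helper57.KNB

open Pool.Agent.Helper86.C75 (Z)
open Pool.Agent.Helper86.CX (Cx andB Hm ev mkH)
open Pool.Agent.Helper90.KMO (zv cz UU UU_pos)
open Complex ComplexConjugate Matrix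

variable {M PH : Type}

theorem andBt {x y : Bool} (h : andB x y = true) : x = true ∧ y = true := by
  cases x with
  | false => cases h
  | true => exact ⟨rfl, h⟩

/-- models of a Hermitian form -/
structure HOK (OK : ℂ → M → Prop) (K : Hm ℝ) (h : H6 M) : Prop where
  a : OK (K.a : ℂ) h.a
  b : OK (K.b : ℂ) h.b
  c : OK (K.c : ℂ) h.c
  x : OK K.x h.x
  y : OK K.y h.y
  w : OK K.w h.w

/-- models of a matrix -/
structure FOK (OK : ℂ → M → Prop) (F : M3) (m : F9 M) : Prop where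
  a : OK (F 0 0) m.a
  b : OK (F 0 1) m.b
  c : OK (F 0 2) m.c
  d : OK (F 1 0) m.d
  e : OK (F 1 1) m.e
  f : OK (F 1 2) m.f
  g : OK (F 2 0) m.g
  h : OK (F 2 1) m.h
  i : OK (F 2 2) m.i

/-- scalar times form -/
structure SOK (OK : ℂ → M → Prop) (HK : Hm ℝ → PH → Prop) (p : ℝ × Hm ℝ) (q : SH M PH) :
    Prop where
  s : OK (p.1 : ℂ) q.s
  h : HK p.2 q.h

/-- sound arithmetic -/
structure ArS (A : Ar M PH) (OK : ℂ → M → Prop) (HK : Hm ℝ → PH → Prop) : Prop where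
  add : ∀ {f g : ℂ} {x y : M}, OK f x → OK g y → OK (f + g) (A.add x y)
  sub : ∀ {f g : ℂ} {x y : M}, OK f x → OK g y → OK (f - g) (A.sub x y)
  mul : ∀ {f g : ℂ} {x y : M}, OK f x → OK g y → OK (f * g) (A.mul x y)
  cj : ∀ {f : ℂ} {x : M}, OK f x → OK (star f) (A.cj x)
  re : ∀ {f : ℂ} {x : M}, OK f x → OK (f.re : ℂ) (A.re x)
  im : ∀ {f : ℂ} {x : M}, OK f x → OK (f.im : ℂ) (A.im x)
  inv : ∀ {f : ℂ} {x : M}, OK f x → A.ok x = true → f ≠ 0 ∧ OK f⁻¹ (A.inv x)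
  cs : ∀ c : Cx, OK (cz c / UU) (A.cs c)
  wd : ∀ {f g : ℂ} {x : M} {e : ℕ}, OK f x → ‖g - f‖ * UU ≤ e → OK g (A.wd e x)
  nb : ∀ {f : ℂ} {x : M}, OK f x → ‖f‖ * UU ≤ A.nb x
  ctl : ∀ {f : ℂ} {x : M}, OK f x → ∃ q ∈ convexHull ℝ {z : ℂ | ∃ c ∈ A.ctl x, z = cz c},
    ‖(UU : ℂ) * f - q‖ ≤ A.rd x
  dot : ∀ {f g h f' g' h' : ℂ} {x y z x' y' z' : M}, OK f x → OK g y → OK h z → OK f' x' →
    OK g' y' → OK h' z' → OK (f * f' + g * g' + h * h') (A.dot x y z x' y' z')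
  pk : ∀ {K : Hm ℝ} {h : H6 M}, HOK OK K h → HK K (A.pk h)
  lt : ∀ {d : D3} {l : List (SH M PH)} {p : List (ℝ × Hm ℝ)}, List.Forall₂ (SOK OK HK) p l →
    A.lt d l = true → ∀ v : Fin 3 → ℂ, 0 ≤ (p.map fun x => x.1 * ev x.2 v).sum

theorem okE {OK : ℂ → M → Prop} {f g : ℂ} {x : M} (h : OK f x) (e : f = g) : OK g x := e ▸ h

section

variable {A : Ar M PH} {OK : ℂ → M → Prop} {HK : Hm ℝ → PH → Prop}

/-! ### constants -/

theorem okR (hA : ArS A OK HK) (x : Z) : OK ((zv x : ℝ) / UU : ℝ) (cR A x) := by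
  refine okE (hA.cs _) ?_
  have : cz ⟨x, zi0⟩ = ((zv x : ℝ) : ℂ) := by
    apply Complex.ext
    · simp [cz]
    · simp [cz, zi0, zv]
  rw [this]
  push_cast
  rfl

theorem ok1 (hA : ArS A OK HK) : OK 1 (c1 A) := by
  refine okE (okR hA _) ?_
  simp [zv, UU]

theorem ok0 (hA : ArS A OK HK) : OK 0 (c0 A) := by
  refine okE (okR hA _) ?_
  simp [zv, zi0]

theorem ok8 (hA : ArS A OK HK) : OK 8 (c8 A) := by
  refine okE (okR hA _) ?_
  norm_num [zv, UU]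

theorem oke (hA : ArS A OK HK) : OK (1 / 8) (ce A) := by
  refine okE (okR hA _) ?_
  norm_num [zv, UU]

theorem ok3 (hA : ArS A OK HK) : OK 3 (c3 A) := by
  refine okE (okR hA _) ?_
  norm_num [zv, UU]

theorem ok4 (hA : ArS A OK HK) : OK 4 (c4 A) := by
  refine okE (okR hA _) ?_
  norm_num [zv, UU]

theorem okI (hA : ArS A OK HK) : OK I (cI A) := by
  refine okE (hA.cs _) ?_
  have : cz ⟨zi0, Z.p (nat_lit 281474976710656)⟩ = (UU : ℂ) * I := by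
    apply Complex.ext
    · simp [cz, zi0, zv]
    · simp [cz, zv, UU]
  rw [this]
  have : (UU : ℂ) ≠ 0 := by exact_mod_cast UU_pos.ne'
  field_simp

theorem okN (hA : ArS A OK HK) {f : ℂ} {x : M} (h : OK f x) : OK (-f) (neg A x) :=
  okE (hA.sub (ok0 hA) h) (by ring)

theorem okD (hA : ArS A OK HK) {f : ℂ} {x : M} (h : OK f x) : OK (2 * f) (dbl A x) :=
  okE (hA.add h h) (by ring)

/-! ### matrices -/

theorem okDt (hA : ArS A OK HK) {x y z a b c : ℂ} {X Y Z' A' B' C' : M} (hx : OK x X) (hy : OK y Y)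
    (hz : OK z Z') (ha : OK a A') (hb : OK b B') (hc : OK c C') :
    OK (x * a + y * b + z * c) (dt A X Y Z' A' B' C') :=
  hA.dot hx hy hz ha hb hc

theorem FOK.mul9 (hA : ArS A OK HK) {F G : M3} {m m' : F9 M} (hF : FOK OK F m) (hG : FOK OK G m') :
    FOK OK (F * G) (KNB.mul9 A m m') := by
  have e : ∀ i j, (F * G) i j = F i 0 * G 0 j + F i 1 * G 1 j + F i 2 * G 2 j := by
    intro i j
    rw [Matrix.mul_apply, Fin.sum_univ_three]
  constructor <;> rw [e]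
  · exact okDt hA hF.a hF.b hF.c hG.a hG.d hG.g
  · exact okDt hA hF.a hF.b hF.c hG.b hG.e hG.h
  · exact okDt hA hF.a hF.b hF.c hG.c hG.f hG.i
  · exact okDt hA hF.d hF.e hF.f hG.a hG.d hG.g
  · exact okDt hA hF.d hF.e hF.f hG.b hG.e hG.h
  · exact okDt hA hF.d hF.e hF.f hG.c hG.f hG.i
  · exact okDt hA hF.g hF.h hF.i hG.a hG.d hG.g
  · exact okDt hA hF.g hF.h hF.i hG.b hG.e hG.h
  · exact okDt hA hF.g hF.h hF.i hG.c hG.f hG.i

theorem FOK.add9 (hA : ArS A OK HK) {F G : M3} {m m' : F9 M} (hF : FOK OK F m) (hG : FOK OK G m') :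
    FOK OK (F + G) (KNB.add9 A m m') where
  a := hA.add hF.a hG.a
  b := hA.add hF.b hG.b
  c := hA.add hF.c hG.c
  d := hA.add hF.d hG.d
  e := hA.add hF.e hG.e
  f := hA.add hF.f hG.f
  g := hA.add hF.g hG.g
  h := hA.add hF.h hG.h
  i := hA.add hF.i hG.i

theorem FOK.sub9 (hA : ArS A OK HK) {F G : M3} {m m' : F9 M} (hF : FOK OK F m) (hG : FOK OK G m') :
    FOK OK (F - G) (KNB.sub9 A m m') where
  a := hA.sub hF.a hG.a
  b := hA.sub hF.b hG.b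
  c := hA.sub hF.c hG.c
  d := hA.sub hF.d hG.d
  e := hA.sub hF.e hG.e
  f := hA.sub hF.f hG.f
  g := hA.sub hF.g hG.g
  h := hA.sub hF.h hG.h
  i := hA.sub hF.i hG.i

theorem FOK.smu9 (hA : ArS A OK HK) {c : ℂ} {F : M3} {x : M} {m : F9 M} (hc : OK c x)
    (hF : FOK OK F m) : FOK OK (c • F) (KNB.smu9 A x m) where
  a := hA.mul hc hF.a
  b := hA.mul hc hF.b
  c := hA.mul hc hF.c
  d := hA.mul hc hF.d
  e := hA.mul hc hF.e
  f := hA.mul hc hF.f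
  g := hA.mul hc hF.g
  h := hA.mul hc hF.h
  i := hA.mul hc hF.i

theorem FOK.adI (hA : ArS A OK HK) {c : ℂ} {F : M3} {x : M} {m : F9 M} (hc : OK c x)
    (hF : FOK OK F m) : FOK OK (F + c • (1 : M3)) (KNB.adI A x m) where
  a := okE (hA.add hF.a hc) (by simp)
  b := okE hF.b (by simp)
  c := okE hF.c (by simp)
  d := okE hF.d (by simp)
  e := okE (hA.add hF.e hc) (by simp)
  f := okE hF.f (by simp)
  g := okE hF.g (by simp)
  h := okE hF.h (by simp)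
  i := okE (hA.add hF.i hc) (by simp)

theorem FOK.Isb (hA : ArS A OK HK) {c : ℂ} {F : M3} {x : M} {m : F9 M} (hc : OK c x)
    (hF : FOK OK F m) : FOK OK (c • (1 : M3) - F) (KNB.Isb A x m) where
  a := okE (hA.sub hc hF.a) (by simp)
  b := okE (okN hA hF.b) (by simp)
  c := okE (okN hA hF.c) (by simp)
  d := okE (okN hA hF.d) (by simp)
  e := okE (hA.sub hc hF.e) (by simp)
  f := okE (okN hA hF.f) (by simp)
  g := okE (okN hA hF.g) (by simp)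
  h := okE (okN hA hF.h) (by simp)
  i := okE (hA.sub hc hF.i) (by simp)

theorem FOK.ct9 (hA : ArS A OK HK) {F : M3} {m : F9 M} (hF : FOK OK F m) :
    FOK OK Fᴴ (KNB.ct9 A m) where
  a := hA.cj hF.a
  b := hA.cj hF.d
  c := hA.cj hF.g
  d := hA.cj hF.b
  e := hA.cj hF.e
  f := hA.cj hF.h
  g := hA.cj hF.c
  h := hA.cj hF.f
  i := hA.cj hF.i

/-- the full matrix of a form -/
def MK (K : Hm ℝ) : M3 :=
  !![(K.a : ℂ), K.x, K.y; star K.x, (K.b : ℂ), K.w; star K.y, star K.w, (K.c : ℂ)]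

theorem HOK.full (hA : ArS A OK HK) {K : Hm ℝ} {h : H6 M} (hK : HOK OK K h) :
    FOK OK (MK K) ⟨h.a, h.x, h.y, A.cj h.x, h.b, h.w, A.cj h.y, A.cj h.w, h.c⟩ :=
  ⟨hK.a, hK.x, hK.y, hA.cj hK.x, hK.b, hK.w, hA.cj hK.y, hA.cj hK.w, hK.c⟩

theorem FOK.XF (hA : ArS A OK HK) {K : Hm ℝ} {h : H6 M} (hK : HOK OK K h) {F : M3} {m : F9 M}
    (hF : FOK OK F m) : FOK OK (MK K * F) (KNB.XF A h m) :=
  (hK.full hA).mul9 hA hF

theorem hs_MK (K : Hm ℝ) (u v : Fin 3 → ℂ) : hs K u v = star u ⬝ᵥ (MK K).mulVec v := by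
  simp only [hs, MK, dotProduct, Matrix.mulVec, Fin.sum_univ_three, Pi.star_apply,
    Matrix.of_apply, Matrix.cons_val_zero, Matrix.cons_val_one, Matrix.cons_val,
    Matrix.cons_val', starRingEnd_apply]

/-- the form of a Hermitian matrix -/
def hmU (G : M3) : Hm ℝ := mkH (G 0 0).re (G 1 1).re (G 2 2).re (G 0 1) (G 0 2) (G 1 2)

theorem hm_x (a b c : ℝ) (x y w : ℂ) : (mkH a b c x y w).x = x ∧ (mkH a b c x y w).y = y ∧
    (mkH a b c x y w).w = w := by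
  refine ⟨?_, ?_, ?_⟩ <;> exact Complex.re_add_im _

theorem MK_hmU {G : M3} (h : Gᴴ = G) : MK (hmU G) = G := by
  have e : ∀ i j, star (G j i) = G i j := fun i j => congrFun (congrFun h i) j
  have r : ∀ i, ((G i i).re : ℂ) = G i i := by
    intro i
    have := e i i
    exact Complex.conj_eq_iff_re.1 this
  obtain ⟨h1, h2, h3⟩ := hm_x (G 0 0).re (G 1 1).re (G 2 2).re (G 0 1) (G 0 2) (G 1 2)
  ext i j
  fin_cases i <;> fin_cases j
  · exact r 0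
  · exact h1
  · exact h2
  · show star (hmU G).x = _
    unfold hmU
    rw [h1]; exact e 1 0
  · exact r 1
  · exact h3
  · show star (hmU G).y = _
    unfold hmU
    rw [h2]; exact e 2 0
  · show star (hmU G).w = _
    unfold hmU
    rw [h3]; exact e 2 1
  · exact r 2

theorem ev_hmU {G : M3} (h : Gᴴ = G) (v : Fin 3 → ℂ) :
    ev (hmU G) v = (star v ⬝ᵥ G.mulVec v).re := by
  rw [ev_hs, hs_MK, MK_hmU h]

theorem HOK.up {G : M3} {m : F9 M} (h : Gᴴ = G) (hG : FOK OK G m) :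
    HOK OK (hmU G) (KNB.up m) := by
  have e : ∀ i j, star (G j i) = G i j := fun i j => congrFun (congrFun h i) j
  have r : ∀ i, ((G i i).re : ℂ) = G i i := fun i => Complex.conj_eq_iff_re.1 (e i i)
  obtain ⟨h1, h2, h3⟩ := hm_x (G 0 0).re (G 1 1).re (G 2 2).re (G 0 1) (G 0 2) (G 1 2)
  exact ⟨okE hG.a (r 0).symm, okE hG.e (r 1).symm, okE hG.i (r 2).symm,
    okE hG.b h1.symm, okE hG.c h2.symm, okE hG.f h3.symm⟩

theorem her_herm (G : M3) : (G + Gᴴ)ᴴ = G + Gᴴ := by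
  rw [conjTranspose_add, conjTranspose_conjTranspose, add_comm]

theorem HOK.her (hA : ArS A OK HK) {G : M3} {m : F9 M} (hG : FOK OK G m) :
    HOK OK (hmU (G + Gᴴ)) (KNB.her A m) := by
  have h := her_herm G
  have e : ∀ i j, star ((G + Gᴴ) j i) = (G + Gᴴ) i j := fun i j => congrFun (congrFun h i) j
  have r : ∀ i, (((G + Gᴴ) i i).re : ℂ) = (G + Gᴴ) i i :=
    fun i => Complex.conj_eq_iff_re.1 (e i i)
  obtain ⟨h1, h2, h3⟩ := hm_x ((G + Gᴴ) 0 0).re ((G + Gᴴ) 1 1).re ((G + Gᴴ) 2 2).re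
    ((G + Gᴴ) 0 1) ((G + Gᴴ) 0 2) ((G + Gᴴ) 1 2)
  exact ⟨okE (hA.add hG.a (hA.cj hG.a)) (r 0).symm,
    okE (hA.add hG.e (hA.cj hG.e)) (r 1).symm, okE (hA.add hG.i (hA.cj hG.i)) (r 2).symm,
    okE (hA.add hG.b (hA.cj hG.d)) h1.symm, okE (hA.add hG.c (hA.cj hG.g)) h2.symm,
    okE (hA.add hG.f (hA.cj hG.h)) h3.symm⟩

theorem HOK.skw (hA : ArS A OK HK) {G : M3} {m : F9 M} (hG : FOK OK G m) :
    HOK OK (hmU (I • G + (I • G)ᴴ)) (KNB.skw A m) :=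
  HOK.her hA (hG.smu9 hA (okI hA))

/-- the quadratic form of a matrix -/
def qf (G : M3) (v : Fin 3 → ℂ) : ℂ := star v ⬝ᵥ G.mulVec v

theorem qf_ct (G : M3) (v : Fin 3 → ℂ) : qf Gᴴ v = star (qf G v) := by
  unfold qf
  simp only [dotProduct, Matrix.mulVec, Fin.sum_univ_three, Pi.star_apply, conjTranspose_apply,
    star_add, star_mul', star_star]
  ring

theorem ev_her (G : M3) (v : Fin 3 → ℂ) : ev (hmU (G + Gᴴ)) v = 2 * (qf G v).re := by
  rw [ev_hmU (her_herm G)]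
  have : star v ⬝ᵥ (G + Gᴴ).mulVec v = qf G v + star (qf G v) := by
    rw [← qf_ct]
    unfold qf
    rw [add_mulVec, dotProduct_add]
  rw [this, Complex.add_re]
  have : (star (qf G v)).re = (qf G v).re := rfl
  rw [this]; ring

theorem qf_smul (c : ℂ) (G : M3) (v : Fin 3 → ℂ) : qf (c • G) v = c * qf G v := by
  unfold qf
  rw [smul_mulVec, dotProduct_smul, smul_eq_mul]

theorem ev_skw (G : M3) (v : Fin 3 → ℂ) :
    ev (hmU (I • G + (I • G)ᴴ)) v = -(2 * (qf G v).im) := by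
  rw [ev_her, qf_smul]
  simp

theorem qf_FXG (K : Hm ℝ) (F G : M3) (v : Fin 3 → ℂ) :
    qf (Fᴴ * (MK K * G)) v = hs K (F.mulVec v) (G.mulVec v) := by
  unfold qf
  rw [hs_MK, ← mulVec_mulVec, ← mulVec_mulVec, star_mulVec, dotProduct_mulVec]

theorem MK_herm (K : Hm ℝ) : (MK K)ᴴ = MK K := by
  ext i j
  fin_cases i <;> fin_cases j <;> simp [MK]

theorem FXF_herm (K : Hm ℝ) (F : M3) : (Fᴴ * (MK K * F))ᴴ = Fᴴ * (MK K * F) := by
  rw [conjTranspose_mul, conjTranspose_mul, MK_herm, conjTranspose_conjTranspose,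
    Matrix.mul_assoc]

/-- the congruence -/
def cgH (F : M3) (K : Hm ℝ) : Hm ℝ := hmU (Fᴴ * (MK K * F))

theorem ev_cgH (F : M3) (K : Hm ℝ) (v : Fin 3 → ℂ) : ev (cgH F K) v = ev K (F.mulVec v) := by
  unfold cgH
  rw [ev_hmU (FXF_herm K F), ev_hs, ← qf_FXG]
  rfl

theorem HOK.cg (hA : ArS A OK HK) {K : Hm ℝ} {h : H6 M} (hK : HOK OK K h) {F : M3} {m : F9 M}
    (hF : FOK OK F m) : HOK OK (cgH F K) (KNB.cg A m h) :=
  HOK.up (FXF_herm K F) ((hF.ct9 hA).mul9 hA (FOK.XF hA hK hF))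

/-! ### runs -/

theorem FOK.MTm (hA : ArS A OK HK) {G S : ℂ} {g s : M} (hg : OK G g) (hs : OK S s) :
    FOK OK (MT G S) (KNB.MTm A g s) :=
  ⟨ok1 hA, ok1 hA, ok1 hA, hg, ok1 hA, okN hA hs, hA.sub hg (ok1 hA), ok0 hA, ok0 hA⟩

theorem FOK.rDg (hA : ArS A OK HK) {F : M3} {m : F9 M} (hF : FOK OK F m) {o : ℂ} {x : M}
    (ho : OK o x) : FOK OK (F * Dg o) (KNB.rDg A m x) where
  a := okE hF.a (by simp [Dg, Matrix.mul_apply, Fin.sum_univ_three])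
  b := okE (hA.mul hF.b ho) (by simp [Dg, Matrix.mul_apply, Fin.sum_univ_three])
  c := okE (hA.mul hF.c ho) (by simp [Dg, Matrix.mul_apply, Fin.sum_univ_three])
  d := okE hF.d (by simp [Dg, Matrix.mul_apply, Fin.sum_univ_three])
  e := okE (hA.mul hF.e ho) (by simp [Dg, Matrix.mul_apply, Fin.sum_univ_three])
  f := okE (hA.mul hF.f ho) (by simp [Dg, Matrix.mul_apply, Fin.sum_univ_three])
  g := okE hF.g (by simp [Dg, Matrix.mul_apply, Fin.sum_univ_three])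
  h := okE (hA.mul hF.h ho) (by simp [Dg, Matrix.mul_apply, Fin.sum_univ_three])
  i := okE (hA.mul hF.i ho) (by simp [Dg, Matrix.mul_apply, Fin.sum_univ_three])

theorem FOK.lDl (hA : ArS A OK HK) {F : M3} {m : F9 M} (hF : FOK OK F m) {G : ℂ} {x : M}
    (hx : OK (2 * G) x) : FOK OK (Dl G * F) (KNB.lDl A x m) where
  a := okE (hA.mul hx hF.a) (by simp [Dl, Matrix.mul_apply, Fin.sum_univ_three])
  b := okE (hA.mul hx hF.b) (by simp [Dl, Matrix.mul_apply, Fin.sum_univ_three])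
  c := okE (hA.mul hx hF.c) (by simp [Dl, Matrix.mul_apply, Fin.sum_univ_three])
  d := okE hF.d (by simp [Dl, Matrix.mul_apply, Fin.sum_univ_three])
  e := okE hF.e (by simp [Dl, Matrix.mul_apply, Fin.sum_univ_three])
  f := okE hF.f (by simp [Dl, Matrix.mul_apply, Fin.sum_univ_three])
  g := okE hF.g (by simp [Dl, Matrix.mul_apply, Fin.sum_univ_three])
  h := okE hF.h (by simp [Dl, Matrix.mul_apply, Fin.sum_univ_three])
  i := okE hF.i (by simp [Dl, Matrix.mul_apply, Fin.sum_univ_three])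

theorem FOK.one9 (hA : ArS A OK HK) : FOK OK (1 : M3) (KNB.one9 A) :=
  ⟨ok1 hA, ok0 hA, ok0 hA, ok0 hA, ok1 hA, ok0 hA, ok0 hA, ok0 hA, ok1 hA⟩

/-- models of the three states -/
structure StK (OK : ℂ → M → Prop) (G0 G1 G2 S0 S1 S2 : ℂ) (C : St M) : Prop where
  g0 : OK (2 * G0) C.g0
  g1 : OK (2 * G1) C.g1
  g2 : OK (2 * G2) C.g2
  m0 : FOK OK (MT G0 S0) C.m0
  m1 : FOK OK (MT G1 S1) C.m1
  m2 : FOK OK (MT G2 S2) C.m2
  m10 : FOK OK (MT G1 S1 * MT G0 S0) C.m10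
  m21 : FOK OK (MT G2 S2 * MT G1 S1) C.m21
  m210 : FOK OK (MT G2 S2 * (MT G1 S1 * MT G0 S0)) C.m210

theorem StK.mk0 (hA : ArS A OK HK) {G0 G1 G2 S0 S1 S2 : ℂ} {g0 g1 g2 s0 s1 s2 : M}
    (hg0 : OK G0 g0) (hg1 : OK G1 g1) (hg2 : OK G2 g2) (hs0 : OK S0 s0) (hs1 : OK S1 s1)
    (hs2 : OK S2 s2) : StK OK G0 G1 G2 S0 S1 S2 (mkSt0 A g0 g1 g2 s0 s1 s2) := by
  have h0 := FOK.MTm hA hg0 hs0
  have h1 := FOK.MTm hA hg1 hs1
  have h2 := FOK.MTm hA hg2 hs2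
  exact ⟨okD hA hg0, okD hA hg1, okD hA hg2, h0, h1, h2, h1.mul9 hA h0, h2.mul9 hA h1,
    h2.mul9 hA (h1.mul9 hA h0)⟩

theorem StK.mk' (hA : ArS A OK HK) {L0 L1 L2 z S0 S1 S2 : ℂ} {l0 l1 l2 s0 s1 s2 x : M}
    (h0 : OK L0 l0) (h1 : OK L1 l1) (h2 : OK L2 l2) (hs0 : OK S0 s0) (hs1 : OK S1 s1)
    (hs2 : OK S2 s2) (hz : OK z x) :
    StK OK (1 + L0 * z) (1 + L1 * z) (1 + L2 * z) S0 S1 S2 (mkSt A l0 l1 l2 s0 s1 s2 x) :=
  StK.mk0 hA (hA.add (ok1 hA) (hA.mul h0 hz)) (hA.add (ok1 hA) (hA.mul h1 hz))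
    (hA.add (ok1 hA) (hA.mul h2 hz)) hs0 hs1 hs2

/-! ### entry and exit tests -/

/-- a multiplier is positive -/
def LOK (OK : ℂ → M → Prop) (l : LD M) : Prop := ∃ lam : ℝ, 0 < lam ∧ OK (lam : ℂ) l.l

theorem tLe_sound (hA : ArS A OK HK) {K L : Hm ℝ} {F : M3} {P L' : PH} {l : LD M}
    (hP : HK (cgH F K) P) (hL : HK L L') (hl : LOK OK l)
    (h : tLe A l.d P L' l.l = true) : Le L K F := by
  obtain ⟨lam, h0, h1⟩ := hl
  refine ⟨lam, h0, fun v => ?_⟩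
  have h2 := hA.lt (p := [((1 : ℝ), cgH F K), (-lam, L)]) (by
    refine List.Forall₂.cons ⟨okE (ok1 hA) (by simp), hP⟩ (List.Forall₂.cons
      ⟨okE (okN hA h1) (by simp), hL⟩ List.Forall₂.nil)) h v
  simp only [List.map_cons, List.map_nil, List.sum_cons, List.sum_nil, add_zero, one_mul,
    ev_cgH] at h2
  linarith

theorem tSrc_sound (hA : ArS A OK HK) {E : Hm ℝ} {F : M3} {P : PH} (hP : HK (cgH F E) P)
    {l : List (SrcT M)} (h : tSrc A P l = true) {x : SrcT M} (hx : x ∈ l) {K : Hm ℝ}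
    (hK : HOK OK K x.k) (hl : LOK OK x.l) : Le K E F := by
  induction l with
  | nil => cases hx
  | cons y l ih =>
    obtain ⟨h1, h2⟩ := andBt
      (show andB (tLe A y.l.d P (A.pk y.k) y.l.l) (tSrc A P l) = true from h)
    rcases List.mem_cons.1 hx with rfl | hx
    · exact tLe_sound hA hP (hA.pk hK) hl h1
    · exact ih h2 hx

end

end Pool.Agent.Helper57.KNB
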