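import Pool.Agent.Helper57.KNB.KA4
import Pool.Agent.Helper39.CX.KNH6

/-!
Row KFT, A families over any arithmetic, part 5: SOUNDNESS OF THE FAMILY OF ONE WALL.
-/

set_option autoImplicit false
noncomputable section
namespace Pool.Agent.Helper57.KNB

open Pool.Agent.Helper42.CH (powA tau_cond)
open Pool.Agent.Helper86.C75 (Z)
open Pool.Agent.Helper86.CX (Cx andB Hm ev mkH nb csub one1)
open Pool.Agent.Helper39.KNF (N2m N1t T2d FNm_eq FamI WallC wall_kap tau_re_im tauA_eq one_SbP AD)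
open Pool.Agent.Helper6.MONO (FNm SbP kapA tauA nfm_tau)
open Pool.Agent.Helper32.C75 (InHull pt Near cell3 cell3_sound PK HP Tr powA_im)
open Complex ComplexConjugate Matrix

variable {M PH : Type} {A : Ar M PH} {OK : ℂ → M → Prop} {HK : Hm ℝ → PH → Prop}

/-- what the check of the powers gives -/
def PowOK (Ts : List (ℕ × ℕ)) (rho n : ℕ) (Vs : List (List (ℕ × ℕ))) : Prop :=
  ∀ τ : ℂ, Near Ts rho τ → 0 ≤ τ.re → 0 ≤ τ.im → (∀ i, 0 ≤ (powA τ i).im) → ∀ i, n ≤ i →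
    ∃ V ∈ Vs, InHull V (powA τ i)

/-- the check of the powers (helper32) -/
def powC (Ts : List (ℕ × ℕ)) (rho n : ℕ) (Vs : List (List (ℕ × ℕ))) (D : AD) : Bool :=
  cell3 D.ax Vs D.K Ts rho D.H n D.x0 D.x1 D.y0 D.y1 D.T

theorem powC_ok {Ts : List (ℕ × ℕ)} {rho n : ℕ} {Vs : List (List (ℕ × ℕ))} {D : AD}
    (h : powC Ts rho n Vs D = true) : PowOK Ts rho n Vs := by
  intro τ hN h0 h1 h2 i hi
  have h3 := div_nonneg h1 (by norm_num : (0 : ℝ) ≤ 100)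
  exact cell3_sound h hN h1 (by linarith) (fun _ => h2) i hi

theorem sG_ok (hA : ArS A OK HK) {k : ℝ} (hk0 : k ≠ 0) {K : M} (hk : OK (k : ℂ) K)
    (h : A.ok (A.mul K K) = true) : OK (SbP k : ℂ) (sG A (A.mul K K)) := by
  obtain ⟨-, hi⟩ := hA.inv (hA.mul hk hk) h
  refine okE (hA.sub (okD hA (okD hA hi)) (ok1 hA)) ?_
  unfold SbP
  have : (k : ℂ) ≠ 0 := Complex.ofReal_ne_zero.2 hk0
  push_cast
  field_simp
  ring

theorem gG_ok (hA : ArS A OK HK) {l z : ℂ} {L Zm : M} (hl : OK l L) (hz : OK z Zm) :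
    OK (2 * (1 + l * z)) (gG A L Zm) :=
  okD hA (hA.add (ok1 hA) (hA.mul hl hz))

theorem det9G_ok (hA : ArS A OK HK) {F : M3} {m : F9 M} (hF : FOK OK F m) :
    OK F.det (famG2.det9G A m) := det9_sound hA hF

/-- SOUNDNESS OF `famG`: all powers of `tau` -/
theorem famG_sound (hA : ArS A OK HK) {k k' c x0 : ℝ} (hc : WallC k k' c x0) {x z : ℂ}
    (hz : z ≠ 0) (hzx : z + z⁻¹ = x) (hre : x.re = x0) (him : 0 ≤ x.im) {K K' L U Zm : M}
    (hK : OK (k : ℂ) K) (hK' : OK (k' : ℂ) K') (hL : OK ((2 * c / (k * k') : ℝ) : ℂ) L)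
    (hU : OK z⁻¹ U) (hZ : OK z Zm) {I : AI M} {X E : Hm ℝ} {B : M3} (hX : HOK OK X I.x)
    (hE : HOK OK E I.e) (hB : FOK OK B I.b) (hl1 : ∀ l ∈ I.L, LOK OK l)
    (hl2 : ∀ T ∈ I.tl, LOK OK T.l) (h : famG A I L K K' U Zm = true)
    (hp : PowOK I.Ts I.rho I.L.length (I.tl.map fun T => T.V)) {o o' : ℂ}
    (hg : o⁻¹ = 2 * (1 + ((2 * c / (k * k') : ℝ) : ℂ) * z⁻¹))
    (hg' : o'⁻¹ = 2 * (1 + ((2 * c / (k * k') : ℝ) : ℂ) * z)) (ho : o ≠ 0) (ho' : o' ≠ 0)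
    (i : ℕ) :
    FamI X E (SbP k) (SbP k') o⁻¹ o'⁻¹ o (powA (tauA k k' o o') i) := by
  have p1 := ok1 hA
  have p2 := ok2 hA
  obtain ⟨b1, h⟩ := andBt h
  obtain ⟨b2, h⟩ := andBt h
  have hS := sG_ok hA hc.hk.ne' hK b1
  have hS' := sG_ok hA hc.hk'.ne' hK' b2
  have hG := gG_ok hA hL hU
  have hG' := gG_ok hA hL hZ
  rw [← hg] at hG
  rw [← hg'] at hG'
  obtain ⟨b3, h⟩ := andBt h
  obtain ⟨b4, h⟩ := andBt h
  have hO := (hA.inv hG b3).2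
  rw [inv_inv] at hO
  have hss := hA.mul (hA.add p1 hS) (hA.add p1 hS')
  have hEE := hA.mul (hA.add hG p2) (hA.add hG' p2)
  obtain ⟨b5, h⟩ := andBt h
  obtain ⟨hEne, hEi⟩ := hA.inv hEE b5
  have hdet := (hA.inv (det9G_ok hA hB) b4).1
  have hC := FgK.mk' hA hS hS' hG hG' hO hss
  have hH := hC.HR hA hX hE hB
  have hcc := hA.mul (okD hA (okD hA hss)) hEi
  have hs0 : (1 + (SbP k : ℂ)) ≠ 0 := by
    rw [one_SbP hc.hk.ne']
    have := hc.hk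
    exact Complex.ofReal_ne_zero.2 (by positivity)
  have hs0' : (1 + (SbP k' : ℂ)) ≠ 0 := by
    rw [one_SbP hc.hk'.ne']
    have := hc.hk'
    exact Complex.ofReal_ne_zero.2 (by positivity)
  have hτ := nfm_tau ho ho' hs0 hs0' (left_ne_zero_of_mul hEne) (right_ne_zero_of_mul hEne)
  have hτ2 : tauA k k' o o' = 1 - 2 * (2 * ((1 + (SbP k : ℂ)) * (1 + (SbP k' : ℂ)))) *
      ((o⁻¹ + 2) * (o'⁻¹ + 2))⁻¹ := by
    rw [hτ]
    ring
  obtain ⟨k1, k2⟩ := wall_kap hc hz hzx hre him ho ho' hg hg'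
  obtain ⟨t1, t2, t3⟩ := tau_re_im k1 k2
  have t4 := tau_cond k1
  rw [← tauA_eq] at t1 t2 t3 t4
  obtain ⟨b6, h⟩ := andBt h
  obtain ⟨b7, b8⟩ := andBt h
  have hN := near_gen hA hcc b6
  rw [← hτ2] at hN
  rcases lt_or_ge i I.L.length with hi | hi
  · have hq := tQA_sound hA hC hH hdet hcc I.L hl1 (m := 0) p1 b7 i hi
    rw [← hτ2, zero_add] at hq
    exact hq
  · obtain ⟨V, hV, hV2⟩ := hp _ hN t1 t2 (fun i => powA_im t2 t3 t4 i) i hi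
    obtain ⟨T, hT, rfl⟩ := List.mem_map.1 hV
    exact tPA_sound hA hC hH hdet (hl2 T hT) (tPAs_mem b8 hT) hV2

end Pool.Agent.Helper57.KNB
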