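import Pool.Agent.Helper57.KNB.KN12

/-!
Row KNB, part 13: soundness of the test of one orientation.
-/

set_option autoImplicit false
noncomputable section
namespace Pool.Agent.Helper57.KNB

open Pool.Agent.Helper6.MONO (sD SbP Nm Wm WBn fBW TB trB esB tauB omS kk zS TBs trBs esBs tauBs lamS
  RMb NRB_RMb_two zS_om zS_nx2 LNI_kk LNI_kk_symm)
open Pool.Agent.Helper90.C75 (e2 prS prQ prN sqR)
open Pool.Agent.Helper42.CH (powA)
open Pool.Agent.Helper21.SUP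
open Pool.Agent.Helper86.C75 (Z)
open Pool.Agent.Helper86.CX (Cx andB Hm ev mkH)
open Pool.Agent.Helper90.KMO (zv cz UU UU_pos)
open Pool.Agent.Helper32.C75 (InHull pt)
open Complex ComplexConjugate Matrix

variable {M PH : Type} {A : Ar M PH} {OK : ℂ → M → Prop} {HK : Hm ℝ → PH → Prop} {p q r : ℕ} {w : ℂ}

theorem gS_eq {s : GS} (h : omS p q r s w ≠ 0) :
    gS p q r s w = 1 + (lamS p q r s : ℝ) * zS s w := by
  have h1 := zS_om h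
  unfold gS
  refine inv_eq_of_mul_eq_one_right ?_
  linear_combination h1

theorem hull_re {V : List (ℕ × ℕ)} {a : ℂ} (h : InHull V a) : 0 ≤ a.re ∧ 0 ≤ a.im := by
  obtain ⟨wt, w0, -, rfl⟩ := h
  rw [Complex.re_sum, Complex.im_sum]
  constructor <;> refine Finset.sum_nonneg fun i _ => ?_
  · rw [Complex.re_ofReal_mul, pt_eq]
    exact mul_nonneg (w0 i) (by positivity)
  · rw [Complex.im_ofReal_mul, pt_eq]
    exact mul_nonneg (w0 i) (by positivity)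

/-- what is needed of the tail -/
def TailOK (τ g : ℂ) (m0 : ℕ) (tl : List (TP M)) (r0 : ℕ) : Prop :=
  ∀ m, m0 ≤ m → (∃ T ∈ tl, InP T (powA τ m)) ∧ ‖sqR g τ m‖ * UU ≤ r0

theorem InP.re {T : TP M} {a : ℂ} (h : InP T a) : 0 ≤ a.re := by
  have h1 := (hull_re h).1
  unfold sgz at h1
  split_ifs at h1
  · exact h1
  · rwa [Complex.conj_re] at h1

/-- models of the inputs -/
structure OIK (OK : ℂ → M → Prop) (p q r : ℕ) (s0 : GS) (w : ℂ) (E X : Hm ℝ) (B : M3)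
    (Kt : GS → Hm ℝ) (I : OI M) : Prop where
  l0 : OK ((lamS p q r s0 : ℝ) : ℂ) I.l0
  l1 : OK ((lamS p q r (nx s0 2) : ℝ) : ℂ) I.l1
  l2 : OK ((lamS p q r (nx (nx s0 2) 2) : ℝ) : ℂ) I.l2
  sb0 : OK (sS p q r s0) I.s0
  sb1 : OK (sS p q r (nx s0 2)) I.s1
  sb2 : OK (sS p q r (nx (nx s0 2) 2)) I.s2
  z : OK (zS s0 w) I.z
  zi : OK (zS s0 w)⁻¹ I.zi
  K : OK ((kk p q r s0.1 s0.2.1 * kk p q r s0.2.1 s0.2.2 * kk p q r s0.1 s0.2.2 : ℝ) : ℂ) I.K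
  L : OK ((kk p q r s0.1 s0.2.1 ^ 2 + kk p q r s0.2.1 s0.2.2 ^ 2 + kk p q r s0.1 s0.2.2 ^ 2 - 3 :
    ℝ) : ℂ) I.L
  v : ∃ v, OK v I.v
  k0 : HOK OK (Kt s0) I.k0
  k1 : HOK OK (Kt (nx s0 2)) I.k1
  k2 : HOK OK (Kt (nx (nx s0 2) 2)) I.k2
  e : HOK OK E I.e
  x : HOK OK X I.x
  b : FOK OK B I.b
  le0 : LOK OK I.le0
  le1 : LOK OK I.le1
  le2 : LOK OK I.le2
  lx0 : LOK OK I.lx0
  lx1 : LOK OK I.lx1
  lx2 : LOK OK I.lx2
  lq : ∀ l ∈ I.lq, LOK OK l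
  tl : ∀ T ∈ I.tl, LOK OK T.l

section

variable {s0 : GS} {E X : Hm ℝ} {B : M3} {Kt : GS → Hm ℝ} {I : OI M}

theorem OIK.tr (hA : ArS A OK HK) (h : OIK OK p q r s0 w E X B Kt I) :
    OK (trBs p q r s0 w) (trM A I) := by
  refine okE (hA.add h.L (hA.mul h.K h.zi)) ?_
  unfold trBs trB
  rw [div_eq_mul_inv]

theorem OIK.es (hA : ArS A OK HK) (h : OIK OK p q r s0 w E X B Kt I) :
    OK (esBs p q r s0 w) (esM A I) := by
  refine okE (okN hA (hA.add h.L (hA.mul h.K h.z))) ?_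
  unfold esBs esB
  rfl

theorem OIK.st (hA : ArS A OK HK) (h : OIK OK p q r s0 w E X B Kt I) (hs : DG s0)
    (o0 : omS p q r s0 w ≠ 0) (o1 : omS p q r (nx s0 2) w ≠ 0)
    (o2 : omS p q r (nx (nx s0 2) 2) w ≠ 0) :
    StK OK (gS p q r s0 w) (gS p q r (nx s0 2) w) (gS p q r (nx (nx s0 2) 2) w) (sS p q r s0)
      (sS p q r (nx s0 2)) (sS p q r (nx (nx s0 2) 2))
      (mkSt A I.l0 I.l1 I.l2 I.s0 I.s1 I.s2 I.z) := by
  rw [gS_eq o0, gS_eq o1, gS_eq o2, zS_nx2 (DG_nx _ 2 hs), zS_nx2 hs]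
  exact StK.mk' hA h.l0 h.l1 h.l2 h.sb0 h.sb1 h.sb2 h.z

theorem OIK.wt (hA : ArS A OK HK) (h : OIK OK p q r s0 w E X B Kt I) {C : St M}
    (hC : StK OK (gS p q r s0 w) (gS p q r (nx s0 2) w) (gS p q r (nx (nx s0 2) 2) w)
      (sS p q r s0) (sS p q r (nx s0 2)) (sS p q r (nx (nx s0 2) 2)) C) :
    FOK OK (WTs p q r s0 w) (wM A I C) := by
  have h1 := FOK.smu9 hA (hA.mul (hA.mul h.K (oke hA)) h.zi) hC.m210
  unfold WTs WT
  have e : ((kk p q r s0.1 s0.2.1 * kk p q r s0.2.1 s0.2.2 * kk p q r s0.1 s0.2.2 : ℝ) : ℂ) *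
      (1 / 8) * (zS s0 w)⁻¹ = (kk p q r s0.1 s0.2.1 * kk p q r s0.2.1 s0.2.2 *
      kk p q r s0.1 s0.2.2 : ℂ) / (8 * zS s0 w) := by
    push_cast
    rw [div_eq_mul_inv _ (8 * zS s0 w), mul_inv]
    ring
  rw [e] at h1
  exact h1

/-- the three targets -/
theorem tTgt_sound (hA : ArS A OK HK) {C : St M}
    (hC : StK OK (gS p q r s0 w) (gS p q r (nx s0 2) w) (gS p q r (nx (nx s0 2) 2) w)
      (sS p q r s0) (sS p q r (nx s0 2)) (sS p q r (nx (nx s0 2) 2)) C)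
    {k0 k1 k2 : H6 M} (h0 : HOK OK (Kt s0) k0) (h1 : HOK OK (Kt (nx s0 2)) k1)
    (h2 : HOK OK (Kt (nx (nx s0 2) 2)) k2) {e : PH} (he : HK E e) {a b c : LD M}
    (ha : LOK OK a) (hb : LOK OK b) (hc : LOK OK c)
    (h : tTgt A (A.pk (cg A (lDl A C.g0 (one9 A)) k0)) (A.pk (cg A (lDl A C.g1 C.m0) k1))
      (A.pk (cg A (lDl A C.g2 C.m10) k2)) e a b c = true) : BTgt p q r s0 w E Kt := by
  obtain ⟨t0, t⟩ := andBt h
  obtain ⟨t1, t2⟩ := andBt t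
  refine ⟨?_, tLe_sound hA (hA.pk (h1.cg hA (hC.m0.lDl hA hC.g1))) he hb t1,
    tLe_sound hA (hA.pk (h2.cg hA (hC.m10.lDl hA hC.g2))) he hc t2⟩
  have := tLe_sound hA (hA.pk (h0.cg hA ((FOK.one9 hA).lDl hA hC.g0))) he ha t0
  rw [Matrix.mul_one] at this
  exact this

/-- what the test of one orientation gives -/
structure OTh (OK : ℂ → M → Prop) (p q r : ℕ) (w : ℂ) (s0 : GS) (E X : Hm ℝ) (Kt : GS → Hm ℝ)
    (I : OI M) (ν : ℂ) : Prop where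
  bpt : BPt p q r s0 w ν
  hE : BTgt p q r s0 w E Kt
  hX : BTgt p q r s0 w X Kt
  fam : ∀ m : ℕ, Le E X (TF (WTs p q r s0 w) (trBs p q r s0 w) (esBs p q r s0 w) ν
      (powA (tauBs p q r s0 w ν) m)
      (sqR (2 * ν / (trBs p q r s0 w - ν)) (tauBs p q r s0 w ν) m))
  i0 : ∀ x ∈ I.q0, ∀ K, HOK OK K x.k → LOK OK x.l → Le K E (Dg (2 * gS p q r s0 w))
  i2 : ∀ x ∈ I.q2, ∀ K, HOK OK K x.k → LOK OK x.l → Le K E
    (MT (gS p q r (nx (nx s0 2) 2) w) (sS p q r (nx (nx s0 2) 2)) *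
      Dg (2 * gS p q r (nx (nx s0 2) 2) w))
  i1 : ∀ x ∈ I.q1, ∀ K, HOK OK K x.k → LOK OK x.l → Le K E
    (MT (gS p q r (nx (nx s0 2) 2) w) (sS p q r (nx (nx s0 2) 2)) *
      (MT (gS p q r (nx s0 2) w) (sS p q r (nx s0 2)) * Dg (2 * gS p q r (nx s0 2) w)))

/-- SOUNDNESS OF ONE ORIENTATION -/
theorem chO_sound (hA : ArS A OK HK) (hp : 3 ≤ p) (hq : 3 ≤ q) (hr : 3 ≤ r) (hs : DG s0)
    (o0 : omS p q r s0 w ≠ 0) (o1 : omS p q r (nx s0 2) w ≠ 0)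
    (o2 : omS p q r (nx (nx s0 2) 2) w ≠ 0) (hz : zS s0 w ≠ 0)
    (hI : OIK OK p q r s0 w E X B Kt I) {Tt : Sc M → M → M → Bool}
    (hTl : ∀ (ν : ℂ) (S : Sc M) (a b : M),
      ν ^ 3 - trBs p q r s0 w * ν ^ 2 + esBs p q r s0 w * ν + 1 = 0 →
      trBs p q r s0 w ≠ ν → ScK OK ν (trBs p q r s0 w) (esBs p q r s0 w) S →
      OK (powA (tauBs p q r s0 w ν) I.lq.length) a →
      OK (sqR (2 * ν / (trBs p q r s0 w - ν)) (tauBs p q r s0 w ν) I.lq.length) b →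
      Tt S a b = true →
      TailOK (tauBs p q r s0 w ν) (2 * ν / (trBs p q r s0 w - ν)) I.lq.length I.tl I.r0)
    (h : chO A I Tt = true) : ∃ ν, OTh OK p q r w s0 E X Kt I ν := by
  have hC := hI.st hA hs o0 o1 o2
  unfold chO at h
  generalize mkSt A I.l0 I.l1 I.l2 I.s0 I.s1 I.s2 I.z = C at *
  obtain ⟨hdet, h⟩ := andBt h
  obtain ⟨hout, h⟩ := andBt h
  obtain ⟨hin, h⟩ := andBt h
  obtain ⟨hv1, h⟩ := andBt h
  obtain ⟨hout1, hout2⟩ := andBt hout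
  have hB : B.det ≠ 0 := (hA.inv (det9_sound hA hI.b) hdet).1
  have hE := tTgt_sound hA hC hI.k0 hI.k1 hI.k2 (hA.pk hI.e) hI.le0 hI.le1 hI.le2 hout1
  have hX := tTgt_sound hA hC hI.k0 hI.k1 hI.k2 (hA.pk hI.x) hI.lx0 hI.lx1 hI.lx2 hout2
  obtain ⟨hi0, hin⟩ := andBt hin
  obtain ⟨hi2, hi1⟩ := andBt hin
  have j0 : ∀ x ∈ I.q0, ∀ K, HOK OK K x.k → LOK OK x.l → Le K E (Dg (2 * gS p q r s0 w)) := by
    intro x hx K hK hl
    have := tSrc_sound hA (hA.pk (hI.e.cg hA ((FOK.one9 hA).rDg hA hC.g0))) hi0 hx hK hl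
    rw [Matrix.one_mul] at this
    exact this
  have j2 := fun x hx K hK hl =>
    tSrc_sound hA (hA.pk (hI.e.cg hA (hC.m2.rDg hA hC.g2))) hi2 (x := x) hx (K := K) hK hl
  have j1 : ∀ x ∈ I.q1, ∀ K, HOK OK K x.k → LOK OK x.l → Le K E
      (MT (gS p q r (nx (nx s0 2) 2) w) (sS p q r (nx (nx s0 2) 2)) *
      (MT (gS p q r (nx s0 2) w) (sS p q r (nx s0 2)) * Dg (2 * gS p q r (nx s0 2) w))) := by
    intro x hx K hK hl
    have := tSrc_sound hA (hA.pk (hI.e.cg hA (hC.m21.rDg hA hC.g1))) hi1 hx hK hl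
    rw [Matrix.mul_assoc] at this
    exact this
  -- the root
  obtain ⟨v0, hv0⟩ := hI.v
  have hT := hI.tr hA
  have hEs := hI.es hA
  obtain ⟨ν, hν, hνM⟩ := nuM_sound hA hv0 hT hEs hv1
  have hsc : scOK A (nuM A I.v (trM A I) (esM A I)) (trM A I) (esM A I) = true := (andBt h).1
  obtain ⟨hsp, hD, hS⟩ := ScK.mk' hA hνM hT hEs hsc
  have h := (andBt h).2
  generalize mkSc A (nuM A I.v (trM A I) (esM A I)) (trM A I) (esM A I) = S at *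
  have hW := hI.wt hA hC
  have hch := WTs_ChW hp hq hr hs o0 o1 o2 hz
  have hF := FmK.mk' hA hch hν hsp hD hS hW
  generalize mkFm A S (wM A I C) = F at *
  have h1 : chO2 A I Tt S F.p (bsF A F I.b) = true := h
  have hFB := hF.bs hA hI.b
  have hP := hF.p
  generalize bsF A F I.b = FB at *
  have h2 : chO3 A I Tt S F.p FB (mkHR A I.x I.e FB I.b) = true := h1
  have hH := HRK.mk' hA hI.x hI.e hFB hI.b
  generalize mkHR A I.x I.e FB I.b = H at *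
  obtain ⟨hq1, ht1⟩ := andBt h2
  set W := WTs p q r s0 w with hWd
  set T := trBs p q r s0 w with hTd
  set Es := esBs p q r s0 w with hEd
  set τ := tauBs p q r s0 w ν with hτ
  set g := 2 * ν / (T - ν) with hg
  have hcv : 4 * (ν ^ 2 - T * ν + Es) / (T - ν) ^ 2 = 1 - τ := by
    rw [hτ]; unfold tauBs; ring
  have hcOK : OK (1 - τ) S.c := okE hS.c hcv
  obtain ⟨fam1, a'', r'', ha'', hr'', hTt⟩ := tQ_sound hA hH hB hcOK hS.g I.lq hI.lq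
    (a := fun m => powA τ m) (r := fun m => sqR g τ m) (fun m hm => powA_step τ m hm)
    (fun m _ => sqR_step g τ m) (ok1 hA) hS.g hq1
  have htail := hTl ν S a'' r'' hν hsp hS ha'' hr'' hTt
  -- the tail
  obtain ⟨hpk, htl⟩ := andBt ht1
  have hpiv := piv_ok hP I.pk
  obtain ⟨hpk0, hpki⟩ := hA.inv hpiv hpk
  have hT' := TlD.mk' (X := X) (E := E) (N := prS W ν (T - ν) (ν ^ 2 - T * ν + Es))
    (Q := prQ W ν (T - ν) (ν ^ 2 - T * ν + Es)) (B := B) (hch.rank hν) I.pk hpk0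
  have hR := BRK.mk' hA hI.x hP hFB I.pk
  have hrr : ∀ m, 1 + powA τ m ≠ 0 := by
    intro m
    rcases lt_or_ge m I.lq.length with hm | hm
    · exact (fam1 m hm).2
    · obtain ⟨⟨T1, -, h3⟩, -⟩ := htail m hm
      intro h0
      have := congrArg Complex.re h0
      rw [Complex.add_re, Complex.one_re, Complex.zero_re] at this
      linarith [h3.re]
  refine ⟨ν, ⟨⟨hs, o0, o1, o2, hz, hν, hsp, hD, hrr⟩, hE, hX, ?_, j0, j2, j1⟩⟩
  intro m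
  rcases lt_or_ge m I.lq.length with hm | hm
  · exact (fam1 m hm).1
  · obtain ⟨h3, h4⟩ := htail m hm
    exact tPL_sound hA hH hR hT' hB (hA.nb hpki) hI.tl htl h3 h4

/-- THE POWERS OF THE RUN OF TWO LETTERS from the three states of the orientation -/
theorem OTh.pow (hp : 3 ≤ p) (hq : 3 ≤ q) (hr : 3 ≤ r) {ν : ℂ}
    (h : OTh OK p q r w s0 E X Kt I ν) :
    (∀ x ∈ I.q0, ∀ K, HOK OK K x.k → LOK OK x.l → ∀ k : ℕ, ∀ v ∈ Pos K,
      (gM (RMb p q r) s0 (List.replicate (k + 1) 2) w).mulVec v ∈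
        Pos (Kt (sD s0 (List.replicate (k + 1) 2)))) ∧
    (∀ x ∈ I.q2, ∀ K, HOK OK K x.k → LOK OK x.l → ∀ k : ℕ, ∀ v ∈ Pos K,
      (gM (RMb p q r) (nx (nx s0 2) 2) (List.replicate (k + 1) 2) w).mulVec v ∈
        Pos (Kt (sD (nx (nx s0 2) 2) (List.replicate (k + 1) 2)))) ∧
    (∀ x ∈ I.q1, ∀ K, HOK OK K x.k → LOK OK x.l →
      (∀ v ∈ Pos K, (RMb p q r (nx s0 2) 2 w).mulVec v ∈ Pos (Kt (nx (nx s0 2) 2))) →
      ∀ k : ℕ, ∀ v ∈ Pos K,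
      (gM (RMb p q r) (nx s0 2) (List.replicate (k + 1) 2) w).mulVec v ∈
        Pos (Kt (sD (nx s0 2) (List.replicate (k + 1) 2)))) := by
  refine ⟨fun x hx K hK hl k => ?_, fun x hx K hK hl k => ?_, fun x hx K hK hl hd k => ?_⟩
  · exact b_src0 hp hq hr h.bpt h.hE h.hX h.fam (h.i0 x hx K hK hl) k
  · exact b_src1 hp hq hr h.bpt h.hE h.hX h.fam (h.i2 x hx K hK hl) k
  · exact b_src2 hp hq hr h.bpt h.hE h.hX h.fam (h.i1 x hx K hK hl) hd k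

end

end Pool.Agent.Helper57.KNB
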