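import Pool.Agent.Helper57.KNB.KT1
import Pool.Agent.Helper57.KNB.KN13
import Pool.Agent.Helper39.CX.KNH2
import Pool.Agent.Helper90.CX.CT2

/-!
Row KFT, part 2: the arithmetic of KerT is sound.
-/

set_option autoImplicit false
set_option maxRecDepth 4000
noncomputable section
namespace Pool.Agent.Helper57.KNB

open Pool.Agent.Helper86.C75 (Z)
open Pool.Agent.Helper86.CX (Cx andB E3 one1 Hm mkH ev)
open Pool.Agent.Helper86.CT (N3 Alg un fa fc fb)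
open Pool.Agent.Helper90.C75
open Pool.Agent.Helper90.KMO
open Pool.Agent.Helper90.KMT (nlf c3_un lf0 AOK TOK VT PT DL vt_mk)
open Pool.Agent.Helper39.KNF (tn1 wr tn1_ev rf two_re_w wr_ge one_re avg_lin cf Cb)
open Complex ComplexConjugate

variable {α : Type} {D : ℕ} {lf : α → Vt D → ℂ} {A : Alg α} {W : Lw α} {t : ℕ → ℝ}

/-! ### laws of the leafwise operations -/

/-- laws -/
structure LwOK (D : ℕ) (lf : α → Vt D → ℂ) (W : Lw α) : Prop where
  re : ∀ x v, lf (W.re x) v = ((lf x v).re : ℂ)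
  im : ∀ x v, lf (W.im x) v = ((lf x v).im : ℂ)
  lv1 : ∀ x l, ∀ c ∈ l, c ∈ W.lv x l
  lv2 : ∀ x l v, ∃ c ∈ W.lv x l, lf x v = cz c
  ps : ∀ {R : E3} {a b c x y w : α}, W.ps R a b c x y w = true → ∀ v, ∃ p q r s u o : Cx,
    lf a v = cz p ∧ lf b v = cz q ∧ lf c v = cz r ∧ lf x v = cz s ∧ lf y v = cz u ∧ lf w v = cz o ∧
    tn1 p q r s u o R = true

theorem Lw0_re (x : Cx) (v : Vt 0) : lf0 (Lw0.re x) v = ((lf0 x v).re : ℂ) := by
  show cz ⟨x.re, zi0⟩ = (((cz x).re : ℝ) : ℂ)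
  apply Complex.ext <;> simp [cz, zi0, zv]

theorem Lw0_im (x : Cx) (v : Vt 0) : lf0 (Lw0.im x) v = ((lf0 x v).im : ℂ) := by
  show cz ⟨x.im, zi0⟩ = (((cz x).im : ℝ) : ℂ)
  apply Complex.ext <;> simp [cz, zi0, zv]

theorem Lw0_lv1 (x : Cx) (l : List Cx) : ∀ c ∈ l, c ∈ Lw0.lv x l :=
  fun _ h => List.mem_cons_of_mem x h

theorem Lw0_lv2 (x : Cx) (l : List Cx) (v : Vt 0) : ∃ c ∈ Lw0.lv x l, lf0 x v = cz c :=
  ⟨x, List.mem_cons_self, rfl⟩

theorem Lw0_ps {R : E3} {a b c x y w : Cx} (h : Lw0.ps R a b c x y w = true) (v : Vt 0) :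
    ∃ p q r s u o : Cx,
    lf0 a v = cz p ∧ lf0 b v = cz q ∧ lf0 c v = cz r ∧ lf0 x v = cz s ∧ lf0 y v = cz u ∧
    lf0 w v = cz o ∧ tn1 p q r s u o R = true := by
  unfold Lw0 at h
  simp only at h
  exact ⟨a, b, c, x, y, w, rfl, rfl, rfl, rfl, rfl, rfl, h⟩

theorem Lw0_ok : LwOK 0 lf0 Lw0 := ⟨Lw0_re, Lw0_im, Lw0_lv1, Lw0_lv2, Lw0_ps⟩

theorem LwOK.nx (h : LwOK D lf W) : LwOK (D + 1) (nlf lf) (nxW W) := by
  refine ⟨fun x v => ?_, fun x v => ?_, fun x l c hc => ?_, fun x l v => ?_, fun {R a b c x y w} hp v => ?_⟩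
  · show lf (Pool.Agent.Helper90.KMT.c3 (un W.re x) v.2) v.1 = _
    rw [c3_un]
    exact h.re _ _
  · show lf (Pool.Agent.Helper90.KMT.c3 (un W.im x) v.2) v.1 = _
    rw [c3_un]
    exact h.im _ _
  · cases x with
    | k x => exact h.lv1 x l c hc
    | q a b d => exact h.lv1 _ _ c (h.lv1 _ _ c (h.lv1 _ _ c hc))
  · cases x with
    | k x => exact h.lv2 x l v.1
    | q a b d =>
      obtain ⟨u, i⟩ := v
      fin_cases i
      · exact h.lv2 a (W.lv b (W.lv d l)) u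
      · obtain ⟨c, hc, e⟩ := h.lv2 b (W.lv d l) u
        exact ⟨c, h.lv1 a _ c hc, e⟩
      · obtain ⟨c, hc, e⟩ := h.lv2 d l u
        exact ⟨c, h.lv1 a _ c (h.lv1 b _ c hc), e⟩
  · obtain ⟨h1, h2⟩ := andBt hp
    obtain ⟨h2, h3⟩ := andBt h2
    obtain ⟨u, i⟩ := v
    have k0 : ∀ z : N3 α, nlf lf z (u, 0) = lf (fa z) u := fun z => by cases z <;> rfl
    have k1 : ∀ z : N3 α, nlf lf z (u, 1) = lf (fc z) u := fun z => by cases z <;> rfl
    have k2 : ∀ z : N3 α, nlf lf z (u, 2) = lf (fb z) u := fun z => by cases z <;> rfl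
    fin_cases i
    · simp only [Fin.zero_eta, k0]
      exact h.ps h1 u
    · simp only [Fin.mk_one, k1]
      exact h.ps h2 u
    · simp only [Fin.reduceFinMk, k2]
      exact h.ps h3 u

theorem Lw1_ok : LwOK 1 (nlf lf0) Lw1 := Lw0_ok.nx
theorem Lw2_ok : LwOK 2 (nlf (nlf lf0)) Lw2 := Lw1_ok.nx
theorem Lw3_ok : LwOK 3 (nlf (nlf (nlf lf0))) Lw3 := Lw2_ok.nx
theorem Lw4_ok : LwOK 4 (nlf (nlf (nlf (nlf lf0)))) Lw4 := Lw3_ok.nx

/-! ### real and imaginary part, constants, widening, bounds -/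

theorem tavg_re {V : Type*} [Fintype V] (w : V → ℝ) (F : V → ℂ) :
    avg w (fun v => ((F v).re : ℂ)) = ((avg w F).re : ℂ) := by
  unfold avg
  rw [Complex.re_sum]
  push_cast
  refine Finset.sum_congr rfl fun v _ => ?_
  rw [Complex.re_ofReal_mul]
  push_cast
  rfl

theorem tavg_im {V : Type*} [Fintype V] (w : V → ℝ) (F : V → ℂ) :
    avg w (fun v => ((F v).im : ℂ)) = ((avg w F).im : ℂ) := by
  unfold avg
  rw [Complex.im_sum]
  push_cast
  refine Finset.sum_congr rfl fun v _ => ?_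
  rw [Complex.im_ofReal_mul]
  push_cast
  rfl

theorem tavg_re' {V : Type*} [Fintype V] (w : V → ℝ) (F : V → ℂ) :
    (avg w F).re = ∑ v, w v * (F v).re := by
  unfold avg
  rw [Complex.re_sum]
  refine Finset.sum_congr rfl fun v _ => ?_
  rw [Complex.re_ofReal_mul]

theorem TOK.reT (hA : AOK D lf A) (hW : LwOK D lf W) {f : ℂ} {M : Pool.Agent.Helper86.CT.Mo α}
    (h : TOK D lf t f M) : TOK D lf t (f.re : ℂ) (KNB.reT A W M) := by
  refine ⟨vt_mk hA _ _, ?_⟩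
  show ‖(UU : ℂ) * (f.re : ℂ) - avg (wtT D t) (lf (W.re M.v))‖ ≤ M.r
  have e : lf (W.re M.v) = fun v => ((lf M.v v).re : ℂ) := funext (hW.re _)
  rw [e, tavg_re]
  have e2 : (UU : ℂ) * (f.re : ℂ) - ((avg (wtT D t) (lf M.v)).re : ℂ) =
      ((((UU : ℂ) * f - avg (wtT D t) (lf M.v)).re : ℝ) : ℂ) := by
    rw [Complex.sub_re, Complex.re_ofReal_mul]
    push_cast; rfl
  rw [e2, Complex.norm_real]
  exact (abs_re_le_norm _).trans h.mod

theorem TOK.imT (hA : AOK D lf A) (hW : LwOK D lf W) {f : ℂ} {M : Pool.Agent.Helper86.CT.Mo α}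
    (h : TOK D lf t f M) : TOK D lf t (f.im : ℂ) (KNB.imT A W M) := by
  refine ⟨vt_mk hA _ _, ?_⟩
  show ‖(UU : ℂ) * (f.im : ℂ) - avg (wtT D t) (lf (W.im M.v))‖ ≤ M.r
  have e : lf (W.im M.v) = fun v => ((lf M.v v).im : ℂ) := funext (hW.im _)
  rw [e, tavg_im]
  have e2 : (UU : ℂ) * (f.im : ℂ) - ((avg (wtT D t) (lf M.v)).im : ℂ) =
      ((((UU : ℂ) * f - avg (wtT D t) (lf M.v)).im : ℝ) : ℂ) := by
    rw [Complex.sub_im, Complex.im_ofReal_mul]
    push_cast; rfl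
  rw [e2, Complex.norm_real]
  exact (abs_im_le_norm _).trans h.mod

theorem TOK.csT (hA : AOK D lf A) (hP : PT D t) (c : Cx) :
    TOK D lf t (cz c / UU) (KNB.csT A c) := by
  refine ⟨vt_mk hA _ _, ?_⟩
  show ‖(UU : ℂ) * (cz c / UU) - avg (wtT D t) (lf (A.cs c))‖ ≤ ((nat_lit 0 : ℕ) : ℝ)
  have e : lf (A.cs c) = fun _ => cz c := funext (hA.cst c)
  have e2 : avg (wtT D t) (fun _ => cz c) = cz c := by
    unfold avg
    rw [← Finset.sum_mul]
    have := hP.w.sum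
    rw [← Complex.ofReal_sum, this]
    simp
  have hU : (UU : ℂ) ≠ 0 := UUc_ne
  rw [e, e2, mul_div_cancel₀ _ hU, sub_self, norm_zero]
  exact Nat.cast_nonneg _

theorem TOK.wdT {f g : ℂ} {M : Pool.Agent.Helper86.CT.Mo α} {e : ℕ} (h : TOK D lf t f M)
    (hg : ‖g - f‖ * UU ≤ e) : TOK D lf t g (KNB.wdT e M) := by
  refine ⟨⟨h.val.bd, h.val.len, h.val.dl⟩, ?_⟩
  show ‖(UU : ℂ) * g - avg (wtT D t) (lf M.v)‖ ≤ ((Nat.add M.r e : ℕ) : ℝ)
  rw [nadd]
  have e2 : (UU : ℂ) * g - avg (wtT D t) (lf M.v) =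
      ((UU : ℂ) * f - avg (wtT D t) (lf M.v)) + (UU : ℂ) * (g - f) := by ring
  rw [e2]
  refine (norm_add_le _ _).trans (add_le_add h.mod ?_)
  rw [norm_mul, norm_UU, mul_comm]
  exact hg

theorem TOK.nbT (hP : PT D t) {f : ℂ} {M : Pool.Agent.Helper86.CT.Mo α} (h : TOK D lf t f M) :
    ‖f‖ * UU ≤ KNB.nbT M := by
  have hb := norm_avg_le hP.w h.val.bd
  have hm := h.mod
  unfold Pool.Agent.Helper90.C75.Mod at hm
  have e : ‖f‖ * UU = ‖(UU : ℂ) * f‖ := by rw [norm_mul, norm_UU, mul_comm]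
  rw [e]
  have e2 : (UU : ℂ) * f = ((UU : ℂ) * f - avg (wtT D t) (lf M.v)) + avg (wtT D t) (lf M.v) := by
    ring
  have e3 : ((KNB.nbT M : ℕ) : ℝ) = M.B + M.r := by
    unfold KNB.nbT
    rw [nadd]
  rw [e2, e3]
  refine (norm_add_le _ _).trans ?_
  linarith

theorem TOK.ctl (hW : LwOK D lf W) (hP : PT D t) {f : ℂ} {M : Pool.Agent.Helper86.CT.Mo α}
    (h : TOK D lf t f M) :
    ∃ q ∈ convexHull ℝ {z : ℂ | ∃ c ∈ W.lv M.v [], z = cz c}, ‖(UU : ℂ) * f - q‖ ≤ M.r := by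
  refine ⟨avg (wtT D t) (lf M.v), ?_, h.mod⟩
  have hq := hP.w
  unfold avg
  have e : ∑ v, ((wtT D t v : ℝ) : ℂ) * lf M.v v = ∑ v, wtT D t v • lf M.v v := by
    refine Finset.sum_congr rfl fun v _ => ?_
    rw [Complex.real_smul]
  rw [e]
  refine (convex_convexHull ℝ _).sum_mem (fun v _ => hq.nonneg v) hq.sum fun v _ => ?_
  apply subset_convexHull
  obtain ⟨c, hc, e⟩ := hW.lv2 M.v [] v
  exact ⟨c, hc, e⟩

/-! ### the test -/

/-- the form of the values at a leaf -/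
def hvT (lf : α → Vt D → ℂ) (P : H6 (Pool.Agent.Helper86.CT.Mo α)) (v : Vt D) : Hm ℝ :=
  mkH (lf P.a.v v).re (lf P.b.v v).re (lf P.c.v v).re (lf P.x.v v) (lf P.y.v v) (lf P.w.v v)

theorem evs_avg {V : Type*} [Fintype V] (w : V → ℝ) (a b c x y z : V → ℂ) (v : Fin 3 → ℂ) :
    ev (mkH (avg w a).re (avg w b).re (avg w c).re (avg w x) (avg w y) (avg w z)) v =
    ∑ u, w u * ev (mkH (a u).re (b u).re (c u).re (x u) (y u) (z u)) v := by
  simp only [Pool.Agent.Helper39.KNF.ev_mkH]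
  rw [avg_lin, avg_lin, avg_lin, tavg_re', tavg_re', tavg_re']
  simp only [Finset.sum_mul, Finset.mul_sum, ← Finset.sum_add_distrib]
  refine Finset.sum_congr rfl fun u _ => ?_
  ring

theorem gewT {a b c x y w : ℂ} {P : H6 (Pool.Agent.Helper86.CT.Mo α)} (ha : TOK D lf t a P.a)
    (hb : TOK D lf t b P.b) (hc : TOK D lf t c P.c) (hx : TOK D lf t x P.x)
    (hy : TOK D lf t y P.y) (hw : TOK D lf t w P.w) {d : D3}
    (d0 : 0 < d.x) (d1 : 0 < d.y) (d2 : 0 < d.z) (v : Fin 3 → ℂ) :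
    (∑ u, wtT D t u * ev (hvT lf P u) v) - rf (radT P d) v ≤
      UU * ev (mkH a.re b.re c.re x y w) v := by
  have e0 := evs_avg (wtT D t) (lf P.a.v) (lf P.b.v) (lf P.c.v) (lf P.x.v) (lf P.y.v) (lf P.w.v) v
  unfold hvT
  rw [← e0]
  simp only [Pool.Agent.Helper39.KNF.ev_mkH]
  have m1 := one_re (p := v 0) ha.mod
  have m2 := one_re (p := v 1) hb.mod
  have m3 := one_re (p := v 2) hc.mod
  have m4 := two_re_w (p := v 0) (q := v 1) d0 d1 hx.mod
  have m5 := two_re_w (p := v 0) (q := v 2) d0 d2 hy.mod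
  have m6 := two_re_w (p := v 1) (q := v 2) d1 d2 hw.mod
  have e1 : ∀ (z A : ℂ) (s : ℝ), ((UU : ℂ) * z - A).re * s = UU * (z.re * s) - A.re * s := by
    intro z A s
    rw [Complex.sub_re, Complex.re_ofReal_mul]
    ring
  have e2 : ∀ (z A p q : ℂ), 2 * (conj p * ((UU : ℂ) * z - A) * q).re =
      UU * (2 * (conj p * z * q).re) - 2 * (conj p * A * q).re := by
    intro z A p q
    have e : conj p * ((UU : ℂ) * z - A) * q = (UU : ℂ) * (conj p * z * q) - conj p * A * q := by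
      ring
    rw [e, Complex.sub_re, Complex.re_ofReal_mul]
    ring
  rw [e1] at m1 m2 m3
  rw [e2] at m4 m5 m6
  have k : ∀ r d e : ℕ, 0 < e → (r : ℝ) * (d / e) ≤ wr r d e := fun r d e he => by
    have := wr_ge r d e he
    rwa [mul_div_assoc] at this
  have n0 := normSq_nonneg (v 0)
  have n1 := normSq_nonneg (v 1)
  have n2 := normSq_nonneg (v 2)
  have k1 := mul_le_mul_of_nonneg_right (k P.x.r d.x d.y d1) n0
  have k2 := mul_le_mul_of_nonneg_right (k P.x.r d.y d.x d0) n1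
  have k3 := mul_le_mul_of_nonneg_right (k P.y.r d.x d.z d2) n0
  have k4 := mul_le_mul_of_nonneg_right (k P.y.r d.z d.x d0) n2
  have k5 := mul_le_mul_of_nonneg_right (k P.w.r d.y d.z d2) n1
  have k6 := mul_le_mul_of_nonneg_right (k P.w.r d.z d.y d1) n2
  have er : rf (radT P d) v =
      (P.a.r * normSq (v 0) + P.b.r * normSq (v 1) + P.c.r * normSq (v 2)) +
      (wr P.x.r d.x d.y * normSq (v 0) + wr P.x.r d.y d.x * normSq (v 1)) +
      (wr P.y.r d.x d.z * normSq (v 0) + wr P.y.r d.z d.x * normSq (v 2)) +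
      (wr P.w.r d.y d.z * normSq (v 1) + wr P.w.r d.z d.y * normSq (v 2)) := by
    unfold rf radT
    simp only [nadd]
    ring
  rw [er]
  linarith

theorem psT_sound (hW : LwOK D lf W) (hP : PT D t) {a b c x y w : ℂ}
    {P : H6 (Pool.Agent.Helper86.CT.Mo α)} (ha : TOK D lf t a P.a)
    (hb : TOK D lf t b P.b) (hc : TOK D lf t c P.c) (hx : TOK D lf t x P.x)
    (hy : TOK D lf t y P.y) (hw : TOK D lf t w P.w) {d : D3} (h : psT W d P = true)
    (v : Fin 3 → ℂ) : 0 ≤ ev (mkH a.re b.re c.re x y w) v := by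
  unfold psT psT2 at h
  obtain ⟨hk, h⟩ := andBt h
  unfold okT at hk
  obtain ⟨hB, hk2⟩ := andBt hk
  obtain ⟨hd0, hk2⟩ := andBt hk2
  obtain ⟨hd1, hd2⟩ := andBt hk2
  have hb' : P.a.B + P.b.B + P.c.B + P.x.B + P.y.B + P.w.B + (radT P d).x + (radT P d).y +
      (radT P d).z ≤ 2 ^ 200 := Nat.le_of_ble_eq_true hB
  have hd0' : 1 ≤ d.x := Nat.le_of_ble_eq_true hd0
  have hd1' : 1 ≤ d.y := Nat.le_of_ble_eq_true hd1
  have hd2' : 1 ≤ d.z := Nat.le_of_ble_eq_true hd2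
  have hb3 : (P.a.B : ℤ) ≤ 2 ^ 200 ∧ (P.b.B : ℤ) ≤ 2 ^ 200 ∧ (P.c.B : ℤ) ≤ 2 ^ 200 ∧
      (P.x.B : ℤ) ≤ 2 ^ 200 ∧ (P.y.B : ℤ) ≤ 2 ^ 200 ∧ (P.w.B : ℤ) ≤ 2 ^ 200 ∧
      ((radT P d).x : ℤ) ≤ 2 ^ 200 ∧ ((radT P d).y : ℤ) ≤ 2 ^ 200 ∧
      ((radT P d).z : ℤ) ≤ 2 ^ 200 := by
    refine ⟨?_, ?_, ?_, ?_, ?_, ?_, ?_, ?_, ?_⟩ <;>
      (have h5 : ∀ k : ℕ, k ≤ 2 ^ 200 → (k : ℤ) ≤ 2 ^ 200 := fun k hk => by exact_mod_cast hk
       apply h5
       omega)
  obtain ⟨b1, b2, b3, b4, b5, b6, b7, b8, b9⟩ := hb3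
  have kz : ∀ {x : Cx} {m : Pool.Agent.Helper86.CT.Mo α} {u : Vt D}, VT D lf m →
      lf m.v u = cz x → |zv x.re| ≤ (m.B : ℤ) ∧ |zv x.im| ≤ (m.B : ℤ) := by
    intro x m u hm e
    have hx := hm.bd u
    rw [e] at hx
    have h1 := (Complex.abs_re_le_norm _).trans hx
    have h2 := (Complex.abs_im_le_norm _).trans hx
    have e1 : |(cz x).re| = ((|zv x.re| : ℤ) : ℝ) := by rw [Int.cast_abs]; rfl
    have e2 : |(cz x).im| = ((|zv x.im| : ℤ) : ℝ) := by rw [Int.cast_abs]; rfl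
    rw [e1] at h1
    rw [e2] at h2
    exact ⟨by exact_mod_cast h1, by exact_mod_cast h2⟩
  have key : ∀ u, rf (radT P d) v ≤ ev (hvT lf P u) v := by
    intro u
    obtain ⟨p, q, r, s, o, g, e1, e2, e3, e4, e5, e6, ht⟩ := hW.ps h u
    have c1 := kz ha.val e1
    have c2 := kz hb.val e2
    have c3 := kz hc.val e3
    have c4 := kz hx.val e4
    have c5 := kz hy.val e5
    have c6 := kz hw.val e6
    have h1 := tn1_ev ⟨c1.1.trans b1, c2.1.trans b2, c3.1.trans b3, c4.1.trans b4,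
      c4.2.trans b4, c5.1.trans b5, c5.2.trans b5, c6.1.trans b6, c6.2.trans b6⟩
      b7 b8 b9 ht v
    unfold hvT
    rw [e1, e2, e3, e4, e5, e6]
    exact h1
  have hge := gewT ha hb hc hx hy hw hd0' hd1' hd2' v
  have h3 : rf (radT P d) v ≤ ∑ u, wtT D t u * ev (hvT lf P u) v := by
    have hq := hP.w
    calc rf (radT P d) v = ∑ u, wtT D t u * rf (radT P d) v := by
          rw [← Finset.sum_mul, hq.sum, one_mul]
      _ ≤ _ := Finset.sum_le_sum fun u _ => mul_le_mul_of_nonneg_left (key u) (hq.nonneg u)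
  have hU := UU_pos
  have h4 : 0 ≤ UU * ev (mkH a.re b.re c.re x y w) v := by linarith
  exact nonneg_of_mul_nonneg_right h4 hU

theorem sum6T_ok (hA : AOK D lf A) (hP : PT D t)
    {p : List (ℝ × Hm ℝ)}
    {l : List (SH (Pool.Agent.Helper86.CT.Mo α) (H6 (Pool.Agent.Helper86.CT.Mo α)))}
    (h : List.Forall₂ (SOK (TOK D lf t) (HOK (TOK D lf t))) p l) :
    TOK D lf t ((p.map fun x => x.1 * x.2.a).sum : ℝ) (sum6T A l).a ∧
    TOK D lf t ((p.map fun x => x.1 * x.2.b).sum : ℝ) (sum6T A l).b ∧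
    TOK D lf t ((p.map fun x => x.1 * x.2.c).sum : ℝ) (sum6T A l).c ∧
    TOK D lf t (p.map fun x => (x.1 : ℂ) * x.2.x).sum (sum6T A l).x ∧
    TOK D lf t (p.map fun x => (x.1 : ℂ) * x.2.y).sum (sum6T A l).y ∧
    TOK D lf t (p.map fun x => (x.1 : ℂ) * x.2.w).sum (sum6T A l).w := by
  induction h with
  | nil =>
    have hz : TOK D lf t 0 (KNB.csT A ⟨zi0, zi0⟩) := by
      have := TOK.csT hA hP ⟨zi0, zi0⟩
      have e : cz ⟨zi0, zi0⟩ / UU = 0 := by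
        have : cz ⟨zi0, zi0⟩ = 0 := by apply Complex.ext <;> simp [cz, zi0, zv]
        rw [this, zero_div]
      rwa [e] at this
    refine ⟨?_, ?_, ?_, ?_, ?_, ?_⟩ <;>
      (simp only [List.map_nil, List.sum_nil, Complex.ofReal_zero]; exact hz)
  | cons hx _ ih =>
    obtain ⟨i1, i2, i3, i4, i5, i6⟩ := ih
    have e : ∀ {f g : ℂ} {M : Pool.Agent.Helper86.CT.Mo α}, TOK D lf t f M → f = g →
        TOK D lf t g M := fun h e => e ▸ h
    refine ⟨e (Pool.Agent.Helper90.KMT.TOK.add hA (Pool.Agent.Helper90.KMT.TOK.mul hA hP hx.s hx.h.a) i1) ?_,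
      e (Pool.Agent.Helper90.KMT.TOK.add hA (Pool.Agent.Helper90.KMT.TOK.mul hA hP hx.s hx.h.b) i2) ?_,
      e (Pool.Agent.Helper90.KMT.TOK.add hA (Pool.Agent.Helper90.KMT.TOK.mul hA hP hx.s hx.h.c) i3) ?_,
      e (Pool.Agent.Helper90.KMT.TOK.add hA (Pool.Agent.Helper90.KMT.TOK.mul hA hP hx.s hx.h.x) i4) ?_,
      e (Pool.Agent.Helper90.KMT.TOK.add hA (Pool.Agent.Helper90.KMT.TOK.mul hA hP hx.s hx.h.y) i5) ?_,
      e (Pool.Agent.Helper90.KMT.TOK.add hA (Pool.Agent.Helper90.KMT.TOK.mul hA hP hx.s hx.h.w) i6) ?_⟩ <;> simp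

theorem evs_sum (p : List (ℝ × Hm ℝ)) (v : Fin 3 → ℂ) :
    ev (mkH (p.map fun x => x.1 * x.2.a).sum (p.map fun x => x.1 * x.2.b).sum
      (p.map fun x => x.1 * x.2.c).sum (p.map fun x => (x.1 : ℂ) * x.2.x).sum
      (p.map fun x => (x.1 : ℂ) * x.2.y).sum (p.map fun x => (x.1 : ℂ) * x.2.w).sum) v =
      (p.map fun x => x.1 * ev x.2 v).sum := by
  induction p with
  | nil => simp [ev, mkH]
  | cons y p ih =>
    have key : ∀ (a b c a' b' c' s : ℝ) (x y w x' y' w' : ℂ),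
        ev (mkH (s * a + a') (s * b + b') (s * c + c') (s * x + x') (s * y + y') (s * w + w')) v =
        s * ev (mkH a b c x y w) v + ev (mkH a' b' c' x' y' w') v := by
      intro a b c a' b' c' s x y w x' y' w'
      rw [Pool.Agent.Helper39.KNF.ev_mkH, Pool.Agent.Helper39.KNF.ev_mkH,
        Pool.Agent.Helper39.KNF.ev_mkH]
      have e : ∀ (P Q X Y : ℂ), (conj P * ((s : ℂ) * X + Y) * Q).re =
          s * (conj P * X * Q).re + (conj P * Y * Q).re := by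
        intro P Q X Y
        have : conj P * ((s : ℂ) * X + Y) * Q = (s : ℂ) * (conj P * X * Q) + conj P * Y * Q := by
          ring
        rw [this, Complex.add_re, Complex.re_ofReal_mul]
      rw [e, e, e]
      ring
    simp only [List.map_cons, List.sum_cons]
    rw [key, ih]
    congr 2
    obtain ⟨s, K⟩ := y
    simp only [ev, mkH, Hm.x, Hm.y, Hm.w]
    simp

/-- THE ARITHMETIC OF KerT IS SOUND -/
theorem arT_sound (hA : AOK D lf A) (hW : LwOK D lf W) (hP : PT D t) :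
    ArS (arT A W) (TOK D lf t) (HOK (TOK D lf t)) where
  add := Pool.Agent.Helper90.KMT.TOK.add hA
  sub := Pool.Agent.Helper90.KMT.TOK.sub hA
  mul := Pool.Agent.Helper90.KMT.TOK.mul hA hP
  cj := Pool.Agent.Helper90.KMT.TOK.conj hA
  re := TOK.reT hA hW
  im := TOK.imT hA hW
  inv := fun hf ho => by
    obtain ⟨h2, h3⟩ := Pool.Agent.Helper90.KMT.TOK.inv hA hP hf ho
    exact ⟨h3, h2⟩
  cs := TOK.csT hA hP
  wd := TOK.wdT
  nb := TOK.nbT hP
  ctl := TOK.ctl hW hP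
  dot := fun {f g h f' g' h'} {x y z x' y' z'} a b c a' b' c' => by
    have e : f * f' + g * g' + h * h' = f * f' + (g * g' + h * h') := by ring
    rw [e]
    exact Pool.Agent.Helper90.KMT.TOK.add hA (Pool.Agent.Helper90.KMT.TOK.mul hA hP a a')
      (Pool.Agent.Helper90.KMT.TOK.add hA (Pool.Agent.Helper90.KMT.TOK.mul hA hP b b')
      (Pool.Agent.Helper90.KMT.TOK.mul hA hP c c'))
  pk := fun h => h
  lt := fun {d l p} h hl v => by
    obtain ⟨i1, i2, i3, i4, i5, i6⟩ := sum6T_ok hA hP h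
    have h2 := psT_sound hW hP i1 i2 i3 i4 i5 i6 hl v
    rw [ofReal_re, ofReal_re, ofReal_re, evs_sum] at h2
    exact h2

end Pool.Agent.Helper57.KNB
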