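import Pool.Agent.Helper57.KNB.KT3
import Pool.Agent.Helper57.KNB.KT2
import Pool.Agent.Helper57.KNB.KA5
import Pool.Agent.Helper90.CX.CT3

/-!
Row KFT, part 4: soundness of the A family of one wall in a near cell of a class with tails, and the
powers of the A cycle at a state (any forms).
-/

set_option autoImplicit false
noncomputable section
namespace Pool.Agent.Helper57.KNB

open Pool.Agent.Helper86.C75 (Z)
open Pool.Agent.Helper86.CX (Cx andB u32 kf Hm mkH ev)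
open Pool.Agent.Helper86.CT (Alg Up Mc Vx KM mkKM N3 Pr W0 W1 W2 W3 W4)
open Pool.Agent.Helper90.C75
open Pool.Agent.Helper90.KMO
open Pool.Agent.Helper90.KMT (lf0 nlf AOK TOK PT UOK mf0 nmf KTab KMK mkKM_ok vt_mk)
open Pool.Agent.Helper39.KNF (C9 Sm FamI WallC wall_kap ev_smul_c one_SbP)
open Pool.Agent.Helper42.CH (powA tau_cond)
open Pool.Agent.Helper6.MONO (FNm SbP kapA tauA RMb omS kk lamS nfm_TA)
open Pool.Agent.Helper21.SUP (GS gM DG)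
open Pool.Agent.Helper21.SUP renaming nx → nxs
open Pool.Agent.Helper39.SLT (fam_A)
open Complex ComplexConjugate Matrix

variable {α β p v γ M PH : Type} {D : ℕ} {lf : α → Vt D → ℂ}
  {mf : (ℕ → ℝ) → β → (ℕ → ℝ) → ℝ} {t : ℕ → ℝ}

/-! ### tests at all vertices -/

/-- the law of the tests at all vertices -/
structure VLw (D : ℕ) {β : Type} (mf : (ℕ → ℝ) → β → (ℕ → ℝ) → ℝ) (V : Vx β) : Prop where
  pos : ∀ (b : ℕ → ℕ → Bool) (g : ℕ → ℝ) (T S : β) (t : ℕ → ℝ), (∀ j < D, 0 ≤ t j) →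
    (∀ j < D, t j ≤ 1) → V.al b T S = true → (∀ x y, b x y = true → 0 < g x) → 0 < mf g T t

theorem W0_law : VLw 0 mf0 W0 := ⟨fun _ _ _ _ _ _ _ h hb => hb _ _ h⟩

theorem VLw.nx {D : ℕ} {β : Type} {mf : (ℕ → ℝ) → β → (ℕ → ℝ) → ℝ} {V : Vx β}
    (h : VLw D mf V) : VLw (D + 1) (nmf D mf) (Pool.Agent.Helper86.CT.nxW V) := by
  refine ⟨fun b g T S t h0 h1 hb hg => ?_⟩
  obtain ⟨ha, hb⟩ := andBt hb
  have p1 := h.pos b g T.a S.a t (fun j hj => h0 j (by omega)) (fun j hj => h1 j (by omega)) ha hg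
  have p2 := h.pos b g T.b S.b t (fun j hj => h0 j (by omega)) (fun j hj => h1 j (by omega)) hb hg
  have t0 := h0 D (by omega)
  have t1 := h1 D (by omega)
  show 0 < (1 - t D) * mf g T.a t + t D * mf g T.b t
  rcases t0.eq_or_lt with e | e
  · rw [← e]
    linarith
  · have q1 := mul_pos e p2
    have q2 := mul_nonneg (sub_nonneg.2 t1) p1.le
    linarith

theorem W1_law : VLw 1 (nmf 0 mf0) W1 := W0_law.nx
theorem W2_law : VLw 2 (nmf 1 (nmf 0 mf0)) W2 := W1_law.nx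
theorem W3_law : VLw 3 (nmf 2 (nmf 1 (nmf 0 mf0))) W3 := W2_law.nx
theorem W4_law : VLw 4 (nmf 3 (nmf 2 (nmf 1 (nmf 0 mf0)))) W4 := W3_law.nx

/-! ### multipliers -/

/-- the value of the multiplier number `l` -/
def lvT (mf : (ℕ → ℝ) → β → (ℕ → ℝ) → ℝ) (LT : β) (t : ℕ → ℝ) (l : ℕ) : ℝ :=
  mf (fun T => ((u32 T (32 * l) : ℕ) : ℝ)) LT t / 16777216

theorem lmT_ok {A : Alg α} (hA : AOK D lf A) {U : Up β α} (hU : UOK D lf mf U) {w : ℕ}
    (hw : w * 2 ^ D = 2 ^ 28) (hD : D ≤ 4) (LT : β) (l : ℕ) :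
    TOK D lf t ((lvT mf LT t l : ℝ) : ℂ) (lmT A U w LT l) := by
  refine ⟨vt_mk hA _ _, ?_⟩
  show ‖(UU : ℂ) * ((lvT mf LT t l : ℝ) : ℂ) - avg (wtT D t) (lf (U.up (fun T =>
    ⟨Z.p (Nat.mul (Nat.div w (nat_lit 16)) (u32 T (Nat.mul (nat_lit 32) l))), Z.p (nat_lit 0)⟩)
      LT))‖ ≤ ((nat_lit 0 : ℕ) : ℝ)
  set f : ℕ → Cx := fun T =>
    ⟨Z.p (Nat.mul (Nat.div w (nat_lit 16)) (u32 T (Nat.mul (nat_lit 32) l))), Z.p (nat_lit 0)⟩
    with hf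
  have e1 : (fun x => (cz (f x)).re) = fun x => ((w / 16 : ℕ) : ℝ) * ((u32 x (32 * l) : ℕ) : ℝ) := by
    funext x
    show ((zv (Z.p ((w / 16) * (u32 x (32 * l)))) : ℤ) : ℝ) = _
    rw [zv_p]
    push_cast
    rfl
  have e2 : (fun x => (cz (f x)).im) = fun _ => (0 : ℝ) := by
    funext x
    show ((zv (Z.p (nat_lit 0)) : ℤ) : ℝ) = 0
    rw [zv_p]
    simp
  rw [hU.up, e1, e2, hU.lin, hU.mul0]
  have hw' : (w / 16) * 2 ^ D = 2 ^ 24 := by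
    have hw2 : w = 2 ^ (28 - D) := by
      have h : w * 2 ^ D = 2 ^ (28 - D) * 2 ^ D := by
        rw [hw, ← pow_add]
        congr 1
        omega
      exact Nat.eq_of_mul_eq_mul_right (by positivity) h
    subst hw2
    interval_cases D <;> norm_num
  have hw3 : (((w / 16 : ℕ) : ℝ) : ℂ) * 2 ^ D = 16777216 := by
    have : (((w / 16) * 2 ^ D : ℕ) : ℂ) = ((2 ^ 24 : ℕ) : ℂ) := by rw [hw']
    push_cast at this ⊢
    rw [this]
  have hU' : (UU : ℂ) = 16777216 * 16777216 := by unfold UU; norm_num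
  have e3 : (UU : ℂ) * ((lvT mf LT t l : ℝ) : ℂ)
      - 2 ^ D * ((((((w / 16 : ℕ) : ℝ) * mf (fun T => ((u32 T (32 * l) : ℕ) : ℝ)) LT t : ℝ)) : ℂ)
        + ((0 : ℝ) : ℂ) * I) = 0 := by
    unfold lvT
    push_cast
    push_cast at hw3
    have e4 : ((mf (fun T => ((u32 T (32 * l) : ℕ) : ℝ)) LT t : ℝ) : ℂ) *
        (2 ^ D * (((w / 16 : ℕ) : ℝ) : ℂ)) =
        16777216 * ((mf (fun T => ((u32 T (32 * l) : ℕ) : ℝ)) LT t : ℝ) : ℂ) := by
      push_cast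
      rw [mul_comm ((2 : ℂ) ^ D), hw3]
      ring
    push_cast at e4
    rw [hU']
    linear_combination -e4
  rw [e3, norm_zero]
  simp

section pos
variable {V : Vx β}

theorem qPosL_mem {T : ℕ} {l : List QL} (h : qPosL T l = true) {q : QL} (hq : q ∈ l) :
    qPos T q = true := by
  induction l with
  | nil => cases hq
  | cons x l ih =>
    obtain ⟨a, b⟩ := andBt (show andB (qPos T x) (qPosL T l) = true from h)
    rcases List.mem_cons.1 hq with rfl | hq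
    · exact a
    · exact ih b hq

theorem qPosT_mem {T : ℕ} {l : List TD} (h : qPosT T l = true) {x : TD} (hx : x ∈ l) :
    qPos T x.q = true := by
  induction l with
  | nil => cases hx
  | cons y l ih =>
    obtain ⟨a, b⟩ := andBt (show andB (qPos T y.q) (qPosT T l) = true from h)
    rcases List.mem_cons.1 hx with rfl | hx
    · exact a
    · exact ih b hx

theorem lvT_pos (hV : VLw D mf V) (hP : PT D t) {LT : β} {b : ℕ → ℕ → Bool}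
    (h : V.al b LT LT = true) {q : QL} (hq : ∀ x y, b x y = true → qPos x q = true) :
    0 < lvT mf LT t q.l := by
  unfold lvT
  refine div_pos (hV.pos b _ LT LT t hP.h0 hP.h1 h fun x y hb => ?_) (by norm_num)
  have h1 : 1 ≤ u32 x (32 * q.l) := Nat.le_of_ble_eq_true (hq x y hb)
  exact_mod_cast h1

end pos

section conv
variable {A : Alg α} {U : Up β α} {w : ℕ} {V : Vx β} {OK : ℂ → M → Prop}
  {HK : Hm ℝ → PH → Prop} {cv : Pool.Agent.Helper86.CT.Mo α → M} {R : Ar M PH}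

theorem ldT_ok (hA : AOK D lf A) (hU : UOK D lf mf U) (hw : w * 2 ^ D = 2 ^ 28)
    (hcv : ∀ {f : ℂ} {m : Pool.Agent.Helper86.CT.Mo α}, TOK D lf t f m → OK f (cv m))
    (hP : PT D t) {LT : β} {q : QL} (hp : 0 < lvT mf LT t q.l) :
    LOK OK (ldT A U w cv LT q) :=
  ⟨lvT mf LT t q.l, hp, hcv (lmT_ok hA hU hw hP.hD LT q.l)⟩

theorem ldsT_ok (hA : AOK D lf A) (hU : UOK D lf mf U) (hw : w * 2 ^ D = 2 ^ 28)
    (hcv : ∀ {f : ℂ} {m : Pool.Agent.Helper86.CT.Mo α}, TOK D lf t f m → OK f (cv m))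
    (hP : PT D t) {LT : β} {l : List QL} (hp : ∀ q ∈ l, 0 < lvT mf LT t q.l) :
    ∀ x ∈ ldsT A U w cv LT l, LOK OK x := by
  induction l with
  | nil => intro x hx; cases hx
  | cons q l ih =>
    intro x hx
    rcases List.mem_cons.1 (show x ∈ ldT A U w cv LT q :: ldsT A U w cv LT l from hx) with rfl | hx
    · exact ldT_ok hA hU hw hcv hP (hp q List.mem_cons_self)
    · exact ih (fun q hq => hp q (List.mem_cons_of_mem _ hq)) x hx

theorem ldsT_len {LT : β} (l : List QL) : (ldsT A U w cv LT l).length = l.length := by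
  induction l with
  | nil => rfl
  | cons q l ih =>
    show (ldT A U w cv LT q :: ldsT A U w cv LT l).length = _
    rw [List.length_cons, List.length_cons, ih]

theorem tdsT_ok (hA : AOK D lf A) (hU : UOK D lf mf U) (hw : w * 2 ^ D = 2 ^ 28)
    (hcv : ∀ {f : ℂ} {m : Pool.Agent.Helper86.CT.Mo α}, TOK D lf t f m → OK f (cv m))
    (hP : PT D t) {LT : β} {l : List TD} (hp : ∀ x ∈ l, 0 < lvT mf LT t x.q.l) :
    ∀ x ∈ tdsT A U w cv LT l, LOK OK x.l := by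
  induction l with
  | nil => intro x hx; cases hx
  | cons q l ih =>
    intro x hx
    rcases List.mem_cons.1 (show x ∈ (⟨q.V, q.cx, q.cy, q.R, q.B, q.rb, ldT A U w cv LT q.q⟩ :
      Pool.Agent.Helper57.KNB.TA M) :: tdsT A U w cv LT l from hx) with rfl | hx
    · exact ldT_ok hA hU hw hcv hP (hp q List.mem_cons_self)
    · exact ih (fun q hq => hp q (List.mem_cons_of_mem _ hq)) x hx

theorem tdsT_V {LT : β} (l : List TD) : ((tdsT A U w cv LT l).map fun T => T.V) =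
    l.map fun T => T.V := by
  induction l with
  | nil => rfl
  | cons q l ih =>
    show ((⟨q.V, q.cx, q.cy, q.R, q.B, q.rb, ldT A U w cv LT q.q⟩ :
      Pool.Agent.Helper57.KNB.TA M) :: tdsT A U w cv LT l).map (fun T => T.V) = _
    rw [List.map_cons, List.map_cons, ih]

theorem f9A_ok (hR : ArS R OK HK) (B : C9) : FOK OK (Sm B) (f9A R B) :=
  ⟨hR.cs _, hR.cs _, hR.cs _, hR.cs _, hR.cs _, hR.cs _, hR.cs _, hR.cs _, hR.cs _⟩

theorem hcv_ok (hcv : ∀ {f : ℂ} {m : Pool.Agent.Helper86.CT.Mo α}, TOK D lf t f m → OK f (cv m))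
    {K : Hm ℝ} {P : KM α} (h : KMK D lf t K P) : HOK OK K (KNB.hcv cv P) :=
  ⟨hcv h.a, hcv h.b, hcv h.c, hcv h.x, hcv h.y, hcv h.w⟩

/-- SOUNDNESS OF THE TEST OF THE A FAMILY OF A WALL -/
theorem famR_sound {K : Mc α β p v γ} (hA : AOK D lf K.A) (hU : UOK D lf mf K.U)
    (hw : K.w * 2 ^ D = 2 ^ 28) (hV : VLw D mf V) (hP : PT D t) (hR : ArS R OK HK)
    (hcv : ∀ {f : ℂ} {m : Pool.Agent.Helper86.CT.Mo α}, TOK D lf t f m → OK f (cv m))
    {k k' c x0 : ℝ} (hc : WallC k k' c x0) {x z : ℂ} (hz : z ≠ 0) (hzx : z + z⁻¹ = x)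
    (hre : x.re = x0) (him : 0 ≤ x.im) {Km Km' L Um Zm : Pool.Agent.Helper86.CT.Mo α}
    (hK : TOK D lf t (k : ℂ) Km) (hK' : TOK D lf t (k' : ℂ) Km')
    (hL : TOK D lf t ((2 * c / (k * k') : ℝ) : ℂ) L) (hUm : TOK D lf t z⁻¹ Um)
    (hZ : TOK D lf t z Zm) {KT : β} {F : FDT β}
    (h : famR K V R cv KT F L Km Km' Um Zm = true)
    (hp : PowOK F.Ts F.rho F.L.length (F.T.map fun T => T.V)) {o o' : ℂ}
    (hg : o⁻¹ = 2 * (1 + ((2 * c / (k * k') : ℝ) : ℂ) * z⁻¹))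
    (hg' : o'⁻¹ = 2 * (1 + ((2 * c / (k * k') : ℝ) : ℂ) * z)) (ho : o ≠ 0) (ho' : o' ≠ 0)
    (i : ℕ) :
    FamI (KTab mf KT F.kx t) (KTab mf KT F.ke t) (SbP k) (SbP k') o⁻¹ o'⁻¹ o
      (powA (tauA k k' o o') i) := by
  obtain ⟨h1, h2⟩ := andBt h
  have hpos : ∀ q : QL, (q ∈ F.L ∨ ∃ x ∈ F.T, q = x.q) → 0 < lvT mf F.LT t q.l := by
    intro q hq
    refine lvT_pos hV hP h1 fun x y hb => ?_
    obtain ⟨b1, b2⟩ := andBt hb
    rcases hq with hq | ⟨x, hx, rfl⟩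
    · exact qPosL_mem b1 hq
    · exact qPosT_mem b2 hx
  refine famG_sound hR hc hz hzx hre him (hcv hK) (hcv hK') (hcv hL) (hcv hUm) (hcv hZ)
    (I := aiT K.A K.U K.w R cv KT F) (B := Sm F.B) (hcv_ok hcv (mkKM_ok hA hU hw KT F.kx))
    (hcv_ok hcv (mkKM_ok hA hU hw KT F.ke)) (f9A_ok hR F.B)
    (ldsT_ok hA hU hw hcv hP fun q hq => hpos q (Or.inl hq))
    (tdsT_ok hA hU hw hcv hP fun x hx => hpos x.q (Or.inr ⟨x, hx, rfl⟩)) h2 ?_ hg hg' ho ho' i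
  show PowOK F.Ts F.rho (ldsT K.A K.U K.w cv F.LT F.L).length
    ((tdsT K.A K.U K.w cv F.LT F.T).map fun T => T.V)
  rw [ldsT_len, tdsT_V]
  exact hp

end conv

/-- SOUNDNESS OF A TEST OF THE FAMILY OF A WALL (classes with tails) -/
def FamTOK (D : ℕ) (lf : α → Vt D → ℂ) (mf : (ℕ → ℝ) → β → (ℕ → ℝ) → ℝ)
    (F : β → FDT β → Pool.Agent.Helper86.CT.Mo α → Pool.Agent.Helper86.CT.Mo α →
      Pool.Agent.Helper86.CT.Mo α → Pool.Agent.Helper86.CT.Mo α →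
      Pool.Agent.Helper86.CT.Mo α → Bool) : Prop :=
  ∀ {t : ℕ → ℝ}, PT D t → ∀ {k k' c x0 : ℝ}, WallC k k' c x0 → ∀ {x z : ℂ}, z ≠ 0 →
    z + z⁻¹ = x → x.re = x0 → 0 ≤ x.im → ∀ {Km Km' L Um Zm : Pool.Agent.Helper86.CT.Mo α},
    TOK D lf t (k : ℂ) Km → TOK D lf t (k' : ℂ) Km' →
    TOK D lf t ((2 * c / (k * k') : ℝ) : ℂ) L → TOK D lf t z⁻¹ Um → TOK D lf t z Zm →
    ∀ {KT : β} {Q : FDT β}, F KT Q L Km Km' Um Zm = true →
    PowOK Q.Ts Q.rho Q.L.length (Q.T.map fun T => T.V) → ∀ {o o' : ℂ},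
    o⁻¹ = 2 * (1 + ((2 * c / (k * k') : ℝ) : ℂ) * z⁻¹) →
    o'⁻¹ = 2 * (1 + ((2 * c / (k * k') : ℝ) : ℂ) * z) → o ≠ 0 → o' ≠ 0 → ∀ i : ℕ,
    FamI (KTab mf KT Q.kx t) (KTab mf KT Q.ke t) (SbP k) (SbP k') o⁻¹ o'⁻¹ o
      (powA (tauA k k' o o') i)

/-- any sound arithmetic -/
theorem famR_ok {K : Mc α β p v γ} {V : Vx β} {R : Ar M PH}
    {cv : Pool.Agent.Helper86.CT.Mo α → M} (hA : AOK D lf K.A) (hU : UOK D lf mf K.U)
    (hw : K.w * 2 ^ D = 2 ^ 28) (hV : VLw D mf V)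
    (hR : ∀ {t : ℕ → ℝ}, PT D t → ∃ (OK : ℂ → M → Prop) (HK : Hm ℝ → PH → Prop), ArS R OK HK ∧
      ∀ {f : ℂ} {m : Pool.Agent.Helper86.CT.Mo α}, TOK D lf t f m → OK f (cv m)) :
    FamTOK D lf mf (famR K V R cv) := by
  intro t hP k k' c x0 hc x z hz hzx hre him Km Km' L Um Zm hK hK' hL hUm hZ KT Q h hp o o' hg
    hg' ho ho' i
  obtain ⟨OK, HK, h1, h2⟩ := hR hP
  exact famR_sound hA hU hw hV hP h1 h2 hc hz hzx hre him hK hK' hL hUm hZ h hp hg hg' ho ho' i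

/-- the unpacked arithmetic -/
theorem famT_ok {K : Mc α β p v γ} {V : Vx β} {W : Lw α} (hA : AOK D lf K.A)
    (hU : UOK D lf mf K.U) (hw : K.w * 2 ^ D = 2 ^ 28) (hV : VLw D mf V) (hW : LwOK D lf W) :
    FamTOK D lf mf (famT K V W) :=
  famR_ok hA hU hw hV fun {t} hP => ⟨TOK D lf t, HOK (TOK D lf t), arT_sound hA hW hP, fun h => h⟩

theorem famT1_ok : FamTOK 1 (nlf lf0) (nmf 0 mf0) (famT Pool.Agent.Helper86.CT.K1 W1 Lw1) :=
  famT_ok Pool.Agent.Helper90.KMT.A1_ok Pool.Agent.Helper90.KMT.U1_ok (by decide) W1_law Lw1_ok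
theorem famT2_ok : FamTOK 2 (nlf (nlf lf0)) (nmf 1 (nmf 0 mf0))
    (famT Pool.Agent.Helper86.CT.K2 W2 Lw2) :=
  famT_ok Pool.Agent.Helper90.KMT.A2_ok Pool.Agent.Helper90.KMT.U2_ok (by decide) W2_law Lw2_ok
theorem famT3_ok : FamTOK 3 (nlf (nlf (nlf lf0))) (nmf 2 (nmf 1 (nmf 0 mf0)))
    (famT Pool.Agent.Helper86.CT.K3 W3 Lw3) :=
  famT_ok Pool.Agent.Helper90.KMT.A3_ok Pool.Agent.Helper90.KMT.U3_ok (by decide) W3_law Lw3_ok
theorem famT4_ok : FamTOK 4 (nlf (nlf (nlf (nlf lf0)))) (nmf 3 (nmf 2 (nmf 1 (nmf 0 mf0))))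
    (famT Pool.Agent.Helper86.CT.K4 W4 Lw4) :=
  famT_ok Pool.Agent.Helper90.KMT.A4_ok Pool.Agent.Helper90.KMT.U4_ok (by decide) W4_law Lw4_ok

/-! ### the powers of the A cycle at a state -/

theorem famI_posG {X E : Hm ℝ} {k k' : ℝ} {o o' A : ℂ}
    (ho : o ≠ 0) (ho' : o' ≠ 0) (hs0 : (1 + (SbP k : ℂ)) ≠ 0) (hs0' : (1 + (SbP k' : ℂ)) ≠ 0)
    (h : FamI X E (SbP k) (SbP k') o⁻¹ o'⁻¹ o A) {v : Fin 3 → ℂ} (hv : 0 < ev E v) :
    0 < ev X ((Pool.Agent.Helper6.MONO.TA k k' o o' A).mulVec v) := by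
  obtain ⟨l, hl, h2⟩ := h
  have h3 := h2 v
  rw [← nfm_TA ho ho' hs0 hs0', Matrix.smul_mulVec, ev_smul_c] at h3
  have h4 : 0 < Complex.normSq (2 * ((1 + (SbP k : ℂ)) * (1 + (SbP k' : ℂ)))) *
      ev X ((Pool.Agent.Helper6.MONO.TA k k' o o' A).mulVec v) := lt_of_lt_of_le (mul_pos hl hv) h3
  have h5 := Complex.normSq_nonneg (2 * ((1 + (SbP k : ℂ)) * (1 + (SbP k' : ℂ))))
  by_contra h0
  push Not at h0
  nlinarith [mul_nonneg h5 (neg_nonneg.2 h0)]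

/-- ALL POWERS OF THE A CYCLE AT A STATE, any forms -/
theorem famA_gen {p q r : ℕ} (hp : 3 ≤ p) (hq : 3 ≤ q) (hr : 3 ≤ r) {s : GS} (hs : DG s) {w : ℂ}
    {k k' c x0 : ℝ} (ek : kk p q r s.1 s.2.1 = k)
    (ek' : kk p q r s.1 s.2.2 = k') (hc : WallC k k' c x0) {x z : ℂ} (hz : z ≠ 0)
    (hzx : z + z⁻¹ = x) (hre : x.re = x0) (him : 0 ≤ x.im)
    (hg : (omS p q r s w)⁻¹ = 2 * (1 + ((2 * c / (k * k') : ℝ) : ℂ) * z⁻¹))
    (hg' : (omS p q r (nxs s 3) w)⁻¹ = 2 * (1 + ((2 * c / (k * k') : ℝ) : ℂ) * z))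
    (ho : omS p q r s w ≠ 0) (ho' : omS p q r (nxs s 3) w ≠ 0) {X E : Hm ℝ}
    (hF : ∀ i, FamI X E (SbP k) (SbP k') (omS p q r s w)⁻¹
      (omS p q r (nxs s 3) w)⁻¹ (omS p q r s w)
      (powA (tauA k k' (omS p q r s w) (omS p q r (nxs s 3) w)) i)) :
    ∀ n : ℕ, ∀ v, 0 < ev E v →
      0 < ev X ((gM (RMb p q r) s (List.replicate 2 3) w ^ (n + 1)).mulVec v) := by
  subst ek
  subst ek'
  obtain ⟨k1, k2⟩ := wall_kap hc hz hzx hre him ho ho' hg hg'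
  have hs0 : (1 + (SbP (kk p q r s.1 s.2.1) : ℂ)) ≠ 0 := by
    rw [one_SbP hc.hk.ne']
    have := hc.hk
    exact Complex.ofReal_ne_zero.2 (by positivity)
  have hs0' : (1 + (SbP (kk p q r s.1 s.2.2) : ℂ)) ≠ 0 := by
    rw [one_SbP hc.hk'.ne']
    have := hc.hk'
    exact Complex.ofReal_ne_zero.2 (by positivity)
  refine fam_A hp hq hr hs ho ho' k1 (J := 0)
    (fun _ => {A | FamI X E (SbP (kk p q r s.1 s.2.1))
      (SbP (kk p q r s.1 s.2.2)) (omS p q r s w)⁻¹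
      (omS p q r (nxs s 3) w)⁻¹ (omS p q r s w) A}) (fun m => hF m)
    (E := {v | 0 < ev E v}) (X := {v | 0 < ev X v}) ?_ ?_
  · intro c v hc0 hv
    show 0 < ev _ _
    rw [ev_smul_c]
    exact mul_pos (Complex.normSq_pos.2 hc0) hv
  · intro i _ A hA v hv
    exact famI_posG ho ho' hs0 hs0' hA hv

end Pool.Agent.Helper57.KNB
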