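import Pool.Agent.Helper57.KNB.KT7

/-!
Row KFT, part 8: THE B TESTS OF A NEAR CELL OF A CLASS WITH TAILS: hypothesis `hB` of
`Helper48/CT/NCT.nearC_of`.
-/

set_option autoImplicit false
noncomputable section
namespace Pool.Agent.Helper57.KNB

open Pool.Agent.Helper86.C75 (Z)
open Pool.Agent.Helper86.CX (Cx andB u32 kf Hm mkH ev)
open Pool.Agent.Helper86.CT (Alg Up Mc Vx KM mkKM N3 Pr Cls W0 W1 W2 W3 W4)
open Pool.Agent.Helper90.C75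
open Pool.Agent.Helper90.KMO
open Pool.Agent.Helper90.KMT (lf0 nlf AOK TOK PT UOK mf0 nmf KTab KMK mkKM_ok vt_mk CLT)
open Pool.Agent.Helper39.KNF (C9 Sm AD)
open Pool.Agent.Helper39.SLT (T4 ML)
open Pool.Agent.Helper42.CH (powA)
open Pool.Agent.Helper6.MONO (sD SbP omS kk zS trBs esBs tauBs lamS RMb zS_om zS_nx2 LNI_kk
  LNI_kk_symm mm)
open Pool.Agent.Helper21.SUP
open Complex ComplexConjugate

variable {α β p' v' γ M PH : Type} {D : ℕ} {lf : α → Vt D → ℂ}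
  {mf : (ℕ → ℝ) → β → (ℕ → ℝ) → ℝ} {t : ℕ → ℝ} {A : Alg α} {U : Up β α} {w' : ℕ} {V : Vx β}
  {OK : ℂ → M → Prop} {HK : Hm ℝ → PH → Prop} {cv : Pool.Agent.Helper86.CT.Mo α → M}
  {R : Ar M PH}

/-- all numbers of the data are right -/
def covDT (idx : GS → T4 → ℕ) (p q r : ℕ) (s0 : GS) (B : BDT α β) : Bool :=
  Nat.beq B.t0 (idx s0 T4.two) && Nat.beq B.t1 (idx (nx s0 2) T4.two) &&
    Nat.beq B.t2 (idx (nx (nx s0 2) 2) T4.two) &&
    ((srcT (ML p q r s0)).all fun T => B.q0.any fun x => Nat.beq x.k (idx s0 T)) &&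
    ((srcT (ML p q r (nx s0 2))).all fun T => B.q1.any fun x => Nat.beq x.k (idx (nx s0 2) T)) &&
    ((srcT (ML p q r (nx s0 2))).all fun T => B.d1.any fun x => Nat.beq x.k (idx (nx s0 2) T)) &&
    ((srcT (ML p q r (nx (nx s0 2) 2))).all fun T =>
      B.q2.any fun x => Nat.beq x.k (idx (nx (nx s0 2) 2) T))

theorem covDT_src {l : List SDT} {f : T4 → ℕ} {L : List T4}
    (h : (L.all fun T => l.any fun x => Nat.beq x.k (f T)) = true) {T : T4} (hT : T ∈ L) :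
    ∃ x ∈ l, x.k = f T := by
  rw [List.all_eq_true] at h
  have := h T hT
  rw [List.any_eq_true] at this
  obtain ⟨x, hx, h2⟩ := this
  exact ⟨x, hx, Nat.eq_of_beq_eq_true h2⟩

/-- the check of the powers of an orientation -/
def chAB (B : BDT α β) (Q : AD) : Bool :=
  chAT B.Ts B.rho B.lq.length B.e (B.tl.map fun T => T.V) B.bj Q

variable {p q r : ℕ} {w : ℂ}

/-- from the test of one orientation to `hB` at its three states -/
theorem oth_hB (hA : AOK D lf A) (hU : UOK D lf mf U) (hw : w' * 2 ^ D = 2 ^ 28)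
    (hV : VLw D mf V) (hP : PT D t)
    (hcv : ∀ {f : ℂ} {m : Pool.Agent.Helper86.CT.Mo α}, TOK D lf t f m → OK f (cv m))
    (hp : 3 ≤ p) (hq : 3 ≤ q) (hr : 3 ≤ r) {s0 : GS}
    {l0 l1 l2 k0 k1 k2 a0 a1 a2 z zi : M} {KT : β} {B : BDT α β}
    {idx : GS → T4 → ℕ} (hc : covDT idx p q r s0 B = true) (hb : posB V B = true) {ν : ℂ}
    (hO : OTx OK p q r w s0 (KTab mf KT B.ke t) (KTab mf KT B.kx t)
      (fun s => KTab mf KT (idx s T4.two) t)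
      (mkOIT A U w' R cv KT B l0 l1 l2 k0 k1 k2 a0 a1 a2 z zi) (srT A U w' cv KT B.LT B.d1) ν)
    (hd : ∀ T : T4, T.ok (ML p q r (nx s0 2)) → T.low (ML p q r (nx s0 2)) ≤ 2 → T ≠ T4.two →
      ∀ v ∈ Pos (KTab mf KT (idx (nx s0 2) T) t),
        (RMb p q r (nx s0 2) 2 w).mulVec v ∈ Pos (KTab mf KT (idx (nx (nx s0 2) 2) T4.two) t))
    (he : ∀ T : T4, T.ok (ML p q r (nx (nx s0 2) 2)) → T.low (ML p q r (nx (nx s0 2) 2)) ≤ 2 →
      T ≠ T4.two → ∀ v ∈ Pos (KTab mf KT (idx (nx (nx s0 2) 2) T) t),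
        (RMb p q r (nx (nx s0 2) 2) 2 w).mulVec v ∈ Pos (KTab mf KT (idx s0 T4.two) t)) :
    HB3 idx p q r w (fun k => Pos (KTab mf KT k t)) s0 ∧
      HB3 idx p q r w (fun k => Pos (KTab mf KT k t)) (nx s0 2) ∧
      HB3 idx p q r w (fun k => Pos (KTab mf KT k t)) (nx (nx s0 2) 2) := by
  unfold covDT at hc
  simp only [Bool.and_eq_true] at hc
  obtain ⟨⟨⟨⟨⟨⟨c0, c1⟩, c2⟩, c3⟩, c4⟩, c6⟩, c5⟩ := hc
  obtain ⟨P0, P2, P1⟩ := hO.pow hp hq hr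
  have hld : ∀ {q : QL}, UsedQ B q → LOK OK (ldT A U w' cv B.LT q) := fun hq =>
    ldT_ok hA hU hw hcv hP (used_pos hV hP hb hq)
  refine ⟨⟨fun T a b c k v hv => ?_⟩, ⟨fun T a b c k v hv => ?_⟩, ⟨fun T a b c k v hv => ?_⟩⟩
  · obtain ⟨x, hx, hk⟩ := covDT_src c3 (mem_srcT a b c)
    have hv' : v ∈ Pos (KTab mf KT x.k t) := by rw [hk]; exact hv
    exact P0 _ (srT_mem hx) _ (fmT_ok hA hU hw hcv _ _)
      (hld (Or.inr (Or.inr (Or.inr (Or.inr (Or.inr (Or.inr (Or.inl ⟨x, hx, rfl⟩)))))))) k v hv'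
  · obtain ⟨x, hx, hk⟩ := covDT_src c4 (mem_srcT a b c)
    obtain ⟨x', hx', hk'⟩ := covDT_src c6 (mem_srcT a b c)
    have hd' : ∀ v ∈ Pos (KTab mf KT x.k t), (RMb p q r (nx s0 2) 2 w).mulVec v ∈
        Pos (KTab mf KT (idx (nx (nx s0 2) 2) T4.two) t) := by
      intro u hu
      exact hd T a b c u (by rw [← hk]; exact hu)
    have hv' : v ∈ Pos (KTab mf KT x.k t) := by rw [hk]; exact hv
    exact P1 _ (srT_mem hx) _ (fmT_ok hA hU hw hcv _ _)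
      (hld (Or.inr (Or.inr (Or.inr (Or.inr (Or.inr (Or.inr (Or.inr (Or.inr
        (Or.inl ⟨x, hx, rfl⟩))))))))))
      _ (srT_mem hx') (by
        show HOK OK (KTab mf KT x.k t) (fmT A U w' cv KT x'.k)
        rw [hk, ← hk']
        exact fmT_ok hA hU hw hcv _ _) (hld (Or.inl ⟨x', hx', rfl⟩)) hd' k v hv'
  · obtain ⟨x, hx, hk⟩ := covDT_src c5 (mem_srcT a b c)
    have he' : ∀ v ∈ Pos (KTab mf KT x.k t), (RMb p q r (nx (nx s0 2) 2) 2 w).mulVec v ∈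
        Pos (KTab mf KT (idx s0 T4.two) t) := by
      intro u hu
      exact he T a b c u (by rw [← hk]; exact hu)
    have hv' : v ∈ Pos (KTab mf KT x.k t) := by rw [hk]; exact hv
    exact P2 _ (srT_mem hx) _ (fmT_ok hA hU hw hcv _ _)
      (hld (Or.inr (Or.inr (Or.inr (Or.inr (Or.inr (Or.inr (Or.inr
        (Or.inl ⟨x, hx, rfl⟩))))))))) he' k v hv'

/-- ONE ORIENTATION -/
theorem chBoT_hB (hA : AOK D lf A) (hU : UOK D lf mf U) (hw : w' * 2 ^ D = 2 ^ 28)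
    (hV : VLw D mf V) (hP : PT D t) (hR : ArS R OK HK)
    (hcv : ∀ {f : ℂ} {m : Pool.Agent.Helper86.CT.Mo α}, TOK D lf t f m → OK f (cv m))
    (hp : 3 ≤ p) (hq : 3 ≤ q) (hr : 3 ≤ r)
    {s0 : GS} (hs : DG s0) (hom : ∀ s, DG s → omS p q r s w ≠ 0) (hz : zS s0 w ≠ 0)
    {l0 l1 l2 k0 k1 k2 z zi : M}
    (hl0 : OK ((lamS p q r s0 : ℝ) : ℂ) l0)
    (hl1 : OK ((lamS p q r (nx s0 2) : ℝ) : ℂ) l1)
    (hl2 : OK ((lamS p q r (nx (nx s0 2) 2) : ℝ) : ℂ) l2)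
    (hk0 : OK ((kk p q r s0.1 s0.2.1 : ℝ) : ℂ) k0)
    (hk1 : OK ((kk p q r s0.2.1 s0.2.2 : ℝ) : ℂ) k1)
    (hk2 : OK ((kk p q r s0.1 s0.2.2 : ℝ) : ℂ) k2)
    (hzz : OK (zS s0 w) z) (hzi : OK (zS s0 w)⁻¹ zi)
    {KT : β} {B : BDT α β} {Q : AD} (hQ : chAB B Q = true)
    {idx : GS → T4 → ℕ} (hc : covDT idx p q r s0 B = true)
    (h : chBoT A U w' V R cv KT B l0 l1 l2 k0 k1 k2 z zi = true)
    (hd : ∀ T : T4, T.ok (ML p q r (nx s0 2)) → T.low (ML p q r (nx s0 2)) ≤ 2 → T ≠ T4.two →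
      ∀ v ∈ Pos (KTab mf KT (idx (nx s0 2) T) t),
        (RMb p q r (nx s0 2) 2 w).mulVec v ∈ Pos (KTab mf KT (idx (nx (nx s0 2) 2) T4.two) t))
    (he : ∀ T : T4, T.ok (ML p q r (nx (nx s0 2) 2)) → T.low (ML p q r (nx (nx s0 2) 2)) ≤ 2 →
      T ≠ T4.two → ∀ v ∈ Pos (KTab mf KT (idx (nx (nx s0 2) 2) T) t),
        (RMb p q r (nx (nx s0 2) 2) 2 w).mulVec v ∈ Pos (KTab mf KT (idx s0 T4.two) t)) :
    HB3 idx p q r w (fun k => Pos (KTab mf KT k t)) s0 ∧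
      HB3 idx p q r w (fun k => Pos (KTab mf KT k t)) (nx s0 2) ∧
      HB3 idx p q r w (fun k => Pos (KTab mf KT k t)) (nx (nx s0 2) 2) := by
  have hc' := hc
  unfold covDT at hc'
  simp only [Bool.and_eq_true] at hc'
  obtain ⟨⟨⟨⟨⟨⟨c0, c1⟩, c2⟩, -⟩, -⟩, -⟩, -⟩ := hc'
  have c0' := Nat.eq_of_beq_eq_true c0
  have c1' := Nat.eq_of_beq_eq_true c1
  have c2' := Nat.eq_of_beq_eq_true c2
  obtain ⟨ν, hO⟩ := chBoT_sound (Kt := fun s => KTab mf KT (idx s T4.two) t) hA hU hw hV hP hR hcv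
    hp hq hr hs hom hz hl0 hl1 hl2 hk0 hk1 hk2 hzz hzi hQ (by rw [c0']) (by rw [c1'])
    (by rw [c2']) h
  exact oth_hB hA hU hw hV hP hcv hp hq hr hc (andBt h).1 hO hd he

/-- SOUNDNESS OF A B TEST (classes with tails) -/
def BTOK (D : ℕ) (lf : α → Vt D → ℂ) (mf : (ℕ → ℝ) → β → (ℕ → ℝ) → ℝ) (F : BTT α β) : Prop :=
  ∀ {t : ℕ → ℝ}, PT D t → ∀ {p q r : ℕ} {w : ℂ}, 3 ≤ p → 3 ≤ q → 3 ≤ r →
    (∀ s, DG s → omS p q r s w ≠ 0) → ∀ {z : ℂ}, z = (1 + w) / (1 - w) → z ≠ 0 →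
    ∀ {k0 k1 k2 : Pool.Agent.Helper86.CT.Mo α},
    TOK D lf t (Pool.Agent.Helper6.MONO.Kp p : ℂ) k0 →
    TOK D lf t (Pool.Agent.Helper6.MONO.Kp q : ℂ) k1 →
    TOK D lf t (Pool.Agent.Helper6.MONO.Kp r : ℂ) k2 →
    ∀ {κ : Fin 3 → ℂ}, κ 0 = Pool.Agent.Helper6.MONO.Kp p →
    κ 1 = Pool.Agent.Helper6.MONO.Kp q → κ 2 = Pool.Agent.Helper6.MONO.Kp r →
    ∀ {C : Cls α}, CLT D lf t κ C → ∀ {Um Zm : Pool.Agent.Helper86.CT.Mo α},
    TOK D lf t z⁻¹ Um → TOK D lf t z Zm →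
    ∀ {KT : β} {Dp Dm : BDT α β}, F k0 k1 k2 C Dp Dm KT Um Zm = true →
    ∀ {Qp Qm : AD}, chAB Dp Qp = true → chAB Dm Qm = true → ∀ {idx : GS → T4 → ℕ},
    covDT idx p q r (0, 1, 2) Dp = true → covDT idx p q r (0, 2, 1) Dm = true →
    (∀ s, (s = (1, 2, 0) ∨ s = (2, 1, 0) ∨ s = (2, 0, 1) ∨ s = (1, 0, 2)) → ∀ T : T4,
      T.ok (ML p q r s) →
      T.low (ML p q r s) ≤ 2 → T ≠ T4.two → ∀ v, 0 < ev (KTab mf KT (idx s T) t) v →
        0 < ev (KTab mf KT (idx (nx s 2) T4.two) t) ((RMb p q r s 2 w).mulVec v)) →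
    ∀ s, DG s → ∀ T : T4, T.ok (ML p q r s) → T.low (ML p q r s) ≤ 2 → T ≠ T4.two → ∀ k : ℕ,
      ∀ v, 0 < ev (KTab mf KT (idx s T) t) v →
        0 < ev (KTab mf KT (idx (sD s (List.replicate (k + 1) 2)) T4.two) t)
          ((Pool.Agent.Helper21.SUP.gM (RMb p q r) s (List.replicate (k + 1) 2) w).mulVec v)

/-- THE B TESTS OF A CELL ARE SOUND, any arithmetic -/
theorem chBR_ok {K : Mc α β p' v' γ} (hA : AOK D lf K.A) (hU : UOK D lf mf K.U)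
    (hw : K.w * 2 ^ D = 2 ^ 28) (hV : VLw D mf V)
    (hRs : ∀ {t : ℕ → ℝ}, PT D t → ∃ (OK : ℂ → M → Prop) (HK : Hm ℝ → PH → Prop), ArS R OK HK ∧
      ∀ {f : ℂ} {m : Pool.Agent.Helper86.CT.Mo α}, TOK D lf t f m → OK f (cv m)) :
    BTOK D lf mf (chBR K V R cv) := by
  intro t hP p q r w hp hq hr hom z hzw hz k0 k1 k2 a0 a1 a2 κ e0 e1 e2 C hC Um Zm hUm hZ KT Dp Dm
    h Qp Qm b0 b1 idx cp cm hd
  obtain ⟨OK, HK, hR, hcv⟩ := hRs hP
  obtain ⟨g0, g1⟩ := andBt h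
  have l0 := hcv hC.l0
  have l1 := hcv hC.l1
  have l2 := hcv hC.l2
  rw [e0, e1, e2] at l0 l1 l2
  replace a0 := hcv a0
  replace a1 := hcv a1
  replace a2 := hcv a2
  replace hUm := hcv hUm
  replace hZ := hcv hZ
  have f : ∀ a b c : ℝ, (2 * (c : ℂ) / ((a : ℂ) * (b : ℂ))) = ((2 * c / (a * b) : ℝ) : ℂ) := by
    intro a b c
    push_cast
    rfl
  rw [f] at l0 l1 l2
  have dp : DG ((0, 1, 2) : GS) := ⟨by decide, by decide, by decide⟩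
  have dm : DG ((0, 2, 1) : GS) := ⟨by decide, by decide, by decide⟩
  have zp : zS ((0, 1, 2) : GS) w = z⁻¹ := by
    unfold zS
    rw [if_neg (by decide), hzw, inv_div]
  have zm : zS ((0, 2, 1) : GS) w = z := by
    unfold zS
    rw [if_pos (by decide), hzw]
  have s20 : kk p q r 0 2 = kk p q r 2 0 := LNI_kk_symm p q r 0 2
  have s10 : kk p q r 1 0 = kk p q r 0 1 := LNI_kk_symm p q r 1 0
  have s21 : kk p q r 2 1 = kk p q r 1 2 := LNI_kk_symm p q r 2 1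
  have q01 : kk p q r 0 1 = Pool.Agent.Helper6.MONO.Kp p := rfl
  have q12 : kk p q r 1 2 = Pool.Agent.Helper6.MONO.Kp q := rfl
  have q20 : kk p q r 2 0 = Pool.Agent.Helper6.MONO.Kp r := rfl
  have nx1 : nx ((0, 1, 2) : GS) 2 = (1, 2, 0) := nx_even _ 2 rfl
  have nx2 : nx ((1, 2, 0) : GS) 2 = (2, 0, 1) := nx_even _ 2 rfl
  have mx1 : nx ((0, 2, 1) : GS) 2 = (2, 1, 0) := nx_even _ 2 rfl
  have mx2 : nx ((2, 1, 0) : GS) 2 = (1, 0, 2) := nx_even _ 2 rfl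
  have hp3 := chBoT_hB hA hU hw hV hP hR hcv hp hq hr (s0 := (0, 1, 2)) dp hom
    (by rw [zp]; exact inv_ne_zero hz)
    (l0 := cv C.l0) (l1 := cv C.l1) (l2 := cv C.l2) (k0 := cv k0) (k1 := cv k1) (k2 := cv k2)
    (z := cv Um) (zi := cv Zm)
    (okE l0 (by
      show _ = ((2 * kk p q r 1 2 / (kk p q r 0 1 * kk p q r 0 2) : ℝ) : ℂ)
      rw [s20, q01, q12, q20]))
    (by
      rw [nx1]
      exact okE l1 (by
        show _ = ((2 * kk p q r 2 0 / (kk p q r 1 2 * kk p q r 1 0) : ℝ) : ℂ)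
        rw [s10, q01, q12, q20]))
    (by
      rw [nx1, nx2]
      exact okE l2 (by
        show _ = ((2 * kk p q r 0 1 / (kk p q r 2 0 * kk p q r 2 1) : ℝ) : ℂ)
        rw [s21, q01, q12, q20]))
    a0 a1 (okE a2 (by
      show _ = ((kk p q r 0 2 : ℝ) : ℂ)
      rw [s20, q20])) (by rw [zp]; exact hUm) (by rw [zp, inv_inv]; exact hZ) b0 cp g0
    (by
      rw [nx1]
      intro T a b c v hv
      exact hd (1, 2, 0) (Or.inl rfl) T a b c v hv)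
    (by
      rw [nx1, nx2]
      intro T a b c v hv
      exact hd (2, 0, 1) (Or.inr (Or.inr (Or.inl rfl))) T a b c v hv)
  have hm3 := chBoT_hB hA hU hw hV hP hR hcv hp hq hr (s0 := (0, 2, 1)) dm hom
    (by rw [zm]; exact hz)
    (l0 := cv C.l0) (l1 := cv C.l2) (l2 := cv C.l1) (k0 := cv k2) (k1 := cv k1) (k2 := cv k0)
    (z := cv Zm) (zi := cv Um)
    (okE l0 (by
      show _ = ((2 * kk p q r 2 1 / (kk p q r 0 2 * kk p q r 0 1) : ℝ) : ℂ)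
      rw [s20, s21, q01, q12, q20, mul_comm (Pool.Agent.Helper6.MONO.Kp r)]))
    (by
      rw [mx1]
      exact okE l2 (by
        show _ = ((2 * kk p q r 1 0 / (kk p q r 2 1 * kk p q r 2 0) : ℝ) : ℂ)
        rw [s10, s21, q01, q12, q20, mul_comm (Pool.Agent.Helper6.MONO.Kp q)]))
    (by
      rw [mx1, mx2]
      exact okE l1 (by
        show _ = ((2 * kk p q r 0 2 / (kk p q r 1 0 * kk p q r 1 2) : ℝ) : ℂ)
        rw [s10, s20, q01, q12, q20, mul_comm (Pool.Agent.Helper6.MONO.Kp p)]))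
    (okE a2 (by
      show _ = ((kk p q r 0 2 : ℝ) : ℂ)
      rw [s20, q20]))
    (okE a1 (by
      show _ = ((kk p q r 2 1 : ℝ) : ℂ)
      rw [s21, q12])) a0 (by rw [zm]; exact hZ) (by rw [zm]; exact hUm) b1 cm g1
    (by
      rw [mx1]
      intro T a b c v hv
      exact hd (2, 1, 0) (Or.inr (Or.inl rfl)) T a b c v hv)
    (by
      rw [mx1, mx2]
      intro T a b c v hv
      exact hd (1, 0, 2) (Or.inr (Or.inr (Or.inr rfl))) T a b c v hv)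
  rw [nx1, nx2] at hp3
  rw [mx1, mx2] at hm3
  obtain ⟨u0, u1, u2⟩ := hp3
  obtain ⟨v0, v1, v2⟩ := hm3
  intro s hs
  have hall : s = (0, 1, 2) ∨ s = (1, 2, 0) ∨ s = (2, 0, 1) ∨ s = (0, 2, 1) ∨ s = (2, 1, 0) ∨
      s = (1, 0, 2) := by
    obtain ⟨n, a, b⟩ := s
    obtain ⟨d1, d2, d3⟩ := hs
    simp only at d1 d2 d3
    revert n a b
    decide
  rcases hall with rfl | rfl | rfl | rfl | rfl | rfl
  · exact u0.h
  · exact u1.h
  · exact u2.h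
  · exact v0.h
  · exact v1.h
  · exact v2.h

/-- the unpacked arithmetic -/
theorem chBU_ok {K : Mc α β p' v' γ} {W : Lw α} (hA : AOK D lf K.A) (hU : UOK D lf mf K.U)
    (hw : K.w * 2 ^ D = 2 ^ 28) (hV : VLw D mf V) (hW : LwOK D lf W) :
    BTOK D lf mf (chBU K V W) :=
  chBR_ok hA hU hw hV fun {t} hP => ⟨TOK D lf t, HOK (TOK D lf t), arT_sound hA hW hP, fun h => h⟩

end Pool.Agent.Helper57.KNB
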