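import Pool.Agent.Helper57.KNB.KC2
import Pool.Agent.Helper57.KNB.KT8
import Pool.Agent.Helper39.CT.NFE

/-!
Row KTB, part 3: near cells of classes with tails with tests of type B: from the tests to the cell
of the quarter, line `x_0 = x_B` (`fB p q r x0 = 0`).
-/

set_option autoImplicit false
set_option exponentiation.threshold 4000
noncomputable section
namespace Pool.Agent.Helper57.KNB

open Pool.Agent.Helper81.MIT
open Pool.Agent.Helper86.CX (Hm P9 VR ev Cx andB)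
open Pool.Agent.Helper86.CT (LT2 Mo Mc Mq Sv Vx Cls Prog CellT Rw chkDT mk addM uM zM Alg mkCls
  clsOK xAM xAOK)
open Pool.Agent.Helper90.C75 (Vt)
open Pool.Agent.Helper90.KMT (PT TOK KTab CLT)
open Pool.Agent.Helper6.MONO (V3 RV2 TCert kk mm RMb zw Kp xA fB omS kb kap_enc sD Thr)
open Pool.Agent.Helper6.MONO.QTR (V0 e0 TCell tcell_of_z)
open Pool.Agent.Helper6.MID
open Pool.Agent.Helper6.MTC (RK)
open Pool.Agent.Helper6.PIE (z_ne)
open Pool.Agent.Helper6.PRG (giS)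
open Pool.Agent.Helper21.SUP (GS DG gM)
open Pool.Agent.Helper21.SUP renaming nx → nxs
open Pool.Agent.Helper21.KCE (andB_tt)
open Pool.Agent.Helper39.NCL (WN wS NA zw_ne)
open Pool.Agent.Helper39.KNF (AD)
open Pool.Agent.Helper39.SLT (T4 ML)
open Pool.Agent.Helper39.NFT
open Pool.Agent.Helper21.KRN (TProg PtR cκ NZ XM expand xOK)
open Pool.Agent.Helper21.KTE (MZ KS wfK CLD chkDT_pt sideT TOK_xA)
open Pool.Agent.Helper48.NCT (IT FTT NDT chkNT chkIT_pos ON NearC coverNT nearC_of)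
open Pool.Agent.Helper32.C75 (cell3)
open Complex ComplexConjugate

variable {p q r : ℕ}

/-! ### side conditions -/

/-- the check of the powers in a cell which contains `y = 0` -/
def chCT (Ts : List (ℕ × ℕ)) (rho n bm : ℕ) (Vs : List (List (ℕ × ℕ))) (A : AD) : Bool :=
  cell3 A.ax Vs A.K Ts rho A.H n A.x0 A.x1 A.y0 A.y1 A.T &&
    (Ts.all fun c => Nat.ble (c.1 + rho) 4194304 && Nat.ble (c.2 + rho) 4194304) &&
    (Vs.all fun V => V.all fun v => Nat.ble v.2 bm) && Nat.ble bm 6710886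

/-- powers data of a near cell, both orientations -/
structure AB where
  P : AD
  M : AD

variable {α β : Type}

def chAC (bm : ℕ) (B : BDT α β) (Q : AD) : Bool :=
  chCT B.Ts B.rho B.lq.length bm (B.tl.map fun T => T.V) Q

/-- side condition of the B data of a cell -/
def sideB (d : BND α β) (a : AB) : Bool :=
  if d.b = true then chAC d.bm d.P a.P && chAC d.bm d.M a.M else chAB d.P a.P && chAB d.M a.M

/-- SOUNDNESS OF A B TEST OF A NEAR CELL on the line `x_0 = x_B` -/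
def BXOK (D : ℕ) (lf : α → Vt D → ℂ) (mf : (ℕ → ℝ) → β → (ℕ → ℝ) → ℝ) (F : BXT α β) : Prop :=
  ∀ {t : ℕ → ℝ}, PT D t → ∀ {p q r : ℕ} {w : ℂ}, 3 ≤ p → 3 ≤ q → 3 ≤ r →
    (∀ s, DG s → omS p q r s w ≠ 0) → ∀ {z : ℂ}, z = (1 + w) / (1 - w) → z ≠ 0 →
    (z⁻¹).im ≤ 0 → ∀ {x0 y : ℝ} {yb : ℕ}, -2 < x0 → x0 ≤ 2 → 0 ≤ y → y ≤ (yb : ℝ) / 2 ^ 48 →
    z + z⁻¹ = (x0 : ℂ) + (y : ℂ) * I → fB p q r x0 = 0 →
    ∀ {k0 k1 k2 : Mo α}, TOK D lf t (Kp p : ℂ) k0 → TOK D lf t (Kp q : ℂ) k1 →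
    TOK D lf t (Kp r : ℂ) k2 → ∀ {κ : Fin 3 → ℂ}, κ 0 = Kp p → κ 1 = Kp q → κ 2 = Kp r →
    ∀ {C : Cls α}, CLT D lf t κ C → ∀ {X Um Zm : Mo α}, TOK D lf t (x0 : ℂ) X →
    (∀ v, (lf X.v v).im = 0) → TOK D lf t z⁻¹ Um → TOK D lf t z Zm →
    ∀ {KT : β} {d : BND α β}, F k0 k1 k2 C X yb d KT Um Zm = true →
    ∀ {a : AB}, sideB d a = true → ∀ {idx : GS → T4 → ℕ},
    covDT idx p q r (0, 1, 2) d.P = true → covDT idx p q r (0, 2, 1) d.M = true →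
    (∀ s, (s = (1, 2, 0) ∨ s = (2, 1, 0) ∨ s = (2, 0, 1) ∨ s = (1, 0, 2)) → ∀ T : T4,
      T.ok (ML p q r s) → T.low (ML p q r s) ≤ 2 → T ≠ T4.two →
      ∀ v, 0 < ev (KTab mf KT (idx s T) t) v →
        0 < ev (KTab mf KT (idx (nxs s 2) T4.two) t) ((RMb p q r s 2 w).mulVec v)) →
    ∀ s, DG s → ∀ T : T4, T.ok (ML p q r s) → T.low (ML p q r s) ≤ 2 → T ≠ T4.two → ∀ k : ℕ,
      ∀ v, 0 < ev (KTab mf KT (idx s T) t) v →
        0 < ev (KTab mf KT (idx (sD s (List.replicate (k + 1) 2)) T4.two) t)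
          ((gM (RMb p q r) s (List.replicate (k + 1) 2) w).mulVec v)

/-! ### the cover -/

/-- the single runs of two letters at a state, types other than `two` -/
def covHT (p q r : ℕ) (BE BO : List ℕ) (G : TProg) (s : GS) : Bool :=
  (tysT (ML p q r s)).all fun T =>
    if T.low (ML p q r s) ≤ 2 ∧ T ≠ T4.two then
      hasRun p q r BE BO G s 2 (kidxT p q r (nxs s 2) T4.two) (kidxT p q r s T) else true

/-- the data of a module of near cells with tests of type B cover everything -/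
def modNB (a b c : Lb) (W0 W1 W2 : WN) (BE BO : List ℕ) (G : TProg) (il : List IT)
    (sl : List ℕ) (le : List LT2) : Bool :=
  coverNT a.rp b.rp c.rp true W0 W1 W2 BE BO G il && (covRTs a.rp b.rp c.rp G &&
    (coverLT a.rp b.rp c.rp G && (covTT a.rp b.rp c.rp sl && (covLT a b c le &&
      (covHT a.rp b.rp c.rp BE BO G (1, 2, 0) && (covHT a.rp b.rp c.rp BE BO G (2, 1, 0) &&
      (covHT a.rp b.rp c.rp BE BO G (2, 0, 1) && covHT a.rp b.rp c.rp BE BO G (1, 0, 2))))))))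

theorem srcT_rep (M : ℕ) : srcT (rep M) = srcT M := by
  have h : rep M = M ∨ (rep M = 10 ∧ 10 ≤ M) := by
    rcases Nat.lt_or_ge M 10 with h | h
    · exact Or.inl (rep_of_lt h)
    · exact Or.inr ⟨rep_of_ge h, h⟩
  rcases h with h | ⟨h, h'⟩
  · rw [h]
  · rw [h]
    have a1 : ¬ (M = 3) := by omega
    have a2 : 5 ≤ M := by omega
    simp [srcT, a1, a2]

theorem covDT_rep {p q r : ℕ} {s : GS} (hs : DG s) (B : BDT α β) :
    covDT (kidxT (rep p) (rep q) (rep r)) (rep p) (rep q) (rep r) s B =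
      covDT (kidxT p q r) p q r s B := by
  have h1 := Pool.Agent.Helper21.SUP.DG_nx s 2 hs
  have h2 := Pool.Agent.Helper21.SUP.DG_nx _ 2 h1
  unfold covDT
  simp only [kidxT_rep p q r hs, kidxT_rep p q r h1, kidxT_rep p q r h2, ML_rep p q r hs,
    ML_rep p q r h1, ML_rep p q r h2, srcT_rep]

/-- the single runs of two letters -/
theorem run2_of (hp : 3 ≤ p) (hq : 3 ≤ q) (hr : 3 ≤ r) {z : ℂ} (hz : z ≠ 0) (hz1 : z + 1 ≠ 0)
    {K : ℕ → Hm ℝ} {G : TProg} (hK : Pool.Agent.Helper21.KRN.KResT K (kR p q r) z G)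
    {BE BO : List ℕ} (hbr : brOK BE BO = true) {s : GS} (hs : DG s)
    (hc : covHT (rep p) (rep q) (rep r) BE BO G s = true) (T : T4) (hT : T.ok (ML p q r s))
    (hl : T.low (ML p q r s) ≤ 2) (hT2 : T ≠ T4.two) (v : Fin 3 → ℂ)
    (hv : 0 < ev (K (kidxT p q r s T)) v) :
    0 < ev (K (kidxT p q r (nxs s 2) T4.two)) ((RMb p q r s 2 (zw z)).mulVec v) := by
  have hM3 : 3 ≤ ML p q r s :=
    Pool.Agent.Helper6.MONO.LNI_mm hp hq hr _ _ (fun e => hs.2.2 e.symm)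
  have h3m : 3 ≤ mm p q r s.1 s.2.1 := Pool.Agent.Helper6.MONO.LNI_mm hp hq hr _ _ hs.1
  unfold covHT at hc
  rw [ML_rep p q r hs, tysT_rep, List.all_eq_true] at hc
  have h5 := hc _ (cut_mem hT)
  rw [low_rep _ hM3, if_pos ⟨(cut_low T).trans hl, fun h =>
    hT2 (Pool.Agent.Helper48.NCT.cut_two h)⟩, kidxT_rep p q r hs, kidxT_cut,
    kidxT_rep p q r (Pool.Agent.Helper21.SUP.DG_nx s 2 hs)] at h5
  exact run_ofT hp hq hr hbr hz hz1 hK hs le_rfl (by omega) h5 v hv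

/-- THE CERTIFICATE AT A POINT OF A NEAR CELL -/
theorem near_certB (hp : 3 ≤ p) (hq : 3 ≤ q) (hr : 3 ≤ r) {a b c : Lb} (ha : a.has p)
    (hb : b.has q) (hc : c.has r) {z : ℂ} (hz : z ≠ 0) (hz1 : z + 1 ≠ 0) {K : ℕ → Hm ℝ}
    {G : TProg} {sl : List ℕ} {le : List LT2} (hP : PtR K (kR p q r) z G sl le)
    {W0 W1 W2 : WN} {BE BO : List ℕ} {il : List IT}
    (hm : modNB a b c W0 W1 W2 BE BO G il sl le = true)
    (hI : ∀ x ∈ il, ∀ y ∈ x.s, ∀ v, 0 < ev (K y.k) v → 0 < ev (K x.k) v)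
    (hfam : ∀ s, DG s → giS s < 3 → (wS W0 W1 W2 (giS s)).f = true → ∀ m : ℕ, ∀ v,
      0 < ev (K (wS W0 W1 W2 (giS s)).e) v → 0 < ev (K (wS W0 W1 W2 (giS s)).x)
        ((gM (RMb p q r) s (List.replicate 2 3) (zw z) ^ (m + 1)).mulVec v))
    (hB : (∀ s, (s = (1, 2, 0) ∨ s = (2, 1, 0) ∨ s = (2, 0, 1) ∨ s = (1, 0, 2)) → ∀ T : T4,
      T.ok (ML p q r s) → T.low (ML p q r s) ≤ 2 → T ≠ T4.two →
      ∀ v, 0 < ev (K (kidxT p q r s T)) v →
        0 < ev (K (kidxT p q r (nxs s 2) T4.two)) ((RMb p q r s 2 (zw z)).mulVec v)) →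
      ∀ s, DG s → ∀ T : T4, T.ok (ML p q r s) → T.low (ML p q r s) ≤ 2 →
      T ≠ T4.two → ∀ k : ℕ, ∀ v, 0 < ev (K (kidxT p q r s T)) v →
        0 < ev (K (kidxT p q r (sD s (List.replicate (k + 1) 2)) T4.two))
          ((gM (RMb p q r) s (List.replicate (k + 1) 2) (zw z)).mulVec v)) :
    TCert V0 e0 p q r CBT (zw z) (RK fun s T => K (kidxT p q r s T)) := by
  unfold modNB at hm
  rw [lb_rp ha, lb_rp hb, lb_rp hc] at hm
  simp only [Bool.and_eq_true] at hm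
  obtain ⟨m1, m2, m3, m4, m5, m6, m7, m8, m9⟩ := hm
  have hbr : brOK BE BO = true := by
    unfold coverNT at m1
    rw [Bool.and_eq_true] at m1
    exact m1.1
  have hF := fcert_ofT hp hq hr ha hb hc hz hz1 hP.res m2 (κ := 1 / 2 ^ 10) (M := 2 ^ 12) m4
    hP.neg hP.bd (lposT_of hz hz1 m3 hP.res) m5 (slitT_of ha hb hc hP)
  have hd := hB (by
    rintro s (rfl | rfl | rfl | rfl) T hT hl hT2 v hv
    · exact run2_of hp hq hr hz hz1 hP.res hbr ⟨by decide, by decide, by decide⟩ m6 T hT hl hT2 v hv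
    · exact run2_of hp hq hr hz hz1 hP.res hbr ⟨by decide, by decide, by decide⟩ m7 T hT hl hT2 v
        hv
    · exact run2_of hp hq hr hz hz1 hP.res hbr ⟨by decide, by decide, by decide⟩ m8 T hT hl hT2 v
        hv
    · exact run2_of hp hq hr hz hz1 hP.res hbr ⟨by decide, by decide, by decide⟩ m9 T hT hl hT2 v
        hv)
  exact NearC.tcert hp hq hr (by positivity) hF
    (nearC_of hp hq hr hz hz1 hP.res m1 hI hfam fun _ => hd)

/-! ### one cell -/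

section

variable {P v γ δ : Type} {D : ℕ} {lC : α → Vt D → Cx} {lf : α → Vt D → ℂ}
  {mf : (ℕ → ℝ) → β → (ℕ → ℝ) → ℝ} {lp : P → Vt D → P9} {lv : v → Vt D → VR}
  {lg : γ → Vt D → ℕ} {Sp : P → List Bool → Prop} {Sv' : v → List Bool → Prop}
  {Sg : γ → List Bool → Prop} {M : Mc α β P v γ}

/-- `CAll` with the model of `x_0` -/
def CAllX (D : ℕ) (lf : α → Vt D → ℂ) (mf : (ℕ → ℝ) → β → (ℕ → ℝ) → ℝ) (A : Alg α)
    (p q r : ℕ) (x0 : ℝ) (G : TProg) (sl : List ℕ) (le : List LT2) (k0 k1 k2 : Mo α) (C : Cls α)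
    (X x : Mo α) (d : CellT α β) : Prop :=
  ∀ {z : ℂ} {y : ℝ}, 0 ≤ y → (d.ya : ℝ) / 2 ^ 48 ≤ y → y ≤ (d.yb : ℝ) / 2 ^ 48 → z ≠ 0 →
    (z⁻¹).im ≤ 0 → z + z⁻¹ = (x0 : ℂ) + (y : ℂ) * I →
    ∃ t, CPt D lf mf A p q r G sl le k0 k1 k2 C x d z t ∧ TOK D lf t (x0 : ℂ) X

/-- side condition of the B data: powers, numbers of the forms -/
def sideNB (a b c : Lb) (d : BND α β) (A : AB) : Bool :=
  sideB d A && (covDT (kidxT a.rp b.rp c.rp) a.rp b.rp c.rp (0, 1, 2) d.P &&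
    covDT (kidxT a.rp b.rp c.rp) a.rp b.rp c.rp (0, 2, 1) d.M)

/-- A NEAR CELL WITH B TESTS -/
theorem cell_NB (hM : Pool.Agent.Helper17.KPT.MK D lC lf mf lp lv lg Sp Sv' Sg M)
    (hn : ∀ (f : ℕ → ℝ) (T : β) (t : ℕ → ℝ), PT D t → (∀ x, 0 ≤ f x) → 0 ≤ mf f T t)
    {ONE : β} (h1 : ON mf ONE) {F : FTT α β δ} {kx ke : δ → ℕ} {SD : δ → Prop}
    (hF : FamOKT D lf mf F kx ke SD) {FB : BXT α β} (hFB : BXOK D lf mf FB) (hp : 3 ≤ p)
    (hq : 3 ≤ q) (hr : 3 ≤ r) {a b c : Lb}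
    (ha : a.has p) (hb : b.has q) (hc : c.has r) {x0 : ℝ} (x1 : -2 < x0) (x2 : x0 ≤ 2)
    (t1 : xA p q r ≤ x0) (t2 : xA q r p ≤ x0) (t3 : xA r p q ≤ x0) (tB : fB p q r x0 = 0)
    {W0 W1 W2 : WN} {BE BO : List ℕ} {G : TProg} {il : List IT} {sl : List ℕ}
    {le : List LT2} (hm : modNB a b c W0 W1 W2 BE BO G il sl le = true)
    {S : Sv P} {W : Vx β} {y : ℕ → ℕ → α} {k0 k1 k2 : Mo α} {C : Cls α} {Ge : Prog v}
    {X : Mo α} (hXr : ∀ v, (lf X.v v).im = 0) {d : NBT α β δ} (s0 : SdW kx ke SD W0 d.n.D0)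
    (s1 : SdW kx ke SD W1 d.n.D1) (s2 : SdW kx ke SD W2 d.n.D2) {A : AB}
    (sB : sideNB a b c d.B A = true)
    (H : chkNB M S W y F FB W0.f W1.f W2.f k0 k1 k2 C Ge X sl le ONE il d = true)
    (hD : chkDT M S W y C Ge X sl le d.n.c = true → CAllX D lf mf M.A p q r x0 G sl le k0 k1 k2 C
      X (addM M.A X (mk M.A (y d.n.c.ya d.n.c.yb) (nat_lit 0))) d.n.c) :
    TCell p q r x0 ((d.n.c.ya : ℝ) / 2 ^ 48) ((d.n.c.yb : ℝ) / 2 ^ 48) := by
  obtain ⟨H, HB⟩ := andB_tt H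
  obtain ⟨H1, H⟩ := andB_tt H
  obtain ⟨H2, H3⟩ := andB_tt H
  unfold sideNB at sB
  rw [lb_rp ha, lb_rp hb, lb_rp hc, covDT_rep ⟨by decide, by decide, by decide⟩,
    covDT_rep ⟨by decide, by decide, by decide⟩, Bool.and_eq_true, Bool.and_eq_true] at sB
  obtain ⟨sB, cP, cM⟩ := sB
  refine tcell_of_z x1 x2 CBT ?_
  intro z y hy0 hya hyb hz _ _ hui hzx
  obtain ⟨t, h, hX⟩ := hD H1 hy0 hya hyb hz hui hzx
  have hI := chkIT_pos hM hn h1 H2 h.pt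
  have hz1 := z_ne x1 hzx
  have hN : NZ (kap3 p q r) z := by
    have h2 := h.P.nz
    rwa [cκ_kR] at h2
  have hfam := fam_ptT hF hp hq hr x1 t1 t2 t3 h.pt hy0 hz hzx hN h.a0 h.a1 h.a2 h.C h.u h.z s0 s1 s2
    H3
  obtain ⟨hw1, hw2, hzw⟩ := zw_ne hz hz1
  have hom : ∀ s, DG s → omS p q r s (zw z) ≠ 0 := by
    intro s h
    rw [oZ_omS hz hz1 s h]
    exact nz_ne hN _
  exact ⟨_, near_certB hp hq hr ha hb hc hz hz1 h.P hm hI hfam
    (hFB h.pt hp hq hr hom hzw hz hui x1 x2 hy0 hyb hzx tB h.a0 h.a1 h.a2 rfl rfl rfl h.C hX hXr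
      h.u h.z HB sB cP cM)⟩

theorem pcNB_tcell {ε : Type} {f : NBT α β δ → Bool} {g : NBT α β δ → ε → Bool} {a b c : ℕ}
    {x0 : ℝ} {e : ℕ} :
    ∀ (l : List (NBT α β δ)) (d : NBT α β δ) (y : ℕ), pcNB f e (d :: l) y = true →
      (∀ u ∈ d :: l, ∃ A, g u A = true) →
      (∀ u ∈ d :: l, ∀ A, g u A = true → f u = true →
        TCell a b c x0 ((u.n.c.ya : ℝ) / 2 ^ 48) ((u.n.c.yb : ℝ) / 2 ^ 48)) →
      TCell a b c x0 ((y : ℝ) / 2 ^ 48) ((e : ℝ) / 2 ^ 48) := by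
  intro l
  induction l with
  | nil =>
    intro d y H hA hf
    obtain ⟨h1, H⟩ := andB_tt H
    obtain ⟨-, H⟩ := andB_tt H
    obtain ⟨h3, h4⟩ := andB_tt H
    have e1 : y = d.n.c.ya := Nat.eq_of_beq_eq_true h1
    have e2 : d.n.c.yb = e := Nat.eq_of_beq_eq_true h4
    obtain ⟨A, hA'⟩ := hA d List.mem_cons_self
    rw [e1, ← e2]
    exact hf d List.mem_cons_self A hA' h3
  | cons d' l ih =>
    intro d y H hA hf
    obtain ⟨h1, H⟩ := andB_tt H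
    obtain ⟨-, H⟩ := andB_tt H
    obtain ⟨h3, h4⟩ := andB_tt H
    have e1 : y = d.n.c.ya := Nat.eq_of_beq_eq_true h1
    obtain ⟨A, hA'⟩ := hA d List.mem_cons_self
    rw [e1]
    exact (hf d List.mem_cons_self A hA' h3).join (ih d' d.n.c.yb h4
      (fun u hu => hA u (List.mem_cons_of_mem _ hu)) fun u hu => hf u (List.mem_cons_of_mem _ hu))

end

/-! ### side conditions of a list of cells -/

/-- powers of a near cell: walls, both orientations -/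
structure NAB where
  w : NA
  b : AB

/-- two lists of the same length, side conditions -/
def sideLB {δ ε : Type} (f : NBT α β δ → ε → Bool) : List (NBT α β δ) → List ε → Bool
  | [], [] => true
  | d :: l, A :: m => f d A && sideLB f l m
  | _, _ => false

theorem sideLB_mem {δ ε : Type} {f : NBT α β δ → ε → Bool} {l : List (NBT α β δ)} {m : List ε}
    (h : sideLB f l m = true) : ∀ d ∈ l, ∃ A, f d A = true := by
  induction l generalizing m with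
  | nil => intro d hd; cases hd
  | cons x l ih =>
    cases m with
    | nil => cases h
    | cons A m =>
      have h' : (f x A && sideLB f l m) = true := h
      rw [Bool.and_eq_true] at h'
      intro d hd
      rcases List.mem_cons.1 hd with rfl | hd
      · exact ⟨A, h'.1⟩
      · exact ih h'.2 d hd

/-- all side conditions of a near cell -/
def sideNBT (a b c : Lb) (W0 W1 W2 : WN) (sc : CellT α β → Bool) (d : NBT α β (FDT β)) (A : NAB) :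
    Bool :=
  sideNT W0 W1 W2 sc d.n A.w && sideNB a b c d.B A.b

section

variable {P v γ : Type} {D : ℕ} {lC : α → Vt D → Cx} {lf : α → Vt D → ℂ}
  {mf : (ℕ → ℝ) → β → (ℕ → ℝ) → ℝ} {lp : P → Vt D → P9} {lv : v → Vt D → VR}
  {lg : γ → Vt D → ℕ} {Sp : P → List Bool → Prop} {Sv' : v → List Bool → Prop}
  {Sg : γ → List Bool → Prop} {M : Mc α β P v γ}

/-- A LIST OF NEAR CELLS WITH B TESTS -/
theorem list_NB (hM : Pool.Agent.Helper17.KPT.MK D lC lf mf lp lv lg Sp Sv' Sg M)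
    (hn : ∀ (f : ℕ → ℝ) (T : β) (t : ℕ → ℝ), PT D t → (∀ x, 0 ≤ f x) → 0 ≤ mf f T t)
    {ONE : β} (h1 : ON mf ONE) {F : FTT α β (FDT β)} (hF : FamTOK D lf mf F) {FB : BXT α β}
    (hFB : BXOK D lf mf FB) (hp : 3 ≤ p) (hq : 3 ≤ q) (hr : 3 ≤ r) {a b c : Lb}
    (ha : a.has p) (hb : b.has q) (hc : c.has r) {x0 : ℝ} (x1 : -2 < x0) (x2 : x0 ≤ 2)
    (t1 : xA p q r ≤ x0) (t2 : xA q r p ≤ x0) (t3 : xA r p q ≤ x0) (tB : fB p q r x0 = 0)
    {W0 W1 W2 : WN} {BE BO : List ℕ} {G : TProg} {il : List IT} {sl : List ℕ}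
    {le : List LT2} (hm : modNB a b c W0 W1 W2 BE BO G il sl le = true)
    {S : Sv P} {W : Vx β} {Y : ℕ → ℕ → α} {k0 k1 k2 : Mo α} {C : Cls α} {Ge : Prog v}
    {X : Mo α} (hXr : ∀ v, (lf X.v v).im = 0) {f0 f1 f2 : Bool} (g0 : f0 = W0.f) (g1 : f1 = W1.f)
    (g2 : f2 = W2.f) {sc : CellT α β → Bool} {l : List (NBT α β (FDT β))} (hl : l ≠ [])
    {As : List NAB} (hs : sideLB (sideNBT a b c W0 W1 W2 sc) l As = true)
    (hD : ∀ d : CellT α β, sc d = true → chkDT M S W Y C Ge X sl le d = true →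
      CAllX D lf mf M.A p q r x0 G sl le k0 k1 k2 C X
        (addM M.A X (mk M.A (Y d.ya d.yb) (nat_lit 0))) d) {y e : ℕ}
    (H : chkPNB M S W Y F FB f0 f1 f2 k0 k1 k2 C Ge X sl le ONE il e l y = true) :
    TCell p q r x0 ((y : ℝ) / 2 ^ 48) ((e : ℝ) / 2 ^ 48) := by
  subst g0
  subst g1
  subst g2
  obtain ⟨d, l, rfl⟩ := List.exists_cons_of_ne_nil hl
  refine pcNB_tcell l d y H (sideLB_mem hs) fun u _ A hA hc' => ?_
  unfold sideNBT sideNT at hA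
  simp only [Bool.and_eq_true] at hA
  obtain ⟨⟨h0, h2, h3, h4⟩, h5⟩ := hA
  exact cell_NB hM hn h1 (famOKT_of hF) hFB hp hq hr ha hb hc x1 x2 t1 t2 t3 tB hm hXr
    (sideWT_iff h2) (sideWT_iff h3) (sideWT_iff h4) h5 hc' (fun hd => hD u.n.c h0 hd)

end

section

variable {P v γ : Type} {D : ℕ} {lC : α → Vt (D + 1) → Cx} {lf : α → Vt (D + 1) → ℂ}
  {mf : (ℕ → ℝ) → β → (ℕ → ℝ) → ℝ} {lp : P → Vt (D + 1) → P9} {lv : v → Vt (D + 1) → VR}
  {lg : γ → Vt (D + 1) → ℕ} {Sa : α → List Bool → Prop} {Sp : P → List Bool → Prop}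
  {Sv' : v → List Bool → Prop} {Sg : γ → List Bool → Prop} {M : Mc α β P v γ}
  {S : Sv P} {W : Vx β} {Y : ℕ → ℕ → α} {qd : ℕ → Cx → Cx → Cx → α} {rt : α → Bool}

/-- A MODULE OF NEAR CELLS WITH B TESTS, line `x_0 = x_B` -/
theorem nearT_B {X : XM α v}
    (hZ : MZ D lC lf mf lp lv lg Sa Sp Sv' Sg M X.Q X.c X.r S W Y qd rt) {ONE : β}
    (h1 : ON mf ONE) {F : FTT α β (FDT β)} (hF : FamTOK (D + 1) lf mf F) {FB : BXT α β}
    (hFB : BXOK (D + 1) lf mf FB) {a b c : Lb} (ha : a.has p) (hb : b.has q) (hc : c.has r)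
    {s0 s1 s2 : KS} {Xo : Mo α} {x0 : ℝ} (hC : CLD D lf M qd rt X Xo s0 s1 s2 (kR p q r) x0)
    (x1 : -2 < x0) (x2 : x0 ≤ 2) (t1 : xA p q r ≤ x0) (t2 : xA q r p ≤ x0) (t3 : xA r p q ≤ x0)
    (tB : fB p q r x0 = 0) {W0 W1 W2 : WN} {BE BO : List ℕ} {G : TProg} {il : List IT}
    {sl : List ℕ} {le : List LT2} (hm : modNB a b c W0 W1 W2 BE BO G il sl le = true)
    {f0 f1 f2 : Bool} (g0 : f0 = W0.f) (g1 : f1 = W1.f) (g2 : f2 = W2.f)
    {l : List (NBT α β (FDT β))} (hl : l ≠ []) {As : List NAB}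
    (hs : sideLB (sideNBT a b c W0 W1 W2 (sideT W le)) l As = true) {y e : ℕ}
    (H : chkPNB M S W Y F FB f0 f1 f2 X.k0 X.k1 X.k2 (mkCls M.A X.k0 X.k1 X.k2) (expand X G)
      Xo sl le ONE il e l y = true) :
    TCell p q r x0 ((y : ℝ) / 2 ^ 48) ((e : ℝ) / 2 ^ 48) := by
  refine list_NB hZ.m.k hZ.w.pos h1 hF hFB (has_ge ha) (has_ge hb) (has_ge hc) ha hb hc x1 x2 t1 t2
    t3 tB hm (hZ.t _ hC.rt) g0 g1 g2 hl hs ?_ H
  intro d hd hk z h hh0 hha hhb hz hui hzx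
  obtain ⟨t, b1, b2, b3, b4, b5, b6, b7, b8⟩ := chkDT_pt hZ hC hd hk (h := h)
    (by rw [div_le_iff₀ (by positivity)] at hha; linarith)
    (by rw [le_div_iff₀ (by positivity)] at hhb; linarith) hz hzx hui
  have b9 := hC.x0 t b1 b3 b4 b5
  rw [cκ_kR] at b6
  exact ⟨t, ⟨b1, b2, b3, b4, b5, b6, b7, b8⟩, b9⟩

end

end Pool.Agent.Helper57.KNB
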