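import Pool.Agent.Helper57.KNB.KC6
import Pool.Agent.Helper12.CX.THR

/-!
Row KTB, part 7: THE B TESTS OF A NEAR CELL on the line `x_0 = x_B` are sound, the cell may contain
`y = 0`.
-/

set_option autoImplicit false
noncomputable section
namespace Pool.Agent.Helper57.KNB

open Pool.Agent.Helper86.C75 (Z)
open Pool.Agent.Helper86.CX (Cx andB u32 kf Hm mkH ev)
open Pool.Agent.Helper86.CT (Alg Up Mc Vx KM mkKM N3 Pr Cls)
open Pool.Agent.Helper90.C75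
open Pool.Agent.Helper90.KMO
open Pool.Agent.Helper90.KMT (lf0 nlf AOK TOK PT UOK mf0 nmf KTab KMK mkKM_ok vt_mk CLT TLW TOK.z)
open Pool.Agent.Helper39.KNF (C9 Sm AD)
open Pool.Agent.Helper39.SLT (T4 ML)
open Pool.Agent.Helper42.CH (powA)
open Pool.Agent.Helper6.MONO (sD SbP omS kk zS trBs esBs tauBs lamS RMb zS_om zS_nx2 LNI_kk
  LNI_kk_symm mm fBx fB fB_eq Kp)
open Pool.Agent.Helper21.SUP
open Complex ComplexConjugate

variable {α β p' v' γ M PH : Type} {D : ℕ} {lf : α → Vt D → ℂ}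
  {mf : (ℕ → ℝ) → β → (ℕ → ℝ) → ℝ} {t : ℕ → ℝ} {A : Alg α} {U : Up β α} {w' : ℕ} {V : Vx β}
  {OK : ℂ → M → Prop} {HK : Hm ℝ → PH → Prop} {cv : Pool.Agent.Helper86.CT.Mo α → M}
  {R : Ar M PH} {p q r : ℕ} {w : ℂ}

/-- ONE ORIENTATION in a cell which contains `y = 0` -/
theorem chBd_hB (hA : AOK D lf A) (hU : UOK D lf mf U) (hw : w' * 2 ^ D = 2 ^ 28)
    (hV : VLw D mf V) (hP : PT D t) (hR : ArS R OK HK)
    (hcv : ∀ {f : ℂ} {m : Pool.Agent.Helper86.CT.Mo α}, TOK D lf t f m → OK f (cv m))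
    (hp : 3 ≤ p) (hq : 3 ≤ q) (hr : 3 ≤ r)
    {s0 : GS} (hs : DG s0) (hom : ∀ s, DG s → omS p q r s w ≠ 0) (hz : zS s0 w ≠ 0)
    {l0 l1 l2 k0 k1 k2 z zi : M}
    (hl0 : OK ((lamS p q r s0 : ℝ) : ℂ) l0)
    (hl1 : OK ((lamS p q r (nx s0 2) : ℝ) : ℂ) l1)
    (hl2 : OK ((lamS p q r (nx (nx s0 2) 2) : ℝ) : ℂ) l2)
    (hk0 : OK ((kk p q r s0.1 s0.2.1 : ℝ) : ℂ) k0)
    (hk1 : OK ((kk p q r s0.2.1 s0.2.2 : ℝ) : ℂ) k1)
    (hk2 : OK ((kk p q r s0.1 s0.2.2 : ℝ) : ℂ) k2)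
    (hzz : OK (zS s0 w) z) (hzi : OK (zS s0 w)⁻¹ zi)
    {x0 y : ℝ} {yb bm : ℕ} (hy : 0 ≤ y) (hyb : y ≤ (yb : ℝ) / 2 ^ 48)
    (hx : zS s0 w + (zS s0 w)⁻¹ = (x0 : ℂ) + (y : ℂ) * I) {z0 : ℂ} (hz0 : ‖z0‖ = 1)
    (hx0 : z0 + z0⁻¹ = (x0 : ℂ)) {z0m zom v : M} (hz0m : OK z0 z0m) (hzom : OK z0⁻¹ zom)
    (hv : ∃ v0, OK v0 v)
    (hfB : fBx (kk p q r s0.1 s0.2.1 ^ 2 + kk p q r s0.2.1 s0.2.2 ^ 2 + kk p q r s0.1 s0.2.2 ^ 2 -
      3) (kk p q r s0.1 s0.2.1 * kk p q r s0.2.1 s0.2.2 * kk p q r s0.1 s0.2.2) x0 = 0)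
    {KT : β} {B : BDT α β} {Q : AD} (hQ : chAC bm B Q = true)
    {idx : GS → T4 → ℕ} (hc : covDT idx p q r s0 B = true)
    (h : chBd A U w' V R cv KT yb bm B l0 l1 l2 k0 k1 k2 z zi z0m zom v = true)
    (hd : ∀ T : T4, T.ok (ML p q r (nx s0 2)) → T.low (ML p q r (nx s0 2)) ≤ 2 → T ≠ T4.two →
      ∀ v ∈ Pos (KTab mf KT (idx (nx s0 2) T) t),
        (RMb p q r (nx s0 2) 2 w).mulVec v ∈ Pos (KTab mf KT (idx (nx (nx s0 2) 2) T4.two) t))
    (he : ∀ T : T4, T.ok (ML p q r (nx (nx s0 2) 2)) → T.low (ML p q r (nx (nx s0 2) 2)) ≤ 2 →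
      T ≠ T4.two → ∀ v ∈ Pos (KTab mf KT (idx (nx (nx s0 2) 2) T) t),
        (RMb p q r (nx (nx s0 2) 2) 2 w).mulVec v ∈ Pos (KTab mf KT (idx s0 T4.two) t)) :
    HB3 idx p q r w (fun k => Pos (KTab mf KT k t)) s0 ∧
      HB3 idx p q r w (fun k => Pos (KTab mf KT k t)) (nx s0 2) ∧
      HB3 idx p q r w (fun k => Pos (KTab mf KT k t)) (nx (nx s0 2) 2) := by
  have hc' := hc
  unfold covDT at hc'
  simp only [Bool.and_eq_true] at hc'
  obtain ⟨⟨⟨⟨⟨⟨c0, c1⟩, c2⟩, -⟩, -⟩, -⟩, -⟩ := hc'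
  have c0' := Nat.eq_of_beq_eq_true c0
  have c1' := Nat.eq_of_beq_eq_true c1
  have c2' := Nat.eq_of_beq_eq_true c2
  obtain ⟨ν, hO⟩ := chBd_sound (Kt := fun s => KTab mf KT (idx s T4.two) t) hA hU hw hV hP hR hcv
    hp hq hr hs hom hz hl0 hl1 hl2 hk0 hk1 hk2 hzz hzi hy hyb hx hz0 hx0 hz0m hzom hv hfB hQ
    (by rw [c0']) (by rw [c1']) (by rw [c2']) h
  exact oth_hB hA hU hw hV hP hcv hp hq hr hc (andBt h).1 hO hd he

/-- THE B TESTS OF A NEAR CELL ARE SOUND, any arithmetic -/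
theorem chBN_ok {K : Mc α β p' v' γ} (hA : AOK D lf K.A) (hU : UOK D lf mf K.U)
    (hw : K.w * 2 ^ D = 2 ^ 28) (hV : VLw D mf V) (hT : TLW D lf K.T)
    (hRs : ∀ {t : ℕ → ℝ}, PT D t → ∃ (OK : ℂ → M → Prop) (HK : Hm ℝ → PH → Prop), ArS R OK HK ∧
      ∀ {f : ℂ} {m : Pool.Agent.Helper86.CT.Mo α}, TOK D lf t f m → OK f (cv m)) :
    BXOK D lf mf (chBN K V R cv) := by
  intro t hP p q r w hp hq hr hom z hzw hz hui x0 y yb x1 x2 hy hyb hzx hfB k0 k1 k2 a0 a1 a2 κ e0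
    e1 e2 C hC X Um Zm hX hXr hUm hZ KT d h a ha idx cp cm hd
  unfold sideB at ha
  cases hb : d.b with
  | false =>
    rw [if_neg (by rw [hb]; decide), Bool.and_eq_true] at ha
    have h' : chBR K V R cv k0 k1 k2 C d.P d.M KT Um Zm = true := by
      unfold chBN at h
      rw [hb] at h
      exact h
    exact chBR_ok hA hU hw hV hRs hP hp hq hr hom hzw hz a0 a1 a2 e0 e1 e2 hC hUm hZ h' ha.1 ha.2
      cp cm hd
  | true =>
    rw [if_pos hb, Bool.and_eq_true] at ha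
    have h' : chBB K V R cv k0 k1 k2 C X yb d KT Um Zm = true := by
      unfold chBN at h
      rw [hb] at h
      exact h
    obtain ⟨m1, h'⟩ := andBt h'
    obtain ⟨m2, h'⟩ := andBt h'
    obtain ⟨g0, g1⟩ := andBt h'
    obtain ⟨OK, HK, hR, hcv⟩ := hRs hP
    -- the point `y = 0`
    have hq4 : 0 ≤ 1 - x0 ^ 2 / 4 := by nlinarith
    set sq := Real.sqrt (1 - x0 ^ 2 / 4) with hsq
    have sq2 : sq ^ 2 = 1 - x0 ^ 2 / 4 := Real.sq_sqrt hq4
    have sq0 : 0 ≤ sq := Real.sqrt_nonneg _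
    obtain ⟨z0, hz0d⟩ : ∃ z0 : ℂ, z0 = ((x0 / 2 : ℝ) : ℂ) + ((sq : ℝ) : ℂ) * I := ⟨_, rfl⟩
    have hns : normSq z0 = 1 := by
      rw [hz0d, normSq_apply]
      simp
      nlinarith
    have hn1 : ‖z0‖ = 1 := by
      rw [normSq_eq_norm_sq] at hns
      nlinarith [norm_nonneg z0]
    have hz00 : z0 ≠ 0 := by
      intro h0
      rw [h0, norm_zero] at hn1
      norm_num at hn1
    have hinv : z0⁻¹ = conj z0 := by
      rw [Complex.inv_def, hns]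
      simp
    have hx0 : z0 + z0⁻¹ = (x0 : ℂ) := by
      have hre : z0.re = x0 / 2 := by rw [hz0d]; simp
      rw [hinv, Complex.add_conj, hre, mul_div_cancel₀ _ (two_ne_zero)]
    have him : (z0⁻¹).im ≤ 0 := by
      have h5 : z0.im = sq := by rw [hz0d]; simp
      rw [hinv, Complex.conj_im, h5]
      linarith
    obtain ⟨tzo, tz0⟩ := TOK.z hA hP hz00 hx0 him hX.mod (by
        rw [Complex.ofReal_im, mul_zero]
        unfold avg
        rw [Complex.im_sum]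
        refine Finset.sum_eq_zero fun v _ => ?_
        rw [Complex.im_ofReal_mul, hXr v, mul_zero])
      (fun v => (hXr v).ge) (Nat.le_of_ble_eq_true m1) hT m2
    have hzo := hcv tzo
    have hz0 := hcv tz0
    have hvs : ∀ u : α, ∃ v0, OK v0 (cv (Pool.Agent.Helper86.CT.mk K.A u (nat_lit 0))) := by
      intro u
      refine ⟨avg (wtT D t) (lf u) / UU, hcv ⟨vt_mk hA _ _, ?_⟩⟩
      show ‖(UU : ℂ) * (avg (wtT D t) (lf u) / UU) - avg (wtT D t) (lf u)‖ ≤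
        ((nat_lit 0 : ℕ) : ℝ)
      have : (UU : ℂ) ≠ 0 := UUc_ne
      rw [mul_div_cancel₀ _ this, sub_self, norm_zero]
      exact Nat.cast_nonneg _
    have hzi0 : ‖z0⁻¹‖ = 1 := by rw [norm_inv, hn1, inv_one]
    have hx0' : z0⁻¹ + (z0⁻¹)⁻¹ = (x0 : ℂ) := by rw [inv_inv, add_comm]; exact hx0
    have hzx' : z⁻¹ + (z⁻¹)⁻¹ = (x0 : ℂ) + (y : ℂ) * I := by rw [inv_inv, add_comm]; exact hzx
    rw [fB_eq] at hfB
    have l0 := hcv hC.l0
    have l1 := hcv hC.l1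
    have l2 := hcv hC.l2
    rw [e0, e1, e2] at l0 l1 l2
    replace a0 := hcv a0
    replace a1 := hcv a1
    replace a2 := hcv a2
    replace hUm := hcv hUm
    replace hZ := hcv hZ
    have f : ∀ a b c : ℝ, (2 * (c : ℂ) / ((a : ℂ) * (b : ℂ))) = ((2 * c / (a * b) : ℝ) : ℂ) := by
      intro a b c
      push_cast
      rfl
    rw [f] at l0 l1 l2
    have dp : DG ((0, 1, 2) : GS) := ⟨by decide, by decide, by decide⟩
    have dm : DG ((0, 2, 1) : GS) := ⟨by decide, by decide, by decide⟩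
    have zp : zS ((0, 1, 2) : GS) w = z⁻¹ := by
      unfold zS
      rw [if_neg (by decide), hzw, inv_div]
    have zm : zS ((0, 2, 1) : GS) w = z := by
      unfold zS
      rw [if_pos (by decide), hzw]
    have s20 : kk p q r 0 2 = kk p q r 2 0 := LNI_kk_symm p q r 0 2
    have s10 : kk p q r 1 0 = kk p q r 0 1 := LNI_kk_symm p q r 1 0
    have s21 : kk p q r 2 1 = kk p q r 1 2 := LNI_kk_symm p q r 2 1
    have q01 : kk p q r 0 1 = Pool.Agent.Helper6.MONO.Kp p := rfl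
    have q12 : kk p q r 1 2 = Pool.Agent.Helper6.MONO.Kp q := rfl
    have q20 : kk p q r 2 0 = Pool.Agent.Helper6.MONO.Kp r := rfl
    have nx1 : nx ((0, 1, 2) : GS) 2 = (1, 2, 0) := nx_even _ 2 rfl
    have nx2 : nx ((1, 2, 0) : GS) 2 = (2, 0, 1) := nx_even _ 2 rfl
    have mx1 : nx ((0, 2, 1) : GS) 2 = (2, 1, 0) := nx_even _ 2 rfl
    have mx2 : nx ((2, 1, 0) : GS) 2 = (1, 0, 2) := nx_even _ 2 rfl
    have hp3 := chBd_hB hA hU hw hV hP hR hcv hp hq hr (s0 := (0, 1, 2)) dp hom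
      (by rw [zp]; exact inv_ne_zero hz)
      (l0 := cv C.l0) (l1 := cv C.l1) (l2 := cv C.l2) (k0 := cv k0) (k1 := cv k1) (k2 := cv k2)
      (z := cv Um) (zi := cv Zm)
      (okE l0 (by
        show _ = ((2 * kk p q r 1 2 / (kk p q r 0 1 * kk p q r 0 2) : ℝ) : ℂ)
        rw [s20, q01, q12, q20]))
      (by
        rw [nx1]
        exact okE l1 (by
          show _ = ((2 * kk p q r 2 0 / (kk p q r 1 2 * kk p q r 1 0) : ℝ) : ℂ)
          rw [s10, q01, q12, q20]))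
      (by
        rw [nx1, nx2]
        exact okE l2 (by
          show _ = ((2 * kk p q r 0 1 / (kk p q r 2 0 * kk p q r 2 1) : ℝ) : ℂ)
          rw [s21, q01, q12, q20]))
      a0 a1 (okE a2 (by
        show _ = ((kk p q r 0 2 : ℝ) : ℂ)
        rw [s20, q20])) (by rw [zp]; exact hUm) (by rw [zp, inv_inv]; exact hZ)
      (x0 := x0) (y := y) (yb := yb) (bm := d.bm) hy hyb (by rw [zp]; exact hzx') hzi0 hx0'
      (v := cv (Pool.Agent.Helper86.CT.mk K.A d.vp (nat_lit 0))) hzo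
      (by rw [inv_inv]; exact hz0) (hvs _) (by
        show fBx (kk p q r 0 1 ^ 2 + kk p q r 1 2 ^ 2 + kk p q r 0 2 ^ 2 - 3)
          (kk p q r 0 1 * kk p q r 1 2 * kk p q r 0 2) x0 = 0
        rw [s20, q01, q12, q20]
        exact hfB) ha.1 cp g0
      (by
        rw [nx1]
        intro T a b c v hv
        exact hd (1, 2, 0) (Or.inl rfl) T a b c v hv)
      (by
        rw [nx1, nx2]
        intro T a b c v hv
        exact hd (2, 0, 1) (Or.inr (Or.inr (Or.inl rfl))) T a b c v hv)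
    have hm3 := chBd_hB hA hU hw hV hP hR hcv hp hq hr (s0 := (0, 2, 1)) dm hom
      (by rw [zm]; exact hz)
      (l0 := cv C.l0) (l1 := cv C.l2) (l2 := cv C.l1) (k0 := cv k2) (k1 := cv k1) (k2 := cv k0)
      (z := cv Zm) (zi := cv Um)
      (okE l0 (by
        show _ = ((2 * kk p q r 2 1 / (kk p q r 0 2 * kk p q r 0 1) : ℝ) : ℂ)
        rw [s20, s21, q01, q12, q20, mul_comm (Pool.Agent.Helper6.MONO.Kp r)]))
      (by
        rw [mx1]
        exact okE l2 (by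
          show _ = ((2 * kk p q r 1 0 / (kk p q r 2 1 * kk p q r 2 0) : ℝ) : ℂ)
          rw [s10, s21, q01, q12, q20, mul_comm (Pool.Agent.Helper6.MONO.Kp q)]))
      (by
        rw [mx1, mx2]
        exact okE l1 (by
          show _ = ((2 * kk p q r 0 2 / (kk p q r 1 0 * kk p q r 1 2) : ℝ) : ℂ)
          rw [s10, s20, q01, q12, q20, mul_comm (Pool.Agent.Helper6.MONO.Kp p)]))
      (okE a2 (by
        show _ = ((kk p q r 0 2 : ℝ) : ℂ)
        rw [s20, q20]))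
      (okE a1 (by
        show _ = ((kk p q r 2 1 : ℝ) : ℂ)
        rw [s21, q12])) a0 (by rw [zm]; exact hZ) (by rw [zm]; exact hUm)
      (x0 := x0) (y := y) (yb := yb) (bm := d.bm) hy hyb (by rw [zm]; exact hzx) hn1 hx0
      (v := cv (Pool.Agent.Helper86.CT.mk K.A d.vm (nat_lit 0))) hz0 hzo (hvs _) (by
        show fBx (kk p q r 0 2 ^ 2 + kk p q r 2 1 ^ 2 + kk p q r 0 1 ^ 2 - 3)
          (kk p q r 0 2 * kk p q r 2 1 * kk p q r 0 1) x0 = 0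
        rw [s20, s21, q01, q12, q20]
        have c1 : Kp r ^ 2 + Kp q ^ 2 + Kp p ^ 2 - 3 = Kp p ^ 2 + Kp q ^ 2 + Kp r ^ 2 - 3 := by ring
        have c2 : Kp r * Kp q * Kp p = Kp p * Kp q * Kp r := by ring
        rw [c1, c2]
        exact hfB) ha.2 cm g1
      (by
        rw [mx1]
        intro T a b c v hv
        exact hd (2, 1, 0) (Or.inr (Or.inl rfl)) T a b c v hv)
      (by
        rw [mx1, mx2]
        intro T a b c v hv
        exact hd (1, 0, 2) (Or.inr (Or.inr (Or.inr rfl))) T a b c v hv)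
    rw [nx1, nx2] at hp3
    rw [mx1, mx2] at hm3
    obtain ⟨u0, u1, u2⟩ := hp3
    obtain ⟨v0, v1, v2⟩ := hm3
    intro s hs
    have hall : s = (0, 1, 2) ∨ s = (1, 2, 0) ∨ s = (2, 0, 1) ∨ s = (0, 2, 1) ∨ s = (2, 1, 0) ∨
        s = (1, 0, 2) := by
      obtain ⟨n, a, b⟩ := s
      obtain ⟨d1, d2, d3⟩ := hs
      simp only at d1 d2 d3
      revert n a b
      decide
    rcases hall with rfl | rfl | rfl | rfl | rfl | rfl
    · exact u0.h
    · exact u1.h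
    · exact u2.h
    · exact v0.h
    · exact v1.h
    · exact v2.h

/-- the unpacked arithmetic -/
theorem chBNU_ok {K : Mc α β p' v' γ} {W : Lw α} (hA : AOK D lf K.A) (hU : UOK D lf mf K.U)
    (hw : K.w * 2 ^ D = 2 ^ 28) (hV : VLw D mf V) (hT : TLW D lf K.T) (hW : LwOK D lf W) :
    BXOK D lf mf (chBNU K V W) :=
  chBN_ok hA hU hw hV hT fun {t} hP => ⟨TOK D lf t, HOK (TOK D lf t), arT_sound hA hW hP, fun h => h⟩

end Pool.Agent.Helper57.KNB
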