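import Pool.Agent.Helper57.KNB.KN5

/-!
Row KFT, A families over any arithmetic, part 1: kernel side. The matrix of the family of the
powers of an A cycle is `(N₂ - d) + A N₁ + (h (A² - 1) + d)`, `d = 2 (1 + S) (1 + S')`.
-/

set_option autoImplicit false
noncomputable section
namespace Pool.Agent.Helper57.KNB

open Pool.Agent.Helper86.C75 (Z)
open Pool.Agent.Helper86.CX (Cx andB nb csub one1)

variable {M PH : Type}

def c2 (A : Ar M PH) : M := cR A (Z.p (nat_lit 562949953421312))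
def chf (A : Ar M PH) : M := cR A (Z.p (nat_lit 140737488355328))

/-- constants of the family: `N₂ - d`, `N₁`, `h`, `d` -/
structure FCg (M : Type) where
  n2 : F9 M
  n1 : F9 M
  h : M
  d : M

/-- `e0 = g E'`, `e1 = g' E`, `e2 = g g'`, `so = S' o`, `o2 = 1 + 2 o`, `ee = E E'` -/
def mkFg4 (A : Ar M PH) (S S' g g' E E' e0 e1 e2 so o2 ee d : M) : FCg M :=
  ⟨⟨A.sub (A.add e0 (dbl A (A.mul (A.add (c1 A) S) (A.sub (c1 A) S')))) d,
    dbl A (A.mul g (A.sub g' (dbl A S))), dbl A (A.mul g (A.sub g' (dbl A S))),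
    A.sub g' (dbl A (dbl A (A.mul S so))),
    A.sub (A.add (dbl A (A.add g g')) (dbl A (A.mul (A.sub (c1 A) S) (A.sub (c1 A) S')))) d,
    A.sub (dbl A (dbl A (A.mul S S'))) e2,
    A.sub (c2 A) (dbl A (dbl A so)), A.sub (dbl A (dbl A S')) (dbl A g),
    A.sub (A.add (dbl A (A.mul (A.sub (c1 A) S) (A.add (c1 A) S'))) e1) d⟩,
   ⟨e0, dbl A e0, neg A (dbl A (A.mul S e0)),
    A.sub E' (dbl A (A.mul S' o2)), dbl A (A.sub g' g), A.sub e1 (dbl A (A.mul S E')),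
    dbl A (A.mul S' o2), dbl A E, neg A e1⟩, A.mul (chf A) ee, d⟩
def mkFg3 (A : Ar M PH) (S S' g g' o E E' ss : M) : FCg M :=
  mkFg4 A S S' g g' E E' (A.mul g E') (A.mul g' E) (A.mul g g') (A.mul S' o)
    (A.add (c1 A) (dbl A o)) (A.mul E E') (dbl A ss)
/-- `ss = (1 + S) (1 + S')` -/
def mkFg (A : Ar M PH) (S S' g g' o ss : M) : FCg M :=
  mkFg3 A S S' g g' o (A.add g (c2 A)) (A.add g' (c2 A)) ss

/-- the record of the family in the basis `b` -/
def mkHA (A : Ar M PH) (C : FCg M) (x e : H6 M) (b : F9 M) : HR PH :=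
  mkHR A x e ⟨KNB.mul9 A C.n2 b, KNB.mul9 A C.n1 b, b⟩ b

/-- the coefficient of the unit matrix -/
def rA (A : Ar M PH) (C : FCg M) (a : M) : M :=
  A.add (A.mul C.h (A.sub (A.mul a a) (c1 A))) C.d

/-- powers `0, 1, ..` -/
def tQA (A : Ar M PH) (C : FCg M) (H : HR PH) (c : M) (L : List (LD M)) : M → Bool :=
  List.rec (motive := fun _ => M → Bool) (fun _ => true)
    (fun l _ ih a => andB (tFam A l.d H a (rA A C a) l.l) (andB (A.ok (A.add (c1 A) a))
      (ih (A.sub (c1 A) (A.mul c (A.inv (A.add (c1 A) a))))))) L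

/-- a polygon of `A` (unit `2 ^ (-24)`) with its circle, bound of `|A|`, bound of the coefficient
of the unit matrix (unit `2 ^ (-48)`), multiplier -/
structure TA (M : Type) where
  V : List (Nat × Nat)
  cx : Nat
  cy : Nat
  R : Nat
  B : Nat
  rb : Nat
  l : LD M

def tVA3 (A : Ar M PH) (d : D3) (H : HR PH) (x y n n2 rr ri ar ai lam : M) : Bool :=
  A.lt d [⟨c1 A, H.h00⟩, ⟨n, H.h11⟩, ⟨n2, H.h22⟩, ⟨x, H.h01⟩, ⟨y, H.k01⟩, ⟨rr, H.h02⟩,
    ⟨ri, H.k02⟩, ⟨ar, H.h12⟩, ⟨ai, H.k12⟩, ⟨neg A lam, H.e⟩]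
/-- `e`: bound of `|h| R` (unit `2 ^ (-48)`), `rb` bound of the coefficient; `r'`, `ar`:
widened -/
def tVA2 (A : Ar M PH) (d : D3) (H : HR PH) (x y n R f : Nat) (r r' ar lam : M) : Bool :=
  tVA3 A d H (cR A (Z.p (Nat.mul (nat_lit 16777216) x))) (cR A (Z.p (Nat.mul (nat_lit 16777216) y)))
    (A.wd R (cR A (Z.p n))) (A.wd f (A.mul r (A.cj r))) (A.re r') (A.im r') (A.re ar) (A.im ar) lam
def tVA1 (A : Ar M PH) (d : D3) (H : HR PH) (x y R e f g rb : Nat) (a r lam : M) : Bool :=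
  andB (Nat.ble (Nat.add (A.nb r) e) rb)
    (tVA2 A d H x y (Nat.add (Nat.mul x x) (Nat.mul y y)) R f r (A.wd e r)
      (A.wd g (A.mul (A.cj a) r)) lam)
def ptM (A : Ar M PH) (x y : Nat) : M :=
  A.cs ⟨Z.p (Nat.mul (nat_lit 16777216) x), Z.p (Nat.mul (nat_lit 16777216) y)⟩
/-- a vertex -/
def tVA (A : Ar M PH) (C : FCg M) (H : HR PH) (T : TA M) (e f g : Nat) (p : Nat × Nat) : Bool :=
  andB (Nat.ble (Nat.add (dsq p.1 T.cx) (dsq p.2 T.cy)) T.R)
    (andB (Nat.ble (Nat.add (Nat.mul p.1 p.1) (Nat.mul p.2 p.2)) (Nat.mul T.B T.B))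
      (tVA1 A T.l.d H p.1 p.2 T.R e f g T.rb (ptM A p.1 p.2) (rA A C (ptM A p.1 p.2)) T.l.l))
def tPA2 (A : Ar M PH) (C : FCg M) (H : HR PH) (T : TA M) (e f g : Nat) : Bool :=
  List.rec (motive := fun _ => Bool) true (fun p _ ih => andB (tVA A C H T e f g p) ih) T.V
/-- `a b / 2 ^ 48`, rounded up -/
def m48 (a b : Nat) : Nat := Nat.add (Nat.shiftRight (Nat.mul a b) (nat_lit 48)) (nat_lit 1)
/-- `e = |h| R`; `f = 4 |h|² B² R + 2 |r| |h| R`; `g = 3 |h| B R` -/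
def tPA1 (A : Ar M PH) (C : FCg M) (H : HR PH) (T : TA M) (hn e B : Nat) : Bool :=
  tPA2 A C H T e (Nat.add (Nat.mul (nat_lit 4) (m48 (m48 hn e) (m48 B B))) (Nat.mul (nat_lit 2) (m48 T.rb e))) (Nat.mul (nat_lit 3) (m48 e B))
def tPA (A : Ar M PH) (C : FCg M) (H : HR PH) (T : TA M) : Bool :=
  tPA1 A C H T (A.nb C.h) (m48 (A.nb C.h) T.R) (Nat.mul (nat_lit 16777216) T.B)
def tPAs (A : Ar M PH) (C : FCg M) (H : HR PH) (l : List (TA M)) : Bool :=
  List.rec (motive := fun _ => Bool) true (fun T _ ih => andB (tPA A C H T) ih) l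

/-! ### the control values of `tau` -/

def pcN (p : Nat × Nat) : Cx :=
  ⟨Z.p (Nat.mul (nat_lit 16777216) p.1), Z.p (Nat.mul (nat_lit 16777216) p.2)⟩
/-- control values `x` of `1 - tau` against points (unit `2 ^ (-24)`) -/
def segG (r rho : Nat) (l : List Cx) : List (Nat × Nat) → Bool :=
  List.rec (motive := fun _ => List (Nat × Nat) → Bool) (fun _ => true)
    (fun x _ ih Ts => List.rec (motive := fun _ => Bool) false
      (fun T tl _ => andB (Nat.ble (Nat.add r (nb (csub (csub one1 x) (pcN T)))) (Nat.mul (nat_lit 16777216) rho))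
        (ih tl)) Ts) l

/-! ### the family of one wall -/

/-- inputs -/
structure AI (M : Type) where
  x : H6 M
  e : H6 M
  b : F9 M
  L : List (LD M)
  tl : List (TA M)
  Ts : List (Nat × Nat)
  rho : Nat

def famG5 (A : Ar M PH) (I : AI M) (C : FCg M) (c : M) (H : HR PH) : Bool :=
  andB (segG (A.rd c) I.rho (A.ctl c) I.Ts) (andB (tQA A C H c I.L (c1 A)) (tPAs A C H I.tl))
def famG4 (A : Ar M PH) (I : AI M) (C : FCg M) (c : M) : Bool :=
  famG5 A I C c (mkHA A C I.x I.e I.b)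
def famG3 (A : Ar M PH) (I : AI M) (S S' g g' ss ee : M) : Bool :=
  andB (A.ok ee) (famG4 A I (mkFg A S S' g g' (A.inv g) ss) (A.mul (dbl A (dbl A ss)) (A.inv ee)))
def famG2 (A : Ar M PH) (I : AI M) (S S' g g' : M) : Bool :=
  andB (A.ok g) (andB (A.ok (det9G A I.b)) (famG3 A I S S' g g'
    (A.mul (A.add (c1 A) S) (A.add (c1 A) S'))
    (A.mul (A.add g (c2 A)) (A.add g' (c2 A)))))
where
  det9G (A : Ar M PH) (F : F9 M) : M :=
    A.add (A.mul F.a (A.sub (A.mul F.e F.i) (A.mul F.f F.h)))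
      (A.sub (A.mul F.c (A.sub (A.mul F.d F.h) (A.mul F.e F.g)))
        (A.mul F.b (A.sub (A.mul F.d F.i) (A.mul F.f F.g))))
/-- `4 / k² - 1` -/
def sG (A : Ar M PH) (k2 : M) : M := A.sub (dbl A (dbl A (A.inv k2))) (c1 A)
/-- `2 (1 + l z)` -/
def gG (A : Ar M PH) (l z : M) : M := dbl A (A.add (c1 A) (A.mul l z))
def famG1 (A : Ar M PH) (I : AI M) (kk kk' l u z : M) : Bool :=
  andB (A.ok kk) (andB (A.ok kk') (famG2 A I (sG A kk) (sG A kk') (gG A l u) (gG A l z)))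
/-- ONE WALL: `l = lambda`, `k`, `k'` the weights of the bonds `(n, n+1)`, `(n, n+2)` -/
def famG (A : Ar M PH) (I : AI M) (l k k' u z : M) : Bool :=
  famG1 A I (A.mul k k) (A.mul k' k') l u z

end Pool.Agent.Helper57.KNB
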