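import Pool.Agent.Helper57.KNB.KN8

/-!
Row KNB, part 9: soundness of the tail test: all phases of `ρ` for `A` in a polygon.
-/

set_option autoImplicit false
noncomputable section
namespace Pool.Agent.Helper57.KNB

open Pool.Agent.Helper90.C75 (e2 prS prQ prN sqR)
open Pool.Agent.Helper42.CH (powA)
open Pool.Agent.Helper86.C75 (Z)
open Pool.Agent.Helper86.CX (Cx andB Hm ev mkH)
open Pool.Agent.Helper90.KMO (zv cz UU UU_pos zv_sub)
open Complex ComplexConjugate Matrix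

variable {M PH : Type} {A : Ar M PH} {OK : ℂ → M → Prop} {HK : Hm ℝ → PH → Prop}

/-! ### the determinant of the basis -/

def det9 (A : Ar M PH) (F : F9 M) : M :=
  A.add (A.mul F.a (A.sub (A.mul F.e F.i) (A.mul F.f F.h)))
    (A.sub (A.mul F.c (A.sub (A.mul F.d F.h) (A.mul F.e F.g)))
      (A.mul F.b (A.sub (A.mul F.d F.i) (A.mul F.f F.g))))

theorem det9_sound (hA : ArS A OK HK) {F : M3} {m : F9 M} (hF : FOK OK F m) :
    OK F.det (det9 A m) := by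
  refine okE (hA.add (hA.mul hF.a (hA.sub (hA.mul hF.e hF.i) (hA.mul hF.f hF.h)))
    (hA.sub (hA.mul hF.c (hA.sub (hA.mul hF.d hF.h) (hA.mul hF.e hF.g)))
      (hA.mul hF.b (hA.sub (hA.mul hF.d hF.i) (hA.mul hF.f hF.g))))) ?_
  rw [Matrix.det_fin_three]
  ring

/-! ### vectors -/

structure VK (OK : ℂ → M → Prop) (u : Fin 3 → ℂ) (m : V3m M) : Prop where
  x : OK (u 0) m.x
  y : OK (u 1) m.y
  z : OK (u 2) m.z

theorem VK.rm (hA : ArS A OK HK) {u : Fin 3 → ℂ} {m : V3m M} (hu : VK OK u m) {F : M3} {f : F9 M}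
    (hF : FOK OK F f) : VK OK (u ᵥ* F) (KNB.rm A m f) := by
  have e : ∀ j, (u ᵥ* F) j = u 0 * F 0 j + u 1 * F 1 j + u 2 * F 2 j := by
    intro j
    simp only [Matrix.vecMul, dotProduct, Fin.sum_univ_three]
  constructor <;> rw [e]
  · exact okDt hA hu.x hu.y hu.z hF.a hF.d hF.g
  · exact okDt hA hu.x hu.y hu.z hF.b hF.e hF.h
  · exact okDt hA hu.x hu.y hu.z hF.c hF.f hF.i

theorem VK.star (hA : ArS A OK HK) {u : Fin 3 → ℂ} {m : V3m M} (hu : VK OK u m) :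
    VK OK (star u) ⟨A.cj m.x, A.cj m.y, A.cj m.z⟩ :=
  ⟨hA.cj hu.x, hA.cj hu.y, hA.cj hu.z⟩

theorem VK.aX (hA : ArS A OK HK) {u : Fin 3 → ℂ} {m : V3m M} (hu : VK OK u m) {X : Hm ℝ} {x : H6 M}
    (hX : HOK OK X x) : VK OK (Star.star u ᵥ* MK X) (KNB.aX A m x) :=
  (hu.star hA).rm hA (hX.full hA)

theorem VK.dot (hA : ArS A OK HK) {u v : Fin 3 → ℂ} {m n : V3m M} (hu : VK OK u m) (hv : VK OK v n) :
    OK (u ⬝ᵥ v) (dt A m.x m.y m.z n.x n.y n.z) := by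
  refine okE (okDt hA hu.x hu.y hu.z hv.x hv.y hv.z) ?_
  simp only [dotProduct, Fin.sum_univ_three]

/-- the matrix `conj u_i v_j` -/
def rv (u v : Fin 3 → ℂ) : M3 := Matrix.of fun i j => star (u i) * v j

theorem rv_qf (u v w : Fin 3 → ℂ) : qf (rv u v) w = star (u ⬝ᵥ w) * (v ⬝ᵥ w) := by
  unfold qf rv
  simp only [dotProduct, Matrix.mulVec, Fin.sum_univ_three, Matrix.of_apply, Pi.star_apply,
    star_add, star_mul']
  ring

theorem rv_herm (u : Fin 3 → ℂ) : (rv u u)ᴴ = rv u u := by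
  ext i j
  simp only [rv, Matrix.conjTranspose_apply, Matrix.of_apply, star_mul', star_star]
  ring

theorem FOK.r1 (hA : ArS A OK HK) {u v : Fin 3 → ℂ} {m n : V3m M} (hu : VK OK u m) (hv : VK OK v n) :
    FOK OK (rv u v) (KNB.r1 A m n) :=
  ⟨hA.mul (hA.cj hu.x) hv.x, hA.mul (hA.cj hu.x) hv.y, hA.mul (hA.cj hu.x) hv.z,
    hA.mul (hA.cj hu.y) hv.x, hA.mul (hA.cj hu.y) hv.y, hA.mul (hA.cj hu.y) hv.z,
    hA.mul (hA.cj hu.z) hv.x, hA.mul (hA.cj hu.z) hv.y, hA.mul (hA.cj hu.z) hv.z⟩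

/-- index of a pivot -/
def kf (k : ℕ) : Fin 3 := match k with
  | 0 => 0
  | 1 => 1
  | _ => 2

theorem VK.col {P : M3} {p : F9 M} (hP : FOK OK P p) (k : ℕ) :
    VK OK (fun i => P i (kf k)) (KNB.col k p) := by
  rcases k with _ | _ | k
  · exact ⟨hP.a, hP.d, hP.g⟩
  · exact ⟨hP.b, hP.e, hP.h⟩
  · exact ⟨hP.c, hP.f, hP.i⟩

theorem VK.row {P : M3} {p : F9 M} (hP : FOK OK P p) (k : ℕ) :
    VK OK (fun i => P (kf k) i) (KNB.row k p) := by
  rcases k with _ | _ | k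
  · exact ⟨hP.a, hP.b, hP.c⟩
  · exact ⟨hP.d, hP.e, hP.f⟩
  · exact ⟨hP.g, hP.h, hP.i⟩

theorem piv_ok {P : M3} {p : F9 M} (hP : FOK OK P p) (k : ℕ) :
    OK (P (kf k) (kf k)) (piv k p) := by
  rcases k with _ | _ | k
  · exact hP.a
  · exact hP.e
  · exact hP.i

/-! ### the record -/

/-- models of the record of the tail: `a` the column, `b0 = aᴴ X N`, `b1 = aᴴ X Q`, `g` the row -/
structure BRK (OK : ℂ → M → Prop) (HK : Hm ℝ → PH → Prop) (X : Hm ℝ) (a b0 b1 g : Fin 3 → ℂ)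
    (R : BR M PH) : Prop where
  b00 : HK (hmU (rv b0 b0)) R.b00
  b11 : HK (hmU (rv b1 b1)) R.b11
  b01 : HK (hmU (rv b0 b1 + (rv b0 b1)ᴴ)) R.b01
  k01 : HK (hmU (I • rv b0 b1 + (I • rv b0 b1)ᴴ)) R.k01
  g : HK (hmU (rv g g)) R.g
  xi : OK (hs X a a) R.xi

theorem BRK.mk' (hA : ArS A OK HK) {X : Hm ℝ} {x : H6 M} (hX : HOK OK X x) {P N Q PB : M3} {p : F9 M}
    (hP : FOK OK P p) {F : Fm M} (hF : FmK OK N Q PB F) (k : ℕ) :
    BRK OK HK X (fun i => P i (kf k)) ((star fun i => P i (kf k)) ᵥ* MK X ᵥ* N)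
      ((star fun i => P i (kf k)) ᵥ* MK X ᵥ* Q) (fun i => PB (kf k) i) (mkBR A k x p F) := by
  have hc := VK.col hP k
  have hax := hc.aX hA hX
  have h0 := hax.rm hA hF.n
  have h1 := hax.rm hA hF.q
  have hg := VK.row hF.p k
  refine ⟨hA.pk (HOK.up (rv_herm _) (FOK.r1 hA h0 h0)),
    hA.pk (HOK.up (rv_herm _) (FOK.r1 hA h1 h1)),
    hA.pk (HOK.her hA (FOK.r1 hA h0 h1)), hA.pk (HOK.skw hA (FOK.r1 hA h0 h1)),
    hA.pk (HOK.up (rv_herm _) (FOK.r1 hA hg hg)), okE (hax.dot hA hc) ?_⟩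
  rw [hs_MK, dotProduct_mulVec]

theorem ev_rv (u w : Fin 3 → ℂ) : ev (hmU (rv u u)) w = normSq (u ⬝ᵥ w) := by
  rw [ev_hmU (rv_herm u)]
  have := rv_qf u u w
  unfold qf at this
  rw [this]
  have e : star (u ⬝ᵥ w) * (u ⬝ᵥ w) = ((normSq (u ⬝ᵥ w) : ℝ) : ℂ) := by
    rw [mul_comm]; exact (normSq_cj _).symm
  rw [e, ofReal_re]

/-! ### integers -/

theorem leZ1_sound {a : ℕ} {z : Z} {b : ℕ} (h : leZ1 a z b = true) : (a : ℝ) + zv z ≤ b := by
  cases z with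
  | p n =>
    have h1 : a + n ≤ b := Nat.le_of_ble_eq_true h
    have : (zv (Z.p n) : ℝ) = n := by simp [zv]
    rw [this]; exact_mod_cast h1
  | m n =>
    have h1 : a ≤ b + n := Nat.le_of_ble_eq_true h
    have : (zv (Z.m n) : ℝ) = -n := by simp [zv]
    rw [this]
    have h2 : (a : ℝ) ≤ b + n := by exact_mod_cast h1
    linarith

theorem leZ2_sound {a : ℕ} {z : Z} {b : ℕ} (h : leZ2 a z b = true) : (a : ℝ) ≤ zv z + b := by
  cases z with
  | p n =>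
    have h1 : a ≤ n + b := Nat.le_of_ble_eq_true h
    have : (zv (Z.p n) : ℝ) = n := by simp [zv]
    rw [this]; exact_mod_cast h1
  | m n =>
    have h1 : a + n ≤ b := Nat.le_of_ble_eq_true h
    have : (zv (Z.m n) : ℝ) = -n := by simp [zv]
    rw [this]
    have h2 : (a : ℝ) + n ≤ b := by exact_mod_cast h1
    linarith

theorem xiOK_mem {sg w r : ℕ} {l : List Cx} (h : xiOK sg w r l = true) {c : Cx} (hc : c ∈ l) :
    (r : ℝ) + zv c.re ≤ sg ∧ (sg : ℝ) + r ≤ zv c.re + w := by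
  induction l with
  | nil => cases hc
  | cons x l ih =>
    obtain ⟨h1, h2⟩ := andBt (show andB (leZ1 r x.re sg)
      (andB (leZ2 (Nat.add sg r) x.re w) (xiOK sg w r l)) = true from h)
    obtain ⟨h3, h4⟩ := andBt h2
    rcases List.mem_cons.1 hc with rfl | hc
    · refine ⟨leZ1_sound h1, ?_⟩
      have := leZ2_sound h3
      rw [nadd] at this
      exact this
    · exact ih h4 hc

/-- the real part of a model -/
theorem xi_bounds (hA : ArS A OK HK) {f : ℂ} {x : M} (hf : OK f x) {sg w : ℕ}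
    (h : xiOK sg w (A.rd x) (A.ctl x) = true) :
    f.re * UU ≤ sg ∧ (sg : ℝ) - w ≤ f.re * UU := by
  obtain ⟨q, hq, hd⟩ := hA.ctl hf
  have h1 : ∀ z ∈ {z : ℂ | ∃ c ∈ A.ctl x, z = cz c}, (A.rd x : ℝ) + z.re ≤ sg ∧
      (sg : ℝ) + A.rd x ≤ z.re + w := by
    rintro z ⟨c, hc, rfl⟩
    exact xiOK_mem h hc
  have h2 : (A.rd x : ℝ) + q.re ≤ sg ∧ (sg : ℝ) + A.rd x ≤ q.re + w := by
    have hconv : Convex ℝ {z : ℂ | (A.rd x : ℝ) + z.re ≤ sg ∧ (sg : ℝ) + A.rd x ≤ z.re + w} := by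
      intro a ha b hb s t hs ht hst
      obtain ⟨a1, a2⟩ := ha
      obtain ⟨b1, b2⟩ := hb
      have e : (s • a + t • b).re = s * a.re + t * b.re := by simp
      constructor
      · show _ + (s • a + t • b).re ≤ _
        rw [e]
        nlinarith
      · show _ ≤ (s • a + t • b).re + _
        rw [e]
        nlinarith
    exact convexHull_min h1 hconv hq
  have h3 : |(((UU : ℂ) * f - q)).re| ≤ A.rd x := (abs_re_le_norm _).trans hd
  have h4 : (((UU : ℂ) * f - q)).re = UU * f.re - q.re := by simp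
  rw [h4] at h3
  obtain ⟨h5, h6⟩ := abs_le.1 h3
  constructor <;> linarith [h2.1, h2.2, mul_comm UU f.re]

theorem cR4_sound {w r0 kb : ℕ} {ρ κ : ℝ} (hρ : 0 ≤ ρ) (hκ : 0 ≤ κ) (h1 : ρ * UU ≤ r0)
    (h2 : κ * UU ≤ kb) : (w : ℝ) / UU * (ρ * κ) ^ 2 ≤ (cR4 w r0 kb : ℕ) / UU := by
  have hU := UU_pos
  set t : ℕ := Nat.add (Nat.div (Nat.mul r0 kb) (nat_lit 281474976710656)) (nat_lit 1) with ht
  have t1 : ρ * κ * UU ≤ t := by
    have e : (t : ℝ) = (Nat.div (Nat.mul r0 kb) (nat_lit 281474976710656) : ℕ) + 1 := by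
      rw [ht, nadd]; norm_num
    rw [e]
    refine le_trans ?_ (ndivU _)
    rw [nmul, le_div_iff₀ hU]
    calc ρ * κ * UU * UU = (ρ * UU) * (κ * UU) := by ring
      _ ≤ r0 * kb := mul_le_mul h1 h2 (mul_nonneg hκ hU.le) (Nat.cast_nonneg _)
  set s : ℕ := Nat.add (Nat.div (Nat.mul t t) (nat_lit 281474976710656)) (nat_lit 1) with hs
  have s1 : (ρ * κ) ^ 2 * UU ≤ s := by
    have e : (s : ℝ) = (Nat.div (Nat.mul t t) (nat_lit 281474976710656) : ℕ) + 1 := by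
      rw [hs, nadd]; norm_num
    rw [e]
    refine le_trans ?_ (ndivU _)
    rw [nmul, le_div_iff₀ hU]
    have h0 : 0 ≤ ρ * κ * UU := by positivity
    calc (ρ * κ) ^ 2 * UU * UU = (ρ * κ * UU) * (ρ * κ * UU) := by ring
      _ ≤ t * t := mul_le_mul t1 t1 h0 (Nat.cast_nonneg _)
  have c1 : (w : ℝ) / UU * (ρ * κ) ^ 2 * UU ≤ (cR4 w r0 kb : ℕ) := by
    have e : ((cR4 w r0 kb : ℕ) : ℝ) =
        (Nat.div (Nat.mul w s) (nat_lit 281474976710656) : ℕ) + 1 := by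
      unfold cR4 cR4b
      rw [nadd]; norm_num
      rfl
    rw [e]
    refine le_trans ?_ (ndivU _)
    rw [nmul, le_div_iff₀ hU]
    have : (w : ℝ) / UU * (ρ * κ) ^ 2 * UU * UU = w * ((ρ * κ) ^ 2 * UU) := by
      field_simp
    rw [this]
    exact mul_le_mul_of_nonneg_left s1 (Nat.cast_nonneg _)
  rw [le_div_iff₀ hU]
  exact c1

end Pool.Agent.Helper57.KNB
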