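import Pool.Agent.Helper57.KNB.KA1
import Pool.Agent.Helper57.KNB.KN9
import Pool.Agent.Helper39.CX.KNH3

/-!
Row KFT, A families over any arithmetic, part 2: soundness of the constants and of the tests at
the powers.
-/

set_option autoImplicit false
noncomputable section
namespace Pool.Agent.Helper57.KNB

open Pool.Agent.Helper42.CH (powA)
open Pool.Agent.Helper86.C75 (Z)
open Pool.Agent.Helper86.CX (Cx andB Hm ev mkH)
open Pool.Agent.Helper90.KMO (zv cz UU UU_pos)
open Pool.Agent.Helper39.KNF (N2m N1t T2d FNm_eq FamI)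
open Pool.Agent.Helper6.MONO (FNm)
open Complex ComplexConjugate Matrix

variable {M PH : Type} {A : Ar M PH} {OK : ℂ → M → Prop} {HK : Hm ℝ → PH → Prop}

theorem ok2 (hA : ArS A OK HK) : OK 2 (c2 A) := by
  refine okE (okR hA _) ?_
  norm_num [zv, UU]

theorem okh (hA : ArS A OK HK) : OK (1 / 2) (chf A) := by
  refine okE (okR hA _) ?_
  norm_num [zv, UU]

/-- the constant `d` -/
def dA (S S' : ℂ) : ℂ := 2 * ((1 + S) * (1 + S'))

/-- models of the constants -/
structure FgK (OK : ℂ → M → Prop) (S S' g g' o : ℂ) (C : FCg M) : Prop where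
  n2 : FOK OK (T2d S S' g g' o (dA S S')) C.n2
  n1 : FOK OK (N1t S S' g g' o) C.n1
  h : OK (1 / 2 * ((g + 2) * (g' + 2))) C.h
  d : OK (dA S S') C.d

theorem FgK.mk' (hA : ArS A OK HK) {S S' g g' o : ℂ} {S1 S2 g1 g2 o1 ss : M} (hS : OK S S1)
    (hS' : OK S' S2) (hg : OK g g1) (hg' : OK g' g2) (ho : OK o o1)
    (hss : OK ((1 + S) * (1 + S')) ss) : FgK OK S S' g g' o (mkFg A S1 S2 g1 g2 o1 ss) := by
  have p1 := ok1 hA
  have p2 := ok2 hA
  have hE := hA.add hg p2
  have hE' := hA.add hg' p2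
  have e0 := hA.mul hg hE'
  have e1 := hA.mul hg' hE
  have e2 := hA.mul hg hg'
  have so := hA.mul hS' ho
  have o2 := hA.add p1 (okD hA ho)
  have ee := hA.mul hE hE'
  have dd := okD hA hss
  have t : ∀ i j, i ≠ j → N2m S S' g g' o i j = T2d S S' g g' o (dA S S') i j := by
    intro i j hij
    unfold T2d
    rw [Matrix.sub_apply, Matrix.smul_apply, Matrix.one_apply_ne hij, smul_zero, sub_zero]
  have t' : ∀ i, N2m S S' g g' o i i - dA S S' = T2d S S' g g' o (dA S S') i i := by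
    intro i
    unfold T2d
    rw [Matrix.sub_apply, Matrix.smul_apply, Matrix.one_apply_eq, smul_eq_mul, mul_one]
  have n : ∀ {f k : ℂ} {F : M}, OK f F → (2 * (2 * f)) = k → OK k (dbl A (dbl A F)) :=
    fun h e => okE (okD hA (okD hA h)) e
  refine ⟨⟨?_, ?_, ?_, ?_, ?_, ?_, ?_, ?_, ?_⟩, ⟨?_, ?_, ?_, ?_, ?_, ?_, ?_, ?_, ?_⟩, ?_, ?_⟩
  · exact okE (hA.sub (hA.add e0 (okD hA (hA.mul (hA.add p1 hS) (hA.sub p1 hS')))) dd) (by
      rw [← t']; simp [N2m, dA])
  · exact okE (okD hA (hA.mul hg (hA.sub hg' (okD hA hS)))) (by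
      rw [← t 0 1 (by decide)]; simp [N2m])
  · exact okE (okD hA (hA.mul hg (hA.sub hg' (okD hA hS)))) (by
      rw [← t 0 2 (by decide)]; simp [N2m])
  · exact okE (hA.sub hg' (n (hA.mul hS so) rfl)) (by
      rw [← t 1 0 (by decide)]; simp [N2m]; ring)
  · exact okE (hA.sub (hA.add (okD hA (hA.add hg hg')) (okD hA (hA.mul (hA.sub p1 hS)
      (hA.sub p1 hS')))) dd) (by rw [← t']; simp [N2m, dA])
  · exact okE (hA.sub (n (hA.mul hS hS') rfl) e2) (by
      rw [← t 1 2 (by decide)]; simp [N2m]; ring)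
  · exact okE (hA.sub p2 (n so rfl)) (by
      rw [← t 2 0 (by decide)]; simp [N2m]; ring)
  · exact okE (hA.sub (n hS' rfl) (okD hA hg)) (by
      rw [← t 2 1 (by decide)]; simp [N2m]; ring)
  · exact okE (hA.sub (hA.add (okD hA (hA.mul (hA.sub p1 hS) (hA.add p1 hS'))) e1) dd) (by
      rw [← t']; simp [N2m, dA])
  · exact okE e0 (by simp [N1t])
  · exact okE (okD hA e0) (by simp [N1t])
  · exact okE (okN hA (okD hA (hA.mul hS e0))) (by simp [N1t])
  · exact okE (hA.sub hE' (okD hA (hA.mul hS' o2))) (by simp [N1t])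
  · exact okE (okD hA (hA.sub hg' hg)) (by simp [N1t])
  · exact okE (hA.sub e1 (okD hA (hA.mul hS hE'))) (by simp [N1t])
  · exact okE (okD hA (hA.mul hS' o2)) (by simp [N1t])
  · exact okE (okD hA hE) (by simp [N1t])
  · exact okE (okN hA e1) (by simp [N1t])
  · exact hA.mul (okh hA) ee
  · exact dd

section

variable {S S' g g' o : ℂ} {X E : Hm ℝ} {B : M3} {C : FCg M} {H : HR PH}

/-- the coefficient of the unit matrix -/
def rAc (S S' g g' a : ℂ) : ℂ := 1 / 2 * ((g + 2) * (g' + 2)) * (a * a - 1) + dA S S'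

theorem FgK.r (hA : ArS A OK HK) (hC : FgK OK S S' g g' o C) {a : ℂ} {a' : M} (ha : OK a a') :
    OK (rAc S S' g g' a) (rA A C a') :=
  hA.add (hA.mul hC.h (hA.sub (hA.mul ha ha) (ok1 hA))) hC.d

theorem FgK.HR (hA : ArS A OK HK) (hC : FgK OK S S' g g' o C) {x e : H6 M} (hX : HOK OK X x)
    (hE : HOK OK E e) {b : F9 M} (hB : FOK OK B b) :
    HRK HK X E (T2d S S' g g' o (dA S S') * B) (N1t S S' g g' o * B) B B (mkHA A C x e b) :=
  HRK.mk' hA hX hE ⟨hC.n2.mul9 hA hB, hC.n1.mul9 hA hB, hB⟩ hB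

/-- the matrix of the family -/
theorem fnm_basis (a : ℂ) :
    T2d S S' g g' o (dA S S') * B + a • (N1t S S' g g' o * B) + rAc S S' g g' a • B =
      FNm S S' g g' o a * B := by
  rw [← FNm_eq S S' g g' o a (dA S S'), Matrix.add_mul, Matrix.add_mul, Matrix.smul_mul,
    Matrix.smul_mul, Matrix.one_mul]
  rfl

theorem famI_of {a : ℂ} (hB : B.det ≠ 0) {lam : ℝ} (h0 : 0 < lam)
    (h : ∀ u, lam * ev E (B.mulVec u) ≤ ev X ((T2d S S' g g' o (dA S S') * B +
      a • (N1t S S' g g' o * B) + rAc S S' g g' a • B).mulVec u)) : FamI X E S S' g g' o a := by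
  have h1 := Le.of_basis (X := X) (E := E) (F := FNm S S' g g' o a) hB h0 (fun u => by
    rw [← fnm_basis]
    exact h u)
  exact h1

/-- SOUNDNESS OF `tQA` -/
theorem tQA_sound (hA : ArS A OK HK) (hC : FgK OK S S' g g' o C)
    (hH : HRK HK X E (T2d S S' g g' o (dA S S') * B) (N1t S S' g g' o * B) B B H)
    (hB : B.det ≠ 0) {c : ℂ} {c' : M} (hc : OK c c') :
    ∀ (L : List (LD M)), (∀ l ∈ L, LOK OK l) → ∀ {m : ℕ} {a' : M},
      OK (powA (1 - c) m) a' → tQA A C H c' L a' = true →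
      ∀ j < L.length, FamI X E S S' g g' o (powA (1 - c) (m + j)) := by
  intro L
  induction L with
  | nil =>
    intro _ m a' _ _ j hj
    exact absurd hj (Nat.not_lt_zero _)
  | cons l L ih =>
    intro hL m a' ha h j hj
    have h' : andB (tFam A l.d H a' (rA A C a') l.l) (andB (A.ok (A.add (c1 A) a'))
      (tQA A C H c' L (A.sub (c1 A) (A.mul c' (A.inv (A.add (c1 A) a')))))) = true := h
    obtain ⟨h1, h2⟩ := andBt h'
    obtain ⟨h3, h4⟩ := andBt h2
    obtain ⟨lam, l0, l1⟩ := hL l (List.mem_cons_self ..)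
    obtain ⟨n0, hi⟩ := hA.inv (hA.add (ok1 hA) ha) h3
    rcases j with _ | j
    · exact famI_of hB l0 fun u => tFam_sound hA hH ha (hC.r hA ha) l1 h1 u
    · have e : powA (1 - c) (m + 1) = 1 - c * (1 + powA (1 - c) m)⁻¹ := by
        show (powA (1 - c) m + (1 - c)) / (1 + powA (1 - c) m) = _
        field_simp
        ring
      have ha1 : OK (powA (1 - c) (m + 1))
          (A.sub (c1 A) (A.mul c' (A.inv (A.add (c1 A) a')))) :=
        okE (hA.sub (ok1 hA) (hA.mul hc hi)) e.symm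
      have h5 := ih (fun x hx => hL x (List.mem_cons_of_mem _ hx)) ha1 h4 j (by simpa using hj)
      have e2 : m + (j + 1) = m + 1 + j := by ring
      rw [e2]
      exact h5

end

end Pool.Agent.Helper57.KNB
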