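import Pool.Agent.Helper57.KNB.KN9
import Pool.Agent.Helper32.C75.Tail5

/-!
Row KNB, part 10: soundness of the polygons of the tail.
-/

set_option autoImplicit false
noncomputable section
namespace Pool.Agent.Helper57.KNB

open Pool.Agent.Helper90.C75 (e2 prS prQ prN sqR)
open Pool.Agent.Helper42.CH (powA)
open Pool.Agent.Helper86.C75 (Z)
open Pool.Agent.Helper86.CX (Cx andB Hm ev mkH)
open Pool.Agent.Helper90.KMO (zv cz UU UU_pos zv_sub)
open Pool.Agent.Helper32.C75 (InHull pt)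
open Complex ComplexConjugate Matrix

variable {M PH : Type} {A : Ar M PH} {OK : ℂ → M → Prop} {HK : Hm ℝ → PH → Prop}

/-- rank one: `P w = ((P w)_k / P_kk) (column k)` -/
theorem rank_split {P : M3} (hr : ∀ i j k l, P i j * P k l = P i l * P k j) (k : Fin 3)
    (hk : P k k ≠ 0) (w : Fin 3 → ℂ) :
    P.mulVec w = ((P.mulVec w) k / P k k) • fun i => P i k := by
  ext i
  simp only [Pi.smul_apply, smul_eq_mul]
  rw [div_mul_eq_mul_div, eq_div_iff hk]
  simp only [Matrix.mulVec, dotProduct, Fin.sum_univ_three]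
  linear_combination w 0 * hr i 0 k k + w 1 * hr i 1 k k + w 2 * hr i 2 k k

/-- data of the tail at the point -/
structure TlD (X E : Hm ℝ) (N Q P B : M3) (a b0 b1 g : Fin 3 → ℂ) (κ : ℂ) : Prop where
  hb0 : ∀ u, hs X a ((N * B).mulVec u) = b0 ⬝ᵥ u
  hb1 : ∀ u, hs X a ((Q * B).mulVec u) = b1 ⬝ᵥ u
  hp : ∀ u, (P * B).mulVec u = (κ * (g ⬝ᵥ u)) • a

theorem TlD.mk' {X E : Hm ℝ} {N Q P B : M3}
    (hr : ∀ i j k l, P i j * P k l = P i l * P k j) (k : ℕ) (hk : P (kf k) (kf k) ≠ 0) :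
    TlD X E N Q P B (fun i => P i (kf k)) ((star fun i => P i (kf k)) ᵥ* MK X ᵥ* (N * B))
      ((star fun i => P i (kf k)) ᵥ* MK X ᵥ* (Q * B)) (fun i => (P * B) (kf k) i)
      (P (kf k) (kf k))⁻¹ where
  hb0 u := by rw [hs_MK, dotProduct_mulVec, dotProduct_mulVec]
  hb1 u := by rw [hs_MK, dotProduct_mulVec, dotProduct_mulVec]
  hp u := by
    rw [← mulVec_mulVec, rank_split hr (kf k) hk, mulVec_mulVec, div_eq_inv_mul]
    rfl

theorem re_conj_mul (x y P : ℂ) :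
    normSq (x + P * y) = normSq x + normSq P * normSq y + 2 * (P * (star x * y)).re := by
  rw [normSq_add, normSq_mul]
  have : (x * conj (P * y)).re = (P * (star x * y)).re := by
    rw [← conj_re, map_mul, Complex.conj_conj]
    have : (conj x * (P * y) : ℂ) = P * (star x * y) := by
      show (star x * (P * y) : ℂ) = _
      ring
    rw [this]
  rw [this]

/-- THE VERTEX TEST -/
theorem tV3_sound (hA : ArS A OK HK) {X E : Hm ℝ} {N Q P B : M3} {H : HR PH} {R : BR M PH}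
    (hH : HRK HK X E N Q P B H) {a b0 b1 g : Fin 3 → ℂ} (hR : BRK OK HK X a b0 b1 g R)
    {d : D3} {x y n js c lam : ℝ} {x' y' n' js' c' l' : M} (hx : OK (x : ℂ) x')
    (hy : OK (y : ℂ) y') (hn : OK (n : ℂ) n') (hj : OK (js : ℂ) js') (hc : OK (c : ℂ) c')
    (hl : OK (lam : ℂ) l') (h : tV3 A d H R x' y' n' js' c' l' = true) (u : Fin 3 → ℂ) :
    0 ≤ ev X (N.mulVec u) + n * ev X (Q.mulVec u) +
      2 * ((⟨x, y⟩ : ℂ) * hs X (N.mulVec u) (Q.mulVec u)).re + js * (normSq (b0 ⬝ᵥ u) +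
      n * normSq (b1 ⬝ᵥ u) + 2 * ((⟨x, y⟩ : ℂ) * (star (b0 ⬝ᵥ u) * (b1 ⬝ᵥ u))).re) +
      c * normSq (g ⬝ᵥ u) - lam * ev E (B.mulVec u) := by
  have h1 := hA.lt (p := [((1 : ℝ), cgH N X), (n, cgH Q X), (x, hrH X N Q), (y, hiH X N Q),
    (js, hmU (rv b0 b0)), (js * n, hmU (rv b1 b1)), (js * x, hmU (rv b0 b1 + (rv b0 b1)ᴴ)),
    (js * y, hmU (I • rv b0 b1 + (I • rv b0 b1)ᴴ)), (c, hmU (rv g g)), (-lam, cgH B E)]) (by
      refine List.Forall₂.cons ⟨okE (ok1 hA) (by simp), hH.h00⟩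
        (List.Forall₂.cons ⟨hn, hH.h11⟩ (List.Forall₂.cons ⟨hx, hH.h01⟩
        (List.Forall₂.cons ⟨hy, hH.k01⟩ (List.Forall₂.cons ⟨hj, hR.b00⟩
        (List.Forall₂.cons ⟨okE (hA.mul hj hn) (by simp), hR.b11⟩
        (List.Forall₂.cons ⟨okE (hA.mul hj hx) (by simp), hR.b01⟩
        (List.Forall₂.cons ⟨okE (hA.mul hj hy) (by simp), hR.k01⟩
        (List.Forall₂.cons ⟨hc, hR.g⟩
        (List.Forall₂.cons ⟨okE (okN hA hl) (by simp), hH.e⟩ List.Forall₂.nil))))))))))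
      h u
  simp only [List.map_cons, List.map_nil, List.sum_cons, List.sum_nil, add_zero, one_mul,
    ev_cgH, ev_hrH, ev_hiH, ev_rv, ev_skw] at h1
  simp only [ev_her, rv_qf] at h1
  rw [re_mul2, re_mul2]
  linarith

/-- a polygon is a convex combination of vertices: the tail inequality in it -/
theorem tP_point {X E : Hm ℝ} {N Q P B : M3} {a b0 b1 g : Fin 3 → ℂ} {κ : ℂ}
    (hT : TlD X E N Q P B a b0 b1 g κ) {σ ξ0 js c4 lam : ℝ} (hσ : 0 < σ) (h1 : ev X a ≤ σ)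
    (h0 : ξ0 ≤ ev X a) (hjs : 1 / σ ≤ js) {ρ0 : ℝ} (hc4 : (σ - ξ0) * (ρ0 * ‖κ‖) ^ 2 ≤ c4)
    {ι : Type*} [Fintype ι] {wt : ι → ℝ} (hw : ∀ i, 0 ≤ wt i) (hs1 : ∑ i, wt i = 1)
    {V : ι → ℂ} {α c : ℂ} {R : ℝ} (hα : α = ∑ i, (wt i : ℂ) * V i)
    (hR : ∀ i, normSq (V i - c) ≤ R) {ρ : ℂ} (hρ : ‖ρ‖ ≤ ρ0) (u : Fin 3 → ℂ)
    (hv : ∀ i, ∀ n, (n = normSq (V i) ∨ n = normSq (V i) - R) →
      0 ≤ ev X ((N * B).mulVec u) + n * ev X ((Q * B).mulVec u) +
      2 * (V i * hs X ((N * B).mulVec u) ((Q * B).mulVec u)).re + (-js) * (normSq (b0 ⬝ᵥ u) +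
      n * normSq (b1 ⬝ᵥ u) + 2 * (V i * (star (b0 ⬝ᵥ u) * (b1 ⬝ᵥ u))).re) +
      (-c4) * normSq (g ⬝ᵥ u) - lam * ev E (B.mulVec u)) :
    lam * ev E (B.mulVec u) ≤ ev X ((N * B + α • (Q * B) + ρ • (P * B)).mulVec u) := by
  set z := g ⬝ᵥ u with hz
  set s0 := b0 ⬝ᵥ u with hs0
  set s1 := b1 ⬝ᵥ u with hs1'
  set hh := hs X ((N * B).mulVec u) ((Q * B).mulVec u) with hhh
  have key := poly_nonneg (L0 := ev X ((N * B).mulVec u) - js * normSq s0 - c4 * normSq z -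
    lam * ev E (B.mulVec u)) (q := ev X ((Q * B).mulVec u) - js * normSq s1)
    (h := hh - js * (star s0 * s1)) hw hs1 hα hR
    (by
      intro i
      have := hv i _ (Or.inl rfl)
      have e : (V i * (hh - js * (star s0 * s1))).re =
          (V i * hh).re - js * (V i * (star s0 * s1)).re := by
        rw [mul_sub, Complex.sub_re, mul_left_comm, Complex.re_ofReal_mul]
      rw [e]
      linarith)
    (by
      intro i
      have := hv i _ (Or.inr rfl)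
      have e : (V i * (hh - js * (star s0 * s1))).re =
          (V i * hh).re - js * (V i * (star s0 * s1)).re := by
        rw [mul_sub, Complex.sub_re, mul_left_comm, Complex.re_ofReal_mul]
      rw [e]
      linarith)
  have e0 : (N * B + α • (Q * B) + ρ • (P * B)).mulVec u =
      ((N * B).mulVec u + α • (Q * B).mulVec u) + (ρ * (κ * z)) • a := by
    rw [add_mulVec, add_mulVec, smul_mulVec, smul_mulVec, hT.hp u, smul_smul]
  have hg : normSq (ρ * (κ * z)) ≤ (ρ0 * ‖κ‖) ^ 2 * normSq z := by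
    rw [← mul_assoc, normSq_mul]
    refine mul_le_mul_of_nonneg_right ?_ (normSq_nonneg _)
    rw [normSq_eq_norm_sq, norm_mul]
    have : 0 ≤ ‖ρ‖ * ‖κ‖ := by positivity
    have h3 : ‖ρ‖ * ‖κ‖ ≤ ρ0 * ‖κ‖ := mul_le_mul_of_nonneg_right hρ (norm_nonneg _)
    exact pow_le_pow_left₀ this h3 2
  have sp := sproc (X := X) (a := a) (u := (N * B).mulVec u + α • (Q * B).mulVec u) hσ h1 h0
    (g2 := (ρ0 * ‖κ‖) ^ 2 * normSq z) (by have := normSq_nonneg z; positivity) hg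
  have e1 : hs X a ((N * B).mulVec u + α • (Q * B).mulVec u) = s0 + α * s1 := by
    rw [hs_add_right, hs_smul_right, hT.hb0, hT.hb1]
  rw [e1, ev_line2, re_conj_mul, ← hhh] at sp
  rw [e0]
  refine le_trans ?_ sp
  have e : (α * (hh - js * (star s0 * s1))).re =
      (α * hh).re - js * (α * (star s0 * s1)).re := by
    rw [mul_sub, Complex.sub_re, mul_left_comm, Complex.re_ofReal_mul]
  rw [e] at key
  have f1 : 0 ≤ normSq s0 + normSq α * normSq s1 + 2 * (α * (star s0 * s1)).re := by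
    rw [← re_conj_mul]; exact normSq_nonneg _
  have f2 : (normSq s0 + normSq α * normSq s1 + 2 * (α * (star s0 * s1)).re) / σ ≤
      js * (normSq s0 + normSq α * normSq s1 + 2 * (α * (star s0 * s1)).re) := by
    rw [div_eq_mul_one_div, mul_comm]
    exact mul_le_mul_of_nonneg_right hjs f1
  have f3 : (σ - ξ0) * ((ρ0 * ‖κ‖) ^ 2 * normSq z) ≤ c4 * normSq z := by
    rw [← mul_assoc]
    exact mul_le_mul_of_nonneg_right hc4 (normSq_nonneg _)
  linarith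

theorem dsq_cast (a b : ℕ) : ((dsq a b : ℕ) : ℝ) = ((a : ℝ) - b) ^ 2 := by
  have h : ((Nat.add (Nat.sub a b) (Nat.sub b a) : ℕ) : ℝ) = |(a : ℝ) - b| := by
    show (((a - b) + (b - a) : ℕ) : ℝ) = _
    rcases le_total a b with h | h
    · rw [Nat.sub_eq_zero_of_le h, Nat.cast_add, Nat.cast_sub h]
      have : (a : ℝ) ≤ b := by exact_mod_cast h
      rw [abs_of_nonpos (by linarith)]; simp
    · rw [Nat.sub_eq_zero_of_le h, Nat.cast_add, Nat.cast_sub h]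
      have : (b : ℝ) ≤ a := by exact_mod_cast h
      rw [abs_of_nonneg (by linarith)]; simp
  unfold dsq
  rw [nmul, h, ← sq, sq_abs]

theorem pt_eq (a b : ℕ) : pt a b = (⟨(a : ℝ) / 16777216, (b : ℝ) / 16777216⟩ : ℂ) := by
  unfold pt Pool.Agent.Helper32.C75.UU
  norm_num

theorem okP (hA : ArS A OK HK) (a : ℕ) :
    OK (((a : ℝ) / 16777216 : ℝ) : ℂ) (cR A (Z.p (Nat.mul (nat_lit 16777216) a))) := by
  refine okE (okR hA _) ?_
  congr 1
  have : ((zv (Z.p (Nat.mul (nat_lit 16777216) a)) : ℤ) : ℝ) = 16777216 * a := by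
    show (((Nat.mul (nat_lit 16777216) a : ℕ) : ℤ) : ℝ) = _
    rw [Int.cast_natCast, nmul]; norm_num
  rw [this]
  unfold UU
  ring

/-- with the sign -/
def sgz (ng : ℕ) (z : ℂ) : ℂ := if ng = 0 then z else conj z

theorem sgz_sgz (ng : ℕ) (z : ℂ) : sgz ng (sgz ng z) = z := by
  unfold sgz
  split_ifs
  · rfl
  · exact Complex.conj_conj z

theorem sgz_normSq (ng : ℕ) (z : ℂ) : normSq (sgz ng z) = normSq z := by
  unfold sgz
  split_ifs
  · rfl
  · exact normSq_conj z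

theorem sgz_sub (ng : ℕ) (z w : ℂ) : sgz ng (z - w) = sgz ng z - sgz ng w := by
  unfold sgz
  split_ifs
  · rfl
  · exact map_sub _ _ _

theorem sgz_sum {ι : Type*} [Fintype ι] (ng : ℕ) (w : ι → ℝ) (f : ι → ℂ) :
    sgz ng (∑ i, (w i : ℂ) * f i) = ∑ i, (w i : ℂ) * sgz ng (f i) := by
  unfold sgz
  split_ifs
  · rfl
  · rw [map_sum]
    refine Finset.sum_congr rfl fun i _ => ?_
    rw [map_mul, conj_ofReal]

/-- `α` is in the polygon -/
def InP (T : TP M) (α : ℂ) : Prop := InHull T.V (sgz T.ng α)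

theorem sgz_pt (ng a b : ℕ) : ∃ y : ℝ, sgz ng (pt a b) = ⟨(a : ℝ) / 16777216, y⟩ ∧
    ((zv (sZ ng (Nat.mul (nat_lit 16777216) b)) : ℝ) / UU : ℝ) = y := by
  rcases ng with _ | ng
  · refine ⟨(b : ℝ) / 16777216, ?_, ?_⟩
    · unfold sgz
      rw [if_pos rfl, pt_eq]
    · have : ((zv (sZ 0 (Nat.mul (nat_lit 16777216) b)) : ℤ) : ℝ) = 16777216 * b := by
        show (((Nat.mul (nat_lit 16777216) b : ℕ) : ℤ) : ℝ) = _
        rw [Int.cast_natCast, nmul]; norm_num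
      rw [this]
      unfold UU
      ring
  · refine ⟨-((b : ℝ) / 16777216), ?_, ?_⟩
    · unfold sgz
      rw [if_neg (Nat.succ_ne_zero ng), pt_eq]
      rfl
    · have : ((zv (sZ (ng + 1) (Nat.mul (nat_lit 16777216) b)) : ℤ) : ℝ) = -(16777216 * b) := by
        show ((-((Nat.mul (nat_lit 16777216) b : ℕ) : ℤ) : ℤ) : ℝ) = _
        rw [Int.cast_neg, Int.cast_natCast, nmul]; norm_num
      rw [this]
      unfold UU
      ring

/-- ONE POLYGON: membership of a vertex -/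
theorem tPV_mem {H : HR PH} {R : BR M PH} {P : TP M} {c4 : ℕ} {l : List (ℕ × ℕ)}
    (h : tPV A H R P c4 l = true) {x : ℕ × ℕ} (hx : x ∈ l) :
    dsq x.1 P.cx + dsq x.2 P.cy ≤ P.R ∧ tV A H R P.l P.ng P.is c4 P.R x.1 x.2 = true := by
  induction l with
  | nil => cases hx
  | cons y l ih =>
    obtain ⟨h1, h2⟩ := andBt (show andB (Nat.ble (Nat.add (dsq y.1 P.cx) (dsq y.2 P.cy)) P.R)
      (andB (tV A H R P.l P.ng P.is c4 P.R y.1 y.2) (tPV A H R P c4 l)) = true from h)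
    obtain ⟨h3, h4⟩ := andBt h2
    rcases List.mem_cons.1 hx with rfl | hx
    · exact ⟨Nat.le_of_ble_eq_true h1, h3⟩
    · exact ih h4 hx

theorem hs_self (X : Hm ℝ) (a : Fin 3 → ℂ) : (hs X a a).re = ev X a := (ev_hs X a).symm

/-- THE TAIL at a polygon -/
theorem tP_sound (hA : ArS A OK HK) {X E : Hm ℝ} {N Q P B : M3} {H : HR PH} {R : BR M PH}
    (hH : HRK HK X E (N * B) (Q * B) (P * B) B H) {a b0 b1 g : Fin 3 → ℂ} {κ : ℂ}
    (hR : BRK OK HK X a b0 b1 g R) (hT : TlD X E N Q P B a b0 b1 g κ) (hB : B.det ≠ 0)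
    {r0 kb : ℕ} (hκ : ‖κ‖ * UU ≤ kb) {T : TP M} (hl : LOK OK T.l) (h : tP A H R r0 kb T = true)
    {α ρ : ℂ} (hα : InP T α) (hρ : ‖ρ‖ * UU ≤ r0) : Le E X (N + α • Q + ρ • P) := by
  have hU := UU_pos
  obtain ⟨h1, h2⟩ := andBt h
  obtain ⟨h3, h4⟩ := andBt h2
  obtain ⟨lam, l0, l1⟩ := hl
  obtain ⟨x1, x2⟩ := xi_bounds hA hR.xi h1
  rw [hs_self] at x1 x2
  have h3' : 79228162514264337593543950336 ≤ T.is * T.sg := Nat.le_of_ble_eq_true h3
  have hsg : 0 < T.sg := by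
    rcases Nat.eq_zero_or_pos T.sg with h0 | h0
    · rw [h0, Nat.mul_zero] at h3'; omega
    · exact h0
  have hsg' : (0 : ℝ) < T.sg := by exact_mod_cast hsg
  have hjs : 1 / ((T.sg : ℝ) / UU) ≤ (T.is : ℝ) / UU := by
    rw [one_div, inv_div, div_le_div_iff₀ hsg' hU]
    have : ((79228162514264337593543950336 : ℕ) : ℝ) ≤ ((T.is * T.sg : ℕ) : ℝ) :=
      by exact_mod_cast h3'
    push_cast at this
    have e : UU * UU = 79228162514264337593543950336 := by unfold UU; norm_num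
    rw [e]; exact this
  obtain ⟨wt, w0, ws, we⟩ := hα
  have we' : α = ∑ i, (wt i : ℂ) * sgz T.ng (pt (T.V.get i).1 (T.V.get i).2) := by
    rw [← sgz_sum, ← we, sgz_sgz]
  refine Le.of_basis hB l0 fun u => ?_
  rw [fam_basis]
  refine tP_point hT (σ := (T.sg : ℝ) / UU) (ξ0 := ((T.sg : ℝ) - T.w) / UU)
    (js := (T.is : ℝ) / UU) (c4 := ((cR4 T.w r0 kb : ℕ) : ℝ) / UU) (by positivity)
    (by rw [le_div_iff₀ hU]; exact x1) (by rw [div_le_iff₀ hU]; exact x2) hjs (ρ0 := ‖ρ‖) ?_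
    w0 ws (V := fun i => sgz T.ng (pt (T.V.get i).1 (T.V.get i).2)) we'
    (c := sgz T.ng (⟨(T.cx : ℝ) / 16777216, (T.cy : ℝ) / 16777216⟩ : ℂ))
    (R := (T.R : ℝ) / UU) ?_ le_rfl u ?_
  · have e : (T.sg : ℝ) / UU - ((T.sg : ℝ) - T.w) / UU = T.w / UU := by ring
    rw [e]
    exact cR4_sound (norm_nonneg _) (norm_nonneg _) hρ hκ
  · intro i
    obtain ⟨m1, -⟩ := tPV_mem h4 (List.get_mem T.V i)
    have m2 : ((dsq (T.V.get i).1 T.cx : ℕ) : ℝ) + (dsq (T.V.get i).2 T.cy : ℕ) ≤ T.R := by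
      exact_mod_cast m1
    rw [dsq_cast, dsq_cast] at m2
    show normSq (sgz T.ng (pt (T.V.get i).1 (T.V.get i).2) - sgz T.ng _) ≤ _
    rw [← sgz_sub, sgz_normSq, pt_eq, normSq_apply, le_div_iff₀ hU]
    simp only [Complex.sub_re, Complex.sub_im]
    unfold UU
    have : ((((T.V.get i).1 : ℝ) / 16777216 - (T.cx : ℝ) / 16777216) *
        (((T.V.get i).1 : ℝ) / 16777216 - (T.cx : ℝ) / 16777216) +
      (((T.V.get i).2 : ℝ) / 16777216 - (T.cy : ℝ) / 16777216) *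
        (((T.V.get i).2 : ℝ) / 16777216 - (T.cy : ℝ) / 16777216)) * 281474976710656 =
      (((T.V.get i).1 : ℝ) - T.cx) ^ 2 + (((T.V.get i).2 : ℝ) - T.cy) ^ 2 := by
      ring
    rw [this]; exact m2
  · intro i n hn
    obtain ⟨-, m1⟩ := tPV_mem h4 (List.get_mem T.V i)
    set X1 := (T.V.get i).1 with hX1
    set Y1 := (T.V.get i).2 with hY1
    obtain ⟨m2, m3⟩ := andBt m1
    have hns : normSq (sgz T.ng (pt X1 Y1)) = ((X1 * X1 + Y1 * Y1 : ℕ) : ℝ) / UU := by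
      rw [sgz_normSq, pt_eq, normSq_apply]
      unfold UU
      push_cast
      ring
    obtain ⟨y, hy1, hy2⟩ := sgz_pt T.ng X1 Y1
    have hy : OK (y : ℂ) (cR A (sZ T.ng (Nat.mul (nat_lit 16777216) Y1))) := by
      refine okE (okR hA _) ?_
      rw [← hy2]
    have hj : OK ((-((T.is : ℝ) / UU) : ℝ) : ℂ) (cR A (Z.m T.is)) := by
      refine okE (okR hA _) ?_
      congr 1
      simp [zv, neg_div]
    have hc : OK ((-((cR4 T.w r0 kb : ℕ) / UU) : ℝ) : ℂ) (cR A (Z.m (cR4 T.w r0 kb))) := by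
      refine okE (okR hA _) ?_
      congr 1
      simp [zv, neg_div]
    rcases hn with rfl | rfl
    · have hn1 : OK ((normSq (sgz T.ng (pt X1 Y1)) : ℝ) : ℂ)
          (cR A (Z.p (Nat.add (Nat.mul X1 X1) (Nat.mul Y1 Y1)))) := by
        refine okE (okR hA _) ?_
        rw [hns]
        congr 1
      have key := tV3_sound hA hH hR (okP hA X1) hy hn1 hj hc l1 m2 u
      rw [← hy1] at key
      exact key
    · have hn1 : OK ((normSq (sgz T.ng (pt X1 Y1)) - (T.R : ℝ) / UU : ℝ) : ℂ)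
          (cR A (Z.sub (Z.p (Nat.add (Nat.mul X1 X1) (Nat.mul Y1 Y1))) (Z.p T.R))) := by
        refine okE (okR hA _) ?_
        rw [hns, zv_sub, ← sub_div]
        congr 1
        have e1 : zv (Z.p (Nat.add (Nat.mul X1 X1) (Nat.mul Y1 Y1))) = ((X1 * X1 + Y1 * Y1 : ℕ) : ℤ) :=
          rfl
        have e2 : zv (Z.p T.R) = ((T.R : ℕ) : ℤ) := rfl
        rw [e1, e2]
        push_cast
        ring
      have key := tV3_sound hA hH hR (okP hA X1) hy hn1 hj hc l1 m3 u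
      rw [← hy1] at key
      exact key

/-- a list of polygons -/
theorem tPL_sound (hA : ArS A OK HK) {X E : Hm ℝ} {N Q P B : M3} {H : HR PH} {R : BR M PH}
    (hH : HRK HK X E (N * B) (Q * B) (P * B) B H) {a b0 b1 g : Fin 3 → ℂ} {κ : ℂ}
    (hR : BRK OK HK X a b0 b1 g R) (hT : TlD X E N Q P B a b0 b1 g κ) (hB : B.det ≠ 0)
    {r0 kb : ℕ} (hκ : ‖κ‖ * UU ≤ kb) {L : List (TP M)} (hl : ∀ T ∈ L, LOK OK T.l)
    (h : tPL A H R r0 kb L = true) {α ρ : ℂ} (hα : ∃ T ∈ L, InP T α)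
    (hρ : ‖ρ‖ * UU ≤ r0) : Le E X (N + α • Q + ρ • P) := by
  obtain ⟨T, hT', hα⟩ := hα
  refine tP_sound hA hH hR hT hB hκ (hl T hT') ?_ hα hρ
  clear hα hl
  induction L with
  | nil => cases hT'
  | cons y l ih =>
    obtain ⟨h1, h2⟩ := andBt (show andB (tP A H R r0 kb y) (tPL A H R r0 kb l) = true from h)
    rcases List.mem_cons.1 hT' with rfl | hx
    · exact h1
    · exact ih h2 hx

end Pool.Agent.Helper57.KNB
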