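import Pool.Agent.Helper57.KNB.KA2
import Pool.Agent.Helper57.KNB.KN10

/-!
Row KFT, A families over any arithmetic, part 3: soundness of the polygons.
-/

set_option autoImplicit false
noncomputable section
namespace Pool.Agent.Helper57.KNB

open Pool.Agent.Helper42.CH (powA)
open Pool.Agent.Helper86.C75 (Z)
open Pool.Agent.Helper86.CX (Cx andB Hm ev mkH)
open Pool.Agent.Helper90.KMO (zv cz UU UU_pos)
open Pool.Agent.Helper39.KNF (N2m N1t T2d FNm_eq FamI)
open Pool.Agent.Helper6.MONO (FNm)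
open Pool.Agent.Helper32.C75 (InHull pt)
open Complex ComplexConjugate Matrix

/-! ### convex combinations -/

section

variable {ι : Type*} [Fintype ι] {w : ι → ℝ} {V : ι → ℂ} {a c : ℂ} {R : ℝ}

theorem sum_re (w : ι → ℝ) (f : ι → ℂ) :
    ∑ i, w i * (f i).re = (∑ i, (w i : ℂ) * f i).re := by
  rw [Complex.re_sum]
  refine Finset.sum_congr rfl fun i _ => ?_
  rw [Complex.re_ofReal_mul]

theorem norm_sum_w (hw : ∀ i, 0 ≤ w i) (f : ι → ℂ) :
    ‖∑ i, (w i : ℂ) * f i‖ ≤ ∑ i, w i * ‖f i‖ := by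
  refine (norm_sum_le _ _).trans (le_of_eq (Finset.sum_congr rfl fun i _ => ?_))
  rw [norm_mul, Complex.norm_real, Real.norm_eq_abs, abs_of_nonneg (hw i)]

theorem sum_w_const (hs1 : ∑ i, w i = 1) (x : ℂ) : ∑ i, (w i : ℂ) * x = x := by
  rw [← Finset.sum_mul, ← Complex.ofReal_sum, hs1]
  simp

theorem sum_dev (hs1 : ∑ i, w i = 1) (ha : a = ∑ i, (w i : ℂ) * V i) :
    ∑ i, (w i : ℂ) * (V i - a) = 0 := by
  have : ∀ i, (w i : ℂ) * (V i - a) = (w i : ℂ) * V i - (w i : ℂ) * a := fun i => by ring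
  simp only [this]
  rw [Finset.sum_sub_distrib, sum_w_const hs1, ← ha, sub_self]

/-- the variance is at most the square of the radius -/
theorem var_le2 (hw : ∀ i, 0 ≤ w i) (hs1 : ∑ i, w i = 1) (ha : a = ∑ i, (w i : ℂ) * V i)
    (hR : ∀ i, normSq (V i - c) ≤ R) : ∑ i, w i * normSq (V i - a) ≤ R := by
  have e : ∀ i, w i * normSq (V i - c) = w i * normSq (V i - a) + w i * normSq (a - c) +
      2 * (w i * ((V i - a) * conj (a - c)).re) := by
    intro i
    have : V i - c = (V i - a) + (a - c) := by ring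
    rw [this, normSq_add]
    ring
  have h0 : ∑ i, w i * ((V i - a) * conj (a - c)).re = 0 := by
    rw [sum_re]
    have : ∀ i, (w i : ℂ) * ((V i - a) * conj (a - c)) = (w i : ℂ) * (V i - a) * conj (a - c) :=
      fun i => by ring
    simp only [this]
    rw [← Finset.sum_mul, sum_dev hs1 ha, zero_mul]
    rfl
  have h1 : ∑ i, w i * normSq (V i - c) ≤ R := by
    calc _ ≤ ∑ i, w i * R := Finset.sum_le_sum fun i _ => mul_le_mul_of_nonneg_left (hR i) (hw i)
      _ = R := by rw [← Finset.sum_mul, hs1, one_mul]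
  simp only [e] at h1
  rw [Finset.sum_add_distrib, Finset.sum_add_distrib, ← Finset.mul_sum, h0, ← Finset.sum_mul, hs1]
    at h1
  have := normSq_nonneg (a - c)
  linarith

/-- mean of the squares -/
theorem sum_sq (hs1 : ∑ i, w i = 1) (ha : a = ∑ i, (w i : ℂ) * V i) :
    ∑ i, (w i : ℂ) * (V i * V i) - a * a = ∑ i, (w i : ℂ) * ((V i - a) * (V i - a)) := by
  have e : ∀ i, (w i : ℂ) * (V i * V i) = (w i : ℂ) * ((V i - a) * (V i - a)) +
      2 * a * ((w i : ℂ) * (V i - a)) + (w i : ℂ) * (a * a) := fun i => by ring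
  simp only [e]
  rw [Finset.sum_add_distrib, Finset.sum_add_distrib, ← Finset.mul_sum, sum_dev hs1 ha,
    sum_w_const hs1]
  ring

theorem norm_sq_dev (hw : ∀ i, 0 ≤ w i) (hs1 : ∑ i, w i = 1) (ha : a = ∑ i, (w i : ℂ) * V i)
    (hR : ∀ i, normSq (V i - c) ≤ R) : ‖∑ i, (w i : ℂ) * (V i * V i) - a * a‖ ≤ R := by
  rw [sum_sq hs1 ha]
  refine (norm_sum_w hw _).trans ?_
  have : ∀ i, w i * ‖(V i - a) * (V i - a)‖ = w i * normSq (V i - a) := fun i => by
    rw [norm_mul, normSq_eq_norm_sq, sq]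
  simp only [this]
  exact var_le2 hw hs1 ha hR

/-- the family at a point of a polygon -/
theorem tA_point {X E : Hm ℝ} {N Q B : M3} {hh dd : ℂ} {Bd e f g rb lam : ℝ}
    (hw : ∀ i, 0 ≤ w i) (hs1 : ∑ i, w i = 1) (ha : a = ∑ i, (w i : ℂ) * V i)
    (hR : ∀ i, normSq (V i - c) ≤ R) (hB : ∀ i, ‖V i‖ ≤ Bd)
    (he : ‖hh‖ * R ≤ e) (hrb : ∀ i, ‖hh * (V i * V i - 1) + dd‖ + e ≤ rb)
    (hf : 4 * (‖hh‖ * e * (Bd * Bd)) + 2 * (rb * e) ≤ f) (hg : 3 * (e * Bd) ≤ g)
    (u : Fin 3 → ℂ)
    (hv : ∀ i, ∀ (n n2 : ℝ) (rr ar : ℂ), |n - normSq (V i)| ≤ R →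
      |n2 - normSq (hh * (V i * V i - 1) + dd)| ≤ f →
      ‖rr - (hh * (V i * V i - 1) + dd)‖ ≤ e →
      ‖ar - star (V i) * (hh * (V i * V i - 1) + dd)‖ ≤ g →
      0 ≤ ev X (N.mulVec u) + n * ev X (Q.mulVec u) + n2 * ev X (B.mulVec u) +
        2 * (V i * hs X (N.mulVec u) (Q.mulVec u)).re +
        2 * (rr * hs X (N.mulVec u) (B.mulVec u)).re +
        2 * (ar * hs X (Q.mulVec u) (B.mulVec u)).re - lam * ev E (B.mulVec u)) :
    lam * ev E (B.mulVec u) ≤
      ev X ((N + a • Q + (hh * (a * a - 1) + dd) • B).mulVec u) := by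
  set r : ι → ℂ := fun i => hh * (V i * V i - 1) + dd with hr
  set ρ : ℂ := hh * (a * a - 1) + dd with hρ
  have hne : Nonempty ι := by
    by_contra h0
    rw [not_nonempty_iff] at h0
    rw [Finset.sum_of_isEmpty] at hs1
    exact zero_ne_one hs1
  obtain ⟨i0⟩ := hne
  have R0 : 0 ≤ R := (normSq_nonneg _).trans (hR i0)
  have B0 : 0 ≤ Bd := (norm_nonneg _).trans (hB i0)
  have e0 : 0 ≤ e := (mul_nonneg (norm_nonneg _) R0).trans he
  have hvar := var_le2 hw hs1 ha hR
  have hsq := norm_sq_dev hw hs1 ha hR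
  have haB : ‖a‖ ≤ Bd := by
    rw [ha]
    refine (norm_sum_w hw _).trans ?_
    calc _ ≤ ∑ i, w i * Bd := Finset.sum_le_sum fun i _ => mul_le_mul_of_nonneg_left (hB i) (hw i)
      _ = Bd := by rw [← Finset.sum_mul, hs1, one_mul]
  -- deviation of the coefficient
  have hrs : ∑ i, (w i : ℂ) * r i - ρ = hh * (∑ i, (w i : ℂ) * (V i * V i) - a * a) := by
    have e1 : ∀ i, (w i : ℂ) * r i = hh * ((w i : ℂ) * (V i * V i)) + (w i : ℂ) * (dd - hh) :=
      fun i => by simp only [hr]; ring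
    simp only [e1]
    rw [Finset.sum_add_distrib, ← Finset.mul_sum, sum_w_const hs1, hρ]
    ring
  have hrs2 : ‖∑ i, (w i : ℂ) * r i - ρ‖ ≤ e := by
    rw [hrs, norm_mul]
    exact (mul_le_mul_of_nonneg_left hsq (norm_nonneg _)).trans he
  have hρb : ‖ρ‖ ≤ rb := by
    have h1 : ‖∑ i, (w i : ℂ) * r i‖ ≤ rb - e := by
      refine (norm_sum_w hw _).trans ?_
      calc _ ≤ ∑ i, w i * (rb - e) := Finset.sum_le_sum fun i _ =>
            mul_le_mul_of_nonneg_left (by have := hrb i; linarith) (hw i)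
        _ = rb - e := by rw [← Finset.sum_mul, hs1, one_mul]
    have h2 : ρ = ∑ i, (w i : ℂ) * r i - (∑ i, (w i : ℂ) * r i - ρ) := by ring
    rw [h2]
    refine (norm_sub_le _ _).trans ?_
    linarith
  have hrb0 : 0 ≤ rb := (norm_nonneg _).trans hρb
  have hδ : ∀ i, r i - ρ = hh * ((V i - a) * (V i + a)) := fun i => by simp only [hr, hρ]; ring
  have hδn : ∀ i, ‖r i - ρ‖ ≤ ‖hh‖ * (‖V i - a‖ * (2 * Bd)) := by
    intro i
    rw [hδ, norm_mul, norm_mul]
    have : ‖V i + a‖ ≤ 2 * Bd := (norm_add_le _ _).trans (by have := hB i; linarith)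
    gcongr
  have hs1δ : ∑ i, (w i : ℂ) * (r i - ρ) = ∑ i, (w i : ℂ) * r i - ρ := by
    have : ∀ i, (w i : ℂ) * (r i - ρ) = (w i : ℂ) * r i - (w i : ℂ) * ρ := fun i => by ring
    simp only [this]
    rw [Finset.sum_sub_distrib, sum_w_const hs1]
  -- deviation of `|r|²`
  have hd2 : |∑ i, w i * normSq (r i) - normSq ρ| ≤ f := by
    have e1 : ∀ i, w i * normSq (r i) = w i * normSq (r i - ρ) + w i * normSq ρ +
        2 * (w i * ((r i - ρ) * conj ρ).re) := by
      intro i
      have : r i = (r i - ρ) + ρ := by ring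
      conv_lhs => rw [this]
      rw [normSq_add]
      ring
    have h0 : ∑ i, w i * ((r i - ρ) * conj ρ).re = ((∑ i, (w i : ℂ) * r i - ρ) * conj ρ).re := by
      rw [sum_re, ← hs1δ]
      have : ∀ i, (w i : ℂ) * ((r i - ρ) * conj ρ) = (w i : ℂ) * (r i - ρ) * conj ρ :=
        fun i => by ring
      simp only [this]
      rw [← Finset.sum_mul]
    have h1 : ∑ i, w i * normSq (r i) - normSq ρ = ∑ i, w i * normSq (r i - ρ) +
        2 * ((∑ i, (w i : ℂ) * r i - ρ) * conj ρ).re := by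
      simp only [e1]
      rw [Finset.sum_add_distrib, Finset.sum_add_distrib, ← Finset.mul_sum, h0, ← Finset.sum_mul,
        hs1]
      ring
    have h2 : ∑ i, w i * normSq (r i - ρ) ≤ 4 * (‖hh‖ * e * (Bd * Bd)) := by
      have h3 : ∀ i, w i * normSq (r i - ρ) ≤
          4 * (‖hh‖ * ‖hh‖ * (Bd * Bd)) * (w i * normSq (V i - a)) := by
        intro i
        have h4 := hδn i
        have h5 : normSq (r i - ρ) ≤ 4 * (‖hh‖ * ‖hh‖ * (Bd * Bd)) * normSq (V i - a) := by
          rw [normSq_eq_norm_sq, normSq_eq_norm_sq]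
          have := pow_le_pow_left₀ (norm_nonneg _) h4 2
          calc _ ≤ _ := this
            _ = _ := by ring
        calc _ ≤ w i * (4 * (‖hh‖ * ‖hh‖ * (Bd * Bd)) * normSq (V i - a)) :=
              mul_le_mul_of_nonneg_left h5 (hw i)
          _ = _ := by ring
      calc _ ≤ ∑ i, 4 * (‖hh‖ * ‖hh‖ * (Bd * Bd)) * (w i * normSq (V i - a)) :=
            Finset.sum_le_sum fun i _ => h3 i
        _ = 4 * (‖hh‖ * ‖hh‖ * (Bd * Bd)) * ∑ i, w i * normSq (V i - a) := by
            rw [Finset.mul_sum]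
        _ ≤ 4 * (‖hh‖ * ‖hh‖ * (Bd * Bd)) * R :=
            mul_le_mul_of_nonneg_left hvar (by positivity)
        _ = 4 * (‖hh‖ * (‖hh‖ * R) * (Bd * Bd)) := by ring
        _ ≤ _ := by gcongr
    have h3 : 0 ≤ ∑ i, w i * normSq (r i - ρ) :=
      Finset.sum_nonneg fun i _ => mul_nonneg (hw i) (normSq_nonneg _)
    have h4 : |((∑ i, (w i : ℂ) * r i - ρ) * conj ρ).re| ≤ rb * e := by
      refine (Complex.abs_re_le_norm _).trans ?_
      rw [norm_mul, RCLike.norm_conj, mul_comm]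
      exact mul_le_mul hρb hrs2 (norm_nonneg _) hrb0
    rw [h1]
    have := abs_le.1 h4
    rw [abs_le]
    constructor <;> linarith
  -- deviation of `conj a r`
  have hd3 : ‖∑ i, (w i : ℂ) * (star (V i) * r i) - star a * ρ‖ ≤ g := by
    have e1 : ∀ i, (w i : ℂ) * (star (V i) * r i) = (w i : ℂ) * (star (V i - a) * (r i - ρ)) +
        star a * ((w i : ℂ) * (r i - ρ)) + ρ * ((w i : ℂ) * star (V i - a)) +
        (w i : ℂ) * (star a * ρ) := fun i => by rw [star_sub]; ring
    have h0 : ∑ i, (w i : ℂ) * star (V i - a) = 0 := by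
      have h := congrArg star (sum_dev hs1 ha)
      rw [star_zero, star_sum] at h
      rw [← h]
      refine Finset.sum_congr rfl fun i _ => ?_
      rw [star_mul', show star ((w i : ℝ) : ℂ) = (w i : ℂ) from Complex.conj_ofReal _]
    have h1 : ∑ i, (w i : ℂ) * (star (V i) * r i) - star a * ρ =
        ∑ i, (w i : ℂ) * (star (V i - a) * (r i - ρ)) +
        star a * (∑ i, (w i : ℂ) * r i - ρ) := by
      simp only [e1]
      rw [Finset.sum_add_distrib, Finset.sum_add_distrib, Finset.sum_add_distrib,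
        ← Finset.mul_sum, ← Finset.mul_sum, h0, hs1δ, sum_w_const hs1]
      ring
    have h2 : ‖∑ i, (w i : ℂ) * (star (V i - a) * (r i - ρ))‖ ≤ 2 * (e * Bd) := by
      refine (norm_sum_w hw _).trans ?_
      have h3 : ∀ i, w i * ‖star (V i - a) * (r i - ρ)‖ ≤
          2 * (‖hh‖ * Bd) * (w i * normSq (V i - a)) := by
        intro i
        rw [norm_mul, norm_star, normSq_eq_norm_sq]
        have h5 := mul_le_mul_of_nonneg_left (hδn i) (norm_nonneg (V i - a))
        have h6 := mul_le_mul_of_nonneg_left h5 (hw i)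
        refine h6.trans (le_of_eq ?_)
        ring
      calc _ ≤ ∑ i, 2 * (‖hh‖ * Bd) * (w i * normSq (V i - a)) :=
            Finset.sum_le_sum fun i _ => h3 i
        _ = 2 * (‖hh‖ * Bd) * ∑ i, w i * normSq (V i - a) := by rw [Finset.mul_sum]
        _ ≤ 2 * (‖hh‖ * Bd) * R := mul_le_mul_of_nonneg_left hvar (by positivity)
        _ = 2 * ((‖hh‖ * R) * Bd) := by ring
        _ ≤ _ := by gcongr
    rw [h1]
    refine (norm_add_le _ _).trans ?_
    rw [norm_mul, norm_star]
    have h4 := mul_le_mul haB hrs2 (norm_nonneg _) B0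
    linarith
  -- deviation of `|a|²`
  have hd1 : |normSq a - ∑ i, w i * normSq (V i)| ≤ R := by
    have e1 : ∀ i, w i * normSq (V i) = w i * normSq (V i - a) + w i * normSq a +
        2 * (w i * ((V i - a) * conj a).re) := by
      intro i
      have : V i = (V i - a) + a := by ring
      conv_lhs => rw [this]
      rw [normSq_add]
      ring
    have h0 : ∑ i, w i * ((V i - a) * conj a).re = 0 := by
      rw [sum_re]
      have : ∀ i, (w i : ℂ) * ((V i - a) * conj a) = (w i : ℂ) * (V i - a) * conj a :=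
        fun i => by ring
      simp only [this]
      rw [← Finset.sum_mul, sum_dev hs1 ha, zero_mul]
      rfl
    simp only [e1]
    rw [Finset.sum_add_distrib, Finset.sum_add_distrib, ← Finset.mul_sum, h0, ← Finset.sum_mul,
      hs1]
    have h3 : 0 ≤ ∑ i, w i * normSq (V i - a) :=
      Finset.sum_nonneg fun i _ => mul_nonneg (hw i) (normSq_nonneg _)
    rw [abs_le]
    constructor <;> linarith
  -- the tests at the vertices
  have hall : ∀ i, 0 ≤ w i * (ev X (N.mulVec u) + (normSq (V i) +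
        (normSq a - ∑ i, w i * normSq (V i))) * ev X (Q.mulVec u) +
        (normSq (r i) - (∑ i, w i * normSq (r i) - normSq ρ)) * ev X (B.mulVec u) +
        2 * (V i * KNB.hs X (N.mulVec u) (Q.mulVec u)).re +
        2 * ((r i - (∑ i, (w i : ℂ) * r i - ρ)) * KNB.hs X (N.mulVec u) (B.mulVec u)).re +
        2 * ((star (V i) * r i - (∑ i, (w i : ℂ) * (star (V i) * r i) - star a * ρ)) *
          KNB.hs X (Q.mulVec u) (B.mulVec u)).re - lam * ev E (B.mulVec u)) := by
    intro i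
    refine mul_nonneg (hw i) (hv i _ _ _ _ ?_ ?_ ?_ ?_)
    · rw [add_sub_cancel_left]
      exact hd1
    · rw [sub_sub_cancel_left, abs_neg]
      exact hd2
    · rw [sub_sub_cancel_left, norm_neg]
      exact hrs2
    · rw [sub_sub_cancel_left, norm_neg]
      exact hd3
  have hsum := Finset.sum_nonneg fun i (_ : i ∈ Finset.univ) => hall i
  set D1 := normSq a - ∑ i, w i * normSq (V i) with hD1
  set D2 := ∑ i, w i * normSq (r i) - normSq ρ with hD2
  set D3 := ∑ i, (w i : ℂ) * r i - ρ with hD3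
  set D4 := ∑ i, (w i : ℂ) * (star (V i) * r i) - star a * ρ with hD4
  set K0 := ev X (N.mulVec u)
  set K1 := ev X (Q.mulVec u)
  set K2 := ev X (B.mulVec u)
  set L0 := lam * ev E (B.mulVec u)
  set H1 := KNB.hs X (N.mulVec u) (Q.mulVec u)
  set H2 := KNB.hs X (N.mulVec u) (B.mulVec u)
  set H3 := KNB.hs X (Q.mulVec u) (B.mulVec u)
  have e1 : ∀ i, w i * (K0 + (normSq (V i) + D1) * K1 + (normSq (r i) - D2) * K2 +
      2 * (V i * H1).re + 2 * ((r i - D3) * H2).re + 2 * ((star (V i) * r i - D4) * H3).re - L0) =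
      w i * (K0 + D1 * K1 - D2 * K2 - L0) + (w i * normSq (V i)) * K1 +
      (w i * normSq (r i)) * K2 + 2 * ((w i : ℂ) * V i * H1).re +
      2 * (((w i : ℂ) * r i - (w i : ℂ) * D3) * H2).re +
      2 * (((w i : ℂ) * (star (V i) * r i) - (w i : ℂ) * D4) * H3).re := by
    intro i
    have f1 : ((w i : ℂ) * V i * H1).re = w i * (V i * H1).re := by
      rw [mul_assoc, Complex.re_ofReal_mul]
    have f2 : (((w i : ℂ) * r i - (w i : ℂ) * D3) * H2).re = w i * ((r i - D3) * H2).re := by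
      rw [← mul_sub, mul_assoc, Complex.re_ofReal_mul]
    have f3 : (((w i : ℂ) * (star (V i) * r i) - (w i : ℂ) * D4) * H3).re =
        w i * ((star (V i) * r i - D4) * H3).re := by
      rw [← mul_sub, mul_assoc, Complex.re_ofReal_mul]
    rw [f1, f2, f3]
    ring
  have g1 : ∑ i, ((w i : ℂ) * V i * H1).re = (a * H1).re := by
    rw [ha, Finset.sum_mul, Complex.re_sum]
  have g2 : ∑ i, (((w i : ℂ) * r i - (w i : ℂ) * D3) * H2).re = (ρ * H2).re := by
    rw [← Complex.re_sum, ← Finset.sum_mul, Finset.sum_sub_distrib, sum_w_const hs1, hD3]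
    congr 2
    ring
  have g3 : ∑ i, (((w i : ℂ) * (star (V i) * r i) - (w i : ℂ) * D4) * H3).re =
      (star a * ρ * H3).re := by
    rw [← Complex.re_sum, ← Finset.sum_mul, Finset.sum_sub_distrib, sum_w_const hs1, hD4]
    congr 2
    ring
  have hsum2 : 0 ≤ (K0 + D1 * K1 - D2 * K2 - L0) + (∑ i, w i * normSq (V i)) * K1 +
      (∑ i, w i * normSq (r i)) * K2 + 2 * (a * H1).re + 2 * (ρ * H2).re +
      2 * (star a * ρ * H3).re := by
    have : ∑ i, w i * (K0 + (normSq (V i) + D1) * K1 + (normSq (r i) - D2) * K2 +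
      2 * (V i * H1).re + 2 * ((r i - D3) * H2).re +
      2 * ((star (V i) * r i - D4) * H3).re - L0) = (K0 + D1 * K1 - D2 * K2 - L0) +
      (∑ i, w i * normSq (V i)) * K1 +
      (∑ i, w i * normSq (r i)) * K2 + 2 * (a * H1).re + 2 * (ρ * H2).re +
      2 * (star a * ρ * H3).re := by
      simp only [e1]
      rw [Finset.sum_add_distrib, Finset.sum_add_distrib, Finset.sum_add_distrib,
        Finset.sum_add_distrib, Finset.sum_add_distrib, ← Finset.mul_sum, ← Finset.mul_sum,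
        ← Finset.mul_sum, g1, g2, g3, ← Finset.sum_mul, ← Finset.sum_mul, ← Finset.sum_mul, hs1,
        one_mul]
    rw [← this]
    exact hsum
  have e : (N + a • Q + ρ • B).mulVec u = N.mulVec u + a • Q.mulVec u + ρ • B.mulVec u := by
    rw [add_mulVec, add_mulVec, smul_mulVec, smul_mulVec]
  rw [e, ev_plane]
  have e4 : (conj a * ρ * KNB.hs X (Q.mulVec u) (B.mulVec u)).re = (star a * ρ * H3).re := rfl
  have e5 : D1 = normSq a - ∑ i, w i * normSq (V i) := hD1
  have e6 : D2 = ∑ i, w i * normSq (r i) - normSq ρ := hD2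
  rw [e5, e6] at hsum2
  linarith

end

end Pool.Agent.Helper57.KNB
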