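import Pool.Agent.Helper57.KNB.KA3

/-!
Row KFT, A families over any arithmetic, part 4: soundness of the polygon tests and of the control
points of `tau`.
-/

set_option autoImplicit false
noncomputable section
namespace Pool.Agent.Helper57.KNB

open Pool.Agent.Helper42.CH (powA)
open Pool.Agent.Helper86.C75 (Z)
open Pool.Agent.Helper86.CX (Cx andB Hm ev mkH nb csub one1)
open Pool.Agent.Helper90.KMO (zv cz UU UU_pos cz_sub nb_le)
open Pool.Agent.Helper39.KNF (N2m N1t T2d FNm_eq FamI)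
open Pool.Agent.Helper6.MONO (FNm)
open Pool.Agent.Helper32.C75 (InHull pt Near)
open Complex ComplexConjugate Matrix

variable {M PH : Type} {A : Ar M PH} {OK : ℂ → M → Prop} {HK : Hm ℝ → PH → Prop}

/-! ### numbers -/

theorem m48_ge (a b : ℕ) : (a : ℝ) * b / UU ≤ m48 a b := by
  unfold m48
  rw [nadd]
  have h : ((Nat.shiftRight (Nat.mul a b) (nat_lit 48) : ℕ) : ℝ) =
      ((a * b / 2 ^ 48 : ℕ) : ℝ) := by
    congr 1
    exact Nat.shiftRight_eq_div_pow _ _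
  rw [h]
  have h2 : a * b < 2 ^ 48 * (a * b / 2 ^ 48 + 1) := Nat.lt_mul_div_succ _ (by positivity)
  have h3 : (a : ℝ) * b ≤ 2 ^ 48 * (((a * b / 2 ^ 48 : ℕ) : ℝ) + 1) := by
    have : ((a * b : ℕ) : ℝ) < ((2 ^ 48 * (a * b / 2 ^ 48 + 1) : ℕ) : ℝ) := by exact_mod_cast h2
    push_cast at this
    push_cast
    linarith
  have hU : (UU : ℝ) = 2 ^ 48 := by unfold UU; norm_num
  rw [hU, div_le_iff₀ (by positivity)]
  have e1 : ((nat_lit 1 : ℕ) : ℝ) = 1 := by norm_num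
  rw [e1]
  linarith

theorem m48_le {x y : ℝ} {a b : ℕ} (_hx0 : 0 ≤ x) (hy0 : 0 ≤ y) (hx : x * UU ≤ a)
    (hy : y * UU ≤ b) : x * y * UU ≤ m48 a b := by
  have hU := UU_pos
  refine le_trans ?_ (m48_ge a b)
  rw [le_div_iff₀ hU]
  calc x * y * UU * UU = (x * UU) * (y * UU) := by ring
    _ ≤ a * b := mul_le_mul hx hy (by positivity) (Nat.cast_nonneg _)

theorem ok_ptM (hA : ArS A OK HK) (x y : ℕ) : OK (pt x y) (ptM A x y) := by
  refine okE (hA.cs _) ?_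
  rw [pt_eq]
  have e : ∀ a : ℕ, ((zv (Z.p (Nat.mul (nat_lit 16777216) a)) : ℤ) : ℝ) = 16777216 * a := by
    intro a
    show (((Nat.mul (nat_lit 16777216) a : ℕ) : ℤ) : ℝ) = _
    rw [Int.cast_natCast, nmul]; norm_num
  apply Complex.ext
  · rw [Complex.div_ofReal_re]
    show ((zv (Z.p (Nat.mul (nat_lit 16777216) x)) : ℤ) : ℝ) / UU = _
    rw [e]
    unfold UU
    ring
  · rw [Complex.div_ofReal_im]
    show ((zv (Z.p (Nat.mul (nat_lit 16777216) y)) : ℤ) : ℝ) / UU = _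
    rw [e]
    unfold UU
    ring

section

variable {S S' g g' o : ℂ} {X E : Hm ℝ} {N Q B : M3} {C : FCg M} {H : HR PH}

/-- the test with ten terms -/
theorem tVA3_sound (hA : ArS A OK HK) (hH : HRK HK X E N Q B B H) {d : D3} {x y n n2 lam : ℝ}
    {rr ar : ℂ} {x' y' n' n2' rr' ri' ar' ai' l' : M} (hx : OK (x : ℂ) x') (hy : OK (y : ℂ) y')
    (hn : OK (n : ℂ) n') (hn2 : OK (n2 : ℂ) n2') (h1 : OK (rr.re : ℂ) rr')
    (h2 : OK (rr.im : ℂ) ri') (h3 : OK (ar.re : ℂ) ar') (h4 : OK (ar.im : ℂ) ai')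
    (hl : OK (lam : ℂ) l') (h : tVA3 A d H x' y' n' n2' rr' ri' ar' ai' l' = true)
    (u : Fin 3 → ℂ) :
    0 ≤ ev X (N.mulVec u) + n * ev X (Q.mulVec u) + n2 * ev X (B.mulVec u) +
      2 * ((⟨x, y⟩ : ℂ) * hs X (N.mulVec u) (Q.mulVec u)).re +
      2 * (rr * hs X (N.mulVec u) (B.mulVec u)).re +
      2 * (ar * hs X (Q.mulVec u) (B.mulVec u)).re - lam * ev E (B.mulVec u) := by
  have h5 := hA.lt (p := [((1 : ℝ), cgH N X), (n, cgH Q X), (n2, cgH B X), (x, hrH X N Q),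
    (y, hiH X N Q), (rr.re, hrH X N B), (rr.im, hiH X N B), (ar.re, hrH X Q B),
    (ar.im, hiH X Q B), (-lam, cgH B E)]) (by
      refine List.Forall₂.cons ⟨okE (ok1 hA) (by simp), hH.h00⟩
        (List.Forall₂.cons ⟨hn, hH.h11⟩ (List.Forall₂.cons ⟨hn2, hH.h22⟩
        (List.Forall₂.cons ⟨hx, hH.h01⟩ (List.Forall₂.cons ⟨hy, hH.k01⟩
        (List.Forall₂.cons ⟨h1, hH.h02⟩ (List.Forall₂.cons ⟨h2, hH.k02⟩
        (List.Forall₂.cons ⟨h3, hH.h12⟩ (List.Forall₂.cons ⟨h4, hH.k12⟩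
        (List.Forall₂.cons ⟨okE (okN hA hl) (by simp), hH.e⟩ List.Forall₂.nil))))))))))
      h u
  simp only [List.map_cons, List.map_nil, List.sum_cons, List.sum_nil, add_zero, one_mul,
    ev_cgH, ev_hrH, ev_hiH] at h5
  rw [re_mul2, re_mul2, re_mul2]
  linarith

/-- a vertex -/
theorem tVA_sound (hA : ArS A OK HK) (hC : FgK OK S S' g g' o C)
    (hH : HRK HK X E N Q B B H) {T : TA M} {lam : ℝ} (hl : OK (lam : ℂ) T.l.l) {e f gg : ℕ}
    {p : ℕ × ℕ} (h : tVA A C H T e f gg p = true) :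
    (dsq p.1 T.cx + dsq p.2 T.cy ≤ T.R ∧ p.1 * p.1 + p.2 * p.2 ≤ T.B * T.B) ∧
      ‖rAc S S' g g' (pt p.1 p.2)‖ * UU + e ≤ T.rb ∧ ∀ u,
      ∀ (n n2 : ℝ) (rr ar : ℂ), |n - normSq (pt p.1 p.2)| * UU ≤ T.R →
      |n2 - normSq (rAc S S' g g' (pt p.1 p.2))| * UU ≤ f →
      ‖rr - rAc S S' g g' (pt p.1 p.2)‖ * UU ≤ e →
      ‖ar - star (pt p.1 p.2) * rAc S S' g g' (pt p.1 p.2)‖ * UU ≤ gg →
      0 ≤ ev X (N.mulVec u) + n * ev X (Q.mulVec u) + n2 * ev X (B.mulVec u) +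
        2 * (pt p.1 p.2 * hs X (N.mulVec u) (Q.mulVec u)).re +
        2 * (rr * hs X (N.mulVec u) (B.mulVec u)).re +
        2 * (ar * hs X (Q.mulVec u) (B.mulVec u)).re - lam * ev E (B.mulVec u) := by
  obtain ⟨h1, h⟩ := andBt h
  obtain ⟨h2, h⟩ := andBt h
  obtain ⟨h3, h⟩ := andBt h
  have hp := ok_ptM hA p.1 p.2
  have hr := hC.r hA hp
  have hnb := hA.nb hr
  refine ⟨⟨Nat.le_of_ble_eq_true h1, Nat.le_of_ble_eq_true h2⟩, ?_, ?_⟩
  · have h4 : A.nb (rA A C (ptM A p.1 p.2)) + e ≤ T.rb := Nat.le_of_ble_eq_true h3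
    have h5 : ((A.nb (rA A C (ptM A p.1 p.2)) : ℕ) : ℝ) + e ≤ T.rb := by exact_mod_cast h4
    linarith
  · intro u n n2 rr ar q1 q2 q3 q4
    have hns : normSq (pt p.1 p.2) = ((p.1 * p.1 + p.2 * p.2 : ℕ) : ℝ) / UU := by
      rw [pt_eq, normSq_mk]
      push_cast
      unfold UU
      ring
    have hn : OK (n : ℂ) (A.wd T.R (cR A (Z.p (Nat.add (Nat.mul p.1 p.1) (Nat.mul p.2 p.2))))) := by
      refine hA.wd (okR hA _) ?_
      have e1 : ((zv (Z.p (Nat.add (Nat.mul p.1 p.1) (Nat.mul p.2 p.2))) : ℤ) : ℝ) =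
          ((p.1 * p.1 + p.2 * p.2 : ℕ) : ℝ) := by
        show (((Nat.add (Nat.mul p.1 p.1) (Nat.mul p.2 p.2) : ℕ) : ℤ) : ℝ) = _
        rw [Int.cast_natCast]
        rfl
      rw [e1, ← hns, ← Complex.ofReal_sub, Complex.norm_real, Real.norm_eq_abs]
      exact q1
    have hrr : OK rr (A.wd e (rA A C (ptM A p.1 p.2))) := hA.wd hr q3
    have hn2 : OK (n2 : ℂ) (A.wd f (A.mul (rA A C (ptM A p.1 p.2))
        (A.cj (rA A C (ptM A p.1 p.2))))) := by
      refine hA.wd (hA.mul hr (hA.cj hr)) ?_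
      rw [← normSq_cj, ← Complex.ofReal_sub, Complex.norm_real, Real.norm_eq_abs]
      exact q2
    have har : OK ar (A.wd gg (A.mul (A.cj (ptM A p.1 p.2)) (rA A C (ptM A p.1 p.2)))) :=
      hA.wd (hA.mul (hA.cj hp) hr) q4
    have h6 := tVA3_sound hA hH (okP hA p.1) (okP hA p.2) hn hn2 (hA.re hrr) (hA.im hrr)
      (hA.re har) (hA.im har) hl h u
    have e2 : pt p.1 p.2 = (⟨(p.1 : ℝ) / 16777216, (p.2 : ℝ) / 16777216⟩ : ℂ) := pt_eq _ _
    rw [e2]
    exact h6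

theorem tPA2_mem {T : TA M} {e f gg : ℕ} {l : List (ℕ × ℕ)}
    (h : List.rec (motive := fun _ => Bool) true (fun p _ ih => andB (tVA A C H T e f gg p) ih) l
      = true) {x : ℕ × ℕ} (hx : x ∈ l) : tVA A C H T e f gg x = true := by
  induction l with
  | nil => cases hx
  | cons y l ih =>
    obtain ⟨h1, h2⟩ := andBt h
    rcases List.mem_cons.1 hx with rfl | hx
    · exact h1
    · exact ih h2 hx

theorem U24 : (UU : ℝ) = 16777216 * 16777216 := by
  unfold UU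
  norm_num

/-- SOUNDNESS OF A POLYGON -/
theorem tPA_sound (hA : ArS A OK HK) (hC : FgK OK S S' g g' o C)
    (hH : HRK HK X E (T2d S S' g g' o (dA S S') * B) (N1t S S' g g' o * B) B B H)
    (hB : B.det ≠ 0) {T : TA M} (hl : LOK OK T.l) (h : tPA A C H T = true) {a : ℂ}
    (ha : InHull T.V a) : FamI X E S S' g g' o a := by
  obtain ⟨lam, l0, l1⟩ := hl
  obtain ⟨w, w0, w1, ha⟩ := ha
  have hU := UU_pos
  set hn := A.nb C.h with hhn
  set e := m48 hn T.R with he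
  set B48 := Nat.mul (nat_lit 16777216) T.B with hB48
  set f := Nat.add (Nat.mul (nat_lit 4) (m48 (m48 hn e) (m48 B48 B48)))
    (Nat.mul (nat_lit 2) (m48 T.rb e)) with hf
  set gg := Nat.mul (nat_lit 3) (m48 e B48) with hgg
  have hv : ∀ i : Fin T.V.length, tVA A C H T e f gg (T.V.get i) = true := fun i =>
    tPA2_mem (l := T.V) h (List.get_mem T.V i)
  have hs := fun i => tVA_sound hA hC hH l1 (hv i)
  have hhb : ‖(1 / 2 * ((g + 2) * (g' + 2)) : ℂ)‖ * UU ≤ hn := hA.nb hC.h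
  have hB48' : ((B48 : ℕ) : ℝ) = (T.B : ℝ) / 16777216 * UU := by
    rw [hB48, nmul, U24]
    norm_num
    ring
  have b0 : (0 : ℝ) ≤ (T.B : ℝ) / 16777216 := by positivity
  have r0 : (0 : ℝ) ≤ (T.R : ℝ) / UU := by positivity
  have he1 : ‖(1 / 2 * ((g + 2) * (g' + 2)) : ℂ)‖ * ((T.R : ℝ) / UU) * UU ≤ e :=
    m48_le (norm_nonneg _) r0 hhb (by rw [div_mul_cancel₀ _ hU.ne'])
  have ee0 : (0 : ℝ) ≤ (e : ℝ) / UU := by positivity
  have hee : (e : ℝ) / UU * UU ≤ e := by rw [div_mul_cancel₀ _ hU.ne']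
  refine famI_of hB l0 fun u => ?_
  refine tA_point (R := T.R / UU) (c := pt T.cx T.cy) (Bd := T.B / 16777216) (e := e / UU)
    (f := f / UU) (g := gg / UU) (rb := T.rb / UU) w0 w1 ha ?_ ?_ ?_ ?_ ?_ ?_ u ?_
  · intro i
    have h1 := (hs i).1.1
    have h2 : ((dsq (T.V.get i).1 T.cx : ℕ) : ℝ) + ((dsq (T.V.get i).2 T.cy : ℕ) : ℝ) ≤ T.R := by
      exact_mod_cast h1
    rw [dsq_cast, dsq_cast] at h2
    rw [pt_eq, pt_eq, normSq_apply, le_div_iff₀ hU, U24]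
    simp only [Complex.sub_re, Complex.sub_im]
    calc _ = ((((T.V.get i).1 : ℕ) : ℝ) - T.cx) ^ 2 + ((((T.V.get i).2 : ℕ) : ℝ) - T.cy) ^ 2 := by
          ring
      _ ≤ _ := h2
  · intro i
    have h1 := (hs i).1.2
    have h2 : (((T.V.get i).1 : ℕ) : ℝ) * (T.V.get i).1 + (((T.V.get i).2 : ℕ) : ℝ) * (T.V.get i).2 ≤
        (T.B : ℝ) * T.B := by exact_mod_cast h1
    rw [← sq_le_sq₀ (norm_nonneg _) b0, ← normSq_eq_norm_sq, pt_eq, normSq_mk]
    have e1 : ∀ x y : ℝ, x / 16777216 * (x / 16777216) + y / 16777216 * (y / 16777216) =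
        (x * x + y * y) / 16777216 ^ 2 := fun x y => by ring
    rw [e1, div_pow]
    exact div_le_div_of_nonneg_right (by rw [sq]; exact h2) (by positivity)
  · rw [← mul_le_mul_iff_left₀ hU, div_mul_cancel₀ _ hU.ne']
    exact he1
  · intro i
    have h1 := (hs i).2.1
    have e2 : (1 / 2 * ((g + 2) * (g' + 2))) * (pt (T.V.get i).1 (T.V.get i).2 *
        pt (T.V.get i).1 (T.V.get i).2 - 1) + dA S S' =
        rAc S S' g g' (pt (T.V.get i).1 (T.V.get i).2) := rfl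
    rw [e2, ← mul_le_mul_iff_left₀ hU, add_mul, div_mul_cancel₀ _ hU.ne', div_mul_cancel₀ _ hU.ne']
    exact h1
  · have k1 : ‖(1 / 2 * ((g + 2) * (g' + 2)) : ℂ)‖ * ((e : ℝ) / UU) * UU ≤ m48 hn e :=
      m48_le (norm_nonneg _) ee0 hhb hee
    have k2 : (T.B : ℝ) / 16777216 * ((T.B : ℝ) / 16777216) * UU ≤ m48 B48 B48 :=
      m48_le b0 b0 hB48'.ge hB48'.ge
    have k3 := m48_le (mul_nonneg (norm_nonneg _) ee0) (mul_nonneg b0 b0) k1 k2
    have k4 : (T.rb : ℝ) / UU * ((e : ℝ) / UU) * UU ≤ m48 T.rb e :=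
      m48_le (by positivity) ee0 (by rw [div_mul_cancel₀ _ hU.ne']) hee
    rw [← mul_le_mul_iff_left₀ hU, div_mul_cancel₀ _ hU.ne', hf, nadd, nmul, nmul]
    have g4 : ((nat_lit 4 : ℕ) : ℝ) = 4 := by norm_num
    have g2 : ((nat_lit 2 : ℕ) : ℝ) = 2 := by norm_num
    rw [g4, g2]
    linarith
  · have k1 : (e : ℝ) / UU * ((T.B : ℝ) / 16777216) * UU ≤ m48 e B48 :=
      m48_le ee0 b0 hee hB48'.ge
    rw [← mul_le_mul_iff_left₀ hU, div_mul_cancel₀ _ hU.ne', hgg, nmul]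
    have g3 : ((nat_lit 3 : ℕ) : ℝ) = 3 := by norm_num
    rw [g3]
    linarith
  · intro i n n2 rr ar q1 q2 q3 q4
    exact (hs i).2.2 u n n2 rr ar ((le_div_iff₀ hU).1 q1) ((le_div_iff₀ hU).1 q2)
      ((le_div_iff₀ hU).1 q3) ((le_div_iff₀ hU).1 q4)

theorem tPAs_mem {l : List (TA M)} (h : tPAs A C H l = true) {T : TA M} (hT : T ∈ l) :
    tPA A C H T = true := by
  induction l with
  | nil => cases hT
  | cons y l ih =>
    obtain ⟨h1, h2⟩ := andBt (show andB (tPA A C H y) (tPAs A C H l) = true from h)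
    rcases List.mem_cons.1 hT with rfl | hT
    · exact h1
    · exact ih h2 hT

end

/-! ### the control points of `tau` -/

theorem inHull_pt {V : List (ℕ × ℕ)} {p : ℕ × ℕ} (hp : p ∈ V) : InHull V (pt p.1 p.2) := by
  classical
  obtain ⟨i, hi⟩ := List.get_of_mem hp
  refine ⟨fun j => if j = i then 1 else 0, fun j => by
    show (0 : ℝ) ≤ if j = i then 1 else 0
    split_ifs <;> norm_num, by simp, ?_⟩
  simp only [apply_ite Complex.ofReal, Complex.ofReal_one, Complex.ofReal_zero, ite_mul, one_mul,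
    zero_mul, Finset.sum_ite_eq', Finset.mem_univ, if_true]
  rw [hi]

theorem inHull_cvx {V : List (ℕ × ℕ)} {x y : ℂ} (hx : InHull V x) (hy : InHull V y) {s t : ℝ}
    (hs : 0 ≤ s) (ht : 0 ≤ t) (hst : s + t = 1) : InHull V (s • x + t • y) := by
  obtain ⟨w, w0, w1, rfl⟩ := hx
  obtain ⟨w', w0', w1', rfl⟩ := hy
  refine ⟨fun i => s * w i + t * w' i, fun i => add_nonneg (mul_nonneg hs (w0 i))
    (mul_nonneg ht (w0' i)), ?_, ?_⟩
  · rw [Finset.sum_add_distrib, ← Finset.mul_sum, ← Finset.mul_sum, w1, w1', mul_one, mul_one, hst]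
  · rw [Complex.real_smul, Complex.real_smul, Finset.mul_sum, Finset.mul_sum,
      ← Finset.sum_add_distrib]
    refine Finset.sum_congr rfl fun i _ => ?_
    push_cast
    ring

theorem segG_mem {r rho : ℕ} : ∀ {l : List Cx} {Ts : List (ℕ × ℕ)}, segG r rho l Ts = true →
    ∀ x ∈ l, ∃ T ∈ Ts, r + nb (csub (csub one1 x) (pcN T)) ≤ 16777216 * rho := by
  intro l
  induction l with
  | nil =>
    intro Ts _ x hx
    cases hx
  | cons y l ih =>
    intro Ts h x hx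
    cases Ts with
    | nil => cases h
    | cons T Ts =>
      obtain ⟨h1, h2⟩ := andBt (show andB (Nat.ble (Nat.add r (nb (csub (csub one1 y) (pcN T))))
        (Nat.mul (nat_lit 16777216) rho)) (segG r rho l Ts) = true from h)
      rcases List.mem_cons.1 hx with rfl | hx
      · exact ⟨T, List.mem_cons_self .., Nat.le_of_ble_eq_true h1⟩
      · obtain ⟨T', hT', h3⟩ := ih h2 x hx
        exact ⟨T', List.mem_cons_of_mem _ hT', h3⟩

theorem cz_pcN (p : ℕ × ℕ) : cz (pcN p) = (UU : ℂ) * pt p.1 p.2 := by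
  rw [pt_eq]
  have e : ∀ a : ℕ, ((zv (Z.p (Nat.mul (nat_lit 16777216) a)) : ℤ) : ℝ) = 16777216 * a := by
    intro a
    show (((Nat.mul (nat_lit 16777216) a : ℕ) : ℤ) : ℝ) = _
    rw [Int.cast_natCast, nmul]; norm_num
  apply Complex.ext
  · rw [Complex.re_ofReal_mul]
    show ((zv (Z.p (Nat.mul (nat_lit 16777216) p.1)) : ℤ) : ℝ) = _
    rw [e]
    unfold UU
    ring
  · rw [Complex.im_ofReal_mul]
    show ((zv (Z.p (Nat.mul (nat_lit 16777216) p.2)) : ℤ) : ℝ) = _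
    rw [e]
    unfold UU
    ring

theorem cz_one1 : cz one1 = (UU : ℂ) := by
  apply Complex.ext <;> simp [cz, one1, zv, UU]

/-- THE CONTROL POINTS OF `tau = 1 - c` -/
theorem near_gen (hA : ArS A OK HK) {c : ℂ} {m : M} (hc : OK c m) {Ts : List (ℕ × ℕ)} {rho : ℕ}
    (h : segG (A.rd m) rho (A.ctl m) Ts = true) : Near Ts rho (1 - c) := by
  obtain ⟨q, hq, hd⟩ := hA.ctl hc
  have hU := UU_pos
  have key : ∀ q ∈ convexHull ℝ {z : ℂ | ∃ c ∈ A.ctl m, z = cz c}, ∃ p, InHull Ts p ∧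
      ‖((UU : ℂ) - q) - (UU : ℂ) * p‖ ≤ 16777216 * rho - A.rd m := by
    intro q hq
    have hsub : convexHull ℝ {z : ℂ | ∃ c ∈ A.ctl m, z = cz c} ⊆
        {q : ℂ | ∃ p, InHull Ts p ∧ ‖((UU : ℂ) - q) - (UU : ℂ) * p‖ ≤
          16777216 * rho - A.rd m} := by
      refine convexHull_min ?_ ?_
      · rintro z ⟨x, hx, rfl⟩
        obtain ⟨T, hT, h1⟩ := segG_mem h x hx
        refine ⟨pt T.1 T.2, inHull_pt hT, ?_⟩
        have h2 := nb_le (csub (csub one1 x) (pcN T))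
        rw [cz_sub, cz_sub, cz_pcN, cz_one1] at h2
        have h3 : ((A.rd m : ℕ) : ℝ) + nb (csub (csub one1 x) (pcN T)) ≤ 16777216 * rho := by
          exact_mod_cast h1
        linarith
      · intro x hx y hy s t hs ht hst
        obtain ⟨p, hp, h1⟩ := hx
        obtain ⟨p', hp', h2⟩ := hy
        refine ⟨_, inHull_cvx hp hp' hs ht hst, ?_⟩
        have e : ((UU : ℂ) - (s • x + t • y)) - (UU : ℂ) * (s • p + t • p') =
            (s : ℂ) * (((UU : ℂ) - x) - (UU : ℂ) * p) + (t : ℂ) * (((UU : ℂ) - y) - (UU : ℂ) * p') := by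
          have hst' : (s : ℂ) + (t : ℂ) = 1 := by exact_mod_cast hst
          simp only [Complex.real_smul]
          linear_combination -(UU : ℂ) * hst'
        rw [e]
        refine (norm_add_le _ _).trans ?_
        rw [norm_mul, norm_mul, Complex.norm_real, Complex.norm_real, Real.norm_eq_abs,
          Real.norm_eq_abs, abs_of_nonneg hs, abs_of_nonneg ht]
        have := mul_le_mul_of_nonneg_left h1 hs
        have := mul_le_mul_of_nonneg_left h2 ht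
        calc _ ≤ s * (16777216 * rho - A.rd m) + t * (16777216 * rho - A.rd m) := by linarith
          _ = _ := by rw [← add_mul, hst, one_mul]
    exact hsub hq
  obtain ⟨p, hp, h1⟩ := key q hq
  refine ⟨p, hp, ?_⟩
  have h2 : ‖(UU : ℂ) * (1 - c - p)‖ ≤ 16777216 * rho := by
    have e : (UU : ℂ) * (1 - c - p) = (((UU : ℂ) - q) - (UU : ℂ) * p) - ((UU : ℂ) * c - q) := by
      ring
    rw [e]
    refine (norm_sub_le _ _).trans ?_
    linarith
  rw [norm_mul, Complex.norm_real, Real.norm_eq_abs, abs_of_pos hU, U24] at h2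
  have hV : (Pool.Agent.Helper32.C75.UU : ℝ) = 16777216 := by
    unfold Pool.Agent.Helper32.C75.UU
    norm_num
  rw [hV, le_div_iff₀ (by norm_num)]
  nlinarith

end Pool.Agent.Helper57.KNB
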