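import Pool.Agent.Helper57.KNB.KT5

/-!
Row KTB (MP_c75db0), part 1: the B families of a near cell which may contain `y = 0` on the line
`x_0 = x_B`, where the cycle of two letters is parabolic. Kernel side.
-/

set_option autoImplicit false
noncomputable section
namespace Pool.Agent.Helper57.KNB

open Pool.Agent.Helper86.C75 (Z)
open Pool.Agent.Helper86.CX (Cx andB)
open Pool.Agent.Helper86.CT (Alg Up Mc Vx Cls)

/-- data of the B tests of a near cell: both orientations; `b`: the cell contains `y = 0`, then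
`m`, control values of `1 / z` at `y = 0`, approximate roots at `y = 0`, bound of `Im A`
(unit `2 ^ (-24)`) -/
structure BND (α β : Type) where
  P : BDT α β
  M : BDT α β
  b : Bool
  m : Nat
  u : α
  vp : α
  vm : α
  bm : Nat

variable {α β p v γ M PH : Type}

/-! ### lower bounds of real parts -/

/-- `b + r ≤ Re c` at the controls -/
def reG (b r : Nat) (l : List Cx) : Bool :=
  List.rec (motive := fun _ => Bool) true
    (fun x _ ih => andB (leZ2 (Nat.add b r) x.re (nat_lit 0)) ih) l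
/-- `b ≤ Re x`, unit `2 ^ (-48)` -/
def reGe (R : Ar M PH) (b : Nat) (x : M) : Bool := reG b (R.rd x) (R.ctl x)
/-- `i n x`, `n` in units `2 ^ (-48)` -/
def iN (R : Ar M PH) (n : Nat) (x : M) : M := R.mul (R.cs ⟨zi0, Z.p n⟩) x

/-! ### divided differences -/

/-- `1 - 1 / (z z0)` -/
def bZe (R : Ar M PH) (zi zo : M) : M := R.sub (c1 R) (R.mul zi zo)
/-- `(E - E0) / (i y)` -/
def bE1 (R : Ar M PH) (K ze : M) : M := neg R (R.mul K (R.inv ze))
/-- `(T - T0) / (i y)` -/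
def bT1 (R : Ar M PH) (E1 zi zo : M) : M := R.mul E1 (R.mul zi zo)
/-- `ν² + ν ν0 + ν0² - T (ν + ν0) + E` -/
def bDn2 (R : Ar M PH) (T E a n : M) : M := R.add (R.mul a (R.sub a T)) (R.sub E n)
def bDn (R : Ar M PH) (T E nu no : M) : M := bDn2 R T E (R.add nu no) (R.mul nu no)
/-- `(ν - ν0) / (i y)` -/
def bN1 (R : Ar M PH) (T1 E1 no dn : M) : M :=
  R.mul (R.mul (R.sub (R.mul T1 no) E1) no) (R.inv dn)
/-- `τ / (i y)` -/
def bTau (R : Ar M PH) (T1 n1 : M) (S So : Sc M) : M :=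
  R.mul (R.sub (R.mul (R.sub T1 n1) (R.add S.s So.s))
    (R.mul (c4 R) (R.mul n1 (R.mul S.d So.d)))) (R.mul S.is S.is)
/-- `(g / g0 - 1) / (i y)` -/
def bH (R : Ar M PH) (T1 To n1 : M) (S So : Sc M) : M :=
  R.mul (R.mul (R.sub (R.mul So.nu T1) (R.mul n1 To)) S.is) So.d

/-! ### second divided differences; `z00 = 1 - 1 / z0²`, `..0` = values at `y = 0` -/

/-- `(1 / ze - 1 / z00) ze / (i y)` -/
def bX2 (R : Ar M PH) (zi zo ze z00 : M) : M :=
  neg R (R.mul (R.mul (R.mul (R.mul zi zo) zo) (R.inv ze)) (R.inv z00))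
/-- `(T1 - T10) / (i y)` -/
def bTT (R : Ar M PH) (E2 E10 zi zo ze : M) : M :=
  R.sub (R.mul E2 (R.mul zi zo)) (R.mul E10 (R.mul (R.mul (R.mul zi zo) (R.inv ze)) zo))
/-- `(ν - ν0) / (i y)` at `y = 0` -/
def bN10 (R : Ar M PH) (T10 E10 : M) (So : Sc M) : M :=
  R.mul (R.mul (R.sub (R.mul T10 So.nu) E10) So.nu) So.ic
/-- `(dn - dn0) / (i y)`, `a = ν + ν0` -/
def bD2 (R : Ar M PH) (T1 E1 n1 a T no : M) : M :=
  R.add (R.add (R.mul n1 (R.sub a T)) (R.mul (dbl R no) (R.sub n1 T1)))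
    (R.sub E1 (R.mul n1 no))
/-- `(n1 - n10) / (i y)` -/
def bN2 (R : Ar M PH) (T2 E2 no n10 dn2 dn : M) : M :=
  R.mul (R.sub (R.mul (R.sub (R.mul T2 no) E2) no) (R.mul n10 dn2)) (R.inv dn)
/-- `τ / (i y)` at `y = 0` -/
def bTau0 (R : Ar M PH) (s10 n10 : M) (So : Sc M) : M :=
  R.mul (R.sub (dbl R (R.mul s10 So.s)) (R.mul (c4 R) (R.mul n10 (R.mul So.d So.d))))
    (R.mul So.is So.is)
/-- second divided difference of `τ` -/
def bTau2 (R : Ar M PH) (s2 s1 s10 n1 n2 n10 t0 : M) (S So : Sc M) : M :=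
  R.mul (R.sub (R.sub (R.add (R.mul s2 (R.add S.s So.s)) (R.mul s10 s1))
    (R.mul (c4 R) (R.mul So.d (R.add (R.mul n2 S.d) (R.mul n10 (R.mul n1 (R.mul S.d So.d)))))))
    (R.mul t0 (R.mul s1 (R.add S.s So.s)))) (R.mul S.is S.is)

/-! ### the tests -/

/-- `y |h|²`, rounded up, unit `2 ^ (-48)` -/
def yN (yb n : Nat) : Nat :=
  Nat.add (Nat.div (Nat.mul yb (Nat.mul n n)) (nat_lit 79228162514264337593543950336)) (nat_lit 1)

/-- `t = τ / (i y)`, `h = (g / g0 - 1) / (i y)`, `t2` -/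
def bT2 (R : Ar M PH) (yb bm : Nat) (t h t2 : M) : Bool :=
  andB (reGe R (nat_lit 0) t) (andB (reGe R (nat_lit 0) (neg R t2))
    (reGe R (yN yb (R.nb h)) (R.sub (R.sub t (iN R (nat_lit 562949953421312) h))
      (iN R (Nat.mul (nat_lit 16777216) bm) t))))
def bTg (R : Ar M PH) (yb bm : Nat) (T1 T10 T2 n1 n10 n2 To : M) (S So : Sc M) : Bool :=
  bT2 R yb bm (bTau R T1 n1 S So) (bH R T1 To n1 S So)
    (bTau2 R (R.sub T2 n2) (R.sub T1 n1) (R.sub T10 n10) n1 n2 n10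
      (bTau0 R (R.sub T10 n10) n10 So) S So)
def bTf (R : Ar M PH) (yb bm : Nat) (T1 E1 T10 T2 E2 a T dn n1 n10 To : M) (S So : Sc M) :
    Bool :=
  bTg R yb bm T1 T10 T2 n1 n10 (bN2 R T2 E2 So.nu n10 (bD2 R T1 E1 n1 a T So.nu) dn) To S So
def bTd (R : Ar M PH) (yb bm : Nat) (T1 E1 T10 E10 T2 E2 a T dn To : M) (S So : Sc M) : Bool :=
  andB (R.ok dn) (bTf R yb bm T1 E1 T10 T2 E2 a T dn (bN1 R T1 E1 So.nu dn) (bN10 R T10 E10 So)
    To S So)
def bTc (R : Ar M PH) (yb bm : Nat) (T1 E1 T10 E10 T2 E2 T E To : M) (S So : Sc M) : Bool :=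
  bTd R yb bm T1 E1 T10 E10 T2 E2 (R.add S.nu So.nu) T (bDn R T E S.nu So.nu) To S So
def bTb (R : Ar M PH) (yb bm : Nat) (E1 E10 E2 zi zo ze To : M) (S So : Sc M) : Bool :=
  bTc R yb bm (bT1 R E1 zi zo) E1 (bT1 R E10 zo zo) E10 (bTT R E2 E10 zi zo ze) E2
    (R.add S.s S.nu) (R.add S.d (R.mul S.nu S.s)) To S So
def bTa (R : Ar M PH) (yb bm : Nat) (E1 E10 zi zo ze z00 To : M) (S So : Sc M) : Bool :=
  bTb R yb bm E1 E10 (R.mul E1 (bX2 R zi zo ze z00)) zi zo ze To S So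
def bTz (R : Ar M PH) (yb bm : Nat) (K ze z00 zi zo To : M) (S So : Sc M) : Bool :=
  andB (R.ok ze) (andB (R.ok z00) (bTa R yb bm (bE1 R K ze) (bE1 R K z00) zi zo ze z00 To S So))
/-- the growth of `g` and the sector of `τ`; `So` the scalars at `y = 0`; `zi = 1 / z`,
`zo = 1 / z0` -/
def bTt (R : Ar M PH) (yb bm : Nat) (K zi zo To : M) (S So : Sc M) : Bool :=
  bTz R yb bm K (bZe R zi zo) (bZe R zo zo) zi zo To S So

/-- the last pair: `|ρ|² ≤ r0² (1 - bm)`, controls of `τ` -/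
def bTr (R : Ar M PH) (bm r0 rho : Nat) (Ts : List (Nat × Nat)) (c r : M) : Bool :=
  andB (Nat.ble (Nat.mul (Nat.mul (R.nb r) (R.nb r)) (nat_lit 16777216))
    (Nat.mul (Nat.mul r0 r0) (Nat.sub (nat_lit 16777216) bm)))
    (segG (R.rd c) rho (R.ctl c) Ts)

def tb2 (R : Ar M PH) (yb bm r0 rho : Nat) (Ts : List (Nat × Nat)) (K zi zo To : M) (So S : Sc M)
    (r : M) : Bool :=
  andB (bTr R bm r0 rho Ts S.c r) (bTt R yb bm K zi zo To S So)
def tb1 (R : Ar M PH) (yb bm r0 rho : Nat) (Ts : List (Nat × Nat)) (K zi zo To Eo nu : M)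
    (S : Sc M) (r : M) : Bool :=
  andB (scOK R nu To Eo) (tb2 R yb bm r0 rho Ts K zi zo To (mkSc R nu To Eo) S r)
def tb0 (R : Ar M PH) (yb bm r0 rho : Nat) (Ts : List (Nat × Nat)) (K zi zo To Eo v : M) (S : Sc M)
    (r : M) : Bool :=
  andB (R.ok (cubD R v To Eo)) (tb1 R yb bm r0 rho Ts K zi zo To Eo (nuM2 R v To Eo) S r)
/-- THE TAIL TEST of a cell which contains `y = 0`; `z0`, `zo` = models of `z`, `1/z` at `y = 0` -/
def ttB (R : Ar M PH) (yb bm r0 rho : Nat) (Ts : List (Nat × Nat)) (K L zi z0 zo v : M)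
    (S : Sc M) (_ r : M) : Bool :=
  tb0 R yb bm r0 rho Ts K zi zo (R.add L (R.mul K zo)) (neg R (R.add L (R.mul K z0))) v S r

/-! ### one orientation -/

def chBd2 (R : Ar M PH) (yb bm : Nat) (D : BDT α β) (I : OI M) (d1 : List (SrcT M))
    (z0 zo v : M) : Bool :=
  chX R I d1 D.kw (ttB R yb bm D.r0 D.rho D.Ts I.K I.L I.zi z0 zo v)
def chBd1 (A : Alg α) (U : Up β α) (w : Nat) (V : Vx β) (R : Ar M PH)
    (cv : Pool.Agent.Helper86.CT.Mo α → M) (KT : β) (yb bm : Nat) (D : BDT α β)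
    (l0 l1 l2 k0 k1 k2 a0 a1 a2 z zi z0 zo v : M) : Bool :=
  andB (posB V D) (andB (R.ok a0) (andB (R.ok a1) (andB (R.ok a2)
    (chBd2 R yb bm D (mkOIT A U w R cv KT D l0 l1 l2 k0 k1 k2 a0 a1 a2 z zi)
      (srT A U w cv KT D.LT D.d1) z0 zo v))))
/-- ONE ORIENTATION in a cell which contains `y = 0` -/
def chBd (A : Alg α) (U : Up β α) (w : Nat) (V : Vx β) (R : Ar M PH)
    (cv : Pool.Agent.Helper86.CT.Mo α → M) (KT : β) (yb bm : Nat) (D : BDT α β)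
    (l0 l1 l2 k0 k1 k2 z zi z0 zo v : M) : Bool :=
  chBd1 A U w V R cv KT yb bm D l0 l1 l2 k0 k1 k2 (R.mul k0 k0) (R.mul k1 k1) (R.mul k2 k2) z zi
    z0 zo v

def chBB2 (A : Alg α) (U : Up β α) (w : Nat) (V : Vx β) (R : Ar M PH)
    (cv : Pool.Agent.Helper86.CT.Mo α → M) (KT : β) (yb : Nat) (D : BND α β)
    (l0 l1 l2 k0 k1 k2 u z uo zo : M) : Bool :=
  andB (chBd A U w V R cv KT yb D.bm D.P l0 l1 l2 k0 k1 k2 u z uo zo
      (cv (Pool.Agent.Helper86.CT.mk A D.vp (nat_lit 0))))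
    (chBd A U w V R cv KT yb D.bm D.M l0 l2 l1 k2 k1 k0 z u zo uo
      (cv (Pool.Agent.Helper86.CT.mk A D.vm (nat_lit 0))))
/-- `x` the model of `x_0`, `u`, `z` the models of the data of `1 / z0`, `z0` -/
def chBB1 (K : Mc α β p v γ) (V : Vx β) (R : Ar M PH) (cv : Pool.Agent.Helper86.CT.Mo α → M)
    (k0 k1 k2 : Pool.Agent.Helper86.CT.Mo α) (C : Cls α) (yb : Nat) (D : BND α β) (KT : β)
    (u z x uo zo : Pool.Agent.Helper86.CT.Mo α) : Bool :=
  andB (Nat.ble (nat_lit 1) D.m) (andB (K.T.t D.m x.v uo.v)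
    (chBB2 K.A K.U K.w V R cv KT yb D (cv C.l0) (cv C.l1) (cv C.l2) (cv k0) (cv k1) (cv k2) (cv u)
      (cv z) (cv (Pool.Agent.Helper86.CT.uM K.A D.m x uo zo))
      (cv (Pool.Agent.Helper86.CT.zM x (Pool.Agent.Helper86.CT.uM K.A D.m x uo zo) zo))))
def chBB (K : Mc α β p v γ) (V : Vx β) (R : Ar M PH) (cv : Pool.Agent.Helper86.CT.Mo α → M)
    (k0 k1 k2 : Pool.Agent.Helper86.CT.Mo α) (C : Cls α) (x : Pool.Agent.Helper86.CT.Mo α)
    (yb : Nat) (D : BND α β) (KT : β) (u z : Pool.Agent.Helper86.CT.Mo α) : Bool :=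
  chBB1 K V R cv k0 k1 k2 C yb D KT u z x (Pool.Agent.Helper86.CT.mk K.A D.u (nat_lit 0))
    (Pool.Agent.Helper86.CT.mk K.A (K.A.sub x.v D.u) (nat_lit 0))

/-- the type of the B test of a near cell: weights, class, model of `x_0`, end of the cell, data,
forms, `1/z`, `z` -/
abbrev BXT (α β : Type) := Pool.Agent.Helper86.CT.Mo α → Pool.Agent.Helper86.CT.Mo α →
  Pool.Agent.Helper86.CT.Mo α → Cls α → Pool.Agent.Helper86.CT.Mo α → Nat → BND α β → β →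
  Pool.Agent.Helper86.CT.Mo α → Pool.Agent.Helper86.CT.Mo α → Bool

/-- THE B TESTS OF A NEAR CELL -/
def chBN (K : Mc α β p v γ) (V : Vx β) (R : Ar M PH) (cv : Pool.Agent.Helper86.CT.Mo α → M) :
    BXT α β :=
  fun k0 k1 k2 C x yb D KT u z =>
    Bool.rec (motive := fun _ => Bool) (chBR K V R cv k0 k1 k2 C D.P D.M KT u z)
      (chBB K V R cv k0 k1 k2 C x yb D KT u z) D.b
/-- unpacked -/
def chBNU (K : Mc α β p v γ) (V : Vx β) (W : Lw α) : BXT α β := chBN K V (arT K.A W) (fun x => x)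

end Pool.Agent.Helper57.KNB
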