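import Pool.Agent.Helper57.KNB.KC1
import Pool.Agent.Helper48.CT.NKT

/-!
Row KTB, part 2: near cells of classes with tails with tests of type B. Kernel side.
-/

set_option autoImplicit false
noncomputable section
namespace Pool.Agent.Helper57.KNB

open Pool.Agent.Helper86.CX (andB)
open Pool.Agent.Helper86.CT (Mo Mc Sv Vx Cls Prog LT2 Alg mk addM uM zM)
open Pool.Agent.Helper48.NCT (IT FTT NDT chkNT)

/-- a near cell with its B tests -/
structure NBT (α β δ : Type) where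
  n : NDT α β δ
  B : BND α β

variable {α β δ p v γ : Type}

def bXT (A : Alg α) (F : BXT α β) (k0 k1 k2 : Mo α) (C : Cls α) (x0 : Mo α) (yb : Nat)
    (D : BND α β) (KT : β) (m : Nat) (x u z : Mo α) : Bool :=
  F k0 k1 k2 C x0 yb D KT (uM A m x u z) (zM x (uM A m x u z) z)
/-- the B tests of a cell, `x` the model of `x_0 + i y` -/
def bCT (A : Alg α) (F : BXT α β) (k0 k1 k2 : Mo α) (C : Cls α) (x0 : Mo α) (yb : Nat)
    (D : BND α β) (KT : β) (x : Mo α) (m : Nat) (u : α) : Bool :=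
  bXT A F k0 k1 k2 C x0 yb D KT m x (mk A u (nat_lit 0)) (mk A (A.sub x.v u) (nat_lit 0))

/-- ALL TESTS OF A NEAR CELL, families of type A and B -/
def chkNB (M : Mc α β p v γ) (S : Sv p) (W : Vx β) (y : Nat → Nat → α)
    (F : FTT α β δ) (FB : BXT α β) (f0 f1 f2 : Bool) (k0 k1 k2 : Mo α) (C : Cls α) (G : Prog v)
    (x0 : Mo α) (sl : List Nat) (le : List LT2) (ONE : β) (il : List IT) (d : NBT α β δ) : Bool :=
  andB (chkNT M S W y F f0 f1 f2 k0 k1 k2 C G x0 sl le ONE il d.n)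
    (bCT M.A FB k0 k1 k2 C x0 d.n.c.yb d.B d.n.c.K
      (addM M.A x0 (mk M.A (y d.n.c.ya d.n.c.yb) (nat_lit 0))) d.n.c.m d.n.c.u)

/-- a chain of cells from `y` to `e` with the test `f` -/
def pcNB (f : NBT α β δ → Bool) (e : Nat) (l : List (NBT α β δ)) : Nat → Bool :=
  List.rec (motive := fun _ => Nat → Bool) (fun y => Nat.beq y e)
    (fun c _ ih y => andB (Nat.beq y c.n.c.ya) (andB (Nat.ble c.n.c.ya c.n.c.yb)
      (andB (f c) (ih c.n.c.yb)))) l

/-- A LIST OF NEAR CELLS with tests of type B -/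
def chkPNB (M : Mc α β p v γ) (S : Sv p) (W : Vx β) (y : Nat → Nat → α)
    (F : FTT α β δ) (FB : BXT α β) (f0 f1 f2 : Bool) (k0 k1 k2 : Mo α) (C : Cls α) (G : Prog v)
    (x0 : Mo α) (sl : List Nat) (le : List LT2) (ONE : β) (il : List IT) (e : Nat)
    (l : List (NBT α β δ)) : Nat → Bool :=
  pcNB (chkNB M S W y F FB f0 f1 f2 k0 k1 k2 C G x0 sl le ONE il) e l

end Pool.Agent.Helper57.KNB
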