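import Pool.Agent.Helper57.KNB.KN11
import Pool.Agent.Helper12.CX.Defs2

/-!
Row KTB, part 4: the B cycle near `y = 0` on the line `x_0 = x_B`: powers of `τ` in a sector
slightly larger than the first quadrant, growth of `ρ`, exact facts at `y = 0`, divided differences.
-/

set_option autoImplicit false
noncomputable section
namespace Pool.Agent.Helper57.KNB

open Pool.Agent.Helper90.C75 (sqR)
open Pool.Agent.Helper42.CH (powA)
open Pool.Agent.Helper6.MONO (fB fBx)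
open Complex ComplexConjugate

/-! ### powers of `τ` -/

/-- THE SECTOR `0 ≤ Im τ`, `-Im τ / 4 ≤ Re τ`: the powers stay in it -/
theorem powA_sec {τ : ℂ} (h1 : 0 ≤ τ.im) (h2 : τ.im ≤ 1 / 4) (h3 : -τ.im / 4 ≤ τ.re)
    (h4 : τ.re ≤ 1 / 4) (i : ℕ) : 0 ≤ (powA τ i).im ∧ (powA τ i).im ≤ 2 ∧
      -(powA τ i).im / 4 ≤ (powA τ i).re := by
  induction i with
  | zero =>
    show 0 ≤ (1 : ℂ).im ∧ (1 : ℂ).im ≤ 2 ∧ -(1 : ℂ).im / 4 ≤ (1 : ℂ).re
    norm_num
  | succ m ih =>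
    obtain ⟨i1, i2, i3⟩ := ih
    set A := powA τ m with hA
    have hn : 0 < (1 + A.re) ^ 2 + A.im ^ 2 := by
      have : 0 < 1 + A.re := by linarith
      positivity
    have e : powA τ (m + 1) = (A + τ) / (1 + A) := rfl
    have en : normSq (1 + A) = (1 + A.re) ^ 2 + A.im ^ 2 := by
      rw [normSq_apply]
      simp only [Complex.add_re, Complex.add_im, Complex.one_re, Complex.one_im]
      ring
    have er : (powA τ (m + 1)).re * ((1 + A.re) ^ 2 + A.im ^ 2) =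
        (A.re + τ.re) * (1 + A.re) + (A.im + τ.im) * A.im := by
      rw [e, Complex.div_re, ← add_div, en]
      simp only [Complex.add_re, Complex.add_im, Complex.one_re, Complex.one_im, zero_add]
      field_simp
    have ei : (powA τ (m + 1)).im * ((1 + A.re) ^ 2 + A.im ^ 2) =
        (A.im + τ.im) * (1 + A.re) - (A.re + τ.re) * A.im := by
      rw [e, Complex.div_im, ← sub_div, en]
      simp only [Complex.add_re, Complex.add_im, Complex.one_re, Complex.one_im, zero_add]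
      field_simp
    generalize (powA τ (m + 1)).re = x at *
    generalize (powA τ (m + 1)).im = w at *
    generalize A.re = a at *
    generalize A.im = b at *
    generalize τ.re = tr at *
    generalize τ.im = ti at *
    have s0 : 0 < 1 + a := by linarith
    have w1 : 0 ≤ w * ((1 + a) ^ 2 + b ^ 2) := by
      rw [ei]
      have : (b + ti) * (1 + a) - (a + tr) * b = b * (1 - tr) + ti * (1 + a) := by ring
      rw [this]
      exact add_nonneg (mul_nonneg i1 (by linarith)) (mul_nonneg h1 s0.le)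
    have w2 : w * ((1 + a) ^ 2 + b ^ 2) ≤ 2 * ((1 + a) ^ 2 + b ^ 2) := by
      rw [ei]
      have : (b + ti) * (1 + a) - (a + tr) * b = b * (1 - tr) + ti * (1 + a) := by ring
      rw [this]
      have c1 : b * (1 - tr) ≤ b * (17 / 16) := mul_le_mul_of_nonneg_left (by linarith) i1
      have c2 : ti * (1 + a) ≤ 1 / 4 * (1 + a) := mul_le_mul_of_nonneg_right h2 s0.le
      have c3 : 1 / 2 ≤ 1 + a := by linarith
      nlinarith [sq_nonneg (b - 17 / 64), mul_nonneg (sub_nonneg.2 c3) (sub_nonneg.2 c3)]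
    have w3 : 0 ≤ (x + w / 4) * ((1 + a) ^ 2 + b ^ 2) := by
      have : (x + w / 4) * ((1 + a) ^ 2 + b ^ 2) =
          ((a + b / 4) + (tr + ti / 4)) * ((1 + a) - b / 4) +
            (1 + 1 / 16) * (b * (b + ti)) := by
        have : (x + w / 4) * ((1 + a) ^ 2 + b ^ 2) = x * ((1 + a) ^ 2 + b ^ 2) +
          w * ((1 + a) ^ 2 + b ^ 2) / 4 := by ring
        rw [this, er, ei]
        ring
      rw [this]
      have c1 : 0 ≤ (a + b / 4) + (tr + ti / 4) := by linarith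
      have c2 : 0 ≤ (1 + a) - b / 4 := by linarith
      have c3 : 0 ≤ b * (b + ti) := mul_nonneg i1 (by linarith)
      have := mul_nonneg c1 c2
      linarith
    refine ⟨nonneg_of_mul_nonneg_left w1 hn, le_of_mul_le_mul_right w2 hn, ?_⟩
    have := nonneg_of_mul_nonneg_left w3 hn
    linarith

/-! ### growth of `ρ` -/

/-- the potential `|ρ|² (1 - Im A)` does not increase, `Re τ` of any sign -/
theorem rho_pot3 {g τ : ℂ} {m0 : ℕ} {bm : ℝ} (hbm : bm ≤ 2 / 5)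
    (htr' : τ.re ≤ 1 / 4) (hti : 0 ≤ τ.im) (hti' : τ.im ≤ 1 / 4)
    (hg : normSq g ≤ 1 + τ.im - bm * max τ.re 0)
    (hA : ∀ q, m0 ≤ q → 0 ≤ (powA τ q).re ∧ 0 ≤ (powA τ q).im ∧ (powA τ q).im ≤ bm) :
    ∀ q, m0 ≤ q → normSq (sqR g τ q) * (1 - (powA τ q).im) ≤
      normSq (sqR g τ m0) * (1 - (powA τ m0).im) := by
  intro q hq
  induction q, hq using Nat.le_induction with
  | base => exact le_rfl
  | succ q hq ih =>
    refine le_trans ?_ ih
    obtain ⟨a1, a2, a3⟩ := hA q hq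
    have n0 : 1 + powA τ q ≠ 0 := by
      intro h
      have := congrArg Complex.re h
      rw [Complex.add_re, Complex.one_re, Complex.zero_re] at this
      linarith
    have hn : 0 < normSq (1 + powA τ q) := normSq_pos.2 n0
    have e0 : sqR g τ (q + 1) = g * sqR g τ q / (1 + powA τ q) := rfl
    have e1 : powA τ (q + 1) = (powA τ q + τ) / (1 + powA τ q) := rfl
    have e3 : normSq (1 + powA τ q) = (1 + (powA τ q).re) ^ 2 + (powA τ q).im ^ 2 := by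
      rw [normSq_apply]
      simp only [Complex.add_re, Complex.add_im, Complex.one_re, Complex.one_im]
      ring
    have step := im_step (powA τ q) τ n0
    rw [e0, e1, normSq_div, normSq_mul]
    have key := pot_poly (s := 1 + (powA τ q).re) (by linarith) a2 a3 hbm (le_max_right τ.re 0)
      (max_le htr' (by norm_num)) hti hti' rfl
    have hb1 : 0 ≤ 1 - (powA τ q).im := by linarith
    have e4 : normSq g * normSq (sqR g τ q) / normSq (1 + powA τ q) *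
        (1 - ((powA τ q + τ) / (1 + powA τ q)).im) =
        normSq (sqR g τ q) * (normSq g * (normSq (1 + powA τ q) *
          (1 - ((powA τ q + τ) / (1 + powA τ q)).im))) / normSq (1 + powA τ q) ^ 2 := by
      field_simp
    rw [e4, step, div_le_iff₀ (by positivity), mul_assoc]
    refine mul_le_mul_of_nonneg_left ?_ (normSq_nonneg _)
    rw [mul_comm (1 - (powA τ q).im), e3]
    have hG : 0 ≤ 1 + τ.im - bm * max τ.re 0 := (normSq_nonneg g).trans hg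
    by_cases hpos : 0 ≤ (1 + (powA τ q).re) ^ 2 + (powA τ q).im ^ 2 -
        (1 - τ.re) * (powA τ q).im - τ.im * (1 + (powA τ q).re)
    · refine le_trans (mul_le_mul_of_nonneg_right hg hpos) (le_trans ?_ key)
      refine mul_le_mul_of_nonneg_left ?_ hG
      have : (1 - max τ.re 0) * (powA τ q).im ≤ (1 - τ.re) * (powA τ q).im :=
        mul_le_mul_of_nonneg_right (by have := le_max_left τ.re 0; linarith) a2
      linarith
    · refine le_trans ?_ (mul_nonneg (sq_nonneg _) hb1)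
      exact mul_nonpos_of_nonneg_of_nonpos (normSq_nonneg g) (not_le.1 hpos).le

/-- the bound from the potential, `Re τ` of any sign -/
theorem rho_le3 {g τ : ℂ} {m0 : ℕ} {bm R0 : ℝ} (hR : 0 ≤ R0) (hbm : bm ≤ 2 / 5)
    (htr' : τ.re ≤ 1 / 4) (hti : 0 ≤ τ.im) (hti' : τ.im ≤ 1 / 4)
    (hg : normSq g ≤ 1 + τ.im - bm * max τ.re 0)
    (hA : ∀ q, m0 ≤ q → 0 ≤ (powA τ q).re ∧ 0 ≤ (powA τ q).im ∧ (powA τ q).im ≤ bm)
    (h0 : normSq (sqR g τ m0) ≤ R0 ^ 2 * (1 - bm)) :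
    ∀ q, m0 ≤ q → ‖sqR g τ q‖ ≤ R0 := by
  intro q hq
  have h1 := rho_pot3 hbm htr' hti hti' hg hA q hq
  obtain ⟨a1, a2, a3⟩ := hA q hq
  obtain ⟨b1, b2, b3⟩ := hA m0 le_rfl
  have hs := normSq_nonneg (sqR g τ q)
  have hs0 := normSq_nonneg (sqR g τ m0)
  have h2 : normSq (sqR g τ q) * (1 - bm) ≤ R0 ^ 2 * (1 - bm) := by
    calc normSq (sqR g τ q) * (1 - bm) ≤ normSq (sqR g τ q) * (1 - (powA τ q).im) :=
          mul_le_mul_of_nonneg_left (by linarith) hs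
      _ ≤ normSq (sqR g τ m0) * (1 - (powA τ m0).im) := h1
      _ ≤ normSq (sqR g τ m0) * 1 := mul_le_mul_of_nonneg_left (by linarith) hs0
      _ ≤ R0 ^ 2 * (1 - bm) := by rw [mul_one]; exact h0
  have h3 : normSq (sqR g τ q) ≤ R0 ^ 2 := le_of_mul_le_mul_right h2 (by linarith)
  rw [normSq_eq_norm_sq] at h3
  exact (le_abs_self _).trans (abs_le_of_sq_le_sq h3 hR)

/-! ### exact facts at `y = 0` -/

/-- the discriminant from a root -/
theorem disc_root {T E ν : ℂ} (h : ν ^ 3 - T * ν ^ 2 + E * ν + 1 = 0) :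
    T ^ 2 * E ^ 2 - 4 * E ^ 3 + 4 * T ^ 3 - 18 * (T * E) - 27 =
      (3 * ν ^ 2 - 2 * T * ν + E) ^ 2 * ((T - ν) ^ 2 - 4 * (ν ^ 2 - T * ν + E)) := by
  linear_combination (4 * T ^ 3 - 18 * (T * E) - 27 * (1 - ν ^ 3 + T * ν ^ 2 - E * ν)) * h

/-- the discriminant of the cycle is `fBx` -/
theorem disc_fBx {S K x : ℝ} {z : ℂ} (hz : z ≠ 0) (hx : z + z⁻¹ = (x : ℂ)) :
    ((fBx S K x : ℝ) : ℂ) = (S + K * z⁻¹) ^ 2 * (-(S + K * z)) ^ 2 - 4 * (-(S + K * z)) ^ 3 +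
      4 * (S + K * z⁻¹) ^ 3 - 18 * ((S + K * z⁻¹) * (-(S + K * z))) - 27 := by
  unfold fBx
  push_cast
  rw [← hx]
  field_simp
  ring

/-- AT `y = 0`: a double eigenvalue of modulus 1, `|ν| = 1`, `|s| = 2`, where `s² = 4 d` -/
theorem border_exact {T E ν : ℂ} (hTE : E = -conj T) (h : ν ^ 3 - T * ν ^ 2 + E * ν + 1 = 0)
    (hD : 3 * ν ^ 2 - 2 * T * ν + E ≠ 0)
    (hdisc : T ^ 2 * E ^ 2 - 4 * E ^ 3 + 4 * T ^ 3 - 18 * (T * E) - 27 = 0) :
    (T - ν) ^ 2 = 4 * (ν ^ 2 - T * ν + E) ∧ ‖ν‖ = 1 ∧ ‖T - ν‖ = 2 := by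
  have h1 := disc_root h
  rw [hdisc] at h1
  have h2 : (T - ν) ^ 2 - 4 * (ν ^ 2 - T * ν + E) = 0 := by
    rcases mul_eq_zero.1 h1.symm with h3 | h3
    · exact absurd (pow_eq_zero_iff (by norm_num)|>.1 h3) hD
    · exact h3
  have h3 : (T - ν) ^ 2 = 4 * (ν ^ 2 - T * ν + E) := sub_eq_zero.1 h2
  have hd : ν * (ν ^ 2 - T * ν + E) = -1 := by linear_combination h
  -- norms
  have n1 : ‖ν‖ * ‖T - ν‖ ^ 2 = 4 := by
    have e : ν * (T - ν) ^ 2 = -4 := by rw [h3]; linear_combination 4 * hd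
    have := congrArg norm e
    rw [norm_mul, norm_pow, norm_neg] at this
    rw [this]
    norm_num
  have hν0 : ν ≠ 0 := by
    intro h0
    rw [h0, zero_mul] at hd
    norm_num at hd
  have c1 : conj E = -T := by rw [hTE, map_neg, Complex.conj_conj]
  have c2 : conj T = -E := by rw [hTE, neg_neg]
  have hc := congrArg conj h
  simp only [map_add, map_sub, map_mul, map_pow, map_one, map_zero, c1, c2] at hc
  set n := conj ν with hn
  have key : (1 - ν * n) * (1 - (T - ν) / 2 * n) ^ 2 = 0 := by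
    linear_combination hc + (1 - ν * n) * n ^ 2 / 4 * h2 - n ^ 3 * h
  have nn : ‖n‖ = ‖ν‖ := by rw [hn, Complex.norm_conj]
  have hνn : ‖ν‖ = 1 := by
    rcases mul_eq_zero.1 key with h4 | h4
    · have h5 : ν * n = 1 := by linear_combination -h4
      have := congrArg norm h5
      rw [norm_mul, nn, norm_one] at this
      nlinarith [norm_nonneg ν]
    · have h5 : (T - ν) / 2 * n = 1 := by
        have := (pow_eq_zero_iff (by norm_num)).1 h4
        linear_combination -this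
      have h6 := congrArg norm h5
      rw [norm_mul, norm_div, nn, norm_one] at h6
      have h7 : ‖(2 : ℂ)‖ = 2 := by norm_num
      rw [h7] at h6
      have h8 : ‖T - ν‖ * ‖ν‖ = 2 := by linarith
      have h9 : ‖T - ν‖ = 2 := by
        have : ‖T - ν‖ * (‖ν‖ * ‖T - ν‖) = 4 := by rw [← n1]; ring
        have e : ‖ν‖ * ‖T - ν‖ = 2 := by rw [mul_comm]; exact h8
        rw [e] at this
        linarith
      rw [h9] at h8
      linarith
  refine ⟨h3, hνn, ?_⟩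
  rw [hνn, one_mul] at n1
  nlinarith [norm_nonneg (T - ν)]

/-! ### divided differences -/

/-- divided differences in `i y` -/
theorem border_dd {y : ℝ} {K L z z0 x0 ν ν0 T E T0 E0 s s0 d d0 ze dn E1 T1 n1 t1 h1 : ℂ}
    (hz : z ≠ 0) (hz0 : z0 ≠ 0) (hx : z + z⁻¹ = x0 + (y : ℂ) * I) (hx0 : z0 + z0⁻¹ = x0)
    (eT : T = L + K * z⁻¹) (eE : E = -(L + K * z)) (eT0 : T0 = L + K * z0⁻¹)
    (eE0 : E0 = -(L + K * z0)) (hν : ν ^ 3 - T * ν ^ 2 + E * ν + 1 = 0)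
    (hν0 : ν0 ^ 3 - T0 * ν0 ^ 2 + E0 * ν0 + 1 = 0) (es : s = T - ν) (es0 : s0 = T0 - ν0)
    (ed : d = ν ^ 2 - T * ν + E) (ed0 : d0 = ν0 ^ 2 - T0 * ν0 + E0) (hs : s ≠ 0) (hs0 : s0 ≠ 0)
    (eze : ze = 1 - z⁻¹ * z0⁻¹) (hze : ze ≠ 0) (eE1 : E1 = -(K * ze⁻¹))
    (eT1 : T1 = E1 * (z⁻¹ * z0⁻¹)) (edn : dn = (ν + ν0) * (ν + ν0 - T) + (E - ν * ν0))
    (hdn : dn ≠ 0) (en1 : n1 = (T1 * ν0 - E1) * ν0 * dn⁻¹)
    (et1 : t1 = ((T1 - n1) * (s + s0) - 4 * (n1 * (d * d0))) * (s⁻¹ * s⁻¹))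
    (eh1 : h1 = (ν0 * T1 - n1 * T0) * s⁻¹ * d0) (h00 : s0 ^ 2 = 4 * d0) :
    1 - 4 * d / s ^ 2 = (y : ℂ) * I * t1 ∧
      2 * ν / s = 2 * ν0 / s0 * (1 + (y : ℂ) * I * h1) := by
  have a1 : (z - z0) * ze = (y : ℂ) * I := by
    have : (z - z0) * ze = (z + z⁻¹) - (z0 + z0⁻¹) := by
      rw [eze]
      field_simp
      ring
    rw [this, hx, hx0]
    ring
  have a2 : E - E0 = (y : ℂ) * I * E1 := by
    rw [← a1, eE1, eE, eE0]
    field_simp
    ring
  have a3 : T - T0 = (y : ℂ) * I * T1 := by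
    rw [eT1, ← mul_assoc, ← a2, eE, eE0, eT, eT0]
    field_simp
    ring
  have a4 : (ν - ν0) * dn = (T - T0) * ν0 ^ 2 - (E - E0) * ν0 := by
    rw [edn]
    linear_combination hν - hν0
  have a5 : ν - ν0 = (y : ℂ) * I * n1 := by
    have : (ν - ν0) = ((T - T0) * ν0 ^ 2 - (E - E0) * ν0) * dn⁻¹ := by
      rw [← a4, mul_assoc, mul_inv_cancel₀ hdn, mul_one]
    rw [this, a2, a3, en1]
    ring
  have b1 : ν * d = -1 := by rw [ed]; linear_combination hν
  have b2 : ν0 * d0 = -1 := by rw [ed0]; linear_combination hν0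
  have b3 : d - d0 = (ν - ν0) * (d * d0) := by
    linear_combination -d0 * b1 + d * b2
  have a6 : s - s0 = (y : ℂ) * I * (T1 - n1) := by
    rw [es, es0]
    linear_combination a3 - a5
  have a7 : s ^ 2 - 4 * d = (y : ℂ) * I * ((T1 - n1) * (s + s0) - 4 * (n1 * (d * d0))) := by
    linear_combination (s + s0) * a6 - 4 * b3 - 4 * (d * d0) * a5 + h00
  constructor
  · have : 1 - 4 * d / s ^ 2 = (s ^ 2 - 4 * d) * (s⁻¹ * s⁻¹) := by
      field_simp
    rw [this, a7, et1]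
    ring
  · have hν0' : ν0 ≠ 0 := by
      intro h0
      rw [h0, zero_mul] at b2
      norm_num at b2
    have c1 : ν * s0 - ν0 * s = (y : ℂ) * I * (n1 * T0 - ν0 * T1) := by
      have : ν * s0 - ν0 * s = (ν - ν0) * s0 - ν0 * (s - s0) := by ring
      rw [this, a5, a6, es0]
      ring
    have c2 : (y : ℂ) * I * h1 = (ν * s0 - ν0 * s) / (ν0 * s) := by
      rw [c1, eh1]
      have : d0 = -ν0⁻¹ := by
        have h5 : ν0⁻¹ * (ν0 * d0) = d0 := by
          rw [← mul_assoc, inv_mul_cancel₀ hν0', one_mul]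
        rw [← h5, b2]
        ring
      rw [this]
      field_simp
      ring
    rw [c2]
    field_simp
    ring

/-- SECOND divided difference of `τ` in `i y` -/
theorem border_dd2 {y : ℝ} {K L z z0 x0 ν ν0 T E T0 E0 s s0 d d0 ze ze0 dn dn0 E1 T1 n1 t1 E10 T10
      n10 t10 E2 T2 dn2 n2 t2 : ℂ}
    (hz : z ≠ 0) (hz0 : z0 ≠ 0) (hx : z + z⁻¹ = x0 + (y : ℂ) * I) (hx0 : z0 + z0⁻¹ = x0)
    (eT : T = L + K * z⁻¹) (eE : E = -(L + K * z)) (eT0 : T0 = L + K * z0⁻¹)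
    (eE0 : E0 = -(L + K * z0)) (hν : ν ^ 3 - T * ν ^ 2 + E * ν + 1 = 0)
    (hν0 : ν0 ^ 3 - T0 * ν0 ^ 2 + E0 * ν0 + 1 = 0) (es : s = T - ν) (es0 : s0 = T0 - ν0)
    (ed : d = ν ^ 2 - T * ν + E) (ed0 : d0 = ν0 ^ 2 - T0 * ν0 + E0) (hs : s ≠ 0) (hs0 : s0 ≠ 0)
    (eze : ze = 1 - z⁻¹ * z0⁻¹) (hze : ze ≠ 0) (eze0 : ze0 = 1 - z0⁻¹ * z0⁻¹) (hze0 : ze0 ≠ 0)
    (eE1 : E1 = -(K * ze⁻¹)) (eT1 : T1 = E1 * (z⁻¹ * z0⁻¹)) (eE10 : E10 = -(K * ze0⁻¹))
    (eT10 : T10 = E10 * (z0⁻¹ * z0⁻¹)) (edn : dn = (ν + ν0) * (ν + ν0 - T) + (E - ν * ν0))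
    (hdn : dn ≠ 0) (edn0 : dn0 = 3 * ν0 ^ 2 - 2 * T0 * ν0 + E0) (hdn0 : dn0 ≠ 0)
    (en1 : n1 = (T1 * ν0 - E1) * ν0 * dn⁻¹) (en10 : n10 = (T10 * ν0 - E10) * ν0 * dn0⁻¹)
    (eE2 : E2 = E1 * -(z⁻¹ * z0⁻¹ * z0⁻¹ * ze⁻¹ * ze0⁻¹))
    (eT2 : T2 = E2 * (z⁻¹ * z0⁻¹) - E10 * (z⁻¹ * z0⁻¹ * ze⁻¹ * z0⁻¹))
    (edn2 : dn2 = n1 * (ν + ν0 - T) + (ν0 + ν0) * (n1 - T1) + (E1 - n1 * ν0))
    (en2 : n2 = ((T2 * ν0 - E2) * ν0 - n10 * dn2) * dn⁻¹)
    (et1 : t1 = ((T1 - n1) * (s + s0) - 4 * (n1 * (d * d0))) * (s⁻¹ * s⁻¹))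
    (et10 : t10 = ((T10 - n10) * s0 + (T10 - n10) * s0 - 4 * (n10 * (d0 * d0))) * (s0⁻¹ * s0⁻¹))
    (et2 : t2 = ((T2 - n2) * (s + s0) + (T10 - n10) * (T1 - n1) -
      4 * (d0 * (n2 * d + n10 * (n1 * (d * d0)))) - t10 * ((T1 - n1) * (s + s0))) * (s⁻¹ * s⁻¹)) :
    t1 = t10 + (y : ℂ) * I * t2 := by
  have a1 : (z - z0) * ze = (y : ℂ) * I := by
    have : (z - z0) * ze = (z + z⁻¹) - (z0 + z0⁻¹) := by
      rw [eze]
      field_simp
      ring
    rw [this, hx, hx0]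
    ring
  have a2 : E - E0 = (y : ℂ) * I * E1 := by
    rw [← a1, eE1, eE, eE0]
    field_simp
    ring
  have a3 : T - T0 = (y : ℂ) * I * T1 := by
    rw [eT1, ← mul_assoc, ← a2, eE, eE0, eT, eT0]
    field_simp
    ring
  have a4 : (ν - ν0) * dn = (T - T0) * ν0 ^ 2 - (E - E0) * ν0 := by
    rw [edn]
    linear_combination hν - hν0
  have a5 : ν - ν0 = (y : ℂ) * I * n1 := by
    have : (ν - ν0) = ((T - T0) * ν0 ^ 2 - (E - E0) * ν0) * dn⁻¹ := by
      rw [← a4, mul_assoc, mul_inv_cancel₀ hdn, mul_one]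
    rw [this, a2, a3, en1]
    ring
  have b1 : ν * d = -1 := by rw [ed]; linear_combination hν
  have b2 : ν0 * d0 = -1 := by rw [ed0]; linear_combination hν0
  have b3 : d - d0 = (ν - ν0) * (d * d0) := by
    linear_combination -d0 * b1 + d * b2
  have a6 : s - s0 = (y : ℂ) * I * (T1 - n1) := by
    rw [es, es0]
    linear_combination a3 - a5
  have hd : ze - ze0 = (z - z0) * (z⁻¹ * z0⁻¹ * z0⁻¹) := by
    rw [eze, eze0]
    field_simp
    ring
  have hz1 : z - z0 = (y : ℂ) * I * ze⁻¹ := by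
    rw [← a1, mul_assoc, mul_inv_cancel₀ hze, mul_one]
  generalize (y : ℂ) * I = δ at *
  have hi : ze0⁻¹ - ze⁻¹ = (ze - ze0) * (ze⁻¹ * ze0⁻¹) := by field_simp
  have c1 : E1 - E10 = δ * E2 := by
    rw [eE2, eE10]
    have : E1 - -(K * ze0⁻¹) = K * (ze0⁻¹ - ze⁻¹) := by rw [eE1]; ring
    rw [this, hi, hd, hz1, eE1]
    ring
  have c2 : T1 - T10 = δ * T2 := by
    have h1 : z⁻¹ * z0⁻¹ - z0⁻¹ * z0⁻¹ = -(ze - ze0) := by rw [eze, eze0]; ring
    have h2 : T1 - T10 = (E1 - E10) * (z⁻¹ * z0⁻¹) + E10 * (z⁻¹ * z0⁻¹ - z0⁻¹ * z0⁻¹) := by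
      rw [eT1, eT10]; ring
    rw [h2, c1, h1, hd, hz1, eT2]
    ring
  have c3 : dn - dn0 = δ * dn2 := by
    rw [edn, edn0, edn2]
    linear_combination (ν + ν0 - T + 2 * ν0 - ν0) * a5 - 2 * ν0 * a3 + a2
  have m1 : n1 * dn = (T1 * ν0 - E1) * ν0 := by rw [en1, mul_assoc, inv_mul_cancel₀ hdn, mul_one]
  have m10 : n10 * dn0 = (T10 * ν0 - E10) * ν0 := by
    rw [en10, mul_assoc, inv_mul_cancel₀ hdn0, mul_one]
  have c4 : n1 - n10 = δ * n2 := by
    have h1 : (n1 - n10) * dn = δ * ((T2 * ν0 - E2) * ν0 - n10 * dn2) := by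
      linear_combination m1 - m10 + ν0 ^ 2 * c2 - ν0 * c1 - n10 * c3
    have h2 : n1 - n10 = (n1 - n10) * dn * dn⁻¹ := by rw [mul_assoc, mul_inv_cancel₀ hdn, mul_one]
    rw [h2, h1, en2]
    ring
  have hss : s0 * s0 * (s0⁻¹ * s0⁻¹) = 1 := by field_simp
  have m3 : t10 * (s0 * s0) = (T10 - n10) * s0 + (T10 - n10) * s0 - 4 * (n10 * (d0 * d0)) := by
    rw [et10, mul_assoc, mul_comm (s0⁻¹ * s0⁻¹), hss, mul_one]
  have key : (T1 - n1) * (s + s0) - 4 * (n1 * (d * d0)) - t10 * (s * s) =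
      δ * ((T2 - n2) * (s + s0) + (T10 - n10) * (T1 - n1) -
        4 * (d0 * (n2 * d + n10 * (n1 * (d * d0)))) - t10 * ((T1 - n1) * (s + s0))) := by
    have b3' : d - d0 = δ * n1 * (d * d0) := by rw [b3, a5]
    linear_combination (s + s0) * (c2 - c4) + (T10 - n10) * a6 - 4 * d0 * d * c4 -
      4 * d0 * n10 * b3' - t10 * (s + s0) * a6 - m3
  have hs2 : s * s * (s⁻¹ * s⁻¹) = 1 := by field_simp
  have : t1 - t10 = ((T1 - n1) * (s + s0) - 4 * (n1 * (d * d0)) - t10 * (s * s)) * (s⁻¹ * s⁻¹) := by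
    rw [et1]
    linear_combination t10 * hs2
  rw [key] at this
  rw [et2]
  linear_combination this

/-- AT `y = 0` the first divided difference of `τ` is real -/
theorem border_t0 {K z0 ν0 T0 E0 s0 d0 ze0 dn0 E10 T10 n10 t10 : ℂ} (hz0 : conj z0 = z0⁻¹)
    (hz00 : z0 ≠ 0) (hK : conj K = K) (hTE : E0 = -conj T0)
    (hν0 : ν0 ^ 3 - T0 * ν0 ^ 2 + E0 * ν0 + 1 = 0) (es0 : s0 = T0 - ν0)
    (ed0 : d0 = ν0 ^ 2 - T0 * ν0 + E0) (hs0 : s0 ≠ 0) (h00 : s0 ^ 2 = 4 * d0) (nν : ‖ν0‖ = 1)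
    (ns : ‖s0‖ = 2) (eze0 : ze0 = 1 - z0⁻¹ * z0⁻¹) (eE10 : E10 = -(K * ze0⁻¹))
    (eT10 : T10 = E10 * (z0⁻¹ * z0⁻¹)) (edn0 : dn0 = 3 * ν0 ^ 2 - 2 * T0 * ν0 + E0)
    (hdn0 : dn0 ≠ 0) (en10 : n10 = (T10 * ν0 - E10) * ν0 * dn0⁻¹)
    (et10 : t10 = ((T10 - n10) * s0 + (T10 - n10) * s0 - 4 * (n10 * (d0 * d0))) *
      (s0⁻¹ * s0⁻¹)) : t10.im = 0 := by
  have b2 : ν0 * d0 = -1 := by rw [ed0]; linear_combination hν0
  have hν00 : ν0 ≠ 0 := by
    intro h0
    rw [h0, zero_mul] at b2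
    norm_num at b2
  have hd0 : d0 ≠ 0 := by
    intro h0
    rw [h0, mul_zero] at b2
    norm_num at b2
  have cT : conj T0 = -E0 := by rw [hTE, neg_neg]
  have cE : conj E0 = -T0 := by rw [hTE, map_neg, Complex.conj_conj]
  have cν : conj ν0 = -d0 := by
    have h1 : ν0 * conj ν0 = 1 := by
      rw [Complex.mul_conj, normSq_eq_norm_sq, nν]
      norm_num
    have h2 : ν0 * (conj ν0 + d0) = 0 := by linear_combination h1 + b2
    rcases mul_eq_zero.1 h2 with h3 | h3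
    · exact absurd h3 hν00
    · linear_combination h3
  have cd : conj d0 = -ν0 := by
    have : conj (conj ν0) = conj (-d0) := by rw [cν]
    rw [Complex.conj_conj, map_neg] at this
    linear_combination this
  have cs : conj s0 = -(ν0 * s0) := by
    have h1 : s0 * conj s0 = 4 := by
      rw [Complex.mul_conj, normSq_eq_norm_sq, ns]
      norm_num
    have h2 : s0 * (conj s0 + ν0 * s0) = 0 := by linear_combination h1 + ν0 * h00 + 4 * b2
    rcases mul_eq_zero.1 h2 with h3 | h3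
    · exact absurd h3 hs0
    · linear_combination h3
  have cze : conj ze0 = -(ze0 * (z0 * z0)) := by
    rw [eze0, map_sub, map_one, map_mul, map_inv₀, hz0, inv_inv]
    field_simp
    ring
  have cE1 : conj E10 = -T10 := by
    rw [eT10, eE10, map_neg, map_mul, hK, map_inv₀, cze, inv_neg, mul_inv, mul_inv]
    ring
  have cT1 : conj T10 = -E10 := by
    have : conj (conj E10) = conj (-T10) := by rw [cE1]
    rw [Complex.conj_conj, map_neg] at this
    linear_combination this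
  have hrec : d0 ^ 2 - E0 * d0 - T0 + ν0 = 0 := by
    linear_combination d0 ^ 2 * hν0 - (ν0 ^ 2 * d0 - ν0 - T0 * (ν0 * d0 - 1) + E0 * d0) * b2
  have cdn : conj dn0 = dn0 * d0 := by
    rw [edn0]
    simp only [map_add, map_sub, map_mul, map_pow, cν, cT, cE]
    have h2 : conj (2 : ℂ) = 2 := Complex.conj_ofNat 2
    have h3 : conj (3 : ℂ) = 3 := Complex.conj_ofNat 3
    rw [h2, h3]
    linear_combination 3 * hrec - (3 * ν0 - 2 * T0) * b2
  have m10 : n10 * dn0 = (T10 * ν0 - E10) * ν0 := by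
    rw [en10, mul_assoc, inv_mul_cancel₀ hdn0, mul_one]
  have cn : conj n10 = -(d0 ^ 2 * n10) := by
    have h1 := congrArg conj m10
    rw [map_mul, map_mul, map_sub, map_mul, cdn, cT1, cE1, cν] at h1
    have h2 : dn0 * d0 * (conj n10 + d0 ^ 2 * n10) = 0 := by
      linear_combination h1 + d0 ^ 3 * m10 +
        (T10 * d0 * (ν0 * d0 - 1) - E10 * d0 ^ 2) * b2
    rcases mul_eq_zero.1 h2 with h3 | h3
    · exact absurd h3 (mul_ne_zero hdn0 hd0)
    · linear_combination h3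
  have hss : s0 * s0 * (s0⁻¹ * s0⁻¹) = 1 := by field_simp
  have m3 : t10 * (4 * d0) = 2 * (T10 - n10) * s0 - 4 * (n10 * (d0 * d0)) := by
    have : t10 * (s0 * s0) = (T10 - n10) * s0 + (T10 - n10) * s0 - 4 * (n10 * (d0 * d0)) := by
      rw [et10, mul_assoc, mul_comm (s0⁻¹ * s0⁻¹), hss, mul_one]
    linear_combination this - t10 * h00
  have c3 := congrArg conj m3
  simp only [map_mul, map_sub, cd, cs, cn, cT1] at c3
  have h2 : conj (2 : ℂ) = 2 := Complex.conj_ofNat 2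
  have h4 : conj (4 : ℂ) = 4 := Complex.conj_ofNat 4
  rw [h2, h4] at c3
  have fin : conj t10 = t10 := by
    have h5 : dn0 = ν0 ^ 2 - ν0 * s0 + d0 := by rw [edn0, ed0, es0]; ring
    have h7 : conj t10 * 2 = -(s0 * (E10 - d0 ^ 2 * n10)) + 2 * (d0 * n10) := by
      have h8 : ν0 * (conj t10 * 2 - (-(s0 * (E10 - d0 ^ 2 * n10)) + 2 * (d0 * n10))) = 0 := by
        linear_combination (-1 / 2 : ℂ) * c3 + (-2 * ν0 * d0 * n10) * b2
      rcases mul_eq_zero.1 h8 with h3 | h3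
      · exact absurd h3 hν00
      · linear_combination h3
    have h9 : t10 * 2 = -(ν0 * (T10 - n10) * s0) - 2 * (n10 * d0) := by
      linear_combination (-1 / 2 * ν0 : ℂ) * m3 + (2 * t10 + 2 * n10 * d0) * b2
    have h6 : 4 * (conj t10 - t10) = 0 := by
      have e1 : T10 * ν0 - E10 = -(n10 * dn0 * d0) := by
        linear_combination d0 * m10 + (T10 * ν0 - E10) * b2
      have e2 : dn0 * d0 = -ν0 + s0 + d0 ^ 2 := by
        rw [h5]
        linear_combination (ν0 - s0) * b2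
      linear_combination 2 * h7 - 2 * h9 + 2 * s0 * e1 - 2 * s0 * n10 * e2 - 2 * n10 * h00
    have := mul_eq_zero.1 h6
    rcases this with h7 | h7
    · norm_num at h7
    · linear_combination h7
  exact Complex.conj_eq_iff_im.1 fin
/-- THE SIGNS at `y ≥ 0` -/
theorem border_sg {y bm B : ℝ} {t1 t0 t2 h1 τ g g0 : ℂ} (hy : 0 ≤ y) (hτ : τ = (y : ℂ) * I * t1)
    (ht : t1 = t0 + (y : ℂ) * I * t2) (ht0 : t0.im = 0)
    (hg : g = g0 * (1 + (y : ℂ) * I * h1)) (hg0 : ‖g0‖ = 1) (r1 : 0 ≤ t1.re)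
    (r2 : t2.re ≤ 0) (r4 : B ≤ t1.re + 2 * h1.im + bm * t1.im) (hB : y * normSq h1 ≤ B) :
    0 ≤ τ.im ∧ 0 ≤ τ.re ∧ normSq g ≤ 1 + τ.im - bm * max τ.re 0 := by
  have e1 : τ.re = -(y * t1.im) := by
    rw [hτ]
    simp
  have e2 : τ.im = y * t1.re := by
    rw [hτ]
    simp
  have e4 : t1.im = y * t2.re := by
    rw [ht]
    simp [ht0]
  have e3 : normSq g = 1 - 2 * (y * h1.im) + y * (y * normSq h1) := by
    have n0 : normSq g0 = 1 := by rw [normSq_eq_norm_sq, hg0, one_pow]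
    rw [hg, normSq_mul, n0, one_mul, normSq_apply, normSq_apply]
    simp
    ring
  have m1 : y * (y * normSq h1) ≤ y * B := mul_le_mul_of_nonneg_left hB hy
  have m2 : t1.im ≤ 0 := by rw [e4]; exact mul_nonpos_of_nonneg_of_nonpos hy r2
  have m3 : 0 ≤ τ.re := by
    rw [e1, neg_nonneg]
    exact mul_nonpos_of_nonneg_of_nonpos hy m2
  refine ⟨?_, m3, ?_⟩
  · rw [e2]; exact mul_nonneg hy r1
  · rw [max_eq_left m3, e3, e1, e2]
    have := mul_le_mul_of_nonneg_left r4 hy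
    linarith

end Pool.Agent.Helper57.KNB
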