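import Pool.Agent.Helper57.KNB.KC1
import Pool.Agent.Helper57.KNB.KC4
import Pool.Agent.Helper57.KNB.KT8

/-!
Row KTB, part 5: soundness of the tail test of a cell which contains `y = 0`.
-/

set_option autoImplicit false
noncomputable section
namespace Pool.Agent.Helper57.KNB

open Pool.Agent.Helper86.C75 (Z)
open Pool.Agent.Helper86.CX (Cx andB u32 kf Hm mkH ev)
open Pool.Agent.Helper90.C75
open Pool.Agent.Helper90.KMO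
open Pool.Agent.Helper39.KNF (C9 Sm AD)
open Pool.Agent.Helper42.CH (powA)
open Pool.Agent.Helper32.C75 (pt InHull Near cell3 cell3_sound PK HP Tr)
open Pool.Agent.Helper6.MONO (fBx)
open Complex ComplexConjugate

variable {M PH : Type} {R : Ar M PH} {OK : ℂ → M → Prop} {HK : Hm ℝ → PH → Prop}

/-! ### lower bounds of real parts -/

theorem reG_mem {b r : ℕ} {l : List Cx} (h : reG b r l = true) {c : Cx} (hc : c ∈ l) :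
    (b : ℝ) + r ≤ zv c.re := by
  induction l with
  | nil => cases hc
  | cons x l ih =>
    obtain ⟨h1, h2⟩ := andBt (show andB (leZ2 (Nat.add b r) x.re (nat_lit 0)) (reG b r l) = true
      from h)
    rcases List.mem_cons.1 hc with rfl | hc
    · have := leZ2_sound h1
      rw [nadd] at this
      norm_num at this
      exact this
    · exact ih h2 hc

/-- `b ≤ Re f`, unit `2 ^ (-48)` -/
theorem reGe_sound (hR : ArS R OK HK) {f : ℂ} {x : M} (hf : OK f x) {b : ℕ}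
    (h : reGe R b x = true) : (b : ℝ) ≤ f.re * UU := by
  obtain ⟨q, hq, hd⟩ := hR.ctl hf
  have h1 : ∀ z ∈ {z : ℂ | ∃ c ∈ R.ctl x, z = cz c}, (b : ℝ) + R.rd x ≤ z.re := by
    rintro z ⟨c, hc, rfl⟩
    exact reG_mem h hc
  have h2 : (b : ℝ) + R.rd x ≤ q.re := by
    have hconv : Convex ℝ {z : ℂ | (b : ℝ) + R.rd x ≤ z.re} := by
      intro u hu v hv s t hs ht hst
      have hu' : (b : ℝ) + R.rd x ≤ u.re := hu
      have hv' : (b : ℝ) + R.rd x ≤ v.re := hv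
      show _ ≤ (s • u + t • v).re
      have e : (s • u + t • v).re = s * u.re + t * v.re := by simp
      rw [e]
      have m1 := mul_le_mul_of_nonneg_left hu' hs
      have m2 := mul_le_mul_of_nonneg_left hv' ht
      have m3 : s * ((b : ℝ) + R.rd x) + t * ((b : ℝ) + R.rd x) = (b : ℝ) + R.rd x := by
        rw [← add_mul, hst, one_mul]
      linarith
    exact convexHull_min h1 hconv hq
  have h3 : |(((UU : ℂ) * f - q)).re| ≤ R.rd x := (abs_re_le_norm _).trans hd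
  have h4 : (((UU : ℂ) * f - q)).re = UU * f.re - q.re := by simp
  rw [h4] at h3
  obtain ⟨h5, -⟩ := abs_le.1 h3
  linarith [h2, mul_comm UU f.re]

theorem iN_ok (hR : ArS R OK HK) (n : ℕ) {f : ℂ} {x : M} (hf : OK f x) :
    OK ((n : ℂ) * I / UU * f) (iN R n x) := by
  refine okE (hR.mul (hR.cs _) hf) ?_
  congr 1
  have : cz ⟨zi0, Z.p n⟩ = (n : ℂ) * I := by
    apply Complex.ext
    · simp [cz, zi0, zv]
    · simp [cz, zv]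
  rw [this]

theorem yN_ok {y : ℝ} {yb n : ℕ} (hyb : y ≤ (yb : ℝ) / 2 ^ 48) {h : ℂ}
    (hn : ‖h‖ * UU ≤ n) : y * normSq h ≤ (yN yb n : ℕ) / UU := by
  have hU := UU_pos
  have h1 : ‖h‖ ≤ n / UU := by rw [le_div_iff₀ hU]; exact hn
  have h2 : normSq h ≤ (n / UU) ^ 2 := by
    rw [normSq_eq_norm_sq]
    exact pow_le_pow_left₀ (norm_nonneg _) h1 2
  have h3 : y * normSq h ≤ (yb : ℝ) / 2 ^ 48 * (n / UU) ^ 2 :=
    mul_le_mul hyb h2 (normSq_nonneg _) (by positivity)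
  refine h3.trans ?_
  have e : yN yb n = yb * (n * n) / 79228162514264337593543950336 + 1 := rfl
  have h4 : yb * (n * n) < (yb * (n * n) / 79228162514264337593543950336 + 1) *
      79228162514264337593543950336 := by
    have := Nat.lt_div_mul_add (a := yb * (n * n)) (b := 79228162514264337593543950336)
      (by norm_num)
    linarith
  rw [e]
  have h5 : ((yb * (n * n) : ℕ) : ℝ) <
      ((yb * (n * n) / 79228162514264337593543950336 + 1 : ℕ) : ℝ) *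
        79228162514264337593543950336 := by exact_mod_cast h4
  have hU2 : (UU : ℝ) = 2 ^ 48 := by unfold UU; norm_num
  rw [hU2, div_pow, div_mul_div_comm, div_le_div_iff₀ (by positivity) (by positivity)]
  push_cast at h5 ⊢
  nlinarith

/-! ### the scalars -/

/-- THE SIGNS from the tests -/
theorem bTt_sound (hR : ArS R OK HK) {y x0 : ℝ} {yb bm : ℕ} (hy : 0 ≤ y)
    (hyb : y ≤ (yb : ℝ) / 2 ^ 48) {Kc Lc z z0 ν T E ν0 : ℂ} (hz : z ≠ 0) (hz0 : ‖z0‖ = 1)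
    (hx : z + z⁻¹ = (x0 : ℂ) + (y : ℂ) * I) (hx0 : z0 + z0⁻¹ = (x0 : ℂ))
    (eT : T = Lc + Kc * z⁻¹) (eE : E = -(Lc + Kc * z)) (hL : conj Lc = Lc) (hK : conj Kc = Kc)
    (hν : ν ^ 3 - T * ν ^ 2 + E * ν + 1 = 0) (hs : T ≠ ν)
    (hν0 : ν0 ^ 3 - (Lc + Kc * z0⁻¹) * ν0 ^ 2 + -(Lc + Kc * z0) * ν0 + 1 = 0)
    (hs0 : Lc + Kc * z0⁻¹ ≠ ν0)
    (hD0 : 3 * ν0 ^ 2 - 2 * (Lc + Kc * z0⁻¹) * ν0 + -(Lc + Kc * z0) ≠ 0)
    (hdisc : (Lc + Kc * z0⁻¹) ^ 2 * (-(Lc + Kc * z0)) ^ 2 - 4 * (-(Lc + Kc * z0)) ^ 3 +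
      4 * (Lc + Kc * z0⁻¹) ^ 3 - 18 * ((Lc + Kc * z0⁻¹) * (-(Lc + Kc * z0))) - 27 = 0)
    {K zi zo To : M} {S So : Sc M} (oK : OK Kc K) (ozi : OK z⁻¹ zi) (ozo : OK z0⁻¹ zo)
    (oTo : OK (Lc + Kc * z0⁻¹) To) (oS : ScK OK ν T E S)
    (oSo : ScK OK ν0 (Lc + Kc * z0⁻¹) (-(Lc + Kc * z0)) So)
    (h : bTt R yb bm K zi zo To S So = true) :
    0 ≤ (1 - 4 * (ν ^ 2 - T * ν + E) / (T - ν) ^ 2).im ∧
      0 ≤ (1 - 4 * (ν ^ 2 - T * ν + E) / (T - ν) ^ 2).re ∧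
      normSq (2 * ν / (T - ν)) ≤ 1 + (1 - 4 * (ν ^ 2 - T * ν + E) / (T - ν) ^ 2).im -
        (bm : ℝ) / 16777216 * max (1 - 4 * (ν ^ 2 - T * ν + E) / (T - ν) ^ 2).re 0 := by
  have hU := UU_pos
  have hUc : (UU : ℂ) ≠ 0 := UUc_ne
  have hz00 : z0 ≠ 0 := by
    intro h0
    rw [h0, norm_zero] at hz0
    norm_num at hz0
  have hcz : conj z0⁻¹ = z0 := by
    have : z0 * conj z0 = 1 := by
      rw [Complex.mul_conj, normSq_eq_norm_sq, hz0]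
      norm_num
    rw [map_inv₀]
    exact (eq_inv_of_mul_eq_one_left this).symm
  have hcz' : conj z0 = z0⁻¹ := by
    rw [map_inv₀] at hcz
    exact inv_eq_iff_eq_inv.1 hcz
  have hTE : -(Lc + Kc * z0) = -conj (Lc + Kc * z0⁻¹) := by
    rw [map_add, map_mul, hL, hK, hcz]
  obtain ⟨x1, x2, x3⟩ := border_exact hTE hν0 hD0 hdisc
  obtain ⟨T0, eT0⟩ : ∃ x : ℂ, x = Lc + Kc * z0⁻¹ := ⟨_, rfl⟩
  obtain ⟨E0, eE0⟩ : ∃ x : ℂ, x = -(Lc + Kc * z0) := ⟨_, rfl⟩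
  rw [← eT0, ← eE0] at oSo hν0 hD0
  rw [← eT0] at hs0 oTo
  rw [← eT0, ← eE0] at x1 hTE
  rw [← eT0] at x3
  obtain ⟨s, es⟩ : ∃ x : ℂ, x = T - ν := ⟨_, rfl⟩
  obtain ⟨s0, es0⟩ : ∃ x : ℂ, x = T0 - ν0 := ⟨_, rfl⟩
  obtain ⟨d, ed⟩ : ∃ x : ℂ, x = ν ^ 2 - T * ν + E := ⟨_, rfl⟩
  obtain ⟨d0, ed0⟩ : ∃ x : ℂ, x = ν0 ^ 2 - T0 * ν0 + E0 := ⟨_, rfl⟩
  have oνs := oS.nu
  have os : OK s S.s := es ▸ oS.s
  have ois : OK s⁻¹ S.is := es ▸ oS.is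
  have od : OK d S.d := ed ▸ oS.d
  have oν0 := oSo.nu
  have os0 : OK s0 So.s := es0 ▸ oSo.s
  have ois0 : OK s0⁻¹ So.is := es0 ▸ oSo.is
  have od0 : OK d0 So.d := ed0 ▸ oSo.d
  have oT : OK T (R.add S.s S.nu) := okE (hR.add os oνs) (by rw [es]; ring)
  have oE : OK E (R.add S.d (R.mul S.nu S.s)) :=
    okE (hR.add od (hR.mul oνs os)) (by rw [ed, es]; ring)
  have hsn : s ≠ 0 := by rw [es]; exact sub_ne_zero.2 hs
  have hsn0 : s0 ≠ 0 := by rw [es0]; exact sub_ne_zero.2 hs0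
  obtain ⟨ze, eze⟩ : ∃ x : ℂ, x = 1 - z⁻¹ * z0⁻¹ := ⟨_, rfl⟩
  obtain ⟨ze0, eze0⟩ : ∃ x : ℂ, x = 1 - z0⁻¹ * z0⁻¹ := ⟨_, rfl⟩
  have oze : OK ze (bZe R zi zo) := okE (hR.sub (ok1 hR) (hR.mul ozi ozo)) eze.symm
  have oze0 : OK ze0 (bZe R zo zo) := okE (hR.sub (ok1 hR) (hR.mul ozo ozo)) eze0.symm
  obtain ⟨c1, h⟩ := andBt h
  obtain ⟨hze, ozei⟩ := hR.inv oze c1
  obtain ⟨c2, h⟩ := andBt h
  obtain ⟨hze0, oze0i⟩ := hR.inv oze0 c2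
  obtain ⟨E1, eE1⟩ : ∃ x : ℂ, x = -(Kc * ze⁻¹) := ⟨_, rfl⟩
  obtain ⟨E10, eE10⟩ : ∃ x : ℂ, x = -(Kc * ze0⁻¹) := ⟨_, rfl⟩
  have oE1 : OK E1 (bE1 R K (bZe R zi zo)) := okE (okN hR (hR.mul oK ozei)) eE1.symm
  have oE10 : OK E10 (bE1 R K (bZe R zo zo)) := okE (okN hR (hR.mul oK oze0i)) eE10.symm
  obtain ⟨T1, eT1⟩ : ∃ x : ℂ, x = E1 * (z⁻¹ * z0⁻¹) := ⟨_, rfl⟩
  obtain ⟨T10, eT10⟩ : ∃ x : ℂ, x = E10 * (z0⁻¹ * z0⁻¹) := ⟨_, rfl⟩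
  have oT1 : OK T1 (bT1 R (bE1 R K (bZe R zi zo)) zi zo) :=
    okE (hR.mul oE1 (hR.mul ozi ozo)) eT1.symm
  have oT10 : OK T10 (bT1 R (bE1 R K (bZe R zo zo)) zo zo) :=
    okE (hR.mul oE10 (hR.mul ozo ozo)) eT10.symm
  obtain ⟨E2, eE2⟩ : ∃ x : ℂ, x = E1 * -(z⁻¹ * z0⁻¹ * z0⁻¹ * ze⁻¹ * ze0⁻¹) := ⟨_, rfl⟩
  obtain ⟨T2, eT2⟩ : ∃ x : ℂ, x = E2 * (z⁻¹ * z0⁻¹) - E10 * (z⁻¹ * z0⁻¹ * ze⁻¹ * z0⁻¹) :=
    ⟨_, rfl⟩
  have oE2 := okE (hR.mul oE1 (okN hR (hR.mul (hR.mul (hR.mul (hR.mul ozi ozo) ozo) ozei)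
    oze0i))) eE2.symm
  have oT2 := okE (hR.sub (hR.mul oE2 (hR.mul ozi ozo)) (hR.mul oE10 (hR.mul
    (hR.mul (hR.mul ozi ozo) ozei) ozo))) eT2.symm
  obtain ⟨c3, h⟩ := andBt h
  obtain ⟨dn, edn⟩ : ∃ x : ℂ, x = (ν + ν0) * (ν + ν0 - T) + (E - ν * ν0) := ⟨_, rfl⟩
  have odn : OK dn (bDn R (R.add S.s S.nu) (R.add S.d (R.mul S.nu S.s)) S.nu So.nu) :=
    okE (hR.add (hR.mul (hR.add oνs oν0) (hR.sub (hR.add oνs oν0) oT))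
      (hR.sub oE (hR.mul oνs oν0))) edn.symm
  obtain ⟨hdn, odni⟩ := hR.inv odn c3
  obtain ⟨dn0, edn0⟩ : ∃ x : ℂ, x = 3 * ν0 ^ 2 - 2 * T0 * ν0 + E0 := ⟨_, rfl⟩
  have hdn0 : dn0 ≠ 0 := by rw [edn0]; exact hD0
  have oic : OK dn0⁻¹ So.ic := edn0 ▸ oSo.ic
  obtain ⟨n1, en1⟩ : ∃ x : ℂ, x = (T1 * ν0 - E1) * ν0 * dn⁻¹ := ⟨_, rfl⟩
  obtain ⟨n10, en10⟩ : ∃ x : ℂ, x = (T10 * ν0 - E10) * ν0 * dn0⁻¹ := ⟨_, rfl⟩
  have on1 := okE (hR.mul (hR.mul (hR.sub (hR.mul oT1 oν0) oE1) oν0) odni) en1.symm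
  have on10 := okE (hR.mul (hR.mul (hR.sub (hR.mul oT10 oν0) oE10) oν0) oic) en10.symm
  obtain ⟨dn2, edn2⟩ : ∃ x : ℂ, x = n1 * (ν + ν0 - T) + (ν0 + ν0) * (n1 - T1) +
    (E1 - n1 * ν0) := ⟨_, rfl⟩
  have odn2 := okE (hR.add (hR.add (hR.mul on1 (hR.sub (hR.add oνs oν0) oT))
    (hR.mul (hR.add oν0 oν0) (hR.sub on1 oT1))) (hR.sub oE1 (hR.mul on1 oν0))) edn2.symm
  obtain ⟨n2, en2⟩ : ∃ x : ℂ, x = ((T2 * ν0 - E2) * ν0 - n10 * dn2) * dn⁻¹ := ⟨_, rfl⟩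
  have on2 := okE (hR.mul (hR.sub (hR.mul (hR.sub (hR.mul oT2 oν0) oE2) oν0)
    (hR.mul on10 odn2)) odni) en2.symm
  obtain ⟨t1, et1⟩ : ∃ x : ℂ, x = ((T1 - n1) * (s + s0) - 4 * (n1 * (d * d0))) *
    (s⁻¹ * s⁻¹) := ⟨_, rfl⟩
  have ot1 := okE (hR.mul (hR.sub (hR.mul (hR.sub oT1 on1) (hR.add os os0))
    (hR.mul (ok4 hR) (hR.mul on1 (hR.mul od od0)))) (hR.mul ois ois)) et1.symm
  obtain ⟨t10, et10⟩ : ∃ x : ℂ, x = ((T10 - n10) * s0 + (T10 - n10) * s0 -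
    4 * (n10 * (d0 * d0))) * (s0⁻¹ * s0⁻¹) := ⟨_, rfl⟩
  have os10 := hR.mul (hR.sub oT10 on10) os0
  have ot10 := okE (hR.mul (hR.sub (hR.add os10 os10)
    (hR.mul (ok4 hR) (hR.mul on10 (hR.mul od0 od0)))) (hR.mul ois0 ois0)) et10.symm
  obtain ⟨t2, et2⟩ : ∃ x : ℂ, x = ((T2 - n2) * (s + s0) + (T10 - n10) * (T1 - n1) -
      4 * (d0 * (n2 * d + n10 * (n1 * (d * d0)))) - t10 * ((T1 - n1) * (s + s0))) *
      (s⁻¹ * s⁻¹) := ⟨_, rfl⟩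
  have oss := hR.mul (hR.sub oT1 on1) (hR.add os os0)
  have ot2 := okE (hR.mul (hR.sub (hR.sub (hR.add (hR.mul (hR.sub oT2 on2) (hR.add os os0))
    (hR.mul (hR.sub oT10 on10) (hR.sub oT1 on1))) (hR.mul (ok4 hR) (hR.mul od0
      (hR.add (hR.mul on2 od) (hR.mul on10 (hR.mul on1 (hR.mul od od0)))))))
    (hR.mul ot10 oss)) (hR.mul ois ois)) et2.symm
  obtain ⟨h1, eh1⟩ : ∃ x : ℂ, x = (ν0 * T1 - n1 * T0) * s⁻¹ * d0 := ⟨_, rfl⟩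
  have oh1 := okE (hR.mul (hR.mul (hR.sub (hR.mul oν0 oT1) (hR.mul on1 oTo)) ois) od0) eh1.symm
  have h00 : s0 ^ 2 = 4 * d0 := by rw [es0, ed0]; exact x1
  obtain ⟨g1, g2⟩ := border_dd hz hz00 hx hx0 eT eE eT0 eE0 hν hν0 es es0 ed ed0 hsn hsn0 eze
    hze eE1 eT1 edn hdn en1 et1 eh1 h00
  have g3 := border_dd2 hz hz00 hx hx0 eT eE eT0 eE0 hν hν0 es es0 ed ed0 hsn hsn0 eze hze eze0
    hze0 eE1 eT1 eE10 eT10 edn hdn edn0 hdn0 en1 en10 eE2 eT2 edn2 en2 et1 et10 et2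
  have g4 := border_t0 hcz' hz00 hK hTE hν0 es0 ed0 hsn0 h00 x2 (by rw [es0]; exact x3) eze0
    eE10 eT10 edn0 hdn0 en10 et10
  rw [es, ed] at g1
  obtain ⟨b1, h⟩ := andBt h
  obtain ⟨b2, b4⟩ := andBt h
  have r1 := reGe_sound hR ot1 b1
  have r2 := reGe_sound hR (okN hR ot2) b2
  have r4 := reGe_sound hR (hR.sub (hR.sub ot1 (iN_ok hR (nat_lit 562949953421312) oh1))
    (iN_ok hR _ ot1)) b4
  have hN := yN_ok hyb (hR.nb oh1)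
  have hUU : (UU : ℝ) = 281474976710656 := by unfold UU; norm_num
  have f1 : ∀ (n : ℕ) (u : ℂ), ((n : ℂ) * I / UU * u).re = -(n / UU * u.im) := by
    intro n u
    have : (n : ℂ) * I / UU * u = ((n / UU : ℝ) : ℂ) * (I * u) := by
      push_cast
      ring
    rw [this, Complex.re_ofReal_mul]
    simp
  rw [Complex.neg_re] at r2
  rw [Complex.sub_re, Complex.sub_re, f1, f1] at r4
  have h0 : ((nat_lit 0 : ℕ) : ℝ) = 0 := by norm_num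
  have q1 : 0 ≤ t1.re := by
    rw [h0] at r1
    exact nonneg_of_mul_nonneg_left r1 hU
  have q2 : t2.re ≤ 0 := by
    rw [h0] at r2
    have := nonneg_of_mul_nonneg_left r2 hU
    linarith
  have e2 : (((nat_lit 562949953421312 : ℕ) : ℝ) / UU) = 2 := by rw [hUU]; norm_num
  have e3 : (((Nat.mul (nat_lit 16777216) bm : ℕ) : ℝ) / UU) = (bm : ℝ) / 16777216 := by
    rw [nmul, hUU]
    norm_num
    ring
  have g0n : ‖2 * ν0 / s0‖ = 1 := by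
    rw [norm_div, norm_mul, x2, es0, x3]
    norm_num
  rw [es] at g2
  refine border_sg hy g1 g3 g4 g2 g0n q1 q2 ?_ hN
  rw [div_le_iff₀ hU]
  rw [e2, e3] at r4
  have : t1.re - -(2 * h1.im) - -((bm : ℝ) / 16777216 * t1.im) =
    t1.re + 2 * h1.im + (bm : ℝ) / 16777216 * t1.im := by ring
  rw [this] at r4
  exact r4

end Pool.Agent.Helper57.KNB
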