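import Pool.Agent.Helper57.KNB.KC5
import Pool.Agent.Helper57.KNB.KC3

/-!
Row KTB, part 6: soundness of one orientation in a cell which contains `y = 0`.
-/

set_option autoImplicit false
noncomputable section
namespace Pool.Agent.Helper57.KNB

open Pool.Agent.Helper86.C75 (Z)
open Pool.Agent.Helper86.CX (Cx andB u32 kf Hm mkH ev)
open Pool.Agent.Helper86.CT (Alg Up Mc Vx KM mkKM N3 Pr Cls)
open Pool.Agent.Helper90.C75
open Pool.Agent.Helper90.KMO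
open Pool.Agent.Helper90.KMT (lf0 nlf AOK TOK PT UOK mf0 nmf KTab KMK mkKM_ok vt_mk CLT)
open Pool.Agent.Helper39.KNF (C9 Sm AD)
open Pool.Agent.Helper39.SLT (T4 ML)
open Pool.Agent.Helper42.CH (powA)
open Pool.Agent.Helper32.C75 (pt InHull Near cell3 cell3_sound PK HP Tr)
open Pool.Agent.Helper6.MONO (sD SbP omS kk zS trBs esBs tauBs lamS RMb zS_om zS_nx2 LNI_kk
  LNI_kk_symm mm fBx)
open Pool.Agent.Helper21.SUP
open Complex ComplexConjugate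

variable {α β p' v' γ M PH : Type} {D : ℕ} {lf : α → Vt D → ℂ}
  {mf : (ℕ → ℝ) → β → (ℕ → ℝ) → ℝ} {t : ℕ → ℝ} {A : Alg α} {U : Up β α} {w' : ℕ} {V : Vx β}
  {OK : ℂ → M → Prop} {HK : Hm ℝ → PH → Prop} {cv : Pool.Agent.Helper86.CT.Mo α → M}
  {R : Ar M PH}

/-- the tail of a cell which contains `y = 0` -/
theorem tailB_ok (hR : ArS R OK HK) {B : BDT α β} {bm : ℕ} {Q : AD} (hQ : chAC bm B Q = true)
    {τ g : ℂ} {c r : M} (hc : OK (1 - τ) c) (hr : OK (sqR g τ B.lq.length) r)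
    (ht : bTr R bm B.r0 B.rho B.Ts c r = true) (i1 : 0 ≤ τ.im) (i2 : 0 ≤ τ.re)
    (i3 : normSq g ≤ 1 + τ.im - (bm : ℝ) / 16777216 * max τ.re 0) :
    TailOK τ g B.lq.length (tpb A U w' cv B.LT B.bj B.tl) B.r0 := by
  have hU := UU_pos
  obtain ⟨t1, t2⟩ := andBt ht
  have hN := near_gen hR hc t2
  rw [sub_sub_cancel] at hN
  unfold chAC chCT at hQ
  simp only [Bool.and_eq_true] at hQ
  obtain ⟨⟨⟨hcell, hC⟩, hV⟩, hbm⟩ := hQ
  rw [List.all_eq_true] at hC hV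
  have hbm' : bm ≤ 6710886 := Nat.le_of_ble_eq_true hbm
  have hb5 : (bm : ℝ) / 16777216 ≤ 2 / 5 := by
    have : (bm : ℝ) ≤ 6710886 := by exact_mod_cast hbm'
    rw [div_le_div_iff₀ (by norm_num) (by norm_num)]
    linarith
  -- the box
  have box : τ.re ≤ 1 / 4 ∧ τ.im ≤ 1 / 4 := by
    obtain ⟨q, h1, h2⟩ := hN
    rw [UU24] at h2
    obtain ⟨-, q2, -, q4⟩ := hull_le h1
    have r1 := (abs_re_le_norm (τ - q)).trans h2
    have r2 := (abs_im_le_norm (τ - q)).trans h2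
    rw [Complex.sub_re] at r1
    rw [Complex.sub_im] at r2
    obtain ⟨-, r4⟩ := abs_le.1 r1
    obtain ⟨-, r6⟩ := abs_le.1 r2
    have hC' : ∀ x ∈ B.Ts, x.1 + B.rho ≤ 4194304 ∧ x.2 + B.rho ≤ 4194304 := by
      intro x hx
      have := hC x hx
      rw [Bool.and_eq_true] at this
      exact ⟨Nat.le_of_ble_eq_true this.1, Nat.le_of_ble_eq_true this.2⟩
    have hne : ∃ x, x ∈ B.Ts := by
      by_contra hno
      have hT : B.Ts = [] := List.eq_nil_iff_forall_not_mem.2 fun x hx => hno ⟨x, hx⟩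
      rw [hT] at h1
      obtain ⟨wt, -, ws, -⟩ := h1
      simp at ws
    obtain ⟨x, hx⟩ := hne
    have hr : B.rho ≤ 4194304 := by have := (hC' x hx).1; omega
    have s2 := q2 (4194304 - B.rho) (fun x hx => by have := (hC' x hx).1; omega)
    have s4 := q4 (4194304 - B.rho) (fun x hx => by have := (hC' x hx).2; omega)
    push_cast [Nat.cast_sub hr] at s2 s4
    rw [sub_div] at s2 s4
    have e : (4194304 : ℝ) / 16777216 = 1 / 4 := by norm_num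
    rw [e] at s2 s4
    constructor <;> linarith
  have hp : ∀ m, B.lq.length ≤ m → ∃ V ∈ B.tl.map fun T => T.V, InHull V (powA τ m) :=
    fun m hm => cell3_sound hcell hN i1 (by linarith)
      (fun _ i => (powA_sec i1 box.2 (by linarith) box.1 i).1) m hm
  have hA : ∀ m, B.lq.length ≤ m → 0 ≤ (powA τ m).re ∧ 0 ≤ (powA τ m).im ∧
      (powA τ m).im ≤ (bm : ℝ) / 16777216 := by
    intro m hm
    obtain ⟨V, hV1, hV2⟩ := hp m hm
    obtain ⟨a1, -, a3, a4⟩ := hull_le hV2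
    have h0 := a1 0 fun _ _ => Nat.zero_le _
    have h1 := a3 0 fun _ _ => Nat.zero_le _
    rw [Nat.cast_zero, zero_div] at h0 h1
    refine ⟨h0, h1, a4 bm fun x hx => ?_⟩
    have := hV V hV1
    rw [List.all_eq_true] at this
    exact Nat.le_of_ble_eq_true (this x hx)
  have t1' : ((R.nb r * R.nb r * 16777216 : ℕ) : ℝ) ≤ ((B.r0 * B.r0 * (16777216 - bm) : ℕ) : ℝ) := by
    exact_mod_cast Nat.le_of_ble_eq_true t1
  push_cast [Nat.cast_sub (hbm'.trans (by norm_num : 6710886 ≤ 16777216))] at t1'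
  have h0 : normSq (sqR g τ B.lq.length) ≤
      ((B.r0 : ℝ) / UU) ^ 2 * (1 - (bm : ℝ) / 16777216) := by
    have n1 := hR.nb hr
    have n2 : ‖sqR g τ B.lq.length‖ ≤ (R.nb r : ℝ) / UU := by rw [le_div_iff₀ hU]; exact n1
    rw [normSq_eq_norm_sq]
    refine (pow_le_pow_left₀ (norm_nonneg _) n2 2).trans ?_
    have e : ((B.r0 : ℝ) / UU) ^ 2 * (1 - (bm : ℝ) / 16777216) =
        ((B.r0 : ℝ) * B.r0 * (16777216 - bm)) / (UU ^ 2 * 16777216) := by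
      field_simp
    rw [e, div_pow, div_le_div_iff₀ (by positivity) (by positivity)]
    have := mul_le_mul_of_nonneg_left t1' (by positivity : 0 ≤ (UU : ℝ) ^ 2)
    nlinarith
  have key := rho_le3 (g := g) (τ := τ) (m0 := B.lq.length) (R0 := (B.r0 : ℝ) / UU)
    (bm := (bm : ℝ) / 16777216) (by positivity) hb5 box.1 i1 box.2 i3 hA h0
  intro m hm
  refine ⟨tpb_in (Or.inl (hp m hm)), ?_⟩
  rw [← le_div_iff₀ hU]
  exact key m hm

variable {p q r : ℕ} {w : ℂ}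

/-- ONE ORIENTATION IN A CELL which contains `y = 0` -/
theorem chBd_sound (hA : AOK D lf A) (hU : UOK D lf mf U) (hw : w' * 2 ^ D = 2 ^ 28)
    (hV : VLw D mf V) (hP : PT D t) (hR : ArS R OK HK)
    (hcv : ∀ {f : ℂ} {m : Pool.Agent.Helper86.CT.Mo α}, TOK D lf t f m → OK f (cv m))
    (hp : 3 ≤ p) (hq : 3 ≤ q) (hr : 3 ≤ r)
    {s0 : GS} (hs : DG s0) (hom : ∀ s, DG s → omS p q r s w ≠ 0) (hz : zS s0 w ≠ 0)
    {l0 l1 l2 k0 k1 k2 z zi : M}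
    (hl0 : OK ((lamS p q r s0 : ℝ) : ℂ) l0)
    (hl1 : OK ((lamS p q r (nx s0 2) : ℝ) : ℂ) l1)
    (hl2 : OK ((lamS p q r (nx (nx s0 2) 2) : ℝ) : ℂ) l2)
    (hk0 : OK ((kk p q r s0.1 s0.2.1 : ℝ) : ℂ) k0)
    (hk1 : OK ((kk p q r s0.2.1 s0.2.2 : ℝ) : ℂ) k1)
    (hk2 : OK ((kk p q r s0.1 s0.2.2 : ℝ) : ℂ) k2)
    (hzz : OK (zS s0 w) z) (hzi : OK (zS s0 w)⁻¹ zi)
    {x0 y : ℝ} {yb bm : ℕ} (hy : 0 ≤ y) (hyb : y ≤ (yb : ℝ) / 2 ^ 48)
    (hx : zS s0 w + (zS s0 w)⁻¹ = (x0 : ℂ) + (y : ℂ) * I) {z0 : ℂ} (hz0 : ‖z0‖ = 1)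
    (hx0 : z0 + z0⁻¹ = (x0 : ℂ)) {z0m zom v : M} (hz0m : OK z0 z0m) (hzom : OK z0⁻¹ zom)
    (hv : ∃ v0, OK v0 v)
    (hfB : fBx (kk p q r s0.1 s0.2.1 ^ 2 + kk p q r s0.2.1 s0.2.2 ^ 2 + kk p q r s0.1 s0.2.2 ^ 2 -
      3) (kk p q r s0.1 s0.2.1 * kk p q r s0.2.1 s0.2.2 * kk p q r s0.1 s0.2.2) x0 = 0)
    {KT : β} {B : BDT α β} {Q : AD} (hQ : chAC bm B Q = true)
    {Kt : GS → Hm ℝ} (e0 : Kt s0 = KTab mf KT B.t0 t)
    (e1 : Kt (nx s0 2) = KTab mf KT B.t1 t)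
    (e2 : Kt (nx (nx s0 2) 2) = KTab mf KT B.t2 t)
    (h : chBd A U w' V R cv KT yb bm B l0 l1 l2 k0 k1 k2 z zi z0m zom v = true) :
    ∃ ν, OTx OK p q r w s0 (KTab mf KT B.ke t) (KTab mf KT B.kx t) Kt
      (mkOIT A U w' R cv KT B l0 l1 l2 k0 k1 k2 (R.mul k0 k0) (R.mul k1 k1) (R.mul k2 k2) z zi)
      (srT A U w' cv KT B.LT B.d1) ν := by
  obtain ⟨b0, h⟩ := andBt h
  obtain ⟨b1, h⟩ := andBt h
  obtain ⟨b2, h⟩ := andBt h
  obtain ⟨b3, h⟩ := andBt h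
  have hu : ∀ {q : QL}, UsedQ B q → 0 < lvT mf B.LT t q.l := fun hq => used_pos hV hP b0 hq
  have hld : ∀ {q : QL}, UsedQ B q → LOK OK (ldT A U w' cv B.LT q) := fun hq =>
    ldT_ok hA hU hw hcv hP (hu hq)
  have hs' := DG_nx s0 2 hs
  have hs'' := DG_nx _ 2 hs'
  have n1 : nx s0 2 = (s0.2.1, s0.2.2, s0.1) := nx_even s0 2 rfl
  have n2 : nx (nx s0 2) 2 = (s0.2.2, s0.1, s0.2.1) := by rw [nx_even _ 2 rfl, n1]
  have p1 := (LNI_kk hp hq hr _ _ hs.1).1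
  have p2 := (LNI_kk hp hq hr _ _ hs'.1).1
  have p3 := (LNI_kk hp hq hr _ _ hs''.1).1
  rw [n1] at p2
  rw [n2] at p3
  have p3' : 0 < kk p q r s0.1 s0.2.2 := by
    have : kk p q r s0.1 s0.2.2 = kk p q r s0.2.2 s0.1 := LNI_kk_symm p q r _ _
    rw [this]; exact p3
  have S0 := sG_ok hR p1.ne' hk0 b1
  have S1 := sG_ok hR p2.ne' hk1 b2
  have S2 := sG_ok hR p3'.ne' hk2 b3
  have hI : OIK OK p q r s0 w (KTab mf KT B.ke t) (KTab mf KT B.kx t) (Sm B.B) Kt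
      (mkOIT A U w' R cv KT B l0 l1 l2 k0 k1 k2 (R.mul k0 k0) (R.mul k1 k1) (R.mul k2 k2) z
        zi) := by
    refine ⟨hl0, hl1, hl2, S0, ?_, ?_, hzz, hzi, ?_, ?_, ?_, ?_, ?_, ?_, fmT_ok hA hU hw hcv _ _,
      fmT_ok hA hU hw hcv _ _, f9A_ok hR _, hld (Or.inr (Or.inl rfl)), hld (Or.inr (Or.inl rfl)),
      hld (Or.inr (Or.inr (Or.inl rfl))), hld (Or.inr (Or.inr (Or.inr (Or.inl rfl)))),
      hld (Or.inr (Or.inr (Or.inr (Or.inr (Or.inl rfl))))),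
      hld (Or.inr (Or.inr (Or.inr (Or.inr (Or.inr (Or.inl rfl)))))),
      ldsT_ok hA hU hw hcv hP fun q hq => hu (by
        refine Or.inr (Or.inr (Or.inr (Or.inr (Or.inr (Or.inr (Or.inr (Or.inr (Or.inr
          (Or.inl hq)))))))))), ?_⟩
    · unfold sS; rw [n1]; exact S1
    · unfold sS; rw [n2]
      have : kk p q r s0.2.2 s0.1 = kk p q r s0.1 s0.2.2 := LNI_kk_symm p q r _ _
      rw [show kk p q r ((s0.2.2, s0.1, s0.2.1) : GS).1 ((s0.2.2, s0.1, s0.2.1) : GS).2.1 =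
        kk p q r s0.2.2 s0.1 from rfl, this]
      exact S2
    · exact okE (hR.mul (hR.mul hk0 hk1) hk2) (by push_cast; ring)
    · refine okE (hR.sub (hR.add (hR.mul hk0 hk0) (hR.add (hR.mul hk1 hk1) (hR.mul hk2 hk2)))
        (ok3 hR)) ?_
      push_cast
      ring
    · refine ⟨avg (wtT D t) (lf B.v) / UU, hcv ⟨vt_mk hA _ _, ?_⟩⟩
      show ‖(UU : ℂ) * (avg (wtT D t) (lf B.v) / UU) - avg (wtT D t) (lf B.v)‖ ≤
        ((nat_lit 0 : ℕ) : ℝ)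
      have : (UU : ℂ) ≠ 0 := UUc_ne
      rw [mul_div_cancel₀ _ this, sub_self, norm_zero]
      exact Nat.cast_nonneg _
    · rw [e0]; exact fmT_ok hA hU hw hcv _ _
    · rw [e1]; exact fmT_ok hA hU hw hcv _ _
    · rw [e2]; exact fmT_ok hA hU hw hcv _ _
    · have hx : ∀ x ∈ B.tl, LOK OK (ldT A U w' cv B.LT x.q) := fun x hx => hld (by
        refine Or.inr (Or.inr (Or.inr (Or.inr (Or.inr (Or.inr (Or.inr (Or.inr (Or.inr
          (Or.inr ⟨x, hx, rfl⟩))))))))))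
      have key : ∀ ng (l : List (TP M)), (∀ T ∈ l, LOK OK T.l) →
          ∀ T ∈ tps A U w' cv B.LT ng l B.tl, LOK OK T.l := by
        intro ng l hl T hT
        rcases (tps_mem _ _ _ _).1 hT with ⟨x, hx', rfl⟩ | hT
        · exact hx x hx'
        · exact hl T hT
      show ∀ T ∈ tpb A U w' cv B.LT B.bj B.tl, LOK OK T.l
      cases B.bj with
      | false => exact key 0 [] (fun T hT => by cases hT)
      | true => exact key 0 _ (key 1 [] (fun T hT => by cases hT))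
  refine chX_sound hR hp hq hr hs (hom _ hs) (hom _ hs') (hom _ hs'') hz hI
    (Tt := ttB R yb bm B.r0 B.rho B.Ts _ _ _ z0m zom v) ?_ h
  intro ν S a b hν hsp hS ha hb ht
  have elen : (mkOIT A U w' R cv KT B l0 l1 l2 k0 k1 k2 (R.mul k0 k0) (R.mul k1 k1)
      (R.mul k2 k2) z zi).lq.length = B.lq.length := ldsT_len B.lq
  rw [elen] at hb ⊢
  have oK := hI.K
  have oL := hI.L
  have hTo := hR.add oL (hR.mul oK hzom)
  have hEo := okN hR (hR.add oL (hR.mul oK hz0m))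
  obtain ⟨c1, ht⟩ := andBt ht
  obtain ⟨c2, ht⟩ := andBt ht
  obtain ⟨c3, ht⟩ := andBt ht
  obtain ⟨v0, hv0⟩ := hv
  obtain ⟨ν0, hν0, hνM0⟩ := nuM2_sound hR hv0 hTo hEo c1
  obtain ⟨hs0, hD0, hS0⟩ := ScK.mk' hR hνM0 hTo hEo c2
  have hz00 : z0 ≠ 0 := by
    intro h0
    rw [h0, norm_zero] at hz0
    norm_num at hz0
  have hdisc := disc_fBx (S := kk p q r s0.1 s0.2.1 ^ 2 + kk p q r s0.2.1 s0.2.2 ^ 2 +
    kk p q r s0.1 s0.2.2 ^ 2 - 3) (K := kk p q r s0.1 s0.2.1 * kk p q r s0.2.1 s0.2.2 *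
    kk p q r s0.1 s0.2.2) hz00 hx0
  rw [hfB] at hdisc
  have hT : trBs p q r s0 w = ((kk p q r s0.1 s0.2.1 ^ 2 + kk p q r s0.2.1 s0.2.2 ^ 2 +
      kk p q r s0.1 s0.2.2 ^ 2 - 3 : ℝ) : ℂ) + ((kk p q r s0.1 s0.2.1 * kk p q r s0.2.1 s0.2.2 *
      kk p q r s0.1 s0.2.2 : ℝ) : ℂ) * (zS s0 w)⁻¹ := by
    unfold trBs Pool.Agent.Helper6.MONO.trB
    rw [div_eq_mul_inv]
  have hE : esBs p q r s0 w = -(((kk p q r s0.1 s0.2.1 ^ 2 + kk p q r s0.2.1 s0.2.2 ^ 2 +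
      kk p q r s0.1 s0.2.2 ^ 2 - 3 : ℝ) : ℂ) + ((kk p q r s0.1 s0.2.1 * kk p q r s0.2.1 s0.2.2 *
      kk p q r s0.1 s0.2.2 : ℝ) : ℂ) * zS s0 w) := rfl
  have hsg := bTt_sound hR hy hyb hz hz0 hx hx0 hT hE (Complex.conj_ofReal _)
    (Complex.conj_ofReal _) hν hsp hν0 hs0 hD0 (by
      rw [Complex.ofReal_zero] at hdisc
      exact hdisc.symm) oK hzi hzom hTo hS hS0 ht
  obtain ⟨i1, i2, i3⟩ := hsg
  refine tailB_ok hR hQ (c := S.c) ?_ hb c3 i1 i2 i3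
  refine okE hS.c ?_
  unfold tauBs
  ring

end Pool.Agent.Helper57.KNB
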