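import Pool.Agent.Helper90.CX.NRB3

/-!
Row KNB (MP_c75db0, complex line), part 1: Hermitian forms on lines and planes, all phases of the
parameter `ρ` by the S-procedure with a constant multiplier, polygons.
-/

set_option autoImplicit false
noncomputable section
namespace Pool.Agent.Helper57.KNB

open Pool.Agent.Helper86.CX (Hm ev)
open Complex ComplexConjugate

/-- the sesquilinear form `conj(u) K v` -/
def hs (K : Hm ℝ) (u v : Fin 3 → ℂ) : ℂ :=
  conj (u 0) * (K.a * v 0 + K.x * v 1 + K.y * v 2) +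
    conj (u 1) * (conj K.x * v 0 + K.b * v 1 + K.w * v 2) +
    conj (u 2) * (conj K.y * v 0 + conj K.w * v 1 + K.c * v 2)

theorem ev_hs (K : Hm ℝ) (v : Fin 3 → ℂ) : ev K v = (hs K v v).re := by
  simp only [ev, hs, Hm.x, Hm.y, Hm.w]
  simp
  simp only [normSq_apply]
  ring

theorem hs_add_right (K : Hm ℝ) (u v v' : Fin 3 → ℂ) : hs K u (v + v') = hs K u v + hs K u v' := by
  simp only [hs, Pi.add_apply]; ring

theorem hs_add_left (K : Hm ℝ) (u u' v : Fin 3 → ℂ) : hs K (u + u') v = hs K u v + hs K u' v := by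
  simp only [hs, Pi.add_apply, map_add]; ring

theorem hs_smul_right (K : Hm ℝ) (c : ℂ) (u v : Fin 3 → ℂ) : hs K u (c • v) = c * hs K u v := by
  simp only [hs, Pi.smul_apply, smul_eq_mul]; ring

theorem hs_smul_left (K : Hm ℝ) (c : ℂ) (u v : Fin 3 → ℂ) :
    hs K (c • u) v = conj c * hs K u v := by
  simp only [hs, Pi.smul_apply, smul_eq_mul, map_mul]; ring

theorem hs_symm (K : Hm ℝ) (u v : Fin 3 → ℂ) : conj (hs K u v) = hs K v u := by
  simp only [hs, map_add, map_mul, Complex.conj_conj, Complex.conj_ofReal]; ring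

theorem ev_add (K : Hm ℝ) (u v : Fin 3 → ℂ) : ev K (u + v) = ev K u + ev K v + 2 * (hs K u v).re := by
  rw [ev_hs, ev_hs, ev_hs, hs_add_left, hs_add_right, hs_add_right]
  have h := congrArg Complex.re (hs_symm K u v)
  rw [conj_re] at h
  simp only [add_re]
  linarith

theorem ev_smul (K : Hm ℝ) (c : ℂ) (v : Fin 3 → ℂ) : ev K (c • v) = normSq c * ev K v := by
  rw [ev_hs, ev_hs, hs_smul_left, hs_smul_right, ← mul_assoc, mul_comm (conj c) c, mul_conj]
  rw [re_ofReal_mul]

/-- the family on a plane: `F₀ + A F₁ + B F₂` -/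
theorem ev_plane (K : Hm ℝ) (u0 u1 u2 : Fin 3 → ℂ) (A B : ℂ) :
    ev K (u0 + A • u1 + B • u2) = ev K u0 + normSq A * ev K u1 + normSq B * ev K u2 +
      2 * (A * hs K u0 u1).re + 2 * (B * hs K u0 u2).re + 2 * (conj A * B * hs K u1 u2).re := by
  rw [ev_add, ev_add, ev_smul, ev_smul, hs_add_left, hs_smul_right, hs_smul_right, hs_smul_right,
    hs_smul_left]
  have e : B * (conj A * hs K u1 u2) = conj A * B * hs K u1 u2 := by ring
  rw [e, add_re]
  ring

/-- the family on a line -/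
theorem ev_line2 (K : Hm ℝ) (u0 u1 : Fin 3 → ℂ) (A : ℂ) :
    ev K (u0 + A • u1) = ev K u0 + normSq A * ev K u1 + 2 * (A * hs K u0 u1).re := by
  rw [ev_add, ev_smul, hs_smul_right]

/-- ALL PHASES, S-procedure with a constant multiplier: `|η|² ≤ g2`, `ξ0 ≤ ev X a ≤ σ` -/
theorem sproc {X : Hm ℝ} {a u : Fin 3 → ℂ} {σ ξ0 g2 : ℝ} (hσ : 0 < σ) (h1 : ev X a ≤ σ)
    (h0 : ξ0 ≤ ev X a) (hg : 0 ≤ g2) {η : ℂ} (hη : normSq η ≤ g2) :
    ev X u - normSq (hs X a u) / σ - (σ - ξ0) * g2 ≤ ev X (u + η • a) := by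
  have e : ev X (u + η • a) = ev X u + normSq η * ev X a + 2 * (conj η * hs X a u).re := by
    rw [ev_line2]
    have h2 : (η * hs X u a).re = (conj η * hs X a u).re := by
      rw [← hs_symm X a u, ← conj_re (η * _), map_mul, Complex.conj_conj]
    rw [h2]
  rw [e]
  set h := hs X a u
  have h3 : 0 ≤ normSq (h + (σ : ℂ) * η) := normSq_nonneg _
  have h4 : normSq (h + (σ : ℂ) * η) = normSq h + σ ^ 2 * normSq η + 2 * σ * (conj η * h).re := by
    rw [normSq_add, normSq_mul, normSq_ofReal]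
    have : (h * conj ((σ : ℂ) * η)).re = σ * (conj η * h).re := by
      rw [map_mul, conj_ofReal]
      have : h * ((σ : ℂ) * conj η) = (σ : ℂ) * (conj η * h) := by ring
      rw [this, re_ofReal_mul]
    rw [this]; ring
  rw [h4] at h3
  have h5 : -(normSq h / σ) - σ * normSq η ≤ 2 * (conj η * h).re := by
    have h6 : σ * (-(normSq h / σ) - σ * normSq η) ≤ σ * (2 * (conj η * h).re) := by
      have : σ * (-(normSq h / σ) - σ * normSq η) = -normSq h - σ ^ 2 * normSq η := by
        field_simp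
      rw [this]; linarith
    exact le_of_mul_le_mul_left h6 hσ
  have h7 : (σ - ev X a) * normSq η ≤ (σ - ξ0) * g2 := by
    calc (σ - ev X a) * normSq η ≤ (σ - ev X a) * g2 :=
          mul_le_mul_of_nonneg_left hη (by linarith)
      _ ≤ (σ - ξ0) * g2 := mul_le_mul_of_nonneg_right (by linarith) hg
  nlinarith

/-- the variance of a convex combination -/
theorem var_le {ι : Type*} [Fintype ι] {wt : ι → ℝ} (hw : ∀ i, 0 ≤ wt i) (hs : ∑ i, wt i = 1)
    {P : ι → ℂ} {A c : ℂ} {R : ℝ} (hA : A = ∑ i, (wt i : ℂ) * P i)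
    (hR : ∀ i, normSq (P i - c) ≤ R) :
    0 ≤ ∑ i, wt i * normSq (P i) - normSq A ∧ ∑ i, wt i * normSq (P i) - normSq A ≤ R := by
  have key : ∀ z : ℂ, ∑ i, wt i * normSq (P i - z) =
      ∑ i, wt i * normSq (P i) - 2 * (A * conj z).re + normSq z := by
    intro z
    have e : ∀ i, wt i * normSq (P i - z) =
        wt i * normSq (P i) - 2 * (wt i * (P i * conj z).re) + wt i * normSq z := by
      intro i; rw [normSq_sub]; ring
    rw [Finset.sum_congr rfl fun i _ => e i, Finset.sum_add_distrib, Finset.sum_sub_distrib,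
      ← Finset.mul_sum, ← Finset.sum_mul, hs, one_mul]
    have e4 : ∑ i, wt i * (P i * conj z).re = (A * conj z).re := by
      rw [hA, Finset.sum_mul, Complex.re_sum]
      refine Finset.sum_congr rfl fun i _ => ?_
      rw [mul_assoc, Complex.re_ofReal_mul]
    rw [e4]
  have h1 := key A
  have h2 : 0 ≤ ∑ i, wt i * normSq (P i - A) :=
    Finset.sum_nonneg fun i _ => mul_nonneg (hw i) (normSq_nonneg _)
  have h3 : (A * conj A).re = normSq A := by rw [mul_conj, ofReal_re]
  rw [h3] at h1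
  refine ⟨by linarith, ?_⟩
  have h4 := key c
  have h5 : ∑ i, wt i * normSq (P i - c) ≤ R := by
    calc ∑ i, wt i * normSq (P i - c) ≤ ∑ i, wt i * R :=
          Finset.sum_le_sum fun i _ => mul_le_mul_of_nonneg_left (hR i) (hw i)
      _ = R := by rw [← Finset.sum_mul, hs, one_mul]
  have h6 : normSq (A - c) = normSq A - 2 * (A * conj c).re + normSq c := by rw [normSq_sub]; ring
  have h7 := normSq_nonneg (A - c)
  linarith

/-- POLYGON: a function `L0 + 2 Re (A h) + n q` of `(A, n)`, `n = |A|²`, is nonnegative if it is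
at the vertices, with `n = |A_v|²` and `n = |A_v|² - R` -/
theorem poly_nonneg {ι : Type*} [Fintype ι] {wt : ι → ℝ} (hw : ∀ i, 0 ≤ wt i)
    (hs : ∑ i, wt i = 1) {P : ι → ℂ} {A c : ℂ} {R : ℝ} (hA : A = ∑ i, (wt i : ℂ) * P i)
    (hR : ∀ i, normSq (P i - c) ≤ R) {L0 q : ℝ} {h : ℂ}
    (h1 : ∀ i, 0 ≤ L0 + 2 * (P i * h).re + normSq (P i) * q)
    (h2 : ∀ i, 0 ≤ L0 + 2 * (P i * h).re + (normSq (P i) - R) * q) :
    0 ≤ L0 + 2 * (A * h).re + normSq A * q := by
  obtain ⟨v0, v1⟩ := var_le hw hs hA hR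
  set V := ∑ i, wt i * normSq (P i) - normSq A with hV
  have e1 : ∑ i, wt i * (L0 + 2 * (P i * h).re + normSq (P i) * q) =
      L0 + 2 * (A * h).re + (normSq A + V) * q := by
    have e4 : ∑ i, wt i * (P i * h).re = (A * h).re := by
      rw [hA, Finset.sum_mul, Complex.re_sum]
      refine Finset.sum_congr rfl fun i _ => ?_
      rw [mul_assoc, Complex.re_ofReal_mul]
    have e5 : ∀ i, wt i * (L0 + 2 * (P i * h).re + normSq (P i) * q) =
        wt i * L0 + 2 * (wt i * (P i * h).re) + wt i * normSq (P i) * q := by intro i; ring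
    rw [Finset.sum_congr rfl fun i _ => e5 i, Finset.sum_add_distrib, Finset.sum_add_distrib,
      ← Finset.sum_mul, ← Finset.mul_sum, ← Finset.sum_mul, hs, one_mul, e4]
    have : ∑ i, wt i * normSq (P i) = normSq A + V := by rw [hV]; ring
    rw [this]
  have e2 : ∑ i, wt i * (L0 + 2 * (P i * h).re + (normSq (P i) - R) * q) =
      L0 + 2 * (A * h).re + (normSq A + V - R) * q := by
    have e5 : ∀ i, wt i * (L0 + 2 * (P i * h).re + (normSq (P i) - R) * q) =
        wt i * (L0 + 2 * (P i * h).re + normSq (P i) * q) - wt i * (R * q) := by intro i; ring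
    rw [Finset.sum_congr rfl fun i _ => e5 i, Finset.sum_sub_distrib, e1, ← Finset.sum_mul, hs,
      one_mul]
    ring
  have p1 : 0 ≤ L0 + 2 * (A * h).re + (normSq A + V) * q := by
    rw [← e1]; exact Finset.sum_nonneg fun i _ => mul_nonneg (hw i) (h1 i)
  have p2 : 0 ≤ L0 + 2 * (A * h).re + (normSq A + V - R) * q := by
    rw [← e2]; exact Finset.sum_nonneg fun i _ => mul_nonneg (hw i) (h2 i)
  rcases le_total 0 q with hq | hq
  · have : (normSq A + V - R) * q ≤ normSq A * q :=
      mul_le_mul_of_nonneg_right (by linarith) hq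
    linarith
  · have : (normSq A + V) * q ≤ normSq A * q :=
      mul_le_mul_of_nonpos_right (by linarith) hq
    linarith

end Pool.Agent.Helper57.KNB
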