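import Pool.Agent.Helper57.KNB.KN10

/-!
Row KNB, part 11: the bound of `ρ` in the tail.
-/

set_option autoImplicit false
noncomputable section
namespace Pool.Agent.Helper57.KNB

open Pool.Agent.Helper90.C75 (e2 prS prQ prN sqR)
open Pool.Agent.Helper42.CH (powA)
open Complex ComplexConjugate Matrix

/-- first criterion: `|g| ≤ 1 + Re A` -/
theorem rho_le {g τ : ℂ} {m0 : ℕ} {R0 e : ℝ} (he : 0 ≤ e) (h0 : ‖sqR g τ m0‖ ≤ R0)
    (hg : ‖g‖ ≤ 1 + e) (hA : ∀ q, m0 ≤ q → e ≤ (powA τ q).re) :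
    ∀ q, m0 ≤ q → ‖sqR g τ q‖ ≤ R0 := by
  intro q hq
  induction q, hq using Nat.le_induction with
  | base => exact h0
  | succ q hq ih =>
    have h1 : 1 + e ≤ ‖1 + powA τ q‖ := by
      have h2 : (1 + powA τ q).re ≤ ‖1 + powA τ q‖ := re_le_norm _
      rw [Complex.add_re, Complex.one_re] at h2
      have := hA q hq
      linarith
    have h3 : 0 < ‖1 + powA τ q‖ := by linarith
    show ‖g * sqR g τ q / (1 + powA τ q)‖ ≤ R0
    rw [norm_div, norm_mul, div_le_iff₀ h3]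
    have h4 : ‖g‖ * ‖sqR g τ q‖ ≤ ‖1 + powA τ q‖ * R0 :=
      mul_le_mul (hg.trans h1) ih (norm_nonneg _) h3.le
    linarith

/-- the polynomial inequality of the potential -/
theorem pot_poly {s b tr ti bm G : ℝ} (hs : 1 ≤ s) (hb : 0 ≤ b) (hbm : b ≤ bm) (hbm' : bm ≤ 2 / 5)
    (htr : 0 ≤ tr) (htr' : tr ≤ 1 / 4) (hti : 0 ≤ ti) (hti' : ti ≤ 1 / 4)
    (hG : G = 1 + ti - bm * tr) :
    G * (s ^ 2 + b ^ 2 - (1 - tr) * b - ti * s) ≤ (s ^ 2 + b ^ 2) ^ 2 * (1 - b) := by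
  have hb5 : b ≤ 2 / 5 := hbm.trans hbm'
  have hbm0 : 0 ≤ bm := hb.trans hbm
  have hG1 : G ≤ 5 / 4 := by
    have := mul_nonneg hbm0 htr
    linarith
  have hG0 : 0 ≤ G := by
    have : bm * tr ≤ 2 / 5 * (1 / 4) := mul_le_mul hbm' htr' htr (by norm_num)
    linarith
  -- at `s = 1`
  have h1 : G * (1 + b ^ 2 - (1 - tr) * b - ti) ≤ (1 + b ^ 2) ^ 2 * (1 - b) := by
    have e : (1 + b ^ 2) ^ 2 * (1 - b) - G * (1 + b ^ 2 - (1 - tr) * b - ti) =
        b ^ 2 * ((1 - b) ^ 2 - b ^ 3) + ti * (b * (1 - b - tr) + ti) +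
          tr * (bm * (1 - b + b ^ 2 + tr * b - ti) - b) := by
      rw [hG]; ring
    have p1 : 0 ≤ ti * (b * (1 - b - tr) + ti) := by
      apply mul_nonneg hti
      have : 0 ≤ b * (1 - b - tr) := mul_nonneg hb (by linarith)
      linarith
    have p3 : bm * (1 - b + b ^ 2 + tr * b - ti) - b ≥
        b * (1 - b + b ^ 2 + tr * b - ti) - b := by
      have h0 : 0 ≤ 1 - b + b ^ 2 + tr * b - ti := by
        have := mul_nonneg htr hb
        have := sq_nonneg b
        linarith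
      have := mul_le_mul_of_nonneg_right hbm h0
      linarith
    have p4 : tr * (b * (1 - b + b ^ 2 + tr * b - ti) - b) ≤
        tr * (bm * (1 - b + b ^ 2 + tr * b - ti) - b) := mul_le_mul_of_nonneg_left p3 htr
    have p5 : 0 ≤ b ^ 2 * ((1 - b) ^ 2 - b ^ 3) +
        tr * (b * (1 - b + b ^ 2 + tr * b - ti) - b) + ti * (b * (1 - b - tr) + ti) := by
      have e2 : b ^ 2 * ((1 - b) ^ 2 - b ^ 3) +
          tr * (b * (1 - b + b ^ 2 + tr * b - ti) - b) + ti * (b * (1 - b - tr) + ti) =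
          b ^ 2 * ((1 - b) ^ 2 - b ^ 3 - tr * (1 - b - tr)) +
            ti * (b * (1 - b - tr - tr) + ti) := by ring
      rw [e2]
      have q1 : 0 ≤ (1 - b) ^ 2 - b ^ 3 - tr * (1 - b - tr) := by
        have r1 : b ^ 3 ≤ (2 / 5) * (2 / 5) * b := by
          have : b ^ 3 = b * b * b := by ring
          rw [this]
          exact mul_le_mul_of_nonneg_right (mul_le_mul hb5 hb5 hb (by norm_num)) hb
        have r2 : tr * (1 - b - tr) ≤ (1 - b) ^ 2 / 4 := by
          nlinarith [sq_nonneg (tr - (1 - b) / 2)]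
        nlinarith
      have q2 : 0 ≤ ti * (b * (1 - b - tr - tr) + ti) := by
        apply mul_nonneg hti
        have : 0 ≤ b * (1 - b - tr - tr) := mul_nonneg hb (by linarith)
        linarith
      have q3 := mul_nonneg (sq_nonneg b) q1
      linarith
    linarith
  -- the difference
  have h2 : (s ^ 2 + b ^ 2) ^ 2 * (1 - b) - G * (s ^ 2 + b ^ 2 - (1 - tr) * b - ti * s) =
      ((1 + b ^ 2) ^ 2 * (1 - b) - G * (1 + b ^ 2 - (1 - tr) * b - ti)) +
      (s ^ 2 - 1) * ((s ^ 2 + 1 + 2 * b ^ 2) * (1 - b) - G) + G * (ti * (s - 1)) := by ring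
  have h3 : 0 ≤ s ^ 2 - 1 := by nlinarith
  have h4 : 0 ≤ (s ^ 2 + 1 + 2 * b ^ 2) * (1 - b) - G := by
    have : 2 + 2 * b ^ 2 ≤ s ^ 2 + 1 + 2 * b ^ 2 := by linarith
    have h5 := mul_le_mul_of_nonneg_right this (by linarith : 0 ≤ 1 - b)
    nlinarith [sq_nonneg b, sq_nonneg (b - 2 / 5)]
  have h6 := mul_nonneg h3 h4
  have h7 := mul_nonneg hG0 (mul_nonneg hti (by linarith : 0 ≤ s - 1))
  linarith

/-- `|1 + A|² - ...`: the imaginary part of the next `A` -/
theorem im_step (A τ : ℂ) (h : 1 + A ≠ 0) :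
    normSq (1 + A) * (1 - ((A + τ) / (1 + A)).im) =
      (1 + A.re) ^ 2 + A.im ^ 2 - (1 - τ.re) * A.im - τ.im * (1 + A.re) := by
  have hn : normSq (1 + A) ≠ 0 := fun h0 => h (normSq_eq_zero.1 h0)
  have e : normSq (1 + A) = (1 + A.re) ^ 2 + A.im ^ 2 := by
    rw [normSq_apply]
    simp only [Complex.add_re, Complex.add_im, Complex.one_re, Complex.one_im]
    ring
  have e2 : normSq (1 + A) * ((A + τ) / (1 + A)).im =
      (A.im + τ.im) * (1 + A.re) - (A.re + τ.re) * A.im := by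
    rw [Complex.div_im]
    simp only [Complex.add_re, Complex.add_im, Complex.one_re, Complex.one_im]
    field_simp
    ring
  rw [mul_sub, mul_one, e2, e]
  ring

/-- second criterion: the potential `|ρ|² (1 - Im A)` does not increase -/
theorem rho_pot {g τ : ℂ} {m0 : ℕ} {bm : ℝ} (hbm : bm ≤ 2 / 5)
    (htr : 0 ≤ τ.re) (htr' : τ.re ≤ 1 / 4) (hti : 0 ≤ τ.im) (hti' : τ.im ≤ 1 / 4)
    (hg : normSq g ≤ 1 + τ.im - bm * τ.re)
    (hA : ∀ q, m0 ≤ q → 0 ≤ (powA τ q).re ∧ 0 ≤ (powA τ q).im ∧ (powA τ q).im ≤ bm) :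
    ∀ q, m0 ≤ q → normSq (sqR g τ q) * (1 - (powA τ q).im) ≤
      normSq (sqR g τ m0) * (1 - (powA τ m0).im) := by
  intro q hq
  induction q, hq using Nat.le_induction with
  | base => exact le_rfl
  | succ q hq ih =>
    refine le_trans ?_ ih
    obtain ⟨a1, a2, a3⟩ := hA q hq
    have n0 : 1 + powA τ q ≠ 0 := by
      intro h
      have := congrArg Complex.re h
      rw [Complex.add_re, Complex.one_re, Complex.zero_re] at this
      linarith
    have hn : 0 < normSq (1 + powA τ q) := normSq_pos.2 n0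
    have e0 : sqR g τ (q + 1) = g * sqR g τ q / (1 + powA τ q) := rfl
    have e1 : powA τ (q + 1) = (powA τ q + τ) / (1 + powA τ q) := rfl
    have e3 : normSq (1 + powA τ q) = (1 + (powA τ q).re) ^ 2 + (powA τ q).im ^ 2 := by
      rw [normSq_apply]
      simp only [Complex.add_re, Complex.add_im, Complex.one_re, Complex.one_im]
      ring
    have step := im_step (powA τ q) τ n0
    rw [e0, e1, normSq_div, normSq_mul]
    have key := pot_poly (s := 1 + (powA τ q).re) (by linarith) a2 a3 hbm htr htr' hti hti' rfl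
    have hb1 : 0 ≤ 1 - (powA τ q).im := by linarith
    have e4 : normSq g * normSq (sqR g τ q) / normSq (1 + powA τ q) *
        (1 - ((powA τ q + τ) / (1 + powA τ q)).im) =
        normSq (sqR g τ q) * (normSq g * (normSq (1 + powA τ q) *
          (1 - ((powA τ q + τ) / (1 + powA τ q)).im))) / normSq (1 + powA τ q) ^ 2 := by
      field_simp
    rw [e4, step, div_le_iff₀ (by positivity), mul_assoc]
    refine mul_le_mul_of_nonneg_left ?_ (normSq_nonneg _)
    rw [mul_comm (1 - (powA τ q).im), e3]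
    refine le_trans ?_ key
    by_cases hpos : 0 ≤ (1 + (powA τ q).re) ^ 2 + (powA τ q).im ^ 2 -
        (1 - τ.re) * (powA τ q).im - τ.im * (1 + (powA τ q).re)
    · exact mul_le_mul_of_nonneg_right hg hpos
    · exfalso
      apply hpos
      have h1 : (1 - τ.re) * (powA τ q).im ≤ (powA τ q).im := by nlinarith
      have h2 : τ.im * (1 + (powA τ q).re) ≤ 1 / 4 * (1 + (powA τ q).re) :=
        mul_le_mul_of_nonneg_right hti' (by linarith)
      nlinarith [sq_nonneg ((powA τ q).im)]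

/-- the bound from the potential -/
theorem rho_le2 {g τ : ℂ} {m0 : ℕ} {bm R0 : ℝ} (hR : 0 ≤ R0) (hbm : bm ≤ 2 / 5)
    (htr : 0 ≤ τ.re) (htr' : τ.re ≤ 1 / 4) (hti : 0 ≤ τ.im) (hti' : τ.im ≤ 1 / 4)
    (hg : normSq g ≤ 1 + τ.im - bm * τ.re)
    (hA : ∀ q, m0 ≤ q → 0 ≤ (powA τ q).re ∧ 0 ≤ (powA τ q).im ∧ (powA τ q).im ≤ bm)
    (h0 : normSq (sqR g τ m0) ≤ R0 ^ 2 * (1 - bm)) :
    ∀ q, m0 ≤ q → ‖sqR g τ q‖ ≤ R0 := by
  intro q hq
  have h1 := rho_pot hbm htr htr' hti hti' hg hA q hq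
  obtain ⟨a1, a2, a3⟩ := hA q hq
  obtain ⟨b1, b2, b3⟩ := hA m0 le_rfl
  have hs := normSq_nonneg (sqR g τ q)
  have hs0 := normSq_nonneg (sqR g τ m0)
  have h2 : normSq (sqR g τ q) * (1 - bm) ≤ R0 ^ 2 * (1 - bm) := by
    calc normSq (sqR g τ q) * (1 - bm) ≤ normSq (sqR g τ q) * (1 - (powA τ q).im) :=
          mul_le_mul_of_nonneg_left (by linarith) hs
      _ ≤ normSq (sqR g τ m0) * (1 - (powA τ m0).im) := h1
      _ ≤ normSq (sqR g τ m0) * 1 := mul_le_mul_of_nonneg_left (by linarith) hs0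
      _ ≤ R0 ^ 2 * (1 - bm) := by rw [mul_one]; exact h0
  have h3 : normSq (sqR g τ q) ≤ R0 ^ 2 := le_of_mul_le_mul_right h2 (by linarith)
  rw [normSq_eq_norm_sq] at h3
  exact (le_abs_self _).trans (abs_le_of_sq_le_sq h3 hR)

end Pool.Agent.Helper57.KNB
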