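import Pool.Agent.Helper57.KNB.KN11

/-!
Row KNB, part 12: one orientation of the B family as one test.
-/

set_option autoImplicit false
noncomputable section
namespace Pool.Agent.Helper57.KNB

open Pool.Agent.Helper6.MONO (sD SbP Nm Wm WBn fBW TB trB esB tauB omS kk zS TBs trBs esBs tauBs lamS
  RMb NRB_RMb_two zS_om zS_nx2 LNI_kk LNI_kk_symm)
open Pool.Agent.Helper90.C75 (e2 prS prQ prN sqR)
open Pool.Agent.Helper42.CH (powA)
open Pool.Agent.Helper21.SUP
open Pool.Agent.Helper86.C75 (Z)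
open Pool.Agent.Helper86.CX (Cx andB Hm ev mkH)
open Pool.Agent.Helper90.KMO (zv cz UU UU_pos)
open Pool.Agent.Helper32.C75 (InHull pt)
open Complex ComplexConjugate Matrix

/-! ### kernel side -/

section

variable {M PH : Type}

/-- inputs of one orientation in one cell: `λ`, `S` of the three states, `z`, `1 / z`,
`K = κ κ' κ''`, `L = κ² + κ'² + κ''² - 3`, approximate root, target forms, forms `E`, `X`, basis,
multipliers, sources, multipliers of the exact pairs, polygons of the tail with their bounds -/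
structure OI (M : Type) where
  l0 : M
  l1 : M
  l2 : M
  s0 : M
  s1 : M
  s2 : M
  z : M
  zi : M
  K : M
  L : M
  v : M
  k0 : H6 M
  k1 : H6 M
  k2 : H6 M
  e : H6 M
  x : H6 M
  b : F9 M
  le0 : LD M
  le1 : LD M
  le2 : LD M
  lx0 : LD M
  lx1 : LD M
  lx2 : LD M
  q0 : List (SrcT M)
  q2 : List (SrcT M)
  q1 : List (SrcT M)
  lq : List (LD M)
  tl : List (TP M)
  r0 : Nat
  pk : Nat

def trM (A : Ar M PH) (I : OI M) : M := A.add I.L (A.mul I.K I.zi)
def esM (A : Ar M PH) (I : OI M) : M := neg A (A.add I.L (A.mul I.K I.z))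
def wM (A : Ar M PH) (I : OI M) (C : St M) : F9 M :=
  smu9 A (A.mul (A.mul I.K (ce A)) I.zi) C.m210

/-- the tail -/
def chT (A : Ar M PH) (I : OI M) (H : HR PH) (P : F9 M) (FB : Fm M) : Bool :=
  andB (A.ok (piv I.pk P))
    (tPL A H (mkBR A I.pk I.x P FB) I.r0 (A.nb (A.inv (piv I.pk P))) I.tl)

def chO3 (A : Ar M PH) (I : OI M) (Tt : Sc M → M → M → Bool) (S : Sc M) (P : F9 M) (FB : Fm M)
    (H : HR PH) : Bool :=
  andB (tQ A H S.c S.g (Tt S) I.lq (c1 A) S.g) (chT A I H P FB)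
def chO2 (A : Ar M PH) (I : OI M) (Tt : Sc M → M → M → Bool) (S : Sc M) (P : F9 M) (FB : Fm M) :
    Bool :=
  chO3 A I Tt S P FB (mkHR A I.x I.e FB I.b)
def chO1 (A : Ar M PH) (I : OI M) (Tt : Sc M → M → M → Bool) (S : Sc M) (F : Fm M) : Bool :=
  chO2 A I Tt S F.p (bsF A F I.b)
def chO0 (A : Ar M PH) (I : OI M) (Tt : Sc M → M → M → Bool) (C : St M) (nu T E : M) : Bool :=
  andB (scOK A nu T E) (chO1 A I Tt (mkSc A nu T E) (mkFm A (mkSc A nu T E) (wM A I C)))

def chNu (A : Ar M PH) (I : OI M) (Tt : Sc M → M → M → Bool) (C : St M) (T E : M) : Bool :=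
  andB (A.ok (cubD A I.v T E)) (chO0 A I Tt C (nuM A I.v T E) T E)

/-- ONE ORIENTATION -/
def chO' (A : Ar M PH) (I : OI M) (Tt : Sc M → M → M → Bool) (C : St M) : Bool :=
  andB (A.ok (det9 A I.b))
    (andB (tOut A C I.k0 I.k1 I.k2 I.e I.x I.le0 I.le1 I.le2 I.lx0 I.lx1 I.lx2)
      (andB (tIn A C I.e I.q0 I.q2 I.q1) (chNu A I Tt C (trM A I) (esM A I))))
def chO (A : Ar M PH) (I : OI M) (Tt : Sc M → M → M → Bool) : Bool :=
  chO' A I Tt (mkSt A I.l0 I.l1 I.l2 I.s0 I.s1 I.s2 I.z)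

end

/-! ### the characteristic polynomial of the cycle of a state -/

section

variable {p q r : ℕ} {w : ℂ}

theorem WTs_ChW (hp : 3 ≤ p) (hq : 3 ≤ q) (hr : 3 ≤ r) {s : GS} (hs : DG s)
    (o0 : omS p q r s w ≠ 0) (o1 : omS p q r (nx s 2) w ≠ 0)
    (o2 : omS p q r (nx (nx s 2) 2) w ≠ 0) (hz : zS s w ≠ 0) :
    ChW (WTs p q r s w) (trBs p q r s w) (esBs p q r s w) := by
  have hs' := DG_nx s 2 hs
  have hs'' := DG_nx _ 2 hs'
  have z0 := zS_om o0
  have z1 := zS_om o1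
  have z2 := zS_om o2
  rw [zS_nx2 hs] at z1
  rw [zS_nx2 hs', zS_nx2 hs] at z2
  have k1 := (LNI_kk hp hq hr _ _ hs.1).1
  have k2 := (LNI_kk hp hq hr _ _ hs'.1).1
  have k3 := (LNI_kk hp hq hr _ _ hs''.1).1
  have n1 : nx s 2 = (s.2.1, s.2.2, s.1) := nx_even s 2 rfl
  have n2 : nx (nx s 2) 2 = (s.2.2, s.1, s.2.1) := by rw [nx_even _ 2 rfl, n1]
  unfold WTs trBs esBs gS sS
  generalize omS p q r s w = o at *
  generalize omS p q r (nx s 2) w = o' at *
  generalize omS p q r (nx (nx s 2) 2) w = o'' at *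
  unfold lamS at z0 z1 z2
  rw [n1] at z1
  rw [n2] at z2
  rw [n1] at k2
  rw [n2] at k3
  rw [n2, n1]
  obtain ⟨n, a, b⟩ := s
  simp only at *
  rw [LNI_kk_symm p q r b n, LNI_kk_symm p q r a n] at z1
  rw [LNI_kk_symm p q r b n, LNI_kk_symm p q r b a] at z2
  rw [LNI_kk_symm p q r b n] at k3
  rw [LNI_kk_symm p q r b n]
  generalize zS (n, a, b) w = z at *
  generalize kk p q r n a = k at *
  generalize kk p q r a b = h at *
  generalize kk p q r n b = h' at *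
  obtain ⟨c1, c2, c3⟩ := WT_coeff k1.ne' k2.ne' k3.ne' hz z0 z1 z2
  exact ⟨c1, c2, c3⟩

end

end Pool.Agent.Helper57.KNB
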