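import Pool.Agent.Helper57.KNB.KN1

/-!
Row KNB, part 2: the B family in the chart `v' = (v 0, v 1 / om, v 2 / om)`, where a run of two
letters is affine in the phase.
-/

set_option autoImplicit false
noncomputable section
namespace Pool.Agent.Helper57.KNB

open Pool.Agent.Helper6.MONO (SbP Nm Wm WBn fBW TB trB esB tauB omS kk zS TBs trBs esBs tauBs lamS
  RMb NRB_RMb_two zS_om zS_nx2 LNI_kk LNI_kk_symm)
open Pool.Agent.Helper90.C75 (e2 prS prQ prN sqR)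
open Pool.Agent.Helper42.CH (powA)
open Pool.Agent.Helper21.SUP
open Matrix

abbrev M3 := Matrix (Fin 3) (Fin 3) ℂ

/-- a run of two letters in the chart `v'`, without its scalar -/
def MT (G S : ℂ) : M3 := !![1, 1, 1; G, 1, -S; G - 1, 0, 0]

/-- `diag (1, o, o)` -/
def Dg (o : ℂ) : M3 := !![1, 0, 0; 0, o, 0; 0, 0, o]

theorem Dg_mul (o o' : ℂ) : Dg o * Dg o' = Dg (o * o') := by
  ext i j
  fin_cases i <;> fin_cases j <;> simp [Dg, Matrix.mul_apply, Fin.sum_univ_three]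

theorem Dg_one : Dg 1 = 1 := by
  ext i j
  fin_cases i <;> fin_cases j <;> simp [Dg]

theorem Dg_inv {o : ℂ} (h : o ≠ 0) : Dg o * Dg o⁻¹ = 1 := by
  rw [Dg_mul, mul_inv_cancel₀ h, Dg_one]

theorem Dg_inv' {o : ℂ} (h : o ≠ 0) : Dg o⁻¹ * Dg o = 1 := by
  rw [Dg_mul, inv_mul_cancel₀ h, Dg_one]

theorem Nm_MT {k : ℝ} {o : ℂ} (ho : o ≠ 0) (o' : ℂ) :
    Nm k o o' = (2 * o) • (Dg o' * (MT (2 * o)⁻¹ (SbP k) * Dg o⁻¹)) := by
  unfold Nm MT Dg
  ext i j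
  fin_cases i <;> fin_cases j <;>
    (simp [Matrix.mul_apply, Fin.sum_univ_three]
     try field_simp)

/-- the normalised cycle in the chart -/
def WT (K z G0 G1 G2 S0 S1 S2 : ℂ) : M3 := (K / (8 * z)) • (MT G2 S2 * (MT G1 S1 * MT G0 S0))

theorem WBn_WT {k h h' : ℝ} (hk : k ≠ 0) (hh : h ≠ 0) (hh' : h' ≠ 0) {z o o' o'' : ℂ} (hz : z ≠ 0)
    (h0 : o ≠ 0) (h1 : o' ≠ 0) (h2 : o'' ≠ 0) :
    WBn k h h' z o o' o'' = Dg o * WT (k * h * h' : ℂ) z (2 * o)⁻¹ (2 * o')⁻¹ (2 * o'')⁻¹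
      (SbP k) (SbP h) (SbP h') * Dg o⁻¹ := by
  have c1 : (k : ℂ) ≠ 0 := by exact_mod_cast hk
  have c2 : (h : ℂ) ≠ 0 := by exact_mod_cast hh
  have c3 : (h' : ℂ) ≠ 0 := by exact_mod_cast hh'
  unfold WBn Wm WT fBW
  rw [Nm_MT h0, Nm_MT h1, Nm_MT h2]
  simp only [Matrix.smul_mul, Matrix.mul_smul, smul_smul, Matrix.mul_assoc]
  have e1 : Dg o'⁻¹ * (Dg o' * (MT (2 * o)⁻¹ (SbP k) * Dg o⁻¹)) =
      MT (2 * o)⁻¹ (SbP k) * Dg o⁻¹ := by
    rw [← Matrix.mul_assoc (Dg o'⁻¹), Dg_inv' h1, Matrix.one_mul]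
  have e2 : ∀ X : M3, Dg o''⁻¹ * (Dg o'' * X) = X := by
    intro X
    rw [← Matrix.mul_assoc, Dg_inv' h2, Matrix.one_mul]
  rw [e1, e2]
  congr 1
  field_simp
  ring

/-! ### the family -/

/-- the family of a matrix with characteristic coefficients `T`, `E` -/
def TF (W : M3) (T E ν A ρ : ℂ) : M3 :=
  prS W ν (T - ν) (ν ^ 2 - T * ν + E) + A • prQ W ν (T - ν) (ν ^ 2 - T * ν + E) +
    ρ • prN W ν (T - ν) (ν ^ 2 - T * ν + E)

section conj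

variable {D Di W : M3}

theorem cj_mul (h : Di * D = 1) (X Y : M3) : (D * X * Di) * (D * Y * Di) = D * (X * Y) * Di := by
  have : D * X * Di * (D * Y * Di) = D * X * ((Di * D) * (Y * Di)) := by
    simp only [Matrix.mul_assoc]
  rw [this, h, Matrix.one_mul]
  simp only [Matrix.mul_assoc]

theorem cj_smul (c : ℂ) (X : M3) : c • (D * X * Di) = D * (c • X) * Di := by
  simp only [Matrix.mul_smul, Matrix.smul_mul]

theorem cj_add (X Y : M3) : D * X * Di + D * Y * Di = D * (X + Y) * Di := by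
  rw [Matrix.mul_add, Matrix.add_mul]

theorem cj_sub (X Y : M3) : D * X * Di - D * Y * Di = D * (X - Y) * Di := by
  rw [Matrix.mul_sub, Matrix.sub_mul]

theorem cj_one (h : D * Di = 1) : (1 : M3) = D * 1 * Di := by rw [Matrix.mul_one, h]

theorem prN_cj (h : Di * D = 1) (h' : D * Di = 1) (ν s d : ℂ) :
    prN (D * W * Di) ν s d = D * prN W ν s d * Di := by
  unfold prN
  rw [cj_mul h, cj_smul]
  conv_lhs => rw [cj_one h']
  rw [cj_smul, cj_sub, cj_add, cj_smul]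

theorem prQ_cj (h : Di * D = 1) (h' : D * Di = 1) (ν s d : ℂ) :
    prQ (D * W * Di) ν s d = D * prQ W ν s d * Di := by
  unfold prQ
  rw [prN_cj h h']
  conv_lhs => rw [cj_one h']
  rw [cj_sub]

theorem prS_cj (h : Di * D = 1) (h' : D * Di = 1) (ν s d : ℂ) :
    prS (D * W * Di) ν s d = D * prS W ν s d * Di := by
  unfold prS
  rw [prQ_cj h h', cj_mul h, cj_smul, cj_sub]

theorem TF_cj (h : Di * D = 1) (h' : D * Di = 1) (T E ν A ρ : ℂ) :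
    TF (D * W * Di) T E ν A ρ = D * TF W T E ν A ρ * Di := by
  unfold TF
  rw [prS_cj h h', prQ_cj h h', prN_cj h h', cj_smul, cj_smul, cj_add, cj_add]

end conj

theorem TB_TF {k h h' : ℝ} (hk : k ≠ 0) (hh : h ≠ 0) (hh' : h' ≠ 0) {z o o' o'' : ℂ} (hz : z ≠ 0)
    (h0 : o ≠ 0) (h1 : o' ≠ 0) (h2 : o'' ≠ 0) (ν A ρ : ℂ) :
    TB k h h' z o o' o'' ν A ρ = Dg o * TF (WT (k * h * h' : ℂ) z (2 * o)⁻¹ (2 * o')⁻¹ (2 * o'')⁻¹
      (SbP k) (SbP h) (SbP h')) (trB k h h' z) (esB k h h' z) ν A ρ * Dg o⁻¹ := by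
  unfold TB
  rw [WBn_WT hk hh hh' hz h0 h1 h2]
  exact TF_cj (Dg_inv' h0) (Dg_inv h0) _ _ _ _ _

/-- the family as `F₀ + A F₁ + ρ F₂`, `F₀ = (2 / s) (W - ν P) - (1 - P)` -/
theorem prS_eq {W : M3} {ν s d : ℂ} (h : W * prN W ν s d = ν • prN W ν s d) :
    prS W ν s d = (2 / s) • (W - ν • prN W ν s d) - (1 - prN W ν s d) := by
  unfold prS prQ
  rw [Matrix.mul_sub, Matrix.mul_one, h]

end Pool.Agent.Helper57.KNB
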