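import Pool.Agent.Helper57.KNB.KN2

/-!
Row KNB, part 3: all powers of the run of two letters at the states of one B cycle, from
inequalities between Hermitian forms at one point.
-/

set_option autoImplicit false
noncomputable section
namespace Pool.Agent.Helper57.KNB

open Pool.Agent.Helper6.MONO (sD SbP Nm Wm WBn fBW TB trB esB tauB omS kk zS TBs trBs esBs tauBs lamS
  RMb NRB_RMb_two zS_om zS_nx2 LNI_kk LNI_kk_symm)
open Pool.Agent.Helper90.C75 (e2 prS prQ prN sqR)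
open Pool.Agent.Helper42.CH (powA)
open Pool.Agent.Helper86.CX (Hm ev)
open Pool.Agent.Helper21.SUP
open Pool.Agent.Helper39.SLT (fam_B swB_0 swB_1 swB_2 ExB)
open Matrix Complex

/-- the positive cone of a form -/
def Pos (K : Hm ℝ) : Set (Fin 3 → ℂ) := {v | 0 < ev K v}

theorem Pos.smul {K : Hm ℝ} {c : ℂ} {v : Fin 3 → ℂ} (hc : c ≠ 0) (h : v ∈ Pos K) :
    c • v ∈ Pos K := by
  show 0 < ev K (c • v)
  rw [ev_smul]
  exact mul_pos (normSq_pos.2 hc) h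

theorem Pos.of_smul {K : Hm ℝ} {c : ℂ} {v : Fin 3 → ℂ} (hc : c ≠ 0) (h : c • v ∈ Pos K) :
    v ∈ Pos K := by
  have h1 := Pos.smul (inv_ne_zero hc) h
  rwa [smul_smul, inv_mul_cancel₀ hc, one_smul] at h1

/-- the order of forms: `F` maps the cone of `K` into the cone of `L` -/
def Le (K L : Hm ℝ) (F : M3) : Prop := ∃ lam : ℝ, 0 < lam ∧ ∀ v, lam * ev K v ≤ ev L (F.mulVec v)

theorem Le.pos {K L : Hm ℝ} {F : M3} (h : Le K L F) {v : Fin 3 → ℂ} (hv : v ∈ Pos K) :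
    F.mulVec v ∈ Pos L := by
  obtain ⟨lam, h1, h2⟩ := h
  exact lt_of_lt_of_le (mul_pos h1 hv) (h2 v)

/-- `diag (2 G, 1, 1)` -/
def Dl (G : ℂ) : M3 := !![2 * G, 0, 0; 0, 1, 0; 0, 0, 1]

theorem Dg_Dl {o : ℂ} (h : o ≠ 0) : Dg o = o • Dl (2 * o)⁻¹ := by
  ext i j
  fin_cases i <;> fin_cases j <;> (simp [Dg, Dl]; try field_simp)

theorem Dg_Dl' {o : ℂ} (h : o ≠ 0) : Dg o⁻¹ = Dg (2 * (2 * o)⁻¹) := by
  congr 1
  field_simp

/-- the data of a B cycle at a point: `G`, `S` of the three states, forms `E`, `X` in the chart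
`v'` of the base state, target forms `K` in the plain charts -/
structure BFam (G0 G1 G2 S0 S1 S2 : ℂ) (E X K0 K1 K2 : Hm ℝ) : Prop where
  x0 : Le X K0 (Dl G0)
  x1 : Le X K1 (Dl G1 * MT G0 S0)
  x2 : Le X K2 (Dl G2 * (MT G1 S1 * MT G0 S0))
  e0 : Le E K0 (Dl G0)
  e1 : Le E K1 (Dl G1 * MT G0 S0)
  e2 : Le E K2 (Dl G2 * (MT G1 S1 * MT G0 S0))

section

variable {p q r : ℕ} {w : ℂ}

/-- one run in the chart -/
theorem run_chart (hp : 3 ≤ p) (hq : 3 ≤ q) (hr : 3 ≤ r) {s : GS} (hs : DG s)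
    (ho : omS p q r s w ≠ 0) : ∃ c : ℂ, c ≠ 0 ∧ RMb p q r s 2 w = c • (Dg (omS p q r (nx s 2) w) *
      (MT (2 * omS p q r s w)⁻¹ (SbP (kk p q r s.1 s.2.1)) * Dg (omS p q r s w)⁻¹)) := by
  have k1 := (LNI_kk hp hq hr _ _ hs.1).1
  refine ⟨(1 + 2 / (kk p q r s.1 s.2.1 : ℂ)) * (2 * omS p q r s w), ?_, ?_⟩
  · refine mul_ne_zero ?_ (mul_ne_zero two_ne_zero ho)
    have : (0 : ℝ) < 1 + 2 / kk p q r s.1 s.2.1 := by positivity
    exact_mod_cast this.ne'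
  · rw [NRB_RMb_two hp hq hr hs, Nm_MT ho, smul_smul]

theorem Dg_cancel {o : ℂ} (h : o ≠ 0) (v : Fin 3 → ℂ) :
    (Dg o⁻¹).mulVec ((Dg o).mulVec v) = v := by
  rw [mulVec_mulVec, Dg_inv' h, one_mulVec]

/-- the set of the family in the plain chart -/
def CS (E : Hm ℝ) (o : ℂ) : Set (Fin 3 → ℂ) := {v | (Dg o⁻¹).mulVec v ∈ Pos E}

theorem CS.smul {E : Hm ℝ} {o : ℂ} {c : ℂ} {v : Fin 3 → ℂ} (hc : c ≠ 0) (h : v ∈ CS E o) :
    c • v ∈ CS E o := by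
  show (Dg o⁻¹).mulVec (c • v) ∈ Pos E
  rw [mulVec_smul]
  exact Pos.smul hc h

/-- the hypotheses at the point -/
structure BPt (p q r : ℕ) (s0 : GS) (w ν : ℂ) : Prop where
  hs0 : DG s0
  o0 : omS p q r s0 w ≠ 0
  o1 : omS p q r (nx s0 2) w ≠ 0
  o2 : omS p q r (nx (nx s0 2) 2) w ≠ 0
  hz : zS s0 w ≠ 0
  hν : ν ^ 3 - trBs p q r s0 w * ν ^ 2 + esBs p q r s0 w * ν + 1 = 0
  hsp : trBs p q r s0 w ≠ ν
  hD : 3 * ν ^ 2 - 2 * trBs p q r s0 w * ν + esBs p q r s0 w ≠ 0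
  hrr : ∀ q', 1 + powA (tauBs p q r s0 w ν) q' ≠ 0

/-- `G` of a state -/
def gS (p q r : ℕ) (s : GS) (w : ℂ) : ℂ := (2 * omS p q r s w)⁻¹

/-- `S` of a state -/
def sS (p q r : ℕ) (s : GS) : ℂ := (SbP (kk p q r s.1 s.2.1) : ℂ)

/-- the normalised cycle of a state in the chart -/
def WTs (p q r : ℕ) (s : GS) (w : ℂ) : M3 :=
  WT (kk p q r s.1 s.2.1 * kk p q r s.2.1 s.2.2 * kk p q r s.1 s.2.2 : ℂ) (zS s w)
    (gS p q r s w) (gS p q r (nx s 2) w) (gS p q r (nx (nx s 2) 2) w)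
    (sS p q r s) (sS p q r (nx s 2)) (sS p q r (nx (nx s 2) 2))

theorem TBs_TF (hp : 3 ≤ p) (hq : 3 ≤ q) (hr : 3 ≤ r) {s0 : GS} {ν : ℂ} (h : BPt p q r s0 w ν)
    (A ρ : ℂ) :
    TBs p q r s0 w ν A ρ = Dg (omS p q r s0 w) * TF (WTs p q r s0 w) (trBs p q r s0 w)
      (esBs p q r s0 w) ν A ρ * Dg (omS p q r s0 w)⁻¹ := by
  have hs' := DG_nx s0 2 h.hs0
  have hs'' := DG_nx _ 2 hs'
  have k1 := (LNI_kk hp hq hr _ _ h.hs0.1).1
  have k2 := (LNI_kk hp hq hr _ _ hs'.1).1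
  have k3 := (LNI_kk hp hq hr _ _ hs''.1).1
  have n1 : nx s0 2 = (s0.2.1, s0.2.2, s0.1) := nx_even s0 2 rfl
  have n2 : nx (nx s0 2) 2 = (s0.2.2, s0.1, s0.2.1) := by rw [nx_even _ 2 rfl, n1]
  have k2' : 0 < kk p q r s0.2.1 s0.2.2 := by rw [n1] at k2; exact k2
  have k3' : 0 < kk p q r s0.1 s0.2.2 := by
    rw [n2] at k3
    have : kk p q r s0.1 s0.2.2 = kk p q r s0.2.2 s0.1 := LNI_kk_symm p q r _ _
    rw [this]; exact k3
  have e1 : sS p q r (nx s0 2) = (SbP (kk p q r s0.2.1 s0.2.2) : ℂ) := by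
    unfold sS; rw [n1]
  have e2 : sS p q r (nx (nx s0 2) 2) = (SbP (kk p q r s0.1 s0.2.2) : ℂ) := by
    unfold sS; rw [n2]
    show (SbP (kk p q r s0.2.2 s0.1) : ℂ) = _
    rw [LNI_kk_symm p q r s0.2.2 s0.1]
  unfold TBs
  rw [TB_TF k1.ne' k2'.ne' k3'.ne' h.hz h.o0 h.o1 h.o2]
  unfold WTs
  rw [e1, e2]
  rfl

/-- THE FAMILY in the plain chart -/
theorem bfam (hp : 3 ≤ p) (hq : 3 ≤ q) (hr : 3 ≤ r) {s0 : GS} {ν : ℂ} (h : BPt p q r s0 w ν)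
    {E X : Hm ℝ}
    (fam : ∀ m : ℕ, Le E X (TF (WTs p q r s0 w) (trBs p q r s0 w) (esBs p q r s0 w) ν
      (powA (tauBs p q r s0 w ν) m)
      (sqR (2 * ν / (trBs p q r s0 w - ν)) (tauBs p q r s0 w ν) m))) :
    ∀ n : ℕ, ∀ v ∈ CS E (omS p q r s0 w),
      (gM (RMb p q r) s0 (List.replicate 3 2) w ^ (n + 1)).mulVec v ∈ CS X (omS p q r s0 w) := by
  refine fam_B hp hq hr h.hs0 h.o0 h.o1 h.o2 h.hz h.hν h.hsp h.hD h.hrr (J := 0)
    (fun _ => {d | ∃ m, d = (powA (tauBs p q r s0 w ν) m,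
      sqR (2 * ν / (trBs p q r s0 w - ν)) (tauBs p q r s0 w ν) m)}) (fun m => ⟨m, rfl⟩)
    (fun c v hc hv => CS.smul hc hv) ?_
  rintro i - d ⟨m, rfl⟩ v hv
  show (Dg (omS p q r s0 w)⁻¹).mulVec ((TBs p q r s0 w ν _ _).mulVec v) ∈ Pos X
  rw [TBs_TF hp hq hr h, ← mulVec_mulVec, ← mulVec_mulVec, Dg_cancel h.o0]
  exact (fam m).pos hv

/-- leaving the chart -/
theorem leave {E K : Hm ℝ} {o : ℂ} (ho : o ≠ 0) {F : M3} (h : Le E K (Dl (2 * o)⁻¹ * F))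
    {v : Fin 3 → ℂ} (hv : v ∈ Pos E) : (Dg o * F).mulVec v ∈ Pos K := by
  rw [Dg_Dl ho, Matrix.smul_mul, smul_mulVec]
  exact Pos.smul ho (h.pos hv)

theorem chart_vec {o : ℂ} (ho : o ≠ 0) (v : Fin 3 → ℂ) : v = (Dg o).mulVec ((Dg o⁻¹).mulVec v) := by
  rw [mulVec_mulVec, Dg_inv ho, one_mulVec]

/-- two runs in the chart -/
theorem run2_chart (hp : 3 ≤ p) (hq : 3 ≤ q) (hr : 3 ≤ r) {s : GS} (hs : DG s)
    (ho : omS p q r s w ≠ 0) (ho' : omS p q r (nx s 2) w ≠ 0) : ∃ c : ℂ, c ≠ 0 ∧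
      RMb p q r (nx s 2) 2 w * RMb p q r s 2 w = c • (Dg (omS p q r (nx (nx s 2) 2) w) *
        (MT (gS p q r (nx s 2) w) (sS p q r (nx s 2)) * (MT (gS p q r s w) (sS p q r s) *
          Dg (omS p q r s w)⁻¹))) := by
  obtain ⟨c, hc, e⟩ := run_chart hp hq hr hs ho
  obtain ⟨c', hc', e'⟩ := run_chart hp hq hr (DG_nx s 2 hs) ho'
  refine ⟨c' * c, mul_ne_zero hc' hc, ?_⟩
  rw [e, e', Matrix.smul_mul, Matrix.mul_smul, smul_smul]
  congr 1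
  simp only [Matrix.mul_assoc]
  congr 2
  rw [← Matrix.mul_assoc (Dg (omS p q r (nx s 2) w)⁻¹), Dg_inv' ho', Matrix.one_mul]
  rfl

/-- from a set of the chart at the base state to the three target cones -/
structure BTgt (p q r : ℕ) (s0 : GS) (w : ℂ) (E : Hm ℝ) (Kt : GS → Hm ℝ) : Prop where
  t0 : Le E (Kt s0) (Dl (gS p q r s0 w))
  t1 : Le E (Kt (nx s0 2)) (Dl (gS p q r (nx s0 2) w) * MT (gS p q r s0 w) (sS p q r s0))
  t2 : Le E (Kt (nx (nx s0 2) 2)) (Dl (gS p q r (nx (nx s0 2) 2) w) *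
    (MT (gS p q r (nx s0 2) w) (sS p q r (nx s0 2)) * MT (gS p q r s0 w) (sS p q r s0)))

theorem BTgt.exB (hp : 3 ≤ p) (hq : 3 ≤ q) (hr : 3 ≤ r) {s0 : GS} {ν : ℂ} (h : BPt p q r s0 w ν)
    {E : Hm ℝ} {Kt : GS → Hm ℝ} (ht : BTgt p q r s0 w E Kt) :
    ExB (RMb p q r) w s0 (CS E (omS p q r s0 w)) (fun s => Pos (Kt s)) where
  x0 := by
    intro v hv
    have h1 := leave h.o0 (F := 1) (by rw [Matrix.mul_one]; exact ht.t0) hv
    rw [Matrix.mul_one, ← chart_vec h.o0] at h1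
    exact h1
  x1 := by
    intro v hv
    obtain ⟨c, hc, e⟩ := run_chart hp hq hr h.hs0 h.o0
    rw [e, smul_mulVec]
    refine Pos.smul hc ?_
    have h1 := leave h.o1 ht.t1 hv
    rw [mulVec_mulVec, Matrix.mul_assoc] at h1
    exact h1
  x2 := by
    intro v hv
    obtain ⟨c, hc, e⟩ := run2_chart hp hq hr h.hs0 h.o0 h.o1
    rw [e, smul_mulVec]
    refine Pos.smul hc ?_
    have h1 := leave h.o2 ht.t2 hv
    rw [mulVec_mulVec, Matrix.mul_assoc, Matrix.mul_assoc] at h1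
    exact h1

/-! ### the sources -/

/-- source at the base state -/
theorem b_src0 (hp : 3 ≤ p) (hq : 3 ≤ q) (hr : 3 ≤ r) {s0 : GS} {ν : ℂ} (h : BPt p q r s0 w ν)
    {E X : Hm ℝ} {Kt : GS → Hm ℝ} (hE : BTgt p q r s0 w E Kt) (hX : BTgt p q r s0 w X Kt)
    (fam : ∀ m : ℕ, Le E X (TF (WTs p q r s0 w) (trBs p q r s0 w) (esBs p q r s0 w) ν
      (powA (tauBs p q r s0 w ν) m)
      (sqR (2 * ν / (trBs p q r s0 w - ν)) (tauBs p q r s0 w ν) m)))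
    {K : Hm ℝ} (hK : Le K E (Dg (2 * gS p q r s0 w))) (k : ℕ) :
    ∀ v ∈ Pos K, (gM (RMb p q r) s0 (List.replicate (k + 1) 2) w).mulVec v ∈
      Pos (Kt (sD s0 (List.replicate (k + 1) 2))) := by
  have hent : ∀ v ∈ Pos K, v ∈ CS E (omS p q r s0 w) := by
    intro v hv
    show (Dg (omS p q r s0 w)⁻¹).mulVec v ∈ Pos E
    rw [Dg_Dl' h.o0]
    exact hK.pos hv
  have eX := hX.exB hp hq hr h
  have eE := hE.exB hp hq hr h
  exact swB_0 (T := fun s => Pos (Kt s)) (bfam hp hq hr h fam) hent eX.x0 eX.x1 eX.x2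
    (fun v hv => eE.x1 v (hent v hv)) (fun v hv => eE.x2 v (hent v hv)) k

/-- source one run before the base state -/
theorem b_src1 (hp : 3 ≤ p) (hq : 3 ≤ q) (hr : 3 ≤ r) {s0 : GS} {ν : ℂ} (h : BPt p q r s0 w ν)
    {E X : Hm ℝ} {Kt : GS → Hm ℝ} (hE : BTgt p q r s0 w E Kt) (hX : BTgt p q r s0 w X Kt)
    (fam : ∀ m : ℕ, Le E X (TF (WTs p q r s0 w) (trBs p q r s0 w) (esBs p q r s0 w) ν
      (powA (tauBs p q r s0 w ν) m)
      (sqR (2 * ν / (trBs p q r s0 w - ν)) (tauBs p q r s0 w ν) m)))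
    {K : Hm ℝ} (hK : Le K E (MT (gS p q r (nx (nx s0 2) 2) w) (sS p q r (nx (nx s0 2) 2)) *
      Dg (2 * gS p q r (nx (nx s0 2) 2) w))) (k : ℕ) :
    ∀ v ∈ Pos K, (gM (RMb p q r) (nx (nx s0 2) 2) (List.replicate (k + 1) 2) w).mulVec v ∈
      Pos (Kt (sD (nx (nx s0 2) 2) (List.replicate (k + 1) 2))) := by
  have e3 : nx (nx (nx s0 2) 2) 2 = s0 := nx_even3 s0 2 rfl
  have hs2 := DG_nx _ 2 (DG_nx _ 2 h.hs0)
  have hent : ∀ v ∈ Pos K, (RMb p q r (nx (nx s0 2) 2) 2 w).mulVec v ∈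
      CS E (omS p q r s0 w) := by
    intro v hv
    obtain ⟨c, hc, e⟩ := run_chart hp hq hr hs2 h.o2
    rw [e, e3, smul_mulVec]
    refine CS.smul hc ?_
    show (Dg (omS p q r s0 w)⁻¹).mulVec _ ∈ Pos E
    rw [← mulVec_mulVec, Dg_cancel h.o0, Dg_Dl' h.o2]
    exact hK.pos hv
  have eX := hX.exB hp hq hr h
  have eE := hE.exB hp hq hr h
  have hb := swB_1 (s := nx (nx s0 2) 2) (RM := RMb p q r) (w := w) (A0 := Pos K)
    (E := CS E (omS p q r s0 w)) (X := CS X (omS p q r s0 w)) (T := fun s => Pos (Kt s))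
  rw [e3] at hb
  refine hb (bfam hp hq hr h fam) hent eX ?_ ?_ ?_ k
  · exact fun v hv => eE.x0 _ (hent v hv)
  · intro v hv
    rw [← mulVec_mulVec]
    exact eE.x1 _ (hent v hv)
  · intro v hv
    have h1 := eE.x2 _ (hent v hv)
    rw [mulVec_mulVec, Matrix.mul_assoc] at h1
    exact h1

/-- source two runs before the base state; the single run from there is a direct test -/
theorem b_src2 (hp : 3 ≤ p) (hq : 3 ≤ q) (hr : 3 ≤ r) {s0 : GS} {ν : ℂ} (h : BPt p q r s0 w ν)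
    {E X : Hm ℝ} {Kt : GS → Hm ℝ} (hE : BTgt p q r s0 w E Kt) (hX : BTgt p q r s0 w X Kt)
    (fam : ∀ m : ℕ, Le E X (TF (WTs p q r s0 w) (trBs p q r s0 w) (esBs p q r s0 w) ν
      (powA (tauBs p q r s0 w ν) m)
      (sqR (2 * ν / (trBs p q r s0 w - ν)) (tauBs p q r s0 w ν) m)))
    {K : Hm ℝ} (hK : Le K E (MT (gS p q r (nx (nx s0 2) 2) w) (sS p q r (nx (nx s0 2) 2)) *
      (MT (gS p q r (nx s0 2) w) (sS p q r (nx s0 2)) * Dg (2 * gS p q r (nx s0 2) w))))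
    (hd : ∀ v ∈ Pos K, (RMb p q r (nx s0 2) 2 w).mulVec v ∈ Pos (Kt (nx (nx s0 2) 2))) (k : ℕ) :
    ∀ v ∈ Pos K, (gM (RMb p q r) (nx s0 2) (List.replicate (k + 1) 2) w).mulVec v ∈
      Pos (Kt (sD (nx s0 2) (List.replicate (k + 1) 2))) := by
  have e3 : nx (nx (nx s0 2) 2) 2 = s0 := nx_even3 s0 2 rfl
  have hs1 := DG_nx _ 2 h.hs0
  have hent : ∀ v ∈ Pos K, (RMb p q r (nx (nx s0 2) 2) 2 w * RMb p q r (nx s0 2) 2 w).mulVec v ∈
      CS E (omS p q r s0 w) := by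
    intro v hv
    obtain ⟨c, hc, e⟩ := run2_chart hp hq hr hs1 h.o1 h.o2
    rw [e, e3, smul_mulVec]
    refine CS.smul hc ?_
    show (Dg (omS p q r s0 w)⁻¹).mulVec _ ∈ Pos E
    rw [← mulVec_mulVec, Dg_cancel h.o0, Dg_Dl' h.o1]
    exact hK.pos hv
  have eX := hX.exB hp hq hr h
  have eE := hE.exB hp hq hr h
  have hb := swB_2 (s := nx s0 2) (RM := RMb p q r) (w := w) (A0 := Pos K)
    (E := CS E (omS p q r s0 w)) (X := CS X (omS p q r s0 w)) (T := fun s => Pos (Kt s))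
  rw [e3] at hb
  refine hb (bfam hp hq hr h fam) hent eX hd ?_ ?_ ?_ k
  · exact fun v hv => eE.x0 _ (hent v hv)
  · intro v hv
    rw [← mulVec_mulVec]
    exact eE.x1 _ (hent v hv)
  · intro v hv
    have h1 := eE.x2 _ (hent v hv)
    rw [mulVec_mulVec, Matrix.mul_assoc] at h1
    exact h1

end

end Pool.Agent.Helper57.KNB
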