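import Pool.Agent.Helper86.CX.Ker

/-!
Row KNB, part 4: kernel side of the B family, for any arithmetic of models (structure `Ar`).
Unit of all integers: `2 ^ (-48)`.
-/

set_option autoImplicit false
noncomputable section
namespace Pool.Agent.Helper57.KNB

open Pool.Agent.Helper86.C75 (Z)
open Pool.Agent.Helper86.CX (Cx andB)

/-- scales of the three basis vectors -/
structure D3 where
  x : Nat
  y : Nat
  z : Nat

/-- models of a Hermitian matrix -/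
structure H6 (M : Type) where
  a : M
  b : M
  c : M
  x : M
  y : M
  w : M

/-- models of a matrix, rows -/
structure F9 (M : Type) where
  a : M
  b : M
  c : M
  d : M
  e : M
  f : M
  g : M
  h : M
  i : M

/-- three models -/
structure V3m (M : Type) where
  x : M
  y : M
  z : M

/-- a real scalar times a Hermitian form (packed) -/
structure SH (M PH : Type) where
  s : M
  h : PH

/-- arithmetic of models; `PH` = packed Hermitian forms -/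
structure Ar (M PH : Type) where
  add : M → M → M
  sub : M → M → M
  mul : M → M → M
  cj : M → M
  re : M → M
  im : M → M
  inv : M → M
  ok : M → Bool
  cs : Cx → M
  wd : Nat → M → M
  nb : M → Nat
  rd : M → Nat
  ctl : M → List Cx
  dot : M → M → M → M → M → M → M
  pk : H6 M → PH
  lt : D3 → List (SH M PH) → Bool

variable {M PH : Type}

/-! ### constants -/

def zi0 : Z := Z.p (nat_lit 0)
def cR (A : Ar M PH) (x : Z) : M := A.cs ⟨x, zi0⟩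
def c1 (A : Ar M PH) : M := cR A (Z.p (nat_lit 281474976710656))
def cI (A : Ar M PH) : M := A.cs ⟨zi0, Z.p (nat_lit 281474976710656)⟩
def c0 (A : Ar M PH) : M := cR A zi0
/-- `8` -/
def c8 (A : Ar M PH) : M := cR A (Z.p (nat_lit 2251799813685248))
/-- `1 / 8` -/
def ce (A : Ar M PH) : M := cR A (Z.p (nat_lit 35184372088832))
/-- `3` -/
def c3 (A : Ar M PH) : M := cR A (Z.p (nat_lit 844424930131968))
/-- `4` -/
def c4 (A : Ar M PH) : M := cR A (Z.p (nat_lit 1125899906842624))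
def dbl (A : Ar M PH) (x : M) : M := A.add x x
def neg (A : Ar M PH) (x : M) : M := A.sub (c0 A) x

/-! ### matrices -/

/-- `x a + y b + z c` -/
def dt (A : Ar M PH) (x y z a b c : M) : M := A.dot x y z a b c

def mul9 (A : Ar M PH) (F G : F9 M) : F9 M :=
  ⟨dt A F.a F.b F.c G.a G.d G.g, dt A F.a F.b F.c G.b G.e G.h, dt A F.a F.b F.c G.c G.f G.i,
    dt A F.d F.e F.f G.a G.d G.g, dt A F.d F.e F.f G.b G.e G.h, dt A F.d F.e F.f G.c G.f G.i,
    dt A F.g F.h F.i G.a G.d G.g, dt A F.g F.h F.i G.b G.e G.h, dt A F.g F.h F.i G.c G.f G.i⟩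
def add9 (A : Ar M PH) (F G : F9 M) : F9 M :=
  ⟨A.add F.a G.a, A.add F.b G.b, A.add F.c G.c, A.add F.d G.d, A.add F.e G.e, A.add F.f G.f,
    A.add F.g G.g, A.add F.h G.h, A.add F.i G.i⟩
def sub9 (A : Ar M PH) (F G : F9 M) : F9 M :=
  ⟨A.sub F.a G.a, A.sub F.b G.b, A.sub F.c G.c, A.sub F.d G.d, A.sub F.e G.e, A.sub F.f G.f,
    A.sub F.g G.g, A.sub F.h G.h, A.sub F.i G.i⟩
def smu9 (A : Ar M PH) (c : M) (F : F9 M) : F9 M :=
  ⟨A.mul c F.a, A.mul c F.b, A.mul c F.c, A.mul c F.d, A.mul c F.e, A.mul c F.f,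
    A.mul c F.g, A.mul c F.h, A.mul c F.i⟩
/-- add a scalar matrix -/
def adI (A : Ar M PH) (c : M) (F : F9 M) : F9 M :=
  ⟨A.add F.a c, F.b, F.c, F.d, A.add F.e c, F.f, F.g, F.h, A.add F.i c⟩
/-- `c - F` -/
def Isb (A : Ar M PH) (c : M) (F : F9 M) : F9 M :=
  ⟨A.sub c F.a, neg A F.b, neg A F.c, neg A F.d, A.sub c F.e, neg A F.f, neg A F.g, neg A F.h,
    A.sub c F.i⟩
/-- `X F` for a Hermitian `X` -/
def XF2 (A : Ar M PH) (X : H6 M) (cx cy cw : M) (F : F9 M) : F9 M :=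
  mul9 A ⟨X.a, X.x, X.y, cx, X.b, X.w, cy, cw, X.c⟩ F
def XF (A : Ar M PH) (X : H6 M) (F : F9 M) : F9 M := XF2 A X (A.cj X.x) (A.cj X.y) (A.cj X.w) F
/-- conjugate transpose -/
def ct9 (A : Ar M PH) (F : F9 M) : F9 M :=
  ⟨A.cj F.a, A.cj F.d, A.cj F.g, A.cj F.b, A.cj F.e, A.cj F.h, A.cj F.c, A.cj F.f, A.cj F.i⟩
/-- upper part -/
def up (G : F9 M) : H6 M := ⟨G.a, G.e, G.i, G.b, G.c, G.f⟩
/-- `G + Gᴴ` -/
def her (A : Ar M PH) (G : F9 M) : H6 M :=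
  ⟨A.add G.a (A.cj G.a), A.add G.e (A.cj G.e), A.add G.i (A.cj G.i), A.add G.b (A.cj G.d),
    A.add G.c (A.cj G.g), A.add G.f (A.cj G.h)⟩
/-- `i G + (i G)ᴴ` -/
def skw (A : Ar M PH) (G : F9 M) : H6 M := her A (smu9 A (cI A) G)
/-- `Fᴴ Y`, for `Y = X F` -/
def cg2 (A : Ar M PH) (F Y : F9 M) : H6 M := up (mul9 A (ct9 A F) Y)
/-- the congruence `Fᴴ X F` -/
def cg (A : Ar M PH) (F : F9 M) (X : H6 M) : H6 M := cg2 A F (XF A X F)

/-! ### the run of two letters -/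

def MTm (A : Ar M PH) (G S : M) : F9 M :=
  ⟨c1 A, c1 A, c1 A, G, c1 A, neg A S, A.sub G (c1 A), c0 A, c0 A⟩
/-- `F diag (1, g, g)` -/
def rDg (A : Ar M PH) (F : F9 M) (g : M) : F9 M :=
  ⟨F.a, A.mul F.b g, A.mul F.c g, F.d, A.mul F.e g, A.mul F.f g, F.g, A.mul F.h g, A.mul F.i g⟩
/-- `diag (g, 1, 1) F` -/
def lDl (A : Ar M PH) (g : M) (F : F9 M) : F9 M :=
  ⟨A.mul g F.a, A.mul g F.b, A.mul g F.c, F.d, F.e, F.f, F.g, F.h, F.i⟩
def one9 (A : Ar M PH) : F9 M :=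
  ⟨c1 A, c0 A, c0 A, c0 A, c1 A, c0 A, c0 A, c0 A, c1 A⟩

/-- the three states of a cycle: `G`, `M`, products -/
structure St (M : Type) where
  g0 : M
  g1 : M
  g2 : M
  m0 : F9 M
  m1 : F9 M
  m2 : F9 M
  m10 : F9 M
  m21 : F9 M
  m210 : F9 M

def mkSt2 (A : Ar M PH) (g0 g1 g2 : M) (m0 m1 m2 m10 : F9 M) : St M :=
  ⟨dbl A g0, dbl A g1, dbl A g2, m0, m1, m2, m10, mul9 A m2 m1, mul9 A m2 m10⟩
def mkSt1 (A : Ar M PH) (g0 g1 g2 : M) (m0 m1 m2 : F9 M) : St M :=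
  mkSt2 A g0 g1 g2 m0 m1 m2 (mul9 A m1 m0)
def mkSt0 (A : Ar M PH) (g0 g1 g2 s0 s1 s2 : M) : St M :=
  mkSt1 A g0 g1 g2 (MTm A g0 s0) (MTm A g1 s1) (MTm A g2 s2)
/-- `G = 1 + λ z` -/
def mkSt (A : Ar M PH) (l0 l1 l2 s0 s1 s2 z : M) : St M :=
  mkSt0 A (A.add (c1 A) (A.mul l0 z)) (A.add (c1 A) (A.mul l1 z)) (A.add (c1 A) (A.mul l2 z))
    s0 s1 s2

/-! ### entry and exit tests: `Fᴴ K F - lam L ≥ 0` -/

def tLe (A : Ar M PH) (d : D3) (P L : PH) (lam : M) : Bool :=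
  A.lt d [⟨c1 A, P⟩, ⟨neg A lam, L⟩]

/-- a multiplier with its scales -/
structure LD (M : Type) where
  l : M
  d : D3

/-- the three targets for the form `E` -/
def tTgt (A : Ar M PH) (P0 P1 P2 E : PH) (l0 l1 l2 : LD M) : Bool :=
  andB (tLe A l0.d P0 E l0.l) (andB (tLe A l1.d P1 E l1.l) (tLe A l2.d P2 E l2.l))

/-- a source form with its multiplier -/
structure SrcT (M : Type) where
  k : H6 M
  l : LD M

def tSrc (A : Ar M PH) (P : PH) (l : List (SrcT M)) : Bool :=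
  List.rec (motive := fun _ => Bool) true
    (fun x _ ih => andB (tLe A x.l.d P (A.pk x.k) x.l.l) ih) l

def tTgt2 (A : Ar M PH) (P0 P1 P2 E X : PH) (le0 le1 le2 lx0 lx1 lx2 : LD M) : Bool :=
  andB (tTgt A P0 P1 P2 E le0 le1 le2) (tTgt A P0 P1 P2 X lx0 lx1 lx2)

/-- `K0 K1 K2`: target forms -/
def tOut (A : Ar M PH) (C : St M) (K0 K1 K2 E X : H6 M) (le0 le1 le2 lx0 lx1 lx2 : LD M) : Bool :=
  tTgt2 A (A.pk (cg A (lDl A C.g0 (one9 A)) K0)) (A.pk (cg A (lDl A C.g1 C.m0) K1))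
    (A.pk (cg A (lDl A C.g2 C.m10) K2)) (A.pk E) (A.pk X) le0 le1 le2 lx0 lx1 lx2
/-- sources at `s0`, at `s2` (one run), at `s1` (two runs) -/
def tIn (A : Ar M PH) (C : St M) (E : H6 M) (q0 q2 q1 : List (SrcT M)) : Bool :=
  andB (tSrc A (A.pk (cg A (rDg A (one9 A) C.g0) E)) q0)
    (andB (tSrc A (A.pk (cg A (rDg A C.m2 C.g2) E)) q2)
      (tSrc A (A.pk (cg A (rDg A C.m21 C.g1) E)) q1))

end Pool.Agent.Helper57.KNB
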