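import Pool.Agent.Helper57.KNB.KN6

/-!
Row KNB, part 7: soundness of the scalars and of the three matrices of the family.
-/

set_option autoImplicit false
noncomputable section
namespace Pool.Agent.Helper57.KNB

open Pool.Agent.Helper6.MONO (SbP Nm Wm WBn fBW TB trB esB tauB omS kk zS TBs trBs esBs tauBs lamS
  RMb NRB_RMb_two zS_om zS_nx2 LNI_kk LNI_kk_symm WBn_coeff)
open Pool.Agent.Helper90.C75 (e2 prS prQ prN sqR cub_near pr_rel cay3_root cub_der)
open Pool.Agent.Helper90.NRB (adN adN_eq)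
open Pool.Agent.Helper42.CH (powA)
open Pool.Agent.Helper21.SUP
open Pool.Agent.Helper86.C75 (Z)
open Pool.Agent.Helper86.CX (Cx andB Hm ev mkH)
open Pool.Agent.Helper90.KMO (zv cz UU UU_pos)
open Complex ComplexConjugate Matrix

variable {M PH : Type} {A : Ar M PH} {OK : ℂ → M → Prop} {HK : Hm ℝ → PH → Prop}

/-! ### the simple eigenvalue -/

theorem cub_ok (hA : ArS A OK HK) {v T E : ℂ} {v' T' E' : M} (hv : OK v v') (hT : OK T T')
    (hE : OK E E') : OK (v ^ 3 + (-T) * v ^ 2 + E * v + 1) (cub A v' T' E') :=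
  okE (hA.add (hA.mul (hA.add (hA.mul (hA.sub hv hT) hv) hE) hv) (ok1 hA)) (by ring)

theorem cubD_ok (hA : ArS A OK HK) {v T E : ℂ} {v' T' E' : M} (hv : OK v v') (hT : OK T T')
    (hE : OK E E') : OK (3 * v ^ 2 + 2 * (-T) * v + E) (cubD A v' T' E') :=
  okE (hA.add (hA.mul (hA.sub (hA.add hv (okD hA hv)) (okD hA hT)) hv) hE) (by ring)

theorem nmul (a b : ℕ) : ((Nat.mul a b : ℕ) : ℝ) = a * b := by
  show ((a * b : ℕ) : ℝ) = _
  push_cast; rfl

theorem nadd (a b : ℕ) : ((Nat.add a b : ℕ) : ℝ) = a + b := by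
  show ((a + b : ℕ) : ℝ) = _
  push_cast; rfl

theorem ndivU (a : ℕ) : (a : ℝ) / UU ≤ (Nat.div a (nat_lit 281474976710656) : ℕ) + 1 := by
  have h2 : a < (a / 281474976710656 + 1) * 281474976710656 := by
    have := Nat.lt_div_mul_add (a := a) (b := 281474976710656) (by norm_num)
    linarith
  have h2' : (a : ℝ) < (((a / 281474976710656 : ℕ) : ℝ) + 1) * 281474976710656 := by
    exact_mod_cast h2
  unfold UU
  rw [div_le_iff₀ (by norm_num)]
  exact h2'.le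

/-- THE ROOT near the data -/
theorem nuM_sound (hA : ArS A OK HK) {v T E : ℂ} {v' T' E' : M} (hv : OK v v') (hT : OK T T')
    (hE : OK E E') (h : A.ok (cubD A v' T' E') = true) :
    ∃ ν : ℂ, ν ^ 3 - T * ν ^ 2 + E * ν + 1 = 0 ∧ OK ν (nuM A v' T' E') := by
  have hF := cub_ok hA hv hT hE
  have hD := cubD_ok hA hv hT hE
  obtain ⟨hD0, hDi⟩ := hA.inv hD h
  have n1 := hA.nb hF
  have n2 := hA.nb hDi
  set F := v ^ 3 + (-T) * v ^ 2 + E * v + 1 with hFd
  set D := 3 * v ^ 2 + 2 * (-T) * v + E with hDd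
  have hU := UU_pos
  set R : ℕ := nuR A v' T' E' with hR
  have hRle : 3 * (‖F‖ * UU) * (‖D⁻¹‖ * UU) / UU ≤ R := by
    have e : ((R : ℕ) : ℝ) = (Nat.div (Nat.mul (nat_lit 3) (Nat.mul (A.nb (cub A v' T' E'))
        (A.nb (A.inv (cubD A v' T' E'))))) (nat_lit 281474976710656) : ℕ) + 1 := by
      rw [hR]
      unfold nuR
      rw [nadd]
      norm_num
    rw [e]
    refine le_trans ?_ (ndivU _)
    rw [nmul, nmul]
    apply div_le_div_of_nonneg_right _ hU.le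
    have h3 : (‖F‖ * UU) * (‖D⁻¹‖ * UU) ≤ (A.nb (cub A v' T' E') : ℝ) *
        A.nb (A.inv (cubD A v' T' E')) :=
      mul_le_mul n1 n2 (mul_nonneg (norm_nonneg _) hU.le) (Nat.cast_nonneg _)
    have : ((nat_lit 3 : ℕ) : ℝ) = 3 := by norm_num
    rw [this]
    nlinarith
  have hle : 3 * ‖F‖ ≤ (R / UU) * ‖D‖ := by
    have hDn : 0 < ‖D‖ := norm_pos_iff.2 hD0
    have e1 : 3 * (‖F‖ * UU) * (‖D⁻¹‖ * UU) / UU = 3 * ‖F‖ * UU / ‖D‖ := by
      rw [norm_inv]
      field_simp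
    rw [e1, div_le_iff₀ hDn] at hRle
    rw [div_mul_eq_mul_div, le_div_iff₀ hU]
    exact hRle
  obtain ⟨ν, h1, h2⟩ := cub_near (-T) E 1 v (R / UU) hle hD0
  refine ⟨ν, by linear_combination h1, hA.wd hv ?_⟩
  rw [norm_sub_rev, ← le_div_iff₀ hU]
  exact h2

/-- models of the scalars -/
structure ScK (OK : ℂ → M → Prop) (ν T E : ℂ) (S : Sc M) : Prop where
  nu : OK ν S.nu
  s : OK (T - ν) S.s
  is : OK (T - ν)⁻¹ S.is
  d : OK (ν ^ 2 - T * ν + E) S.d
  ic : OK (3 * ν ^ 2 - 2 * T * ν + E)⁻¹ S.ic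
  c : OK (4 * (ν ^ 2 - T * ν + E) / (T - ν) ^ 2) S.c
  g : OK (2 * ν / (T - ν)) S.g

theorem ScK.mk' (hA : ArS A OK HK) {ν T E : ℂ} {v' T' E' : M} (hv : OK ν v') (hT : OK T T')
    (hE : OK E E') (h : scOK A v' T' E' = true) :
    T ≠ ν ∧ 3 * ν ^ 2 - 2 * T * ν + E ≠ 0 ∧ ScK OK ν T E (mkSc A v' T' E') := by
  obtain ⟨h1, h2⟩ := andBt h
  have hs := hA.sub hT hv
  obtain ⟨s0, hsi⟩ := hA.inv hs h1
  obtain ⟨d0, hdi⟩ := hA.inv (cubD_ok hA hv hT hE) h2
  have e : 3 * ν ^ 2 + 2 * (-T) * ν + E = 3 * ν ^ 2 - 2 * T * ν + E := by ring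
  rw [e] at d0 hdi
  have hd : OK (ν ^ 2 - T * ν + E) (A.sub E' (A.mul v' (A.sub T' v'))) :=
    okE (hA.sub hE (hA.mul hv hs)) (by ring)
  refine ⟨fun h0 => s0 (by rw [h0, sub_self]), d0, ⟨hv, hs, hsi, hd, hdi, ?_, ?_⟩⟩
  · refine okE (hA.mul (hA.mul (ok4 hA) hd) (hA.mul hsi hsi)) ?_
    field_simp
  · refine okE (hA.mul (okD hA hv) hsi) ?_
    field_simp

/-! ### the characteristic polynomial in the chart -/

theorem Dg_entry (o : ℂ) (W : M3) (i j : Fin 3) : (Dg o * W * Dg o⁻¹) i j =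
    (if i = 0 then 1 else o) * W i j * (if j = 0 then 1 else o⁻¹) := by
  rw [Matrix.mul_apply, Fin.sum_univ_three]
  simp only [Matrix.mul_apply, Fin.sum_univ_three]
  fin_cases i <;> fin_cases j <;> simp [Dg]

theorem Dg_e2 {o : ℂ} (h : o ≠ 0) (W : M3) : e2 (Dg o * W * Dg o⁻¹) = e2 W := by
  unfold e2
  simp only [Dg_entry]
  simp
  field_simp

theorem Dg_trace {o : ℂ} (h : o ≠ 0) (W : M3) : (Dg o * W * Dg o⁻¹).trace = W.trace := by
  rw [Matrix.trace_mul_cycle, Dg_inv' h, Matrix.one_mul]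

theorem Dg_det {o : ℂ} (h : o ≠ 0) (W : M3) : (Dg o * W * Dg o⁻¹).det = W.det := by
  have h1 : (Dg o).det * (Dg o⁻¹).det = 1 := by
    rw [← Matrix.det_mul, Dg_inv h, Matrix.det_one]
  rw [Matrix.det_mul, Matrix.det_mul]
  linear_combination W.det * h1

/-- `trace`, `e2`, `det` of the cycle in the chart -/
theorem WT_coeff {k h h' : ℝ} {z o o' o'' : ℂ} (hk : k ≠ 0) (hh : h ≠ 0) (hh' : h' ≠ 0)
    (hz : z ≠ 0)
    (ho : 2 * (1 + (2 * h / (k * h') : ℝ) * z) * o = 1)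
    (ho' : 2 * (1 + (2 * h' / (h * k) : ℝ) * z) * o' = 1)
    (ho'' : 2 * (1 + (2 * k / (h' * h) : ℝ) * z) * o'' = 1) :
    (WT (k * h * h' : ℂ) z (2 * o)⁻¹ (2 * o')⁻¹ (2 * o'')⁻¹ (SbP k) (SbP h) (SbP h')).trace =
        trB k h h' z ∧
      e2 (WT (k * h * h' : ℂ) z (2 * o)⁻¹ (2 * o')⁻¹ (2 * o'')⁻¹ (SbP k) (SbP h) (SbP h')) =
        esB k h h' z ∧
      (WT (k * h * h' : ℂ) z (2 * o)⁻¹ (2 * o')⁻¹ (2 * o'')⁻¹ (SbP k) (SbP h) (SbP h')).det =
        -1 := by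
  have o0 := Pool.Agent.Helper6.MONO.ne_of_frac ho
  have o1 := Pool.Agent.Helper6.MONO.ne_of_frac ho'
  have o2 := Pool.Agent.Helper6.MONO.ne_of_frac ho''
  obtain ⟨c1, c2, c3⟩ := WBn_coeff hk hh hh' hz ho ho' ho''
  rw [WBn_WT hk hh hh' hz o0 o1 o2] at c1 c2 c3
  rw [Dg_trace o0] at c1
  rw [Dg_e2 o0] at c2
  rw [Dg_det o0] at c3
  exact ⟨c1, c2, c3⟩

/-! ### the three matrices -/

/-- what is needed of the matrix `W`: coefficients of its characteristic polynomial -/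
structure ChW (W : M3) (T E : ℂ) : Prop where
  t : W.trace = T
  e : e2 W = E
  d : W.det = -1

theorem ChW.rel {W : M3} {T E ν : ℂ} (h : ChW W T E) (hν : ν ^ 3 - T * ν ^ 2 + E * ν + 1 = 0)
    (hs : T ≠ ν) (hD : 3 * ν ^ 2 - 2 * T * ν + E ≠ 0) :
    W * prN W ν (T - ν) (ν ^ 2 - T * ν + E) = ν • prN W ν (T - ν) (ν ^ 2 - T * ν + E) := by
  have hmin := cay3_root W ν (by rw [h.t, h.e, h.d]; linear_combination hν)
  rw [h.t, h.e] at hmin
  exact (pr_rel (sub_ne_zero.2 hs) (by rw [cub_der]; exact hD) hmin).1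

/-- models of the family -/
structure FmK (OK : ℂ → M → Prop) (N Q P : M3) (F : Fm M) : Prop where
  n : FOK OK N F.n
  q : FOK OK Q F.q
  p : FOK OK P F.p

theorem FmK.mk' (hA : ArS A OK HK) {W : M3} {T E ν : ℂ} (h : ChW W T E)
    (hν : ν ^ 3 - T * ν ^ 2 + E * ν + 1 = 0) (hs : T ≠ ν)
    (hD : 3 * ν ^ 2 - 2 * T * ν + E ≠ 0) {S : Sc M} (hS : ScK OK ν T E S) {w : F9 M}
    (hW : FOK OK W w) :
    FmK OK (prS W ν (T - ν) (ν ^ 2 - T * ν + E)) (prQ W ν (T - ν) (ν ^ 2 - T * ν + E))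
      (prN W ν (T - ν) (ν ^ 2 - T * ν + E)) (mkFm A S w) := by
  have hP : FOK OK (prN W ν (T - ν) (ν ^ 2 - T * ν + E)) (mkP A S w) := by
    have h1 := FOK.smu9 hA hS.ic
      (FOK.adI hA hS.d (FOK.sub9 hA (FOK.mul9 hA hW hW) (FOK.smu9 hA hS.s hW)))
    have e : (3 * ν ^ 2 - 2 * T * ν + E)⁻¹ • (W * W - (T - ν) • W +
        (ν ^ 2 - T * ν + E) • (1 : M3)) = prN W ν (T - ν) (ν ^ 2 - T * ν + E) := by
      unfold prN
      rw [cub_der]
    rw [e] at h1
    exact h1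
  have hQ : FOK OK (prQ W ν (T - ν) (ν ^ 2 - T * ν + E)) (KNB.Isb A (c1 A) (mkP A S w)) := by
    have h1 := FOK.Isb hA (ok1 hA) hP
    rw [one_smul] at h1
    exact h1
  refine ⟨?_, hQ, hP⟩
  have h1 := FOK.sub9 hA (FOK.smu9 hA (okD hA hS.is) (FOK.sub9 hA hW (FOK.smu9 hA hS.nu hP))) hQ
  rw [prS_eq (h.rel hν hs hD)]
  have e : (2 * (T - ν)⁻¹) = 2 / (T - ν) := by rw [div_eq_mul_inv]
  rw [e] at h1
  exact h1

/-! ### rank one -/

theorem adN_minor (W : M3) (ν : ℂ) (hν : ν ^ 3 - W.trace * ν ^ 2 + e2 W * ν - W.det = 0)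
    (i j k l : Fin 3) : adN W ν i j * adN W ν k l = adN W ν i l * adN W ν k j := by
  have hd : ν ^ 3 - (W 0 0 + W 1 1 + W 2 2) * ν ^ 2 + (W 0 0 * W 1 1 - W 0 1 * W 1 0 +
      (W 1 1 * W 2 2 - W 1 2 * W 2 1) + (W 0 0 * W 2 2 - W 0 2 * W 2 0)) * ν -
      (W 0 0 * W 1 1 * W 2 2 - W 0 0 * W 1 2 * W 2 1 - W 0 1 * W 1 0 * W 2 2 +
        W 0 1 * W 1 2 * W 2 0 + W 0 2 * W 1 0 * W 2 1 - W 0 2 * W 1 1 * W 2 0) = 0 := by
    rw [Matrix.trace_fin_three, Matrix.det_fin_three] at hν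
    exact hν
  have c00 : adN W ν 0 0 = (ν - W 1 1) * (ν - W 2 2) - W 1 2 * W 2 1 := by rw [adN_eq]; rfl
  have c01 : adN W ν 0 1 = W 0 1 * (ν - W 2 2) + W 0 2 * W 2 1 := by rw [adN_eq]; rfl
  have c02 : adN W ν 0 2 = W 0 2 * (ν - W 1 1) + W 0 1 * W 1 2 := by rw [adN_eq]; rfl
  have c10 : adN W ν 1 0 = W 1 0 * (ν - W 2 2) + W 1 2 * W 2 0 := by rw [adN_eq]; rfl
  have c11 : adN W ν 1 1 = (ν - W 0 0) * (ν - W 2 2) - W 0 2 * W 2 0 := by rw [adN_eq]; rfl
  have c12 : adN W ν 1 2 = W 1 2 * (ν - W 0 0) + W 1 0 * W 0 2 := by rw [adN_eq]; rfl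
  have c20 : adN W ν 2 0 = W 2 0 * (ν - W 1 1) + W 2 1 * W 1 0 := by rw [adN_eq]; rfl
  have c21 : adN W ν 2 1 = W 2 1 * (ν - W 0 0) + W 2 0 * W 0 1 := by rw [adN_eq]; rfl
  have c22 : adN W ν 2 2 = (ν - W 0 0) * (ν - W 1 1) - W 0 1 * W 1 0 := by rw [adN_eq]; rfl
  have k01_01 : adN W ν 0 0 * adN W ν 1 1 = adN W ν 0 1 * adN W ν 1 0 := by
    rw [c00, c11, c01, c10]; linear_combination (ν - W 2 2) * hd
  have k01_02 : adN W ν 0 0 * adN W ν 1 2 = adN W ν 0 2 * adN W ν 1 0 := by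
    rw [c00, c12, c02, c10]; linear_combination (W 1 2) * hd
  have k01_12 : adN W ν 0 1 * adN W ν 1 2 = adN W ν 0 2 * adN W ν 1 1 := by
    rw [c01, c12, c02, c11]; linear_combination (-W 0 2) * hd
  have k02_01 : adN W ν 0 0 * adN W ν 2 1 = adN W ν 0 1 * adN W ν 2 0 := by
    rw [c00, c21, c01, c20]; linear_combination (W 2 1) * hd
  have k02_02 : adN W ν 0 0 * adN W ν 2 2 = adN W ν 0 2 * adN W ν 2 0 := by
    rw [c00, c22, c02, c20]; linear_combination (ν - W 1 1) * hd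
  have k02_12 : adN W ν 0 1 * adN W ν 2 2 = adN W ν 0 2 * adN W ν 2 1 := by
    rw [c01, c22, c02, c21]; linear_combination (W 0 1) * hd
  have k12_01 : adN W ν 1 0 * adN W ν 2 1 = adN W ν 1 1 * adN W ν 2 0 := by
    rw [c10, c21, c11, c20]; linear_combination (-W 2 0) * hd
  have k12_02 : adN W ν 1 0 * adN W ν 2 2 = adN W ν 1 2 * adN W ν 2 0 := by
    rw [c10, c22, c12, c20]; linear_combination (W 1 0) * hd
  have k12_12 : adN W ν 1 1 * adN W ν 2 2 = adN W ν 1 2 * adN W ν 2 1 := by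
    rw [c11, c22, c12, c21]; linear_combination (ν - W 0 0) * hd
  clear c00 c01 c02 c10 c11 c12 c20 c21 c22 hd hν
  generalize adN W ν = C at *
  fin_cases i <;> fin_cases j <;> fin_cases k <;> fin_cases l <;>
    first
      | rfl
      | exact mul_comm _ _
      | exact k01_01
      | exact k01_02
      | exact k01_12
      | exact k02_01
      | exact k02_02
      | exact k02_12
      | exact k12_01
      | exact k12_02
      | exact k12_12
      | exact k01_01.symm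
      | exact k01_02.symm
      | exact k01_12.symm
      | exact k02_01.symm
      | exact k02_02.symm
      | exact k02_12.symm
      | exact k12_01.symm
      | exact k12_02.symm
      | exact k12_12.symm
      | (simp only [Fin.mk_zero, Fin.mk_one, Fin.reduceFinMk]; linear_combination k01_01)
      | (simp only [Fin.mk_zero, Fin.mk_one, Fin.reduceFinMk]; linear_combination k01_02)
      | (simp only [Fin.mk_zero, Fin.mk_one, Fin.reduceFinMk]; linear_combination k01_12)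
      | (simp only [Fin.mk_zero, Fin.mk_one, Fin.reduceFinMk]; linear_combination k02_01)
      | (simp only [Fin.mk_zero, Fin.mk_one, Fin.reduceFinMk]; linear_combination k02_02)
      | (simp only [Fin.mk_zero, Fin.mk_one, Fin.reduceFinMk]; linear_combination k02_12)
      | (simp only [Fin.mk_zero, Fin.mk_one, Fin.reduceFinMk]; linear_combination k12_01)
      | (simp only [Fin.mk_zero, Fin.mk_one, Fin.reduceFinMk]; linear_combination k12_02)
      | (simp only [Fin.mk_zero, Fin.mk_one, Fin.reduceFinMk]; linear_combination k12_12)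
      | (simp only [Fin.mk_zero, Fin.mk_one, Fin.reduceFinMk]; linear_combination -k01_01)
      | (simp only [Fin.mk_zero, Fin.mk_one, Fin.reduceFinMk]; linear_combination -k01_02)
      | (simp only [Fin.mk_zero, Fin.mk_one, Fin.reduceFinMk]; linear_combination -k01_12)
      | (simp only [Fin.mk_zero, Fin.mk_one, Fin.reduceFinMk]; linear_combination -k02_01)
      | (simp only [Fin.mk_zero, Fin.mk_one, Fin.reduceFinMk]; linear_combination -k02_02)
      | (simp only [Fin.mk_zero, Fin.mk_one, Fin.reduceFinMk]; linear_combination -k02_12)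
      | (simp only [Fin.mk_zero, Fin.mk_one, Fin.reduceFinMk]; linear_combination -k12_01)
      | (simp only [Fin.mk_zero, Fin.mk_one, Fin.reduceFinMk]; linear_combination -k12_02)
      | (simp only [Fin.mk_zero, Fin.mk_one, Fin.reduceFinMk]; linear_combination -k12_12)

/-- all minors of the projector vanish -/
theorem ChW.rank {W : M3} {T E ν : ℂ} (h : ChW W T E) (hν : ν ^ 3 - T * ν ^ 2 + E * ν + 1 = 0)
    (i j k l : Fin 3) :
    prN W ν (T - ν) (ν ^ 2 - T * ν + E) i j * prN W ν (T - ν) (ν ^ 2 - T * ν + E) k l =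
      prN W ν (T - ν) (ν ^ 2 - T * ν + E) i l * prN W ν (T - ν) (ν ^ 2 - T * ν + E) k j := by
  have h1 := adN_minor W ν (by rw [h.t, h.e, h.d]; linear_combination hν) i j k l
  have e : ∀ i j, prN W ν (T - ν) (ν ^ 2 - T * ν + E) i j =
      (ν ^ 2 - (T - ν) * ν + (ν ^ 2 - T * ν + E))⁻¹ * adN W ν i j := by
    intro i j
    unfold prN adN
    rw [Matrix.smul_apply, smul_eq_mul, h.t, h.e]
  rw [e, e, e, e]
  linear_combination (ν ^ 2 - (T - ν) * ν + (ν ^ 2 - T * ν + E))⁻¹ ^ 2 * h1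

end Pool.Agent.Helper57.KNB
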