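import Pool.Agent.Helper57.KNB.KN7

/-!
Row KNB, part 8: soundness of the family test at a pair `(A, ρ)` and along the recursion.
-/

set_option autoImplicit false
noncomputable section
namespace Pool.Agent.Helper57.KNB

open Pool.Agent.Helper90.C75 (e2 prS prQ prN sqR)
open Pool.Agent.Helper42.CH (powA)
open Pool.Agent.Helper86.C75 (Z)
open Pool.Agent.Helper86.CX (Cx andB Hm ev mkH)
open Complex ComplexConjugate Matrix

variable {M PH : Type} {A : Ar M PH} {OK : ℂ → M → Prop} {HK : Hm ℝ → PH → Prop}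

/-- the form `Fᴴ X G + (Fᴴ X G)ᴴ` -/
def hrH (X : Hm ℝ) (F G : M3) : Hm ℝ := hmU (Fᴴ * (MK X * G) + (Fᴴ * (MK X * G))ᴴ)
/-- the form `i Fᴴ X G + (i Fᴴ X G)ᴴ` -/
def hiH (X : Hm ℝ) (F G : M3) : Hm ℝ :=
  hmU (I • (Fᴴ * (MK X * G)) + (I • (Fᴴ * (MK X * G)))ᴴ)

theorem ev_hrH (X : Hm ℝ) (F G : M3) (v : Fin 3 → ℂ) :
    ev (hrH X F G) v = 2 * (hs X (F.mulVec v) (G.mulVec v)).re := by
  unfold hrH
  rw [ev_her, qf_FXG]

theorem ev_hiH (X : Hm ℝ) (F G : M3) (v : Fin 3 → ℂ) :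
    ev (hiH X F G) v = -(2 * (hs X (F.mulVec v) (G.mulVec v)).im) := by
  unfold hiH
  rw [ev_skw, qf_FXG]

/-- models of the record -/
structure HRK (HK : Hm ℝ → PH → Prop) (X E : Hm ℝ) (N Q P B : M3) (H : HR PH) : Prop where
  h00 : HK (cgH N X) H.h00
  h11 : HK (cgH Q X) H.h11
  h22 : HK (cgH P X) H.h22
  h01 : HK (hrH X N Q) H.h01
  k01 : HK (hiH X N Q) H.k01
  h02 : HK (hrH X N P) H.h02
  k02 : HK (hiH X N P) H.k02
  h12 : HK (hrH X Q P) H.h12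
  k12 : HK (hiH X Q P) H.k12
  e : HK (cgH B E) H.e

theorem HRK.mk' (hA : ArS A OK HK) {X E : Hm ℝ} {x e : H6 M} (hX : HOK OK X x) (hE : HOK OK E e)
    {N Q P B : M3} {F : Fm M} (hF : FmK OK N Q P F) {b : F9 M} (hB : FOK OK B b) :
    HRK HK X E N Q P B (mkHR A x e F b) := by
  have cn := hF.n.ct9 hA
  have cq := hF.q.ct9 hA
  have cp := hF.p.ct9 hA
  have xn := FOK.XF hA hX hF.n
  have xq := FOK.XF hA hX hF.q
  have xp := FOK.XF hA hX hF.p
  exact ⟨hA.pk (HOK.up (FXF_herm X N) (cn.mul9 hA xn)),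
    hA.pk (HOK.up (FXF_herm X Q) (cq.mul9 hA xq)),
    hA.pk (HOK.up (FXF_herm X P) (cp.mul9 hA xp)), hA.pk (HOK.her hA (cn.mul9 hA xq)),
    hA.pk (HOK.skw hA (cn.mul9 hA xq)), hA.pk (HOK.her hA (cn.mul9 hA xp)),
    hA.pk (HOK.skw hA (cn.mul9 hA xp)), hA.pk (HOK.her hA (cq.mul9 hA xp)),
    hA.pk (HOK.skw hA (cq.mul9 hA xp)), hA.pk (HOK.cg hA hE hB)⟩

theorem FmK.bs (hA : ArS A OK HK) {N Q P B : M3} {F : Fm M} (hF : FmK OK N Q P F) {b : F9 M}
    (hB : FOK OK B b) : FmK OK (N * B) (Q * B) (P * B) (bsF A F b) :=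
  ⟨hF.n.mul9 hA hB, hF.q.mul9 hA hB, hF.p.mul9 hA hB⟩

theorem re_mul2 (a h : ℂ) : 2 * (a * h).re = a.re * (2 * h.re) + a.im * (-(2 * h.im)) := by
  rw [Complex.mul_re]; ring

theorem normSq_cj (a : ℂ) : ((normSq a : ℝ) : ℂ) = a * star a := by
  rw [← Complex.mul_conj]; rfl

/-- THE TEST at a pair -/
theorem tFam_sound (hA : ArS A OK HK) {X E : Hm ℝ} {N Q P B : M3} {H : HR PH}
    (hH : HRK HK X E N Q P B H) {d : D3} {a r : ℂ} {a' r' l' : M} (ha : OK a a') (hr : OK r r')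
    {lam : ℝ} (hl : OK (lam : ℂ) l') (h : tFam A d H a' r' l' = true) (u : Fin 3 → ℂ) :
    lam * ev E (B.mulVec u) ≤ ev X ((N + a • Q + r • P).mulVec u) := by
  have har := hA.mul (hA.cj ha) hr
  have h1 := hA.lt (p := [((1 : ℝ), cgH N X), (normSq a, cgH Q X), (normSq r, cgH P X),
    (a.re, hrH X N Q), (a.im, hiH X N Q), (r.re, hrH X N P), (r.im, hiH X N P),
    ((star a * r).re, hrH X Q P), ((star a * r).im, hiH X Q P), (-lam, cgH B E)]) (by
      refine List.Forall₂.cons ⟨okE (ok1 hA) (by simp), hH.h00⟩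
        (List.Forall₂.cons ⟨okE (hA.mul ha (hA.cj ha)) (normSq_cj a).symm, hH.h11⟩
        (List.Forall₂.cons ⟨okE (hA.mul hr (hA.cj hr)) (normSq_cj r).symm, hH.h22⟩
        (List.Forall₂.cons ⟨hA.re ha, hH.h01⟩ (List.Forall₂.cons ⟨hA.im ha, hH.k01⟩
        (List.Forall₂.cons ⟨hA.re hr, hH.h02⟩ (List.Forall₂.cons ⟨hA.im hr, hH.k02⟩
        (List.Forall₂.cons ⟨hA.re har, hH.h12⟩ (List.Forall₂.cons ⟨hA.im har, hH.k12⟩
        (List.Forall₂.cons ⟨okE (okN hA hl) (by simp), hH.e⟩ List.Forall₂.nil))))))))))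
      h u
  simp only [List.map_cons, List.map_nil, List.sum_cons, List.sum_nil, add_zero, one_mul,
    ev_cgH, ev_hrH, ev_hiH] at h1
  have e : (N + a • Q + r • P).mulVec u = N.mulVec u + a • Q.mulVec u + r • P.mulVec u := by
    rw [add_mulVec, add_mulVec, smul_mulVec, smul_mulVec]
  rw [e, ev_plane, re_mul2, re_mul2, re_mul2]
  have e1 : (conj a * r : ℂ) = star a * r := rfl
  rw [e1]
  linarith

/-- from the basis to all vectors -/
theorem Le.of_basis {X E : Hm ℝ} {F B : M3} (hB : B.det ≠ 0) {lam : ℝ} (h0 : 0 < lam)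
    (h : ∀ u, lam * ev E (B.mulVec u) ≤ ev X ((F * B).mulVec u)) : Le E X F := by
  refine ⟨lam, h0, fun v => ?_⟩
  have hu : IsUnit B.det := isUnit_iff_ne_zero.2 hB
  have h1 := h (B⁻¹.mulVec v)
  rw [mulVec_mulVec, mulVec_mulVec, Matrix.mul_assoc, Matrix.mul_nonsing_inv _ hu,
    Matrix.mul_one, one_mulVec] at h1
  exact h1

/-- the family with the basis -/
theorem fam_basis (N Q P B : M3) (a r : ℂ) :
    (N + a • Q + r • P) * B = N * B + a • (Q * B) + r • (P * B) := by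
  rw [Matrix.add_mul, Matrix.add_mul, Matrix.smul_mul, Matrix.smul_mul]

/-- THE RECURSION: the pairs `m < L.length`, then `T` -/
theorem tQ_sound (hA : ArS A OK HK) {X E : Hm ℝ} {N Q P B : M3} {H : HR PH}
    (hH : HRK HK X E (N * B) (Q * B) (P * B) B H) (hB : B.det ≠ 0) {c g : ℂ} {c' g' : M}
    (hc : OK c c') (hg : OK g g') {T : M → M → Bool} :
    ∀ (L : List (LD M)), (∀ l ∈ L, LOK OK l) → ∀ {a r : ℕ → ℂ} {a' r' : M},
      (∀ m, 1 + a m ≠ 0 → a (m + 1) = 1 - c * (1 + a m)⁻¹) →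
      (∀ m, 1 + a m ≠ 0 → r (m + 1) = g * r m * (1 + a m)⁻¹) →
      OK (a 0) a' → OK (r 0) r' → tQ A H c' g' T L a' r' = true →
      (∀ m, m < L.length → Le E X (N + a m • Q + r m • P) ∧ 1 + a m ≠ 0) ∧
        ∃ a'' r'', OK (a L.length) a'' ∧ OK (r L.length) r'' ∧ T a'' r'' = true := by
  intro L
  induction L with
  | nil =>
    intro _ a r a' r' _ _ ha hr h
    exact ⟨fun m hm => absurd hm (Nat.not_lt_zero _), a', r', ha, hr, h⟩
  | cons l L ih =>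
    intro hL a r a' r' ra rr ha hr h
    have h' : andB (tFam A l.d H a' r' l.l) (andB (A.ok (A.add (c1 A) a'))
      (tQ A H c' g' T L (A.sub (c1 A) (A.mul c' (A.inv (A.add (c1 A) a'))))
        (A.mul (A.mul g' r') (A.inv (A.add (c1 A) a'))))) = true := h
    obtain ⟨h1, h2⟩ := andBt h'
    obtain ⟨h3, h4⟩ := andBt h2
    obtain ⟨lam, l0, l1⟩ := hL l (List.mem_cons_self ..)
    obtain ⟨n0, hi⟩ := hA.inv (hA.add (ok1 hA) ha) h3
    have ha1 : OK (a 1) (A.sub (c1 A) (A.mul c' (A.inv (A.add (c1 A) a')))) :=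
      okE (hA.sub (ok1 hA) (hA.mul hc hi)) (ra 0 n0).symm
    have hr1 : OK (r 1) (A.mul (A.mul g' r') (A.inv (A.add (c1 A) a'))) :=
      okE (hA.mul (hA.mul hg hr) hi) (rr 0 n0).symm
    obtain ⟨i1, i2⟩ := ih (fun x hx => hL x (List.mem_cons_of_mem _ hx))
      (a := fun m => a (m + 1)) (r := fun m => r (m + 1)) (fun m => ra (m + 1))
      (fun m => rr (m + 1)) ha1 hr1 h4
    refine ⟨fun m hm => ?_, i2⟩
    rcases m with _ | m
    · refine ⟨Le.of_basis hB l0 fun u => ?_, n0⟩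
      rw [fam_basis]
      exact tFam_sound hA hH ha hr l1 h1 u
    · exact i1 m (by simpa using hm)

/-- the recursion of the pairs -/
theorem powA_step (τ : ℂ) (m : ℕ) (h : 1 + powA τ m ≠ 0) :
    powA τ (m + 1) = 1 - (1 - τ) * (1 + powA τ m)⁻¹ := by
  show (powA τ m + τ) / (1 + powA τ m) = _
  field_simp
  ring

theorem sqR_step (g τ : ℂ) (m : ℕ) :
    sqR g τ (m + 1) = g * sqR g τ m * (1 + powA τ m)⁻¹ := by
  show g * sqR g τ m / (1 + powA τ m) = _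
  rw [div_eq_mul_inv]

end Pool.Agent.Helper57.KNB
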