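import Pool.Agent.Helper57.KNB.KN12
import Pool.Agent.Helper39.CX.KNC

/-!
Row KNB, exact classes, part 1: the arithmetic of the models of `Helper86/CX/Ker.lean`.
-/

set_option autoImplicit false
noncomputable section
namespace Pool.Agent.Helper57.KNB

open Pool.Agent.Helper86.C75 (Z)
open Pool.Agent.Helper86.CX
open Pool.Agent.Helper39.KNF (M6 C9 QT tnP cM lM hd3 sMo mkX)

def re3 (x : C3) : C3 := ⟨⟨x.a.re, zi0⟩, ⟨x.c.re, zi0⟩, ⟨x.b.re, zi0⟩⟩
def im3 (x : C3) : C3 := ⟨⟨x.a.im, zi0⟩, ⟨x.c.im, zi0⟩, ⟨x.b.im, zi0⟩⟩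
def reM (n : Nat) (f : Mo) : Mo := mk n (mapL re3 f.v) f.r
def imM (n : Nat) (f : Mo) : Mo := mk n (mapL im3 f.v) f.r
def wdM (e : Nat) (f : Mo) : Mo := ⟨f.v, Nat.add f.r e, f.B, f.k, f.d, f.f⟩
def nbM (f : Mo) : Nat := Nat.add f.B f.r
def ctlL (l : List C3) : List Cx :=
  List.rec (motive := fun _ => List Cx) [] (fun x _ ih => x.a :: x.c :: x.b :: ih) l

def z6 (z : Mo) : M6 := ⟨z, z, z, z, z, z⟩
def sum6 (n : Nat) (l : List (SH Mo (H6 Mo))) : M6 :=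
  List.rec (motive := fun _ => M6) (z6 (cstM n (nat_lit 0) (nat_lit 0)))
    (fun p _ ih => ⟨addM (mulM n p.s p.h.a) ih.a, addM (mulM n p.s p.h.b) ih.b,
      addM (mulM n p.s p.h.c) ih.c, addM (mulM n p.s p.h.x) ih.x, addM (mulM n p.s p.h.y) ih.y,
      addM (mulM n p.s p.h.w) ih.w⟩) l
def ltM (n : Nat) (d : D3) (l : List (SH Mo (H6 Mo))) : Bool :=
  tnP (sum6 n l) ⟨(nat_lit 1), (nat_lit 1), d.x, d.y, d.z⟩

/-- the arithmetic -/
def arM (n : Nat) : Ar Mo (H6 Mo) where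
  add := addM
  sub := subM
  mul := mulM n
  cj := conjM
  re := reM n
  im := imM n
  inv := invM n
  ok := invOK n
  cs := cM n
  wd := wdM
  nb := nbM
  rd := fun x => x.r
  ctl := fun x => ctlL x.v
  dot := fun x y z a b c => addM (mulM n x a) (addM (mulM n y b) (mulM n z c))
  pk := fun x => x
  lt := ltM n

end Pool.Agent.Helper57.KNB
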