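import Pool.Agent.Helper57.KNB.KO1
import Pool.Agent.Helper57.KNB.KN13
import Pool.Agent.Helper39.CX.KNH7

/-!
Row KNB, exact classes, part 2: soundness of the arithmetic.
-/

set_option autoImplicit false
noncomputable section
namespace Pool.Agent.Helper57.KNB

open Pool.Agent.Helper86.C75 (Z)
open Pool.Agent.Helper86.CX
open Pool.Agent.Helper90.C75
open Pool.Agent.Helper90.KMO
open Pool.Agent.Helper39.KNF (M6 C9 QT tnP cM lM hd3 sMo mkX POK tnP_sound KIh)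
open Complex ComplexConjugate

variable {n : ℕ} {wc : Fin n → ℝ} {t : ℝ}

theorem avg_re {V : Type*} [Fintype V] (w : V → ℝ) (F : V → ℂ) :
    avg w (fun v => ((F v).re : ℂ)) = ((avg w F).re : ℂ) := by
  unfold avg
  rw [Complex.re_sum]
  push_cast
  refine Finset.sum_congr rfl fun v _ => ?_
  rw [Complex.re_ofReal_mul]
  push_cast
  rfl

theorem avg_im {V : Type*} [Fintype V] (w : V → ℝ) (F : V → ℂ) :
    avg w (fun v => ((F v).im : ℂ)) = ((avg w F).im : ℂ) := by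
  unfold avg
  rw [Complex.im_sum]
  push_cast
  refine Finset.sum_congr rfl fun v _ => ?_
  rw [Complex.im_ofReal_mul]
  push_cast
  rfl

theorem Fv_re {l : List C3} (h : l.length = n) (v : Fin n × Fin 3) :
    Fv n (mapL re3 l) v = ((Fv n l v).re : ℂ) := by
  obtain ⟨i, j⟩ := v
  unfold Fv
  rw [gv_map re3 (by rw [h]; exact i.2)]
  fin_cases j <;> (apply Complex.ext <;> simp [re3, ct, cz, zi0, zv])

theorem Fv_im {l : List C3} (h : l.length = n) (v : Fin n × Fin 3) :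
    Fv n (mapL im3 l) v = ((Fv n l v).im : ℂ) := by
  obtain ⟨i, j⟩ := v
  unfold Fv
  rw [gv_map im3 (by rw [h]; exact i.2)]
  fin_cases j <;> (apply Complex.ext <;> simp [im3, ct, cz, zi0, zv])

theorem MOK.reM (hn : 0 < n) {f : ℂ} {M : Mo} (h : MOK n wc t f M) :
    MOK n wc t (f.re : ℂ) (KNB.reM n M) := by
  refine ⟨vok_mk hn (len_map _ h.val.len) _, ?_⟩
  show ‖(UU : ℂ) * (f.re : ℂ) - avg (wq wc t) (Fv n (mapL re3 M.v))‖ ≤ M.r
  have e : Fv n (mapL re3 M.v) = fun v => ((Fv n M.v v).re : ℂ) := funext (Fv_re h.val.len)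
  rw [e, avg_re]
  have e2 : (UU : ℂ) * (f.re : ℂ) - ((avg (wq wc t) (Fv n M.v)).re : ℂ) =
      ((((UU : ℂ) * f - avg (wq wc t) (Fv n M.v)).re : ℝ) : ℂ) := by
    rw [Complex.sub_re, Complex.re_ofReal_mul]
    push_cast; rfl
  rw [e2, Complex.norm_real]
  exact (abs_re_le_norm _).trans h.mod

theorem MOK.imM (hn : 0 < n) {f : ℂ} {M : Mo} (h : MOK n wc t f M) :
    MOK n wc t (f.im : ℂ) (KNB.imM n M) := by
  refine ⟨vok_mk hn (len_map _ h.val.len) _, ?_⟩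
  show ‖(UU : ℂ) * (f.im : ℂ) - avg (wq wc t) (Fv n (mapL im3 M.v))‖ ≤ M.r
  have e : Fv n (mapL im3 M.v) = fun v => ((Fv n M.v v).im : ℂ) := funext (Fv_im h.val.len)
  rw [e, avg_im]
  have e2 : (UU : ℂ) * (f.im : ℂ) - ((avg (wq wc t) (Fv n M.v)).im : ℂ) =
      ((((UU : ℂ) * f - avg (wq wc t) (Fv n M.v)).im : ℝ) : ℂ) := by
    rw [Complex.sub_im, Complex.im_ofReal_mul]
    push_cast; rfl
  rw [e2, Complex.norm_real]
  exact (abs_im_le_norm _).trans h.mod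

theorem MOK.wdM {f g : ℂ} {M : Mo} {e : ℕ} (h : MOK n wc t f M) (hg : ‖g - f‖ * UU ≤ e) :
    MOK n wc t g (KNB.wdM e M) := by
  refine ⟨⟨h.val.len, h.val.bd, h.val.dev, h.val.dif, h.val.sec⟩, ?_⟩
  show ‖(UU : ℂ) * g - avg (wq wc t) (Fv n M.v)‖ ≤ ((Nat.add M.r e : ℕ) : ℝ)
  rw [nadd]
  have e2 : (UU : ℂ) * g - avg (wq wc t) (Fv n M.v) =
      ((UU : ℂ) * f - avg (wq wc t) (Fv n M.v)) + (UU : ℂ) * (g - f) := by ring
  rw [e2]
  refine (norm_add_le _ _).trans (add_le_add h.mod ?_)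
  rw [norm_mul, norm_UU, mul_comm]
  exact hg

theorem MOK.nb (hw : Wts wc) (h0 : 0 ≤ t) (h1 : t ≤ 1) {f : ℂ} {M : Mo} (h : MOK n wc t f M) :
    ‖f‖ * UU ≤ nbM M := by
  have hb := norm_avg_le (hw.q h0 h1) h.val.bd
  have hm := h.mod
  unfold Pool.Agent.Helper90.C75.Mod at hm
  have e : ‖f‖ * UU = ‖(UU : ℂ) * f‖ := by rw [norm_mul, norm_UU, mul_comm]
  rw [e]
  have e2 : (UU : ℂ) * f = ((UU : ℂ) * f - avg (wq wc t) (Fv n M.v)) + avg (wq wc t) (Fv n M.v) := by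
    ring
  have e3 : ((nbM M : ℕ) : ℝ) = M.B + M.r := by
    unfold nbM
    rw [nadd]
  rw [e2, e3]
  refine (norm_add_le _ _).trans ?_
  linarith

theorem ctlL_mem {l : List C3} {x : C3} (h : x ∈ l) :
    x.a ∈ ctlL l ∧ x.c ∈ ctlL l ∧ x.b ∈ ctlL l := by
  induction l with
  | nil => cases h
  | cons y l ih =>
    have e : ctlL (y :: l) = y.a :: y.c :: y.b :: ctlL l := rfl
    rw [e]
    rcases List.mem_cons.1 h with rfl | h
    · simp
    · obtain ⟨h1, h2, h3⟩ := ih h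
      simp [h1, h2, h3]

theorem MOK.ctl (hw : Wts wc) (h0 : 0 ≤ t) (h1 : t ≤ 1) {f : ℂ} {M : Mo} (h : MOK n wc t f M) :
    ∃ q ∈ convexHull ℝ {z : ℂ | ∃ c ∈ ctlL M.v, z = cz c}, ‖(UU : ℂ) * f - q‖ ≤ M.r := by
  refine ⟨avg (wq wc t) (Fv n M.v), ?_, h.mod⟩
  have hq := hw.q h0 h1
  unfold avg
  have e : ∑ v, ((wq wc t v : ℝ) : ℂ) * Fv n M.v v = ∑ v, wq wc t v • Fv n M.v v := by
    refine Finset.sum_congr rfl fun v _ => ?_
    rw [Complex.real_smul]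
  rw [e]
  refine (convex_convexHull ℝ _).sum_mem (fun v _ => hq.nonneg v) hq.sum fun v _ => ?_
  apply subset_convexHull
  obtain ⟨i, j⟩ := v
  obtain ⟨m1, m2, m3⟩ := ctlL_mem (gv_mem (l := M.v) (i := i) (by rw [h.val.len]; exact i.2))
  fin_cases j
  · exact ⟨_, m1, rfl⟩
  · exact ⟨_, m2, rfl⟩
  · exact ⟨_, m3, rfl⟩

theorem sum6_ok (hn : 0 < n) (hw : Wts wc) (h0 : 0 ≤ t) (h1 : t ≤ 1)
    {p : List (ℝ × Hm ℝ)} {l : List (SH Mo (H6 Mo))}
    (h : List.Forall₂ (SOK (MOK n wc t) (HOK (MOK n wc t))) p l) :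
    POK n wc t ((p.map fun x => x.1 * x.2.a).sum : ℝ) ((p.map fun x => x.1 * x.2.b).sum : ℝ)
      ((p.map fun x => x.1 * x.2.c).sum : ℝ) (p.map fun x => (x.1 : ℂ) * x.2.x).sum
      (p.map fun x => (x.1 : ℂ) * x.2.y).sum (p.map fun x => (x.1 : ℂ) * x.2.w).sum
      (sum6 n l) := by
  induction h with
  | nil =>
    have hz : MOK n wc t 0 (cstM n (nat_lit 0) (nat_lit 0)) :=
      MOK.cst' hn hw h0 h1 (by norm_num)
    refine ⟨?_, ?_, ?_, ?_, ?_, ?_⟩ <;>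
      (simp only [List.map_nil, List.sum_nil, Complex.ofReal_zero]; exact hz)
  | cons hx _ ih =>
    have e : ∀ {f g : ℂ} {M : Mo}, MOK n wc t f M → f = g → MOK n wc t g M :=
      fun h e => e ▸ h
    refine ⟨e (MOK.add (MOK.mul hn hw h0 h1 hx.s hx.h.a) ih.a) ?_,
      e (MOK.add (MOK.mul hn hw h0 h1 hx.s hx.h.b) ih.b) ?_,
      e (MOK.add (MOK.mul hn hw h0 h1 hx.s hx.h.c) ih.c) ?_,
      e (MOK.add (MOK.mul hn hw h0 h1 hx.s hx.h.x) ih.x) ?_,
      e (MOK.add (MOK.mul hn hw h0 h1 hx.s hx.h.y) ih.y) ?_,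
      e (MOK.add (MOK.mul hn hw h0 h1 hx.s hx.h.w) ih.w) ?_⟩ <;> simp

theorem ev_sum6 (p : List (ℝ × Hm ℝ)) (v : Fin 3 → ℂ) :
    ev (mkH (p.map fun x => x.1 * x.2.a).sum (p.map fun x => x.1 * x.2.b).sum
      (p.map fun x => x.1 * x.2.c).sum (p.map fun x => (x.1 : ℂ) * x.2.x).sum
      (p.map fun x => (x.1 : ℂ) * x.2.y).sum (p.map fun x => (x.1 : ℂ) * x.2.w).sum) v =
      (p.map fun x => x.1 * ev x.2 v).sum := by
  induction p with
  | nil => simp [ev, mkH]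
  | cons y p ih =>
    have key : ∀ (a b c a' b' c' s : ℝ) (x y w x' y' w' : ℂ),
        ev (mkH (s * a + a') (s * b + b') (s * c + c') (s * x + x') (s * y + y') (s * w + w')) v =
        s * ev (mkH a b c x y w) v + ev (mkH a' b' c' x' y' w') v := by
      intro a b c a' b' c' s x y w x' y' w'
      rw [Pool.Agent.Helper39.KNF.ev_mkH, Pool.Agent.Helper39.KNF.ev_mkH,
        Pool.Agent.Helper39.KNF.ev_mkH]
      have e : ∀ (P Q X Y : ℂ), (conj P * ((s : ℂ) * X + Y) * Q).re =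
          s * (conj P * X * Q).re + (conj P * Y * Q).re := by
        intro P Q X Y
        have : conj P * ((s : ℂ) * X + Y) * Q = (s : ℂ) * (conj P * X * Q) + conj P * Y * Q := by
          ring
        rw [this, Complex.add_re, Complex.re_ofReal_mul]
      rw [e, e, e]
      ring
    simp only [List.map_cons, List.sum_cons]
    rw [key, ih]
    congr 2
    obtain ⟨s, K⟩ := y
    simp only [ev, mkH, Hm.x, Hm.y, Hm.w]
    simp

theorem ltM_sound (hn : 0 < n) (hw : Wts wc) (h0 : 0 ≤ t) (h1 : t ≤ 1)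
    {p : List (ℝ × Hm ℝ)} {l : List (SH Mo (H6 Mo))} {d : D3}
    (h : List.Forall₂ (SOK (MOK n wc t) (HOK (MOK n wc t))) p l) (hl : ltM n d l = true)
    (v : Fin 3 → ℂ) : 0 ≤ (p.map fun x => x.1 * ev x.2 v).sum := by
  have h2 := (tnP_sound hw h0 h1 (sum6_ok hn hw h0 h1 h) hl).1 v
  rw [ofReal_re, ofReal_re, ofReal_re, ev_sum6] at h2
  exact h2

/-- THE ARITHMETIC IS SOUND -/
theorem arM_sound (hn : 0 < n) (hw : Wts wc) (h0 : 0 ≤ t) (h1 : t ≤ 1) :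
    ArS (arM n) (MOK n wc t) (HOK (MOK n wc t)) where
  add := MOK.add
  sub := MOK.sub
  mul := MOK.mul hn hw h0 h1
  cj := MOK.conj
  re := MOK.reM hn
  im := MOK.imM hn
  inv := fun hf ho => by
    obtain ⟨h2, h3⟩ := hf.invM hn hw h0 h1 ho
    exact ⟨h3, h2⟩
  cs := Pool.Agent.Helper39.KNF.MOK.cM hn hw h0 h1
  wd := MOK.wdM
  nb := MOK.nb hw h0 h1
  ctl := MOK.ctl hw h0 h1
  dot := fun {f g h f' g' h'} {x y z x' y' z'} a b c a' b' c' => by
    have e : f * f' + g * g' + h * h' = f * f' + (g * g' + h * h') := by ring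
    rw [e]
    exact MOK.add (MOK.mul hn hw h0 h1 a a') (MOK.add (MOK.mul hn hw h0 h1 b b')
      (MOK.mul hn hw h0 h1 c c'))
  pk := fun h => h
  lt := fun h hl v => ltM_sound hn hw h0 h1 h hl v

end Pool.Agent.Helper57.KNB
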