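import Pool.Agent.Helper57.KNB.KO1

/-!
Row KNB, exact classes, part 3: the B family tests of a cell.
-/

set_option autoImplicit false
noncomputable section
namespace Pool.Agent.Helper57.KNB

open Pool.Agent.Helper86.C75 (Z)
open Pool.Agent.Helper86.CX
open Pool.Agent.Helper39.KNF (M6 M9 C9 QT tnP cM lM hd3 sMo mkX mkS segOK qd)

/-- a source: number of the form, multiplier -/
structure SD where
  k : Nat
  q : QT

/-- a polygon: vertices, centre, square of the radius (units `2 ^ (-24)`, `2 ^ (-48)`),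
multiplier, `1/σ`, `σ`, `w` -/
structure PD3 where
  V : List (Nat × Nat)
  cx : Nat
  cy : Nat
  R : Nat
  q : QT
  is : Nat
  sg : Nat
  w : Nat

/-- data of one orientation: numbers of the forms `X`, `E`, of the three targets, basis,
approximate root at the three controls, multipliers, sources, multipliers of the exact pairs,
polygons, bound of `ρ`, pivot, least abscissa, both signs of `Im τ`, controls of `τ` -/
structure BD where
  kx : Nat
  ke : Nat
  t0 : Nat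
  t1 : Nat
  t2 : Nat
  B : C9
  v : C3
  le0 : QT
  le1 : QT
  le2 : QT
  lx0 : QT
  lx1 : QT
  lx2 : QT
  q0 : List SD
  q2 : List SD
  q1 : List SD
  lq : List QT
  tl : List PD3
  r0 : Nat
  pk : Nat
  e : Nat
  bj : Bool
  Ta : Nat × Nat
  Tc : Nat × Nat
  Tb : Nat × Nat
  rho : Nat

def ldQ (n : Nat) (q : QT) : LD Mo := ⟨lM n q.s q.t, ⟨q.d0, q.d1, q.d2⟩⟩
def h6 (P : M6) : H6 Mo := ⟨P.a, P.b, P.c, P.x, P.y, P.w⟩
def f9 (P : M9) : F9 Mo := ⟨P.a, P.b, P.c, P.d, P.e, P.f, P.g, P.h, P.i⟩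
def fmK (n : Nat) (KTs : List K2) (k : Nat) : H6 Mo := h6 (mkX n (kfs KTs k))
def srL (n : Nat) (KTs : List K2) (l : List SD) : List (SrcT Mo) :=
  List.rec (motive := fun _ => List (SrcT Mo)) []
    (fun x _ ih => ⟨fmK n KTs x.k, ldQ n x.q⟩ :: ih) l
def lqL (n : Nat) (l : List QT) : List (LD Mo) :=
  List.rec (motive := fun _ => List (LD Mo)) [] (fun x _ ih => ldQ n x :: ih) l
def tpM (n ng : Nat) (x : PD3) : TP Mo := ⟨x.V, x.cx, x.cy, x.R, ldQ n x.q, x.is, x.sg, x.w, ng⟩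
def tpL (n ng : Nat) (r : List (TP Mo)) (l : List PD3) : List (TP Mo) :=
  List.rec (motive := fun _ => List (TP Mo)) r (fun x _ ih => tpM n ng x :: ih) l
def tpB (n : Nat) (bj : Bool) (l : List PD3) : List (TP Mo) :=
  Bool.rec (motive := fun _ => List (TP Mo)) (tpL n (nat_lit 0) [] l)
    (tpL n (nat_lit 0) (tpL n (nat_lit 1) [] l) l) bj

/-- all multipliers are positive -/
def qOK (q : QT) : Bool := andB (Nat.ble (nat_lit 1) q.s) (Nat.ble (nat_lit 1) q.t)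
def qsOK (l : List QT) : Bool :=
  List.rec (motive := fun _ => Bool) true (fun x _ ih => andB (qOK x) ih) l
def sdOK (l : List SD) : Bool :=
  List.rec (motive := fun _ => Bool) true (fun x _ ih => andB (qOK x.q) ih) l
def pdOK (l : List PD3) : Bool :=
  List.rec (motive := fun _ => Bool) true (fun x _ ih => andB (qOK x.q) ih) l
def bdOK (D : BD) : Bool :=
  andB (qOK D.le0) (andB (qOK D.le1) (andB (qOK D.le2) (andB (qOK D.lx0) (andB (qOK D.lx1)
    (andB (qOK D.lx2) (andB (sdOK D.q0) (andB (sdOK D.q2) (andB (sdOK D.q1) (andB (qsOK D.lq)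
    (pdOK D.tl))))))))))

/-- inputs -/
def mkOI (n : Nat) (l0 l1 l2 k0 k1 k2 z zi : Mo) (KTs : List K2) (D : BD) : OI Mo :=
  ⟨l0, l1, l2, sMo n k0, sMo n k1, sMo n k2, z, zi, mulM n (mulM n k0 k1) k2,
    subM (addM (mulM n k0 k0) (addM (mulM n k1 k1) (mulM n k2 k2)))
      (cR (arM n) (Z.p (nat_lit 844424930131968))), mk n (Pool.Agent.Helper39.KNF.repC n D.v) (nat_lit 0),
    fmK n KTs D.t0, fmK n KTs D.t1, fmK n KTs D.t2, fmK n KTs D.ke, fmK n KTs D.kx,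
    f9 (mkS n D.B), ldQ n D.le0, ldQ n D.le1, ldQ n D.le2, ldQ n D.lx0, ldQ n D.lx1, ldQ n D.lx2,
    srL n KTs D.q0, srL n KTs D.q2, srL n KTs D.q1, lqL n D.lq, tpB n D.bj D.tl, D.r0, D.pk⟩

/-- the test of the last pair -/
def ttM (D : BD) (S : Sc Mo) (_ r : Mo) : Bool :=
  andB (Nat.ble (nbM r) D.r0)
    (andB (Nat.ble (nbM S.g) (Nat.add (nat_lit 281474976710656) (Nat.mul (nat_lit 16777216) D.e)))
      (segOK S.c D.Ta D.Tc D.Tb D.rho))

/-- ONE ORIENTATION IN A CELL -/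
def chBo (l0 l1 l2 k0 k1 k2 z zi : Mo) (KTs : List K2) (D : BD) : Bool :=
  andB (bdOK D) (andB (invOK (nat_lit 1) (mulM (nat_lit 1) k0 k0))
    (andB (invOK (nat_lit 1) (mulM (nat_lit 1) k1 k1))
      (andB (invOK (nat_lit 1) (mulM (nat_lit 1) k2 k2))
        (chO (arM (nat_lit 1)) (mkOI (nat_lit 1) l0 l1 l2 k0 k1 k2 z zi KTs D) (ttM D)))))

/-- BOTH ORIENTATIONS; `u = 1 / z` -/
def chB2 (k0 k1 k2 : Mo) (C : Cls) (Dp Dm : BD) (u z : Mo) (KTs : List K2) : Bool :=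
  andB (chBo C.l0 C.l1 C.l2 k0 k1 k2 u z KTs Dp) (chBo C.l0 C.l2 C.l1 k2 k1 k0 z u KTs Dm)
def chBX (k0 k1 k2 : Mo) (C : Cls) (Dp Dm : BD) (m : Nat) (x u z : Mo) (KTs : List K2) : Bool :=
  andB (mOK m x.v u.v) (chB2 k0 k1 k2 C Dp Dm (uM m x u z) (zM x (uM m x u z) z) KTs)
/-- THE B TESTS OF A CELL -/
def chBCell (k0 k1 k2 : Mo) (C : Cls) (Dp Dm : BD) (xs : List C3) (rx m : Nat) (us : List C3)
    (KTs : List K2) : Bool :=
  chBX k0 k1 k2 C Dp Dm m (mk (nat_lit 1) xs rx) (mk (nat_lit 1) us (nat_lit 0))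
    (mk (nat_lit 1) (zipL sub3 xs us) (nat_lit 0)) KTs

end Pool.Agent.Helper57.KNB
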