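import Pool.Agent.Helper57.KNB.KO2
import Pool.Agent.Helper57.KNB.KO3

/-!
Row KNB, exact classes, part 4: the tail (powers of `τ`, bound of `ρ`).
-/

set_option autoImplicit false
noncomputable section
namespace Pool.Agent.Helper57.KNB

open Pool.Agent.Helper86.C75 (Z)
open Pool.Agent.Helper86.CX
open Pool.Agent.Helper90.C75
open Pool.Agent.Helper90.KMO
open Pool.Agent.Helper39.KNF (M6 M9 C9 QT tnP cM lM hd3 sMo mkX mkS segOK qd AD near_seg lv)
open Pool.Agent.Helper42.CH (powA)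
open Pool.Agent.Helper32.C75 (pt InHull Near cell3 cell3_sound PK HP Tr powA_im powA_conj)
open Complex ComplexConjugate

/-! ### bounds from the hull -/

theorem hull_le {V : List (ℕ × ℕ)} {q : ℂ} (h : InHull V q) :
    (∀ a : ℕ, (∀ x ∈ V, a ≤ x.1) → (a : ℝ) / 16777216 ≤ q.re) ∧
    (∀ a : ℕ, (∀ x ∈ V, x.1 ≤ a) → q.re ≤ (a : ℝ) / 16777216) ∧
    (∀ a : ℕ, (∀ x ∈ V, a ≤ x.2) → (a : ℝ) / 16777216 ≤ q.im) ∧
    (∀ a : ℕ, (∀ x ∈ V, x.2 ≤ a) → q.im ≤ (a : ℝ) / 16777216) := by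
  obtain ⟨wt, w0, ws, rfl⟩ := h
  have er : ∀ i, (((wt i : ℝ) : ℂ) * pt (V.get i).1 (V.get i).2).re =
      wt i * (((V.get i).1 : ℝ) / 16777216) := by
    intro i
    rw [Complex.re_ofReal_mul, pt_eq]
  have ei : ∀ i, (((wt i : ℝ) : ℂ) * pt (V.get i).1 (V.get i).2).im =
      wt i * (((V.get i).2 : ℝ) / 16777216) := by
    intro i
    rw [Complex.im_ofReal_mul, pt_eq]
  have hm : ∀ i, V.get i ∈ V := fun i => List.get_mem V i
  refine ⟨fun a ha => ?_, fun a ha => ?_, fun a ha => ?_, fun a ha => ?_⟩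
  · rw [Complex.re_sum, Finset.sum_congr rfl fun i _ => er i]
    calc (a : ℝ) / 16777216 = ∑ i, wt i * ((a : ℝ) / 16777216) := by
          rw [← Finset.sum_mul, ws, one_mul]
      _ ≤ _ := Finset.sum_le_sum fun i _ => mul_le_mul_of_nonneg_left
          (div_le_div_of_nonneg_right (by exact_mod_cast ha _ (hm i)) (by norm_num)) (w0 i)
  · rw [Complex.re_sum, Finset.sum_congr rfl fun i _ => er i]
    calc _ ≤ ∑ i, wt i * ((a : ℝ) / 16777216) :=
          Finset.sum_le_sum fun i _ => mul_le_mul_of_nonneg_left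
          (div_le_div_of_nonneg_right (by exact_mod_cast ha _ (hm i)) (by norm_num)) (w0 i)
      _ = (a : ℝ) / 16777216 := by rw [← Finset.sum_mul, ws, one_mul]
  · rw [Complex.im_sum, Finset.sum_congr rfl fun i _ => ei i]
    calc (a : ℝ) / 16777216 = ∑ i, wt i * ((a : ℝ) / 16777216) := by
          rw [← Finset.sum_mul, ws, one_mul]
      _ ≤ _ := Finset.sum_le_sum fun i _ => mul_le_mul_of_nonneg_left
          (div_le_div_of_nonneg_right (by exact_mod_cast ha _ (hm i)) (by norm_num)) (w0 i)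
  · rw [Complex.im_sum, Finset.sum_congr rfl fun i _ => ei i]
    calc _ ≤ ∑ i, wt i * ((a : ℝ) / 16777216) :=
          Finset.sum_le_sum fun i _ => mul_le_mul_of_nonneg_left
          (div_le_div_of_nonneg_right (by exact_mod_cast ha _ (hm i)) (by norm_num)) (w0 i)
      _ = (a : ℝ) / 16777216 := by rw [← Finset.sum_mul, ws, one_mul]

theorem UU24 : (Pool.Agent.Helper32.C75.UU : ℝ) = 16777216 := by
  unfold Pool.Agent.Helper32.C75.UU
  norm_num

/-- the conjugate number is near too -/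
theorem near_conj {C : List (ℕ × ℕ)} {rho : ℕ} {τ : ℂ} (h : Near C rho τ) (hi : τ.im < 0) :
    Near C rho (conj τ) := by
  obtain ⟨q, h1, h2⟩ := h
  refine ⟨q, h1, le_trans ?_ h2⟩
  have hq := (hull_re h1).2
  rw [← sq_le_sq₀ (norm_nonneg _) (norm_nonneg _), ← normSq_eq_norm_sq, ← normSq_eq_norm_sq,
    normSq_apply, normSq_apply]
  simp only [Complex.sub_re, Complex.sub_im, Complex.conj_re, Complex.conj_im]
  nlinarith

/-! ### the check of the powers -/

/-- the check of the powers (helper32) and of the box of `τ` -/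
def chA (D : BD) (A : AD) : Bool :=
  cell3 A.ax (D.tl.map fun T => T.V) A.K [D.Ta, D.Tc, D.Tb] D.rho A.H D.lq.length A.x0 A.x1
      A.y0 A.y1 A.T &&
    ([D.Ta, D.Tc, D.Tb].all fun c => Nat.ble (A.x0 + D.rho) c.1 && Nat.ble (c.1 + D.rho) A.x1 &&
      Nat.ble (c.2 + D.rho) A.y1 && (D.bj || Nat.ble D.rho c.2)) &&
    Nat.ble A.x1 16777216 && Nat.ble (A.y1 * A.y1) (4 * A.x0 * 16777216) &&
    (D.tl.all fun T => T.V.all fun v => Nat.ble D.e v.1)

theorem tpL_mem (n ng : ℕ) (r : List (TP Mo)) (l : List PD3) (T : TP Mo) :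
    T ∈ tpL n ng r l ↔ (∃ x ∈ l, T = tpM n ng x) ∨ T ∈ r := by
  induction l with
  | nil =>
    show T ∈ r ↔ _
    simp
  | cons y l ih =>
    show T ∈ tpM n ng y :: tpL n ng r l ↔ _
    rw [List.mem_cons, ih]
    constructor
    · rintro (h | ⟨x, hx, h⟩ | h)
      · exact Or.inl ⟨y, List.mem_cons_self .., h⟩
      · exact Or.inl ⟨x, List.mem_cons_of_mem _ hx, h⟩
      · exact Or.inr h
    · rintro (⟨x, hx, h⟩ | h)
      · rcases List.mem_cons.1 hx with rfl | hx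
        · exact Or.inl h
        · exact Or.inr (Or.inl ⟨x, hx, h⟩)
      · exact Or.inr (Or.inr h)

theorem tpB_mem0 (n : ℕ) (bj : Bool) {l : List PD3} {x : PD3} (hx : x ∈ l) :
    tpM n 0 x ∈ tpB n bj l := by
  cases bj with
  | false => exact (tpL_mem _ _ _ _ _).2 (Or.inl ⟨x, hx, rfl⟩)
  | true => exact (tpL_mem _ _ _ _ _).2 (Or.inl ⟨x, hx, rfl⟩)

theorem tpB_mem1 (n : ℕ) {l : List PD3} {x : PD3} (hx : x ∈ l) :
    tpM n 1 x ∈ tpB n true l :=
  (tpL_mem _ _ _ _ _).2 (Or.inr ((tpL_mem _ _ _ _ _).2 (Or.inl ⟨x, hx, rfl⟩)))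

variable {n : ℕ}

/-- the powers of `τ` are in the polygons -/
theorem chA_sound {D : BD} {A : AD} (h : chA D A = true) {τ : ℂ}
    (hN : Near [D.Ta, D.Tc, D.Tb] D.rho τ) (m : ℕ) (hm : D.lq.length ≤ m) :
    (∃ T ∈ tpB n D.bj D.tl, InP T (powA τ m)) ∧ (D.e : ℝ) / 16777216 ≤ (powA τ m).re := by
  unfold chA at h
  simp only [Bool.and_eq_true] at h
  obtain ⟨⟨⟨⟨hcell, hC⟩, hx1⟩, hy1⟩, he⟩ := h
  rw [List.all_eq_true] at hC he
  have hC' : ∀ c ∈ [D.Ta, D.Tc, D.Tb], A.x0 + D.rho ≤ c.1 ∧ c.1 + D.rho ≤ A.x1 ∧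
      c.2 + D.rho ≤ A.y1 ∧ (D.bj = true ∨ D.rho ≤ c.2) := by
    intro c hc
    have := hC c hc
    simp only [Bool.and_eq_true, Bool.or_eq_true] at this
    obtain ⟨⟨⟨h1, h2⟩, h3⟩, h4⟩ := this
    exact ⟨Nat.le_of_ble_eq_true h1, Nat.le_of_ble_eq_true h2, Nat.le_of_ble_eq_true h3,
      h4.imp id Nat.le_of_ble_eq_true⟩
  have he' : ∀ T ∈ D.tl, ∀ v ∈ T.V, D.e ≤ v.1 := by
    intro T hT v hv
    have := he T hT
    rw [List.all_eq_true] at this
    exact Nat.le_of_ble_eq_true (this v hv)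
  have hx1' : A.x1 ≤ 16777216 := Nat.le_of_ble_eq_true hx1
  have hy1' : A.y1 * A.y1 ≤ 4 * A.x0 * 16777216 := Nat.le_of_ble_eq_true hy1
  -- the box
  have box : ∀ σ : ℂ, Near [D.Ta, D.Tc, D.Tb] D.rho σ → (A.x0 : ℝ) / 16777216 ≤ σ.re ∧
      σ.re ≤ (A.x1 : ℝ) / 16777216 ∧ σ.im ≤ (A.y1 : ℝ) / 16777216 ∧
      (D.bj = false → 0 ≤ σ.im) := by
    intro σ hσ
    obtain ⟨q, h1, h2⟩ := hσ
    rw [UU24] at h2
    obtain ⟨q1, q2, q3, q4⟩ := hull_le h1
    have r1 := (abs_re_le_norm (σ - q)).trans h2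
    have r2 := (abs_im_le_norm (σ - q)).trans h2
    rw [Complex.sub_re] at r1
    rw [Complex.sub_im] at r2
    obtain ⟨r3, r4⟩ := abs_le.1 r1
    obtain ⟨r5, r6⟩ := abs_le.1 r2
    have s1 := q1 (A.x0 + D.rho) (fun x hx => (hC' x hx).1)
    have s2 := q2 (A.x1 - D.rho) (fun x hx => by have := (hC' x hx).2.1; omega)
    have s4 := q4 (A.y1 - D.rho) (fun x hx => by have := (hC' x hx).2.2.1; omega)
    have t1 : D.rho ≤ A.x1 := by have := (hC' D.Ta (by simp)).2.1; omega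
    have t2 : D.rho ≤ A.y1 := by have := (hC' D.Ta (by simp)).2.2.1; omega
    push_cast [Nat.cast_sub t1] at s1 s2
    push_cast [Nat.cast_sub t2] at s4
    rw [add_div] at s1
    rw [sub_div] at s2 s4
    refine ⟨by linarith, by linarith, by linarith, fun hb => ?_⟩
    have s3 := q3 D.rho (fun x hx => by
      rcases (hC' x hx).2.2.2 with h5 | h5
      · rw [hb] at h5; cases h5
      · exact h5)
    linarith
  -- one sign
  have main : ∀ σ : ℂ, Near [D.Ta, D.Tc, D.Tb] D.rho σ → 0 ≤ σ.im →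
      ∃ T ∈ D.tl, InHull T.V (powA σ m) := by
    intro σ hσ hi
    obtain ⟨b1, b2, b3, -⟩ := box σ hσ
    have hre : 0 ≤ σ.re := le_trans (by positivity) b1
    have hre1 : σ.re ≤ 1 := by
      refine b2.trans ?_
      rw [div_le_one (by norm_num)]
      exact_mod_cast hx1'
    have hq : σ.im ^ 2 ≤ 4 * σ.re := by
      have c1 : σ.im ^ 2 ≤ ((A.y1 : ℝ) / 16777216) ^ 2 := pow_le_pow_left₀ hi b3 2
      have c2 : ((A.y1 : ℝ) / 16777216) ^ 2 ≤ 4 * ((A.x0 : ℝ) / 16777216) := by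
        have c3 : ((A.y1 * A.y1 : ℕ) : ℝ) ≤ ((4 * A.x0 * 16777216 : ℕ) : ℝ) := by
          exact_mod_cast hy1'
        push_cast at c3
        rw [div_pow, ← mul_div_assoc, div_le_div_iff₀ (by norm_num) (by norm_num)]
        nlinarith
      linarith
    obtain ⟨V, hV, hV2⟩ := cell3_sound hcell hσ hi
      (by have := div_nonneg hi (by norm_num : (0 : ℝ) ≤ 100); rw [neg_div]; linarith)
      (fun _ i => powA_im hi hre1 hq i) m hm
    rw [List.mem_map] at hV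
    obtain ⟨T, hT, rfl⟩ := hV
    exact ⟨T, hT, hV2⟩
  rcases lt_or_ge τ.im 0 with hi | hi
  · have hb : D.bj = true := by
      cases hbj : D.bj with
      | true => rfl
      | false =>
        have := (box τ hN).2.2.2 hbj
        linarith
    obtain ⟨T, hT, h5⟩ := main (conj τ) (near_conj hN hi) (by rw [Complex.conj_im]; linarith)
    rw [powA_conj] at h5
    refine ⟨⟨tpM n 1 T, ?_, ?_⟩, ?_⟩
    · rw [hb]; exact tpB_mem1 n hT
    · show InHull T.V (sgz 1 (powA τ m))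
      exact h5
    · have := (hull_le h5).1 D.e (he' T hT)
      rwa [Complex.conj_re] at this
  · obtain ⟨T, hT, h5⟩ := main τ hN hi
    exact ⟨⟨tpM n 0 T, tpB_mem0 n D.bj hT, h5⟩, (hull_le h5).1 D.e (he' T hT)⟩

theorem lqL_len (n : ℕ) (l : List QT) : (lqL n l).length = l.length := by
  induction l with
  | nil => rfl
  | cons x l ih =>
    show (lqL n l).length + 1 = _
    rw [ih]; rfl

variable {t : ℝ} {w1 : Fin 1 → ℝ}

/-- THE TAIL -/
theorem tail_ok (hw : Wts w1) (h0 : 0 ≤ t) (h1 : t ≤ 1) {D : BD} {A : AD} (h : chA D A = true)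
    {τ g : ℂ} {S : Sc Mo} (hc : MOK 1 w1 t (1 - τ) S.c) (hg : MOK 1 w1 t g S.g) {a r : Mo}
    (hr : MOK 1 w1 t (sqR g τ D.lq.length) r) (ht : ttM D S a r = true) :
    TailOK τ g D.lq.length (tpB 1 D.bj D.tl) D.r0 := by
  have hU := UU_pos
  obtain ⟨t1, t2⟩ := andBt ht
  obtain ⟨t2, t3⟩ := andBt t2
  have hN := near_seg hw h0 h1 hc t3
  rw [sub_sub_cancel] at hN
  have t1' : ((nbM r : ℕ) : ℝ) ≤ D.r0 := by exact_mod_cast Nat.le_of_ble_eq_true t1
  have t2' : ((nbM S.g : ℕ) : ℝ) ≤ 281474976710656 + 16777216 * D.e := by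
    have := Nat.le_of_ble_eq_true t2
    have h5 : ((nbM S.g : ℕ) : ℝ) ≤
        ((Nat.add (nat_lit 281474976710656) (Nat.mul (nat_lit 16777216) D.e) : ℕ) : ℝ) := by
      exact_mod_cast this
    rw [nadd, nmul] at h5
    norm_num at h5 ⊢
    exact h5
  have g1 := (MOK.nb hw h0 h1 hg).trans t2'
  have r1 := (MOK.nb hw h0 h1 hr).trans t1'
  have key := rho_le (g := g) (τ := τ) (m0 := D.lq.length) (R0 := (D.r0 : ℝ) / UU)
    (e := (D.e : ℝ) / 16777216) (by positivity) (by rw [le_div_iff₀ hU]; exact r1) (by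
      rw [← le_div_iff₀ hU] at g1
      refine g1.trans (le_of_eq ?_)
      unfold UU
      ring) (fun q hq => (chA_sound (n := 1) h hN q hq).2)
  intro m hm
  refine ⟨(chA_sound h hN m hm).1, ?_⟩
  rw [← le_div_iff₀ hU]
  exact key m hm

end Pool.Agent.Helper57.KNB
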