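import Pool.Agent.Helper57.KNB.KO4

/-!
Row KNB, exact classes, part 5: soundness of one orientation in a cell.
-/

set_option autoImplicit false
noncomputable section
namespace Pool.Agent.Helper57.KNB

open Pool.Agent.Helper86.C75 (Z)
open Pool.Agent.Helper86.CX
open Pool.Agent.Helper90.C75
open Pool.Agent.Helper90.KMO
open Pool.Agent.Helper39.KNF (M6 M9 C9 QT tnP cM lM hd3 sMo mkX mkS segOK qd AD near_seg lv KIh Sm
  XOK kfs_len ev_KP_KIh)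
open Pool.Agent.Helper42.CH (powA)
open Pool.Agent.Helper32.C75 (pt InHull Near)
open Pool.Agent.Helper6.MONO (sD SbP omS kk zS trBs esBs tauBs lamS RMb zS_om zS_nx2 LNI_kk
  LNI_kk_symm)
open Pool.Agent.Helper21.SUP
open Complex ComplexConjugate

variable {t : ℝ} {w1 : Fin 1 → ℝ}

theorem mOK_eq {n : ℕ} {wc : Fin n → ℝ} {f g : ℂ} {M : Mo} (h : MOK n wc t f M) (e : f = g) :
    MOK n wc t g M := e ▸ h

/-- forms of the table -/
theorem fmK_ok {KTs : List K2} (hT : KTs.length = 1) (k : ℕ) :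
    HOK (MOK 1 w1 t) (KIh 1 w1 t (kfs KTs k)) (fmK 1 KTs k) := by
  have h := XOK.mkX (n := 1) (wc := w1) (t := t) one_pos (X := kfs KTs k) (by rw [kfs_len, hT])
  exact ⟨h.a, h.b, h.c, h.x, h.y, h.w⟩

theorem f9_ok (hw : Wts w1) (h0 : 0 ≤ t) (h1 : t ≤ 1) (S : C9) :
    FOK (MOK 1 w1 t) (Sm S) (f9 (mkS 1 S)) := by
  have h := Pool.Agent.Helper39.KNF.FOK.mkS (n := 1) one_pos hw h0 h1 S
  exact ⟨h.a, h.b, h.c, h.d, h.e, h.f, h.g, h.h, h.i⟩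

theorem ldQ_ok (hw : Wts w1) (h0 : 0 ≤ t) (h1 : t ≤ 1) {q : QT} (h : qOK q = true) :
    LOK (MOK 1 w1 t) (ldQ 1 q) := by
  obtain ⟨a, b⟩ := andBt h
  have a' : (1 : ℝ) ≤ q.s := by exact_mod_cast Nat.le_of_ble_eq_true a
  have b' : (1 : ℝ) ≤ q.t := by exact_mod_cast Nat.le_of_ble_eq_true b
  refine ⟨lv t q, ?_, Pool.Agent.Helper39.KNF.MOK.lM one_pos hw q⟩
  unfold lv
  apply div_pos _ (by positivity)
  nlinarith

theorem qsOK_mem {l : List QT} (h : qsOK l = true) {x : QT} (hx : x ∈ l) : qOK x = true := by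
  induction l with
  | nil => cases hx
  | cons y l ih =>
    obtain ⟨a, b⟩ := andBt (show andB (qOK y) (qsOK l) = true from h)
    rcases List.mem_cons.1 hx with rfl | hx
    · exact a
    · exact ih b hx

theorem sdOK_mem {l : List SD} (h : sdOK l = true) {x : SD} (hx : x ∈ l) : qOK x.q = true := by
  induction l with
  | nil => cases hx
  | cons y l ih =>
    obtain ⟨a, b⟩ := andBt (show andB (qOK y.q) (sdOK l) = true from h)
    rcases List.mem_cons.1 hx with rfl | hx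
    · exact a
    · exact ih b hx

theorem pdOK_mem {l : List PD3} (h : pdOK l = true) {x : PD3} (hx : x ∈ l) : qOK x.q = true := by
  induction l with
  | nil => cases hx
  | cons y l ih =>
    obtain ⟨a, b⟩ := andBt (show andB (qOK y.q) (pdOK l) = true from h)
    rcases List.mem_cons.1 hx with rfl | hx
    · exact a
    · exact ih b hx

theorem lqL_mem {l : List QT} (h : qsOK l = true) (hw : Wts w1) (h0 : 0 ≤ t) (h1 : t ≤ 1) :
    ∀ x ∈ lqL 1 l, LOK (MOK 1 w1 t) x := by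
  induction l with
  | nil => intro x hx; cases hx
  | cons y l ih =>
    obtain ⟨a, b⟩ := andBt (show andB (qOK y) (qsOK l) = true from h)
    intro x hx
    rcases List.mem_cons.1 (show x ∈ ldQ 1 y :: lqL 1 l from hx) with rfl | hx
    · exact ldQ_ok hw h0 h1 a
    · exact ih b x hx

theorem tpB_mem {bj : Bool} {l : List PD3} (h : pdOK l = true) (hw : Wts w1) (h0 : 0 ≤ t)
    (h1 : t ≤ 1) : ∀ T ∈ tpB 1 bj l, LOK (MOK 1 w1 t) T.l := by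
  have key : ∀ ng (r : List (TP Mo)), (∀ T ∈ r, LOK (MOK 1 w1 t) T.l) →
      ∀ T ∈ tpL 1 ng r l, LOK (MOK 1 w1 t) T.l := by
    intro ng r hr T hT
    rcases (tpL_mem _ _ _ _ _).1 hT with ⟨x, hx, rfl⟩ | hT
    · exact ldQ_ok hw h0 h1 (pdOK_mem h hx)
    · exact hr T hT
  cases bj with
  | false => exact key 0 [] (fun T hT => by cases hT)
  | true => exact key 0 _ (key 1 [] (fun T hT => by cases hT))

theorem srL_mem {n : ℕ} {KTs : List K2} {l : List SD} {x : SD} (hx : x ∈ l) :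
    (⟨fmK n KTs x.k, ldQ n x.q⟩ : SrcT Mo) ∈ srL n KTs l := by
  induction l with
  | nil => cases hx
  | cons y l ih =>
    show _ ∈ (⟨fmK n KTs y.k, ldQ n y.q⟩ : SrcT Mo) :: srL n KTs l
    rcases List.mem_cons.1 hx with rfl | hx
    · exact List.mem_cons_self ..
    · exact List.mem_cons_of_mem _ (ih hx)

variable {p q r : ℕ} {w : ℂ}

/-- ONE ORIENTATION IN A CELL -/
theorem chBo_sound (hp : 3 ≤ p) (hq : 3 ≤ q) (hr : 3 ≤ r) (hw : Wts w1) (h0 : 0 ≤ t) (h1 : t ≤ 1)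
    {s0 : GS} (hs : DG s0) (hom : ∀ s, DG s → omS p q r s w ≠ 0) (hz : zS s0 w ≠ 0)
    {l0 l1 l2 k0 k1 k2 z zi : Mo}
    (hl0 : MOK 1 w1 t ((lamS p q r s0 : ℝ) : ℂ) l0)
    (hl1 : MOK 1 w1 t ((lamS p q r (nx s0 2) : ℝ) : ℂ) l1)
    (hl2 : MOK 1 w1 t ((lamS p q r (nx (nx s0 2) 2) : ℝ) : ℂ) l2)
    (hk0 : MOK 1 w1 t ((kk p q r s0.1 s0.2.1 : ℝ) : ℂ) k0)
    (hk1 : MOK 1 w1 t ((kk p q r s0.2.1 s0.2.2 : ℝ) : ℂ) k1)
    (hk2 : MOK 1 w1 t ((kk p q r s0.1 s0.2.2 : ℝ) : ℂ) k2)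
    (hzz : MOK 1 w1 t (zS s0 w) z) (hzi : MOK 1 w1 t (zS s0 w)⁻¹ zi)
    {KTs : List K2} (hT : KTs.length = 1) {D : BD} {A : AD} (hA : chA D A = true)
    {Kt : GS → Hm ℝ} (e0 : Kt s0 = KIh 1 w1 t (kfs KTs D.t0))
    (e1 : Kt (nx s0 2) = KIh 1 w1 t (kfs KTs D.t1))
    (e2 : Kt (nx (nx s0 2) 2) = KIh 1 w1 t (kfs KTs D.t2))
    (h : chBo l0 l1 l2 k0 k1 k2 z zi KTs D = true) :
    ∃ ν, OTh (MOK 1 w1 t) p q r w s0 (KIh 1 w1 t (kfs KTs D.ke)) (KIh 1 w1 t (kfs KTs D.kx)) Kt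
      (mkOI 1 l0 l1 l2 k0 k1 k2 z zi KTs D) ν := by
  have hAr := arM_sound (n := 1) one_pos hw h0 h1
  obtain ⟨b0, h⟩ := andBt h
  obtain ⟨b1, h⟩ := andBt h
  obtain ⟨b2, h⟩ := andBt h
  obtain ⟨b3, h⟩ := andBt h
  obtain ⟨c0, b0⟩ := andBt b0
  obtain ⟨c1, b0⟩ := andBt b0
  obtain ⟨c2, b0⟩ := andBt b0
  obtain ⟨c3, b0⟩ := andBt b0
  obtain ⟨c4, b0⟩ := andBt b0
  obtain ⟨c5, b0⟩ := andBt b0
  obtain ⟨c6, b0⟩ := andBt b0
  obtain ⟨c7, b0⟩ := andBt b0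
  obtain ⟨c8, b0⟩ := andBt b0
  obtain ⟨c9, c10⟩ := andBt b0
  have hs' := DG_nx s0 2 hs
  have hs'' := DG_nx _ 2 hs'
  have n1 : nx s0 2 = (s0.2.1, s0.2.2, s0.1) := nx_even s0 2 rfl
  have n2 : nx (nx s0 2) 2 = (s0.2.2, s0.1, s0.2.1) := by rw [nx_even _ 2 rfl, n1]
  have p1 := (LNI_kk hp hq hr _ _ hs.1).1
  have p2 := (LNI_kk hp hq hr _ _ hs'.1).1
  have p3 := (LNI_kk hp hq hr _ _ hs''.1).1
  rw [n1] at p2
  rw [n2] at p3
  have p3' : 0 < kk p q r s0.1 s0.2.2 := by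
    have : kk p q r s0.1 s0.2.2 = kk p q r s0.2.2 s0.1 := LNI_kk_symm p q r _ _
    rw [this]; exact p3
  have S0 := Pool.Agent.Helper39.KNF.MOK.sMo one_pos hw h0 h1 p1.ne' hk0 b1
  have S1 := Pool.Agent.Helper39.KNF.MOK.sMo one_pos hw h0 h1 p2.ne' hk1 b2
  have S2 := Pool.Agent.Helper39.KNF.MOK.sMo one_pos hw h0 h1 p3'.ne' hk2 b3
  have mul := fun {f g : ℂ} {x y : Mo} (hx : MOK 1 w1 t f x) (hy : MOK 1 w1 t g y) =>
    MOK.mul one_pos hw h0 h1 hx hy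
  have hI : OIK (MOK 1 w1 t) p q r s0 w (KIh 1 w1 t (kfs KTs D.ke)) (KIh 1 w1 t (kfs KTs D.kx))
      (Sm D.B) Kt (mkOI 1 l0 l1 l2 k0 k1 k2 z zi KTs D) := by
    refine ⟨hl0, hl1, hl2, S0, ?_, ?_, hzz, hzi, ?_, ?_, ?_, ?_, ?_, ?_, fmK_ok hT _, fmK_ok hT _,
      f9_ok hw h0 h1 _, ldQ_ok hw h0 h1 c0, ldQ_ok hw h0 h1 c1, ldQ_ok hw h0 h1 c2,
      ldQ_ok hw h0 h1 c3, ldQ_ok hw h0 h1 c4, ldQ_ok hw h0 h1 c5, lqL_mem c9 hw h0 h1,
      tpB_mem c10 hw h0 h1⟩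
    · unfold sS; rw [n1]; exact S1
    · unfold sS; rw [n2]
      have : kk p q r s0.2.2 s0.1 = kk p q r s0.1 s0.2.2 := LNI_kk_symm p q r _ _
      rw [show kk p q r ((s0.2.2, s0.1, s0.2.1) : GS).1 ((s0.2.2, s0.1, s0.2.1) : GS).2.1 =
        kk p q r s0.2.2 s0.1 from rfl, this]
      exact S2
    · exact mOK_eq (mul (mul hk0 hk1) hk2) (by push_cast; ring)
    · refine mOK_eq (((mul hk0 hk0).add ((mul hk1 hk1).add (mul hk2 hk2))).sub (ok3 hAr)) ?_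
      push_cast
      ring
    · refine ⟨avg (wq w1 t) (Fv 1 (Pool.Agent.Helper39.KNF.repC 1 D.v)) / UU, ?_, ?_⟩
      · exact vok_mk one_pos (Pool.Agent.Helper39.KNF.len_repC _ _) _
      · show ‖(UU : ℂ) * (avg (wq w1 t) (Fv 1 (Pool.Agent.Helper39.KNF.repC 1 D.v)) / UU) -
          avg (wq w1 t) (Fv 1 (Pool.Agent.Helper39.KNF.repC 1 D.v))‖ ≤ ((nat_lit 0 : ℕ) : ℝ)
        have : (UU : ℂ) ≠ 0 := UUc_ne
        rw [mul_div_cancel₀ _ this, sub_self, norm_zero]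
        exact Nat.cast_nonneg _
    · rw [e0]; exact fmK_ok hT _
    · rw [e1]; exact fmK_ok hT _
    · rw [e2]; exact fmK_ok hT _
  refine chO_sound hAr hp hq hr hs (hom _ hs) (hom _ hs') (hom _ hs'') hz hI (Tt := ttM D) ?_ h
  intro ν S a b hν hsp hS ha hb ht
  have elen : (mkOI 1 l0 l1 l2 k0 k1 k2 z zi KTs D).lq.length = D.lq.length := lqL_len 1 D.lq
  rw [elen] at hb ⊢
  refine tail_ok hw h0 h1 hA ?_ hS.g hb ht
  refine mOK_eq hS.c ?_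
  unfold tauBs
  ring

end Pool.Agent.Helper57.KNB
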