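import Pool.Agent.Helper57.KNB.KO5
import Pool.Agent.Helper39.CX.TYP

/-!
Row KNB, exact classes, part 6: THE B TESTS OF A CELL: hypothesis `hB1` of `typ_cert`.
-/

set_option autoImplicit false
noncomputable section
namespace Pool.Agent.Helper57.KNB

open Pool.Agent.Helper86.C75 (Z)
open Pool.Agent.Helper86.CX
open Pool.Agent.Helper90.C75
open Pool.Agent.Helper90.KMO
open Pool.Agent.Helper39.KNF (M6 M9 C9 QT AD KIh ev_KP_KIh)
open Pool.Agent.Helper39.SLT (T4 ML)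
open Pool.Agent.Helper6.MONO (sD SbP omS kk zS trBs esBs tauBs lamS RMb zS_om zS_nx2 LNI_kk
  LNI_kk_symm oriZ mm)
open Pool.Agent.Helper21.SUP
open Complex ComplexConjugate

/-! ### the covering of the sources -/

/-- the types which need the family, for the star of order `M'` just left -/
def srcT (M' : ℕ) : List T4 :=
  (if M' = 3 then [] else [T4.three]) ++ (if 5 ≤ M' then [T4.oth] else [])

theorem mem_srcT {M' : ℕ} {T : T4} (h1 : T.ok M') (h2 : T.low M' ≤ 2) (h3 : T ≠ T4.two) :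
    T ∈ srcT M' := by
  unfold srcT
  cases T with
  | two => exact absurd rfl h3
  | three =>
    have h4 : ¬ (M' = 3) := by
      intro h
      have h5 : (if M' = 3 then 3 else 2) ≤ 2 := h2
      rw [if_pos h] at h5
      omega
    rw [if_neg h4]
    simp
  | oth =>
    have h5 : 5 ≤ M' := h1
    rw [if_pos h5]
    simp
  | full =>
    have h5 : (3 : ℕ) ≤ 2 := h2
    omega

/-- all numbers of the data are right -/
def covD (idx : GS → T4 → ℕ) (p q r : ℕ) (s0 : GS) (D : BD) : Bool :=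
  Nat.beq D.t0 (idx s0 T4.two) && Nat.beq D.t1 (idx (nx s0 2) T4.two) &&
    Nat.beq D.t2 (idx (nx (nx s0 2) 2) T4.two) &&
    ((srcT (ML p q r s0)).all fun T => D.q0.any fun x => Nat.beq x.k (idx s0 T)) &&
    ((srcT (ML p q r (nx s0 2))).all fun T => D.q1.any fun x => Nat.beq x.k (idx (nx s0 2) T)) &&
    ((srcT (ML p q r (nx (nx s0 2) 2))).all fun T =>
      D.q2.any fun x => Nat.beq x.k (idx (nx (nx s0 2) 2) T))

theorem covD_src {l : List SD} {f : T4 → ℕ} {L : List T4}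
    (h : (L.all fun T => l.any fun x => Nat.beq x.k (f T)) = true) {T : T4} (hT : T ∈ L) :
    ∃ x ∈ l, x.k = f T := by
  rw [List.all_eq_true] at h
  have := h T hT
  rw [List.any_eq_true] at this
  obtain ⟨x, hx, h2⟩ := this
  exact ⟨x, hx, Nat.eq_of_beq_eq_true h2⟩

variable {t : ℝ} {w1 : Fin 1 → ℝ} {p q r : ℕ} {w : ℂ}

/-- the region of form number `k` -/
def RP (w1 : Fin 1 → ℝ) (t : ℝ) (KTs : List K2) (k : ℕ) : Set (Fin 3 → ℂ) :=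
  {v | 0 < ev (Pool.Agent.Helper21.KCE.KP 1 w1 t (kfs KTs k)) v}

theorem RP_eq (KTs : List K2) (k : ℕ) :
    RP w1 t KTs k = Pos (KIh 1 w1 t (kfs KTs k)) := by
  ext v
  show 0 < ev (Pool.Agent.Helper21.KCE.KP 1 w1 t (kfs KTs k)) v ↔ 0 < ev (KIh 1 w1 t (kfs KTs k)) v
  rw [ev_KP_KIh]
  exact mul_pos_iff_of_pos_left (by positivity)

/-- `hB1` at the three states of an orientation -/
structure HB3 (idx : GS → T4 → ℕ) (p q r : ℕ) (w : ℂ) (R : ℕ → Set (Fin 3 → ℂ)) (s : GS) : Prop where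
  h : ∀ T : T4, T.ok (ML p q r s) → T.low (ML p q r s) ≤ 2 → T ≠ T4.two → ∀ k : ℕ,
    ∀ v ∈ R (idx s T), (gM (RMb p q r) s (List.replicate (k + 1) 2) w).mulVec v ∈
      R (idx (sD s (List.replicate (k + 1) 2)) T4.two)

/-- ONE ORIENTATION -/
theorem chBo_hB (hp : 3 ≤ p) (hq : 3 ≤ q) (hr : 3 ≤ r) (hw : Wts w1) (h0 : 0 ≤ t) (h1 : t ≤ 1)
    {s0 : GS} (hs : DG s0) (hom : ∀ s, DG s → omS p q r s w ≠ 0) (hz : zS s0 w ≠ 0)
    {l0 l1 l2 k0 k1 k2 z zi : Mo}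
    (hl0 : MOK 1 w1 t ((lamS p q r s0 : ℝ) : ℂ) l0)
    (hl1 : MOK 1 w1 t ((lamS p q r (nx s0 2) : ℝ) : ℂ) l1)
    (hl2 : MOK 1 w1 t ((lamS p q r (nx (nx s0 2) 2) : ℝ) : ℂ) l2)
    (hk0 : MOK 1 w1 t ((kk p q r s0.1 s0.2.1 : ℝ) : ℂ) k0)
    (hk1 : MOK 1 w1 t ((kk p q r s0.2.1 s0.2.2 : ℝ) : ℂ) k1)
    (hk2 : MOK 1 w1 t ((kk p q r s0.1 s0.2.2 : ℝ) : ℂ) k2)
    (hzz : MOK 1 w1 t (zS s0 w) z) (hzi : MOK 1 w1 t (zS s0 w)⁻¹ zi)
    {KTs : List K2} (hT : KTs.length = 1) {D : BD} {A : AD} (hA : chA D A = true)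
    {idx : GS → T4 → ℕ} (hc : covD idx p q r s0 D = true)
    (h : chBo l0 l1 l2 k0 k1 k2 z zi KTs D = true)
    (hd : ∀ T : T4, T.ok (ML p q r (nx s0 2)) → T.low (ML p q r (nx s0 2)) ≤ 2 → T ≠ T4.two →
      ∀ v ∈ RP w1 t KTs (idx (nx s0 2) T),
        (RMb p q r (nx s0 2) 2 w).mulVec v ∈ RP w1 t KTs (idx (nx (nx s0 2) 2) T4.two)) :
    HB3 idx p q r w (RP w1 t KTs) s0 ∧ HB3 idx p q r w (RP w1 t KTs) (nx s0 2) ∧
      HB3 idx p q r w (RP w1 t KTs) (nx (nx s0 2) 2) := by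
  unfold covD at hc
  simp only [Bool.and_eq_true] at hc
  obtain ⟨⟨⟨⟨⟨c0, c1⟩, c2⟩, c3⟩, c4⟩, c5⟩ := hc
  have c0' := Nat.eq_of_beq_eq_true c0
  have c1' := Nat.eq_of_beq_eq_true c1
  have c2' := Nat.eq_of_beq_eq_true c2
  obtain ⟨ν, hO⟩ := chBo_sound (Kt := fun s => KIh 1 w1 t (kfs KTs (idx s T4.two))) hp hq hr hw h0
    h1 hs hom hz hl0 hl1 hl2 hk0 hk1 hk2 hzz hzi hT hA (by rw [c0']) (by rw [c1']) (by rw [c2']) h
  obtain ⟨P0, P2, P1⟩ := hO.pow hp hq hr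
  have hb : bdOK D = true := (andBt h).1
  obtain ⟨-, hb⟩ := andBt hb
  obtain ⟨-, hb⟩ := andBt hb
  obtain ⟨-, hb⟩ := andBt hb
  obtain ⟨-, hb⟩ := andBt hb
  obtain ⟨-, hb⟩ := andBt hb
  obtain ⟨-, hb⟩ := andBt hb
  obtain ⟨d0, hb⟩ := andBt hb
  obtain ⟨d2, hb⟩ := andBt hb
  obtain ⟨d1, hb⟩ := andBt hb
  refine ⟨⟨fun T a b c k v hv => ?_⟩, ⟨fun T a b c k v hv => ?_⟩, ⟨fun T a b c k v hv => ?_⟩⟩
  · obtain ⟨x, hx, hk⟩ := covD_src c3 (mem_srcT a b c)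
    rw [RP_eq] at hv ⊢
    rw [← hk] at hv
    exact P0 _ (srL_mem hx) _ (fmK_ok hT _) (ldQ_ok hw h0 h1 (sdOK_mem d0 hx)) k v hv
  · obtain ⟨x, hx, hk⟩ := covD_src c4 (mem_srcT a b c)
    have hd' : ∀ v ∈ Pos (KIh 1 w1 t (kfs KTs x.k)), (RMb p q r (nx s0 2) 2 w).mulVec v ∈
        Pos (KIh 1 w1 t (kfs KTs (idx (nx (nx s0 2) 2) T4.two))) := by
      intro u hu
      have := hd T a b c u (by rw [RP_eq, ← hk]; exact hu)
      rwa [RP_eq] at this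
    rw [RP_eq] at hv ⊢
    rw [← hk] at hv
    exact P1 _ (srL_mem hx) _ (fmK_ok hT _) (ldQ_ok hw h0 h1 (sdOK_mem d1 hx)) hd' k v hv
  · obtain ⟨x, hx, hk⟩ := covD_src c5 (mem_srcT a b c)
    rw [RP_eq] at hv ⊢
    rw [← hk] at hv
    exact P2 _ (srL_mem hx) _ (fmK_ok hT _) (ldQ_ok hw h0 h1 (sdOK_mem d2 hx)) k v hv

/-- THE B TESTS OF A CELL, models of `z`, `1 / z` given -/
theorem chB2_sound (hp : 3 ≤ p) (hq : 3 ≤ q) (hr : 3 ≤ r) (hom : ∀ s, DG s → omS p q r s w ≠ 0)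
    {z : ℂ} (hzw : z = (1 + w) / (1 - w)) (hz : z ≠ 0)
    (hw : Wts w1) (h0 : 0 ≤ t) (h1 : t ≤ 1) {k0 k1 k2 : Mo}
    (a0 : MOK 1 w1 t (Pool.Agent.Helper6.MONO.Kp p : ℂ) k0)
    (a1 : MOK 1 w1 t (Pool.Agent.Helper6.MONO.Kp q : ℂ) k1)
    (a2 : MOK 1 w1 t (Pool.Agent.Helper6.MONO.Kp r : ℂ) k2)
    {κ : Fin 3 → ℂ} (e0 : κ 0 = Pool.Agent.Helper6.MONO.Kp p)
    (e1 : κ 1 = Pool.Agent.Helper6.MONO.Kp q)
    (e2 : κ 2 = Pool.Agent.Helper6.MONO.Kp r) {C : Cls} (hC : CLK 1 w1 t κ C) {U Zm : Mo}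
    (hU : MOK 1 w1 t z⁻¹ U) (hZ : MOK 1 w1 t z Zm) {KTs : List K2} (hT : KTs.length = 1)
    {Dp Dm : BD} (h : chB2 k0 k1 k2 C Dp Dm U Zm KTs = true) {Ap Am : AD}
    (b0 : chA Dp Ap = true) (b1 : chA Dm Am = true) {idx : GS → T4 → ℕ}
    (cp : covD idx p q r (0, 1, 2) Dp = true) (cm : covD idx p q r (0, 2, 1) Dm = true)
    (hd : ∀ s, (s = (1, 2, 0) ∨ s = (2, 1, 0)) → ∀ T : T4, T.ok (ML p q r s) →
      T.low (ML p q r s) ≤ 2 → T ≠ T4.two → ∀ v ∈ RP w1 t KTs (idx s T),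
        (RMb p q r s 2 w).mulVec v ∈ RP w1 t KTs (idx (nx s 2) T4.two)) :
    ∀ s, DG s → ∀ T : T4, T.ok (ML p q r s) → T.low (ML p q r s) ≤ 2 → T ≠ T4.two → ∀ k : ℕ,
      ∀ v ∈ RP w1 t KTs (idx s T), (gM (RMb p q r) s (List.replicate (k + 1) 2) w).mulVec v ∈
        RP w1 t KTs (idx (sD s (List.replicate (k + 1) 2)) T4.two) := by
  obtain ⟨g0, g1⟩ := andBt h
  have l0 := hC.l0
  have l1 := hC.l1
  have l2 := hC.l2
  rw [e0, e1, e2] at l0 l1 l2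
  have f : ∀ a b c : ℝ, (2 * (c : ℂ) / ((a : ℂ) * (b : ℂ))) = ((2 * c / (a * b) : ℝ) : ℂ) := by
    intro a b c
    push_cast
    rfl
  rw [f] at l0 l1 l2
  have dp : DG ((0, 1, 2) : GS) := ⟨by decide, by decide, by decide⟩
  have dm : DG ((0, 2, 1) : GS) := ⟨by decide, by decide, by decide⟩
  have zp : zS ((0, 1, 2) : GS) w = z⁻¹ := by
    unfold zS
    rw [if_neg (by decide), hzw, inv_div]
  have zm : zS ((0, 2, 1) : GS) w = z := by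
    unfold zS
    rw [if_pos (by decide), hzw]
  have s20 : kk p q r 0 2 = kk p q r 2 0 := LNI_kk_symm p q r 0 2
  have s10 : kk p q r 1 0 = kk p q r 0 1 := LNI_kk_symm p q r 1 0
  have s21 : kk p q r 2 1 = kk p q r 1 2 := LNI_kk_symm p q r 2 1
  have q01 : kk p q r 0 1 = Pool.Agent.Helper6.MONO.Kp p := rfl
  have q12 : kk p q r 1 2 = Pool.Agent.Helper6.MONO.Kp q := rfl
  have q20 : kk p q r 2 0 = Pool.Agent.Helper6.MONO.Kp r := rfl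
  have nx1 : nx ((0, 1, 2) : GS) 2 = (1, 2, 0) := nx_even _ 2 rfl
  have nx2 : nx ((1, 2, 0) : GS) 2 = (2, 0, 1) := nx_even _ 2 rfl
  have mx1 : nx ((0, 2, 1) : GS) 2 = (2, 1, 0) := nx_even _ 2 rfl
  have mx2 : nx ((2, 1, 0) : GS) 2 = (1, 0, 2) := nx_even _ 2 rfl
  have hp3 := chBo_hB hp hq hr hw h0 h1 (s0 := (0, 1, 2)) dp hom (by rw [zp]; exact inv_ne_zero hz)
    (l0 := C.l0) (l1 := C.l1) (l2 := C.l2) (k0 := k0) (k1 := k1) (k2 := k2) (z := U) (zi := Zm)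
    (mOK_eq l0 (by
      show _ = ((2 * kk p q r 1 2 / (kk p q r 0 1 * kk p q r 0 2) : ℝ) : ℂ)
      rw [s20, q01, q12, q20]))
    (by
      rw [nx1]
      exact mOK_eq l1 (by
        show _ = ((2 * kk p q r 2 0 / (kk p q r 1 2 * kk p q r 1 0) : ℝ) : ℂ)
        rw [s10, q01, q12, q20]))
    (by
      rw [nx1, nx2]
      exact mOK_eq l2 (by
        show _ = ((2 * kk p q r 0 1 / (kk p q r 2 0 * kk p q r 2 1) : ℝ) : ℂ)
        rw [s21, q01, q12, q20]))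
    a0 a1 (mOK_eq a2 (by
      show _ = ((kk p q r 0 2 : ℝ) : ℂ)
      rw [s20, q20])) (by rw [zp]; exact hU) (by rw [zp, inv_inv]; exact hZ) hT b0 cp g0
    (by
      rw [nx1]
      intro T a b c v hv
      have := hd (1, 2, 0) (Or.inl rfl) T a b c v hv
      exact this)
  have hm3 := chBo_hB hp hq hr hw h0 h1 (s0 := (0, 2, 1)) dm hom (by rw [zm]; exact hz)
    (l0 := C.l0) (l1 := C.l2) (l2 := C.l1) (k0 := k2) (k1 := k1) (k2 := k0) (z := Zm) (zi := U)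
    (mOK_eq l0 (by
      show _ = ((2 * kk p q r 2 1 / (kk p q r 0 2 * kk p q r 0 1) : ℝ) : ℂ)
      rw [s20, s21, q01, q12, q20, mul_comm (Pool.Agent.Helper6.MONO.Kp r)]))
    (by
      rw [mx1]
      exact mOK_eq l2 (by
        show _ = ((2 * kk p q r 1 0 / (kk p q r 2 1 * kk p q r 2 0) : ℝ) : ℂ)
        rw [s10, s21, q01, q12, q20, mul_comm (Pool.Agent.Helper6.MONO.Kp q)]))
    (by
      rw [mx1, mx2]
      exact mOK_eq l1 (by
        show _ = ((2 * kk p q r 0 2 / (kk p q r 1 0 * kk p q r 1 2) : ℝ) : ℂ)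
        rw [s10, s20, q01, q12, q20, mul_comm (Pool.Agent.Helper6.MONO.Kp p)]))
    (mOK_eq a2 (by
      show _ = ((kk p q r 0 2 : ℝ) : ℂ)
      rw [s20, q20]))
    (mOK_eq a1 (by
      show _ = ((kk p q r 2 1 : ℝ) : ℂ)
      rw [s21, q12])) a0 (by rw [zm]; exact hZ) (by rw [zm]; exact hU) hT b1 cm g1
    (by
      rw [mx1]
      intro T a b c v hv
      exact hd (2, 1, 0) (Or.inr rfl) T a b c v hv)
  rw [nx1, nx2] at hp3
  rw [mx1, mx2] at hm3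
  obtain ⟨u0, u1, u2⟩ := hp3
  obtain ⟨v0, v1, v2⟩ := hm3
  intro s hs
  have hall : s = (0, 1, 2) ∨ s = (1, 2, 0) ∨ s = (2, 0, 1) ∨ s = (0, 2, 1) ∨ s = (2, 1, 0) ∨
      s = (1, 0, 2) := by
    obtain ⟨n, a, b⟩ := s
    obtain ⟨d1, d2, d3⟩ := hs
    simp only at d1 d2 d3
    revert n a b
    decide
  rcases hall with rfl | rfl | rfl | rfl | rfl | rfl
  · exact u0.h
  · exact u1.h
  · exact u2.h
  · exact v0.h
  · exact v1.h
  · exact v2.h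

end Pool.Agent.Helper57.KNB
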