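import Pool.Agent.Helper57.KNB.KO6
import Pool.Agent.Helper39.CX.NCM

/-!
Row KNB, exact classes, part 7: the B tests of the near cells of a module. The test of a cell is a
parameter (`chB2` or a faster test with the same soundness `BOK`).
-/

set_option autoImplicit false
noncomputable section
namespace Pool.Agent.Helper57.KNB

open Pool.Agent.Helper86.C75 (Z)
open Pool.Agent.Helper86.CX
open Pool.Agent.Helper90.C75
open Pool.Agent.Helper90.KMO
open Pool.Agent.Helper39.KNF (AD)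
open Pool.Agent.Helper39.SLT (T4 ML)
open Pool.Agent.Helper39.NCL (ND PtR BCell BPt hasR run_of)
open Pool.Agent.Helper6.PRG
open Pool.Agent.Helper6.MID
open Pool.Agent.Helper6.PIE
open Pool.Agent.Helper6.MONO (sD omS kk mm RMb kb kap_enc zw)
open Pool.Agent.Helper21.SUP (GS DG nx)
open Complex ComplexConjugate

/-! ### kernel side -/

/-- the type of the B test of a cell -/
abbrev BTy := Mo → Mo → Mo → Cls → BD → BD → Mo → Mo → List K2 → Bool

/-- data of a cell -/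
structure B2 where
  p : BD
  m : BD

def chBN1 (F : BTy) (k0 k1 k2 : Mo) (C : Cls) (B : B2) (m : Nat) (x u z : Mo) (KTs : List K2) :
    Bool :=
  F k0 k1 k2 C B.p B.m (uM m x u z) (zM x (uM m x u z) z) KTs
/-- the B tests of a cell -/
def chBN (F : BTy) (k0 k1 k2 : Mo) (C : Cls) (X : Z) (d : CellD) (B : B2) : Bool :=
  chBN1 F k0 k1 k2 C B d.m (mk (nat_lit 1) (xsC X d.ya d.yb) (nat_lit 32))
    (mk (nat_lit 1) [d.u] (nat_lit 0))
    (mk (nat_lit 1) (zipL sub3 (xsC X d.ya d.yb) [d.u]) (nat_lit 0)) [d.K]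
/-- THE B TESTS OF A LIST OF NEAR CELLS -/
def chBL (F : BTy) (k0 k1 k2 : Mo) (C : Cls) (X : Z) (l : List ND) : List B2 → Bool :=
  List.rec (motive := fun _ => List B2 → Bool) (fun _ => true)
    (fun d _ ih Bs => List.rec (motive := fun _ => Bool) false
      (fun B Bt _ => andB (chBN F k0 k1 k2 C X d.c B) (ih Bt)) Bs) l

/-! ### side conditions -/

structure A2 where
  p : AD
  m : AD

/-- the single runs of two letters at the states `(1, 2, 0)` and `(2, 1, 0)` -/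
def covB1 (a b c : ℕ) (G : Prog) (s : GS) : Bool :=
  (tys (ML a b c s)).all fun T =>
    if T.low (ML a b c s) ≤ 2 then
      if T = T4.two then true else
      hasR a b c G (giS s) 2 (kidx a b c (nx s 2) T4.two) (kidx a b c s T) else true
def covB (a b c : ℕ) (G : Prog) : Bool := covB1 a b c G (1, 2, 0) && covB1 a b c G (2, 1, 0)

def sideB (a b c : ℕ) (B : B2) (A : A2) : Bool :=
  chA B.p A.p && (chA B.m A.m && (covD (kidx a b c) a b c (0, 1, 2) B.p &&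
    covD (kidx a b c) a b c (0, 2, 1) B.m))
def sideBL (a b c : ℕ) : List B2 → List A2 → Bool
  | [], _ => true
  | _ :: _, [] => false
  | B :: l, A :: l' => sideB a b c B A && sideBL a b c l l'

/-! ### soundness -/

/-- SOUNDNESS OF A B TEST -/
def BOK (F : BTy) : Prop :=
  ∀ {t : ℝ} {w1 : Fin 1 → ℝ} {p q r : ℕ} {w : ℂ}, 3 ≤ p → 3 ≤ q → 3 ≤ r →
    (∀ s, DG s → omS p q r s w ≠ 0) →
    ∀ {z : ℂ}, z = (1 + w) / (1 - w) → z ≠ 0 → Wts w1 → 0 ≤ t → t ≤ 1 → ∀ {k0 k1 k2 : Mo},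
    MOK 1 w1 t (Pool.Agent.Helper6.MONO.Kp p : ℂ) k0 →
    MOK 1 w1 t (Pool.Agent.Helper6.MONO.Kp q : ℂ) k1 →
    MOK 1 w1 t (Pool.Agent.Helper6.MONO.Kp r : ℂ) k2 →
    ∀ {κ : Fin 3 → ℂ}, κ 0 = Pool.Agent.Helper6.MONO.Kp p →
    κ 1 = Pool.Agent.Helper6.MONO.Kp q → κ 2 = Pool.Agent.Helper6.MONO.Kp r →
    ∀ {C : Cls}, CLK 1 w1 t κ C → ∀ {U Zm : Mo}, MOK 1 w1 t z⁻¹ U → MOK 1 w1 t z Zm →
    ∀ {KTs : List K2}, KTs.length = 1 → ∀ {Dp Dm : BD}, F k0 k1 k2 C Dp Dm U Zm KTs = true →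
    ∀ {Ap Am : AD}, chA Dp Ap = true → chA Dm Am = true → ∀ {idx : GS → T4 → ℕ},
    covD idx p q r (0, 1, 2) Dp = true → covD idx p q r (0, 2, 1) Dm = true →
    (∀ s, (s = (1, 2, 0) ∨ s = (2, 1, 0)) → ∀ T : T4, T.ok (ML p q r s) →
      T.low (ML p q r s) ≤ 2 → T ≠ T4.two → ∀ v ∈ RP w1 t KTs (idx s T),
        (RMb p q r s 2 w).mulVec v ∈ RP w1 t KTs (idx (nx s 2) T4.two)) →
    ∀ s, DG s → ∀ T : T4, T.ok (ML p q r s) → T.low (ML p q r s) ≤ 2 → T ≠ T4.two → ∀ k : ℕ,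
      ∀ v ∈ RP w1 t KTs (idx s T),
        (Pool.Agent.Helper21.SUP.gM (RMb p q r) s (List.replicate (k + 1) 2) w).mulVec v ∈
          RP w1 t KTs (idx (sD s (List.replicate (k + 1) 2)) T4.two)

theorem bok_chB2 : BOK chB2 := by
  intro t w1 p q r w hp hq hr hom z hzw hz hw h0 h1 k0 k1 k2 a0 a1 a2 κ e0 e1 e2 C hC U Zm hU hZ
    KTs hT Dp Dm h Ap Am b0 b1 idx cp cm hd
  exact chB2_sound hp hq hr hom hzw hz hw h0 h1 a0 a1 a2 e0 e1 e2 hC hU hZ hT h b0 b1 cp cm hd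

theorem covB1_at {a b c : ℕ} {G : Prog} {s : GS} (h : covB1 a b c G s = true) {T : T4}
    (hT : T.ok (ML a b c s)) (hl : T.low (ML a b c s) ≤ 2) (h2 : T ≠ T4.two) :
    hasR a b c G (giS s) 2 (kidx a b c (nx s 2) T4.two) (kidx a b c s T) = true := by
  unfold covB1 at h
  rw [List.all_eq_true] at h
  have h3 := h T (mem_tys hT)
  rw [if_pos hl, if_neg h2] at h3
  exact h3

variable {F : BTy} {a b c : ℕ} {x0 : ℝ} {X : Z} {G : Prog}

/-- THE B FAMILIES OF A CELL -/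
theorem bcell_of (hF : BOK F) (ha : 3 ≤ a ∧ a ≤ 9) (hb : 3 ≤ b ∧ b ≤ 9) (hc : 3 ≤ c ∧ c ≤ 9)
    (hx : -2 < x0) (hok : clsEok a b c = true) (hG : covB a b c G = true) {d : CellD} {B : B2}
    {A : A2} (hs : sideB a b c B A = true)
    (h : chBN F (cstM (nat_lit 1) (kb a) (nat_lit 1)) (cstM (nat_lit 1) (kb b) (nat_lit 1))
      (cstM (nat_lit 1) (kb c) (nat_lit 1)) (clsE a b c) X d B = true) :
    BCell a b c x0 X G d := by
  intro t h0 h1 z y hy hz hui hzx hyt hP s hs2 T hT hl h2 k v hv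
  have hz1 := z_ne hx hzx
  have hzw : 1 + zw z ≠ 0 ∧ 1 - zw z ≠ 0 ∧ z = (1 + zw z) / (1 - zw z) :=
    Pool.Agent.Helper39.NCL.zw_ne hz hz1
  have key : ∀ M : ℕ, 3 ≤ M ∧ M ≤ 9 →
      MOK 1 w1 t (Pool.Agent.Helper6.MONO.Kp M : ℂ) (cstM (nat_lit 1) (kb M) (nat_lit 1)) := by
    intro M hM
    refine MOK.kap one_pos w1_wts h0 h1 (kb M) 1 ?_
    rw [UU_pow]
    have := kap_enc M hM.1 (by omega)
    push_cast
    exact this
  have hC := clk_E ha hb hc hok h0 h1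
  have hom : ∀ s, DG s → omS a b c s (zw z) ≠ 0 := fun s hs => by
    rw [oZ_omS hz hz1 s hs]
    exact hP.ne _
  have h9 : ∀ i j : Fin 3, i ≠ j → mm a b c i j ≤ 9 :=
    Pool.Agent.Helper6.PIE.mm_le ha.2 hb.2 hc.2
  unfold sideB at hs
  simp only [Bool.and_eq_true] at hs
  obtain ⟨s1, s2, s3, s4⟩ := hs
  unfold covB at hG
  rw [Bool.and_eq_true] at hG
  have hd : ∀ s, (s = ((1, 2, 0) : GS) ∨ s = (2, 1, 0)) → ∀ T : T4, T.ok (ML a b c s) →
      T.low (ML a b c s) ≤ 2 → T ≠ T4.two → ∀ v ∈ RP w1 t [d.K] (kidx a b c s T),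
        (RMb a b c s 2 (zw z)).mulVec v ∈ RP w1 t [d.K] (kidx a b c (nx s 2) T4.two) := by
    intro s hs T hT hl h2 v hv
    have hDG : DG s := by
      rcases hs with rfl | rfl
      · exact ⟨by decide, by decide, by decide⟩
      · exact ⟨by decide, by decide, by decide⟩
    have hR : hasR a b c G (giS s) 2 (kidx a b c (nx s 2) T4.two) (kidx a b c s T) = true := by
      rcases hs with rfl | rfl
      · exact covB1_at hG.1 hT hl h2
      · exact covB1_at hG.2 hT hl h2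
    unfold hasR at hR
    rw [(gsF_giS s hDG).1] at hR
    have h3 := Pool.Agent.Helper6.MONO.LNI_mm ha.1 hb.1 hc.1 _ _ hDG.1
    exact run_of ha.1 hb.1 hc.1 h9 hz hz1 hP.K hDG le_rfl (by omega) hR v hv
  have := hF ha.1 hb.1 hc.1 hom hzw.2.2 hz w1_wts h0 h1 (key a ha) (key b hb) (key c hc)
    (κ := kap3 a b c) rfl rfl rfl hC hP.u hP.z rfl h s1 s2 s3 s4 hd s hs2 T hT hl h2 k v hv
  exact this

/-- THE B FAMILIES OF THE CELLS OF A MODULE -/
theorem bcells_of (hF : BOK F) (ha : 3 ≤ a ∧ a ≤ 9) (hb : 3 ≤ b ∧ b ≤ 9) (hc : 3 ≤ c ∧ c ≤ 9)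
    (hx : -2 < x0) (hok : clsEok a b c = true) (hG : covB a b c G = true) {k0 k1 k2 : Mo}
    (e0 : k0 = cstM (nat_lit 1) (kb a) (nat_lit 1)) (e1 : k1 = cstM (nat_lit 1) (kb b) (nat_lit 1))
    (e2 : k2 = cstM (nat_lit 1) (kb c) (nat_lit 1)) : ∀ {l : List ND} {Bs : List B2}
    {As : List A2}, sideBL a b c Bs As = true →
    chBL F k0 k1 k2 (mkCls (nat_lit 1) k0 k1 k2) X l Bs = true →
    ∀ d ∈ l, BCell a b c x0 X G d.c := by
  rw [e0, e1, e2]
  intro l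
  induction l with
  | nil =>
    intro Bs As _ _ d hd
    cases hd
  | cons u l ih =>
    intro Bs As hs h d hd
    cases Bs with
    | nil => cases h
    | cons B Bs =>
      cases As with
      | nil => cases hs
      | cons A As =>
        have hs' : (sideB a b c B A && sideBL a b c Bs As) = true := hs
        rw [Bool.and_eq_true] at hs'
        obtain ⟨h2, h3⟩ := andBt h
        rcases List.mem_cons.1 hd with rfl | hd
        · intro t h0 h1 z y q1 q2 q3 q4 q5 q6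
          exact bcell_of hF ha hb hc hx hok hG hs'.1 h2 h0 h1 q1 q2 q3 q4 q5 q6
        · intro t h0 h1 z y q1 q2 q3 q4 q5 q6
          exact ih hs'.2 h3 d hd h0 h1 q1 q2 q3 q4 q5 q6

end Pool.Agent.Helper57.KNB
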