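import Pool.Agent.Helper57.KNB.KC2
import Pool.Agent.Helper57.KNB.KN6

/-!
Row KTB: the tests of a near cell in separate declarations. Kernel side and lemmas.
-/

set_option autoImplicit false
noncomputable section
namespace Pool.Agent.Helper57.KNB

open Pool.Agent.Helper86.CX (andB)
open Pool.Agent.Helper86.CT (Mo Mc Sv Vx Cls Prog LT2 Alg Up mk addM uM zM chkDT CellT)
open Pool.Agent.Helper48.NCT (IT FTT NDT chkNT chkNET chkIT famCT famXT fam3T imB)

variable {α β δ p v γ M PH : Type}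

/-! ### the two orientations -/

/-- `s = false`: orientation `P`, `s = true`: orientation `M` -/
def chBRs (s : Bool) (K : Mc α β p v γ) (V : Vx β) (R : Ar M PH)
    (cv : Pool.Agent.Helper86.CT.Mo α → M) (k0 k1 k2 : Pool.Agent.Helper86.CT.Mo α) (C : Cls α)
    (Dp Dm : BDT α β) (KT : β) (u z : Pool.Agent.Helper86.CT.Mo α) : Bool :=
  Bool.rec (motive := fun _ => Bool)
    (chBoT K.A K.U K.w V R cv KT Dp (cv C.l0) (cv C.l1) (cv C.l2) (cv k0) (cv k1) (cv k2) (cv u)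
      (cv z))
    (chBoT K.A K.U K.w V R cv KT Dm (cv C.l0) (cv C.l2) (cv C.l1) (cv k2) (cv k1) (cv k0) (cv z)
      (cv u)) s

theorem chBR_of {K : Mc α β p v γ} {V : Vx β} {R : Ar M PH}
    {cv : Pool.Agent.Helper86.CT.Mo α → M} {k0 k1 k2 : Pool.Agent.Helper86.CT.Mo α} {C : Cls α}
    {Dp Dm : BDT α β} {KT : β} {u z : Pool.Agent.Helper86.CT.Mo α}
    (h : chBRs false K V R cv k0 k1 k2 C Dp Dm KT u z = true)
    (h' : chBRs true K V R cv k0 k1 k2 C Dp Dm KT u z = true) :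
    chBR K V R cv k0 k1 k2 C Dp Dm KT u z = true := by
  unfold chBR chBR1
  unfold chBRs at h h'
  simp only at h h'
  rw [h, h']
  rfl

def chBBs2 (s : Bool) (A : Alg α) (U : Up β α) (w : Nat) (V : Vx β) (R : Ar M PH)
    (cv : Pool.Agent.Helper86.CT.Mo α → M) (KT : β) (yb : Nat) (D : BND α β)
    (l0 l1 l2 k0 k1 k2 u z uo zo : M) : Bool :=
  Bool.rec (motive := fun _ => Bool)
    (chBd A U w V R cv KT yb D.bm D.P l0 l1 l2 k0 k1 k2 u z uo zo
      (cv (Pool.Agent.Helper86.CT.mk A D.vp (nat_lit 0))))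
    (chBd A U w V R cv KT yb D.bm D.M l0 l2 l1 k2 k1 k0 z u zo uo
      (cv (Pool.Agent.Helper86.CT.mk A D.vm (nat_lit 0)))) s
def chBBs1 (s : Bool) (K : Mc α β p v γ) (V : Vx β) (R : Ar M PH)
    (cv : Pool.Agent.Helper86.CT.Mo α → M)
    (k0 k1 k2 : Pool.Agent.Helper86.CT.Mo α) (C : Cls α) (yb : Nat) (D : BND α β) (KT : β)
    (u z x uo zo : Pool.Agent.Helper86.CT.Mo α) : Bool :=
  chBBs2 s K.A K.U K.w V R cv KT yb D (cv C.l0) (cv C.l1) (cv C.l2) (cv k0) (cv k1) (cv k2) (cv u)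
      (cv z) (cv (Pool.Agent.Helper86.CT.uM K.A D.m x uo zo))
      (cv (Pool.Agent.Helper86.CT.zM x (Pool.Agent.Helper86.CT.uM K.A D.m x uo zo) zo))
def chBBs (s : Bool) (K : Mc α β p v γ) (V : Vx β) (R : Ar M PH)
    (cv : Pool.Agent.Helper86.CT.Mo α → M)
    (k0 k1 k2 : Pool.Agent.Helper86.CT.Mo α) (C : Cls α) (x : Pool.Agent.Helper86.CT.Mo α)
    (yb : Nat) (D : BND α β) (KT : β) (u z : Pool.Agent.Helper86.CT.Mo α) : Bool :=
  chBBs1 s K V R cv k0 k1 k2 C yb D KT u z x (Pool.Agent.Helper86.CT.mk K.A D.u (nat_lit 0))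
    (Pool.Agent.Helper86.CT.mk K.A (K.A.sub x.v D.u) (nat_lit 0))
/-- the choice of the root at `y = 0` -/
def chBBo (K : Mc α β p v γ) (x : Pool.Agent.Helper86.CT.Mo α) (D : BND α β) : Bool :=
  andB (Nat.ble (nat_lit 1) D.m) (K.T.t D.m x.v D.u)

theorem chBB_of {K : Mc α β p v γ} {V : Vx β} {R : Ar M PH}
    {cv : Pool.Agent.Helper86.CT.Mo α → M} {k0 k1 k2 : Pool.Agent.Helper86.CT.Mo α} {C : Cls α}
    {x : Pool.Agent.Helper86.CT.Mo α} {yb : Nat} {D : BND α β} {KT : β}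
    {u z : Pool.Agent.Helper86.CT.Mo α} (h0 : chBBo K x D = true)
    (h : chBBs false K V R cv k0 k1 k2 C x yb D KT u z = true)
    (h' : chBBs true K V R cv k0 k1 k2 C x yb D KT u z = true) :
    chBB K V R cv k0 k1 k2 C x yb D KT u z = true := by
  obtain ⟨h1, h2⟩ := andBt h0
  unfold chBB chBB1 chBB2
  unfold chBBs chBBs1 chBBs2 at h h'
  simp only at h h'
  have h2' : K.T.t D.m x.v (mk K.A D.u (nat_lit 0)).v = true := h2
  rw [h1, h2', h, h']
  rfl

/-- `s = false, true`: one orientation of the B tests of a near cell -/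
def chBNs (s : Bool) (K : Mc α β p v γ) (V : Vx β) (R : Ar M PH)
    (cv : Pool.Agent.Helper86.CT.Mo α → M) : BXT α β :=
  fun k0 k1 k2 C x yb D KT u z =>
    Bool.rec (motive := fun _ => Bool) (chBRs s K V R cv k0 k1 k2 C D.P D.M KT u z)
      (chBBs s K V R cv k0 k1 k2 C x yb D KT u z) D.b
def chBNo (K : Mc α β p v γ) : BXT α β :=
  fun _ _ _ _ x _ D _ _ _ => Bool.rec (motive := fun _ => Bool) true (chBBo K x D) D.b

theorem chBN_of {K : Mc α β p v γ} {V : Vx β} {R : Ar M PH}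
    {cv : Pool.Agent.Helper86.CT.Mo α → M} {k0 k1 k2 : Pool.Agent.Helper86.CT.Mo α} {C : Cls α}
    {x : Pool.Agent.Helper86.CT.Mo α} {yb : Nat} {D : BND α β} {KT : β}
    {u z : Pool.Agent.Helper86.CT.Mo α} (h0 : chBNo K k0 k1 k2 C x yb D KT u z = true)
    (h : chBNs false K V R cv k0 k1 k2 C x yb D KT u z = true)
    (h' : chBNs true K V R cv k0 k1 k2 C x yb D KT u z = true) :
    chBN K V R cv k0 k1 k2 C x yb D KT u z = true := by
  unfold chBN
  unfold chBNo at h0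
  unfold chBNs at h h'
  cases hb : D.b with
  | false => rw [hb] at h h'; exact chBR_of h h'
  | true => rw [hb] at h0 h h'; exact chBB_of h0 h h'

/-- THE B TESTS OF A CELL from its parts -/
theorem bCT_of {K : Mc α β p v γ} {V : Vx β} {R : Ar M PH}
    {cv : Pool.Agent.Helper86.CT.Mo α → M} {A : Alg α} {k0 k1 k2 : Mo α} {C : Cls α} {x0 : Mo α}
    {yb : Nat} {D : BND α β} {KT : β} {x : Mo α} {m : Nat} {u : α}
    (h0 : bCT A (chBNo K) k0 k1 k2 C x0 yb D KT x m u = true)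
    (h : bCT A (chBNs false K V R cv) k0 k1 k2 C x0 yb D KT x m u = true)
    (h' : bCT A (chBNs true K V R cv) k0 k1 k2 C x0 yb D KT x m u = true) :
    bCT A (chBN K V R cv) k0 k1 k2 C x0 yb D KT x m u = true := chBN_of h0 h h'

/-- the families of type A from their walls -/
theorem famCT_of {A : Alg α} {F : FTT α β δ} {f0 f1 f2 : Bool} {k0 k1 k2 : Mo α} {C : Cls α}
    {D0 D1 D2 : δ} {x : Mo α} {m : Nat} {u : α} {KT : β}
    (h0 : famCT A F f0 false false k0 k1 k2 C D0 D1 D2 x m u KT = true)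
    (h1 : famCT A F false f1 false k0 k1 k2 C D0 D1 D2 x m u KT = true)
    (h2 : famCT A F false false f2 k0 k1 k2 C D0 D1 D2 x m u KT = true) :
    famCT A F f0 f1 f2 k0 k1 k2 C D0 D1 D2 x m u KT = true := by
  unfold famCT famXT fam3T at *
  obtain ⟨a, _⟩ := andBt h0
  obtain ⟨_, b⟩ := andBt h1
  obtain ⟨b, _⟩ := andBt b
  obtain ⟨_, c⟩ := andBt h2
  obtain ⟨_, c⟩ := andBt c
  rw [a, b, c]
  rfl

/-- a cell from its parts -/
theorem chkNB_of {M : Mc α β p v γ} {S : Sv p} {W : Vx β} {y : Nat → Nat → α}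
    {F : FTT α β δ} {FB : BXT α β} {f0 f1 f2 : Bool} {k0 k1 k2 : Mo α} {C : Cls α} {G : Prog v}
    {x0 : Mo α} {sl : List Nat} {le : List LT2} {ONE : β} {il : List IT} {d : NBT α β δ}
    (h1 : chkDT M S W y C G x0 sl le d.n.c = true) (h2 : chkIT M d.n.c.K d.n.c.L ONE il = true)
    (h3 : famCT M.A F f0 f1 f2 k0 k1 k2 C d.n.D0 d.n.D1 d.n.D2
      (addM M.A x0 (mk M.A (y d.n.c.ya d.n.c.yb) (nat_lit 0))) d.n.c.m d.n.c.u d.n.c.K = true)
    (h4 : bCT M.A FB k0 k1 k2 C x0 d.n.c.yb d.B d.n.c.K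
      (addM M.A x0 (mk M.A (y d.n.c.ya d.n.c.yb) (nat_lit 0))) d.n.c.m d.n.c.u = true) :
    chkNB M S W y F FB f0 f1 f2 k0 k1 k2 C G x0 sl le ONE il d = true := by
  unfold chkNB chkNT chkNET
  rw [h1, h2, h3, h4]
  rfl

/-- a chain of cells from its cells; `pcNB (fun _ => true)` tests the ends -/
theorem pcNB_of {f : NBT α β δ → Bool} {e : Nat} {l : List (NBT α β δ)} {y : Nat}
    (h : pcNB (fun _ => true) e l y = true) (hl : ∀ c ∈ l, f c = true) : pcNB f e l y = true := by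
  induction l generalizing y with
  | nil => exact h
  | cons c l ih =>
    have h' : andB (Nat.beq y c.n.c.ya) (andB (Nat.ble c.n.c.ya c.n.c.yb)
      (andB true (pcNB (fun _ => true) e l c.n.c.yb))) = true := h
    obtain ⟨h1, h2⟩ := andBt h'
    obtain ⟨h2, h3⟩ := andBt h2
    obtain ⟨_, h4⟩ := andBt h3
    show andB (Nat.beq y c.n.c.ya) (andB (Nat.ble c.n.c.ya c.n.c.yb)
      (andB (f c) (pcNB f e l c.n.c.yb))) = true
    rw [h1, h2, hl c List.mem_cons_self, ih h4 fun a ha => hl a (List.mem_cons_of_mem _ ha)]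
    rfl

end Pool.Agent.Helper57.KNB
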