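import Pool.Agent.Helper57.KNB.KN12
import Pool.Agent.Helper39.CX.KNG
import Pool.Agent.Helper86.CT.KerT

/-!
Row KFT, part 1: the arithmetic of the tensor quadratic models of KerT as an instance of `Ar`
(unpacked).
-/

set_option autoImplicit false
noncomputable section
namespace Pool.Agent.Helper57.KNB

open Pool.Agent.Helper86.C75 (Z)
open Pool.Agent.Helper86.CX (Cx andB E3 one1)
open Pool.Agent.Helper86.CT (N3 Alg un fa fc fb)
open Pool.Agent.Helper39.KNF (tn1 wr)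

/-- leafwise operations: real part, imaginary part, list of the leaves, test of positivity -/
structure Lw (α : Type) where
  re : α → α
  im : α → α
  lv : α → List Cx → List Cx
  ps : E3 → α → α → α → α → α → α → Bool

def Lw0 : Lw Cx :=
  ⟨fun x => ⟨x.re, zi0⟩, fun x => ⟨x.im, zi0⟩, fun x l => x :: l,
    fun R a b c x y w => tn1 a b c x y w R⟩
def nxW {α : Type} (L : Lw α) : Lw (N3 α) :=
  ⟨un L.re, un L.im,
    fun x l => N3.rec (motive := fun _ => List Cx) (fun x => L.lv x l)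
      (fun a c b => L.lv a (L.lv c (L.lv b l))) x,
    fun R a b c x y w => andB (L.ps R (fa a) (fa b) (fa c) (fa x) (fa y) (fa w))
      (andB (L.ps R (fc a) (fc b) (fc c) (fc x) (fc y) (fc w))
        (L.ps R (fb a) (fb b) (fb c) (fb x) (fb y) (fb w)))⟩
def Lw1 : Lw (N3 Cx) := nxW Lw0
def Lw2 : Lw (N3 (N3 Cx)) := nxW Lw1
def Lw3 : Lw (N3 (N3 (N3 Cx))) := nxW Lw2
def Lw4 : Lw (N3 (N3 (N3 (N3 Cx)))) := nxW Lw3

variable {α : Type}

def mkT (A : Alg α) (v : α) (r : Nat) : Pool.Agent.Helper86.CT.Mo α :=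
  Pool.Agent.Helper86.CT.mk A v r
def csT (A : Alg α) (c : Cx) : Pool.Agent.Helper86.CT.Mo α := mkT A (A.cs c) (nat_lit 0)
def reT (A : Alg α) (W : Lw α) (f : Pool.Agent.Helper86.CT.Mo α) : Pool.Agent.Helper86.CT.Mo α :=
  mkT A (W.re f.v) f.r
def imT (A : Alg α) (W : Lw α) (f : Pool.Agent.Helper86.CT.Mo α) : Pool.Agent.Helper86.CT.Mo α :=
  mkT A (W.im f.v) f.r
def wdT (e : Nat) (f : Pool.Agent.Helper86.CT.Mo α) : Pool.Agent.Helper86.CT.Mo α :=
  ⟨f.v, Nat.add f.r e, f.B, f.l⟩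
def nbT (f : Pool.Agent.Helper86.CT.Mo α) : Nat := Nat.add f.B f.r
def dotT (A : Alg α) (x y z a b c : Pool.Agent.Helper86.CT.Mo α) :
    Pool.Agent.Helper86.CT.Mo α :=
  Pool.Agent.Helper86.CT.addM A (Pool.Agent.Helper86.CT.mulM A x a)
    (Pool.Agent.Helper86.CT.addM A (Pool.Agent.Helper86.CT.mulM A y b)
      (Pool.Agent.Helper86.CT.mulM A z c))

def z6T (z : Pool.Agent.Helper86.CT.Mo α) : H6 (Pool.Agent.Helper86.CT.Mo α) := ⟨z, z, z, z, z, z⟩
def maT (A : Alg α) (s x y : Pool.Agent.Helper86.CT.Mo α) : Pool.Agent.Helper86.CT.Mo α :=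
  Pool.Agent.Helper86.CT.addM A (Pool.Agent.Helper86.CT.mulM A s x) y
def sum6T (A : Alg α)
    (l : List (SH (Pool.Agent.Helper86.CT.Mo α) (H6 (Pool.Agent.Helper86.CT.Mo α)))) :
    H6 (Pool.Agent.Helper86.CT.Mo α) :=
  List.rec (motive := fun _ => H6 (Pool.Agent.Helper86.CT.Mo α)) (z6T (csT A ⟨zi0, zi0⟩))
    (fun p _ ih => ⟨maT A p.s p.h.a ih.a, maT A p.s p.h.b ih.b, maT A p.s p.h.c ih.c,
      maT A p.s p.h.x ih.x, maT A p.s p.h.y ih.y, maT A p.s p.h.w ih.w⟩) l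

/-- weighted radii -/
def radT (P : H6 (Pool.Agent.Helper86.CT.Mo α)) (d : D3) : E3 :=
  ⟨Nat.add (Nat.add P.a.r (wr P.x.r d.x d.y)) (wr P.y.r d.x d.z),
    Nat.add (Nat.add P.b.r (wr P.x.r d.y d.x)) (wr P.w.r d.y d.z),
    Nat.add (Nat.add P.c.r (wr P.y.r d.z d.x)) (wr P.w.r d.z d.y)⟩
def okT (P : H6 (Pool.Agent.Helper86.CT.Mo α)) (R : E3) (d : D3) : Bool :=
  andB (Nat.ble (Nat.add (Nat.add (Nat.add (Nat.add (Nat.add (Nat.add (Nat.add (Nat.add P.a.B P.b.B) P.c.B) P.x.B) P.y.B) P.w.B) R.x) R.y) R.z)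
    (nat_lit 1606938044258990275541962092341162602522202993782792835301376))
  (andB (Nat.ble (nat_lit 1) d.x) (andB (Nat.ble (nat_lit 1) d.y) (Nat.ble (nat_lit 1) d.z)))
def psT2 (W : Lw α) (P : H6 (Pool.Agent.Helper86.CT.Mo α)) (R : E3) (d : D3) : Bool :=
  andB (okT P R d) (W.ps R P.a.v P.b.v P.c.v P.x.v P.y.v P.w.v)
def psT (W : Lw α) (d : D3) (P : H6 (Pool.Agent.Helper86.CT.Mo α)) : Bool :=
  psT2 W P (radT P d) d
def ltT (A : Alg α) (W : Lw α) (d : D3)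
    (l : List (SH (Pool.Agent.Helper86.CT.Mo α) (H6 (Pool.Agent.Helper86.CT.Mo α)))) : Bool :=
  psT W d (sum6T A l)

/-- the arithmetic of KerT -/
def arT (A : Alg α) (W : Lw α) :
    Ar (Pool.Agent.Helper86.CT.Mo α) (H6 (Pool.Agent.Helper86.CT.Mo α)) where
  add := Pool.Agent.Helper86.CT.addM A
  sub := Pool.Agent.Helper86.CT.subM A
  mul := Pool.Agent.Helper86.CT.mulM A
  cj := Pool.Agent.Helper86.CT.conjM A
  re := reT A W
  im := imT A W
  inv := Pool.Agent.Helper86.CT.invM A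
  ok := Pool.Agent.Helper86.CT.invOK A
  cs := csT A
  wd := wdT
  nb := nbT
  rd := fun x => x.r
  ctl := fun x => W.lv x.v []
  dot := dotT A
  pk := fun x => x
  lt := ltT A W

end Pool.Agent.Helper57.KNB
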