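import Pool.Agent.Helper57.KNB.KT1
import Pool.Agent.Helper57.KNB.KA1
import Pool.Agent.Helper86.CT.PcT

/-!
Row KFT, part 3: the test of the A family of one wall in a near cell of a class with tails, over any
arithmetic `A` with a conversion `cv` of the models of KerT. Kernel side.
-/

set_option autoImplicit false
noncomputable section
namespace Pool.Agent.Helper57.KNB

open Pool.Agent.Helper86.C75 (Z)
open Pool.Agent.Helper86.CX (Cx andB u32)
open Pool.Agent.Helper86.CT (Alg Up Mc Vx KM mkKM)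
open Pool.Agent.Helper39.KNF (C9)

/-- a multiplier: number in the table (unit `2 ^ (-24)`), weights -/
structure QL where
  l : Nat
  d0 : Nat
  d1 : Nat
  d2 : Nat
/-- a polygon -/
structure TD where
  V : List (Nat × Nat)
  cx : Nat
  cy : Nat
  R : Nat
  B : Nat
  rb : Nat
  q : QL
/-- the data of one wall -/
structure FDT (β : Type) where
  kx : Nat
  ke : Nat
  B : C9
  LT : β
  L : List QL
  T : List TD
  Ts : List (Nat × Nat)
  rho : Nat

variable {α β p v γ M PH : Type}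

/-- multiplier number `l` -/
def lmT (A : Alg α) (U : Up β α) (w : Nat) (LT : β) (l : Nat) : Pool.Agent.Helper86.CT.Mo α :=
  Pool.Agent.Helper86.CT.mk A (U.up (fun T => ⟨Z.p (Nat.mul (Nat.div w (nat_lit 16)) (u32 T (Nat.mul (nat_lit 32) l))), Z.p (nat_lit 0)⟩) LT) (nat_lit 0)
def ldT (A : Alg α) (U : Up β α) (w : Nat) (cv : Pool.Agent.Helper86.CT.Mo α → M) (LT : β)
    (q : QL) : LD M :=
  ⟨cv (lmT A U w LT q.l), ⟨q.d0, q.d1, q.d2⟩⟩
def ldsT (A : Alg α) (U : Up β α) (w : Nat) (cv : Pool.Agent.Helper86.CT.Mo α → M) (LT : β)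
    (l : List QL) : List (LD M) :=
  List.rec (motive := fun _ => List (LD M)) [] (fun q _ ih => ldT A U w cv LT q :: ih) l
def tdsT (A : Alg α) (U : Up β α) (w : Nat) (cv : Pool.Agent.Helper86.CT.Mo α → M) (LT : β)
    (l : List TD) : List (TA M) :=
  List.rec (motive := fun _ => List (TA M)) []
    (fun x _ ih => ⟨x.V, x.cx, x.cy, x.R, x.B, x.rb, ldT A U w cv LT x.q⟩ :: ih) l
/-- a form -/
def hcv (cv : Pool.Agent.Helper86.CT.Mo α → M) (K : KM α) : H6 M :=
  ⟨cv K.a, cv K.b, cv K.c, cv K.x, cv K.y, cv K.w⟩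
def f9A (A : Ar M PH) (B : C9) : F9 M :=
  ⟨A.cs B.a, A.cs B.b, A.cs B.c, A.cs B.d, A.cs B.e, A.cs B.f, A.cs B.g, A.cs B.h, A.cs B.i⟩
def aiT (A : Alg α) (U : Up β α) (w : Nat) (R : Ar M PH) (cv : Pool.Agent.Helper86.CT.Mo α → M)
    (KT : β) (D : FDT β) : AI M :=
  ⟨hcv cv (mkKM A U w KT D.kx), hcv cv (mkKM A U w KT D.ke), f9A R D.B,
    ldsT A U w cv D.LT D.L, tdsT A U w cv D.LT D.T, D.Ts, D.rho⟩

/-- the multipliers are positive -/
def qPos (T : Nat) (q : QL) : Bool := Nat.ble (nat_lit 1) (u32 T (Nat.mul (nat_lit 32) q.l))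
def qPosL (T : Nat) (l : List QL) : Bool :=
  List.rec (motive := fun _ => Bool) true (fun q _ ih => andB (qPos T q) ih) l
def qPosT (T : Nat) (l : List TD) : Bool :=
  List.rec (motive := fun _ => Bool) true (fun x _ ih => andB (qPos T x.q) ih) l
def posD (V : Vx β) (D : FDT β) : Bool :=
  V.al (fun T _ => andB (qPosL T D.L) (qPosT T D.T)) D.LT D.LT

/-- THE TEST OF THE A FAMILY OF ONE WALL: table of forms, data, `lambda`, the two weights, `1/z`,
`z` -/
def famR (K : Mc α β p v γ) (V : Vx β) (R : Ar M PH) (cv : Pool.Agent.Helper86.CT.Mo α → M)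
    (KT : β) (D : FDT β) (l k k' u z : Pool.Agent.Helper86.CT.Mo α) : Bool :=
  andB (posD V D) (famG R (aiT K.A K.U K.w R cv KT D) (cv l) (cv k) (cv k') (cv u) (cv z))

/-- unpacked -/
def famT (K : Mc α β p v γ) (V : Vx β) (W : Lw α) (KT : β) (D : FDT β)
    (l k k' u z : Pool.Agent.Helper86.CT.Mo α) : Bool :=
  famR K V (arT K.A W) (fun x => x) KT D l k k' u z

end Pool.Agent.Helper57.KNB
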