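import Pool.Agent.Helper57.KNB.KN12

/-!
Row KFT, B families: the scaled family `χ'(ν) (N + A Q + ρ P)` and a sharper radius of the simple
eigenvalue. Kernel side.
-/

set_option autoImplicit false
noncomputable section
namespace Pool.Agent.Helper57.KNB

open Pool.Agent.Helper86.C75 (Z)
open Pool.Agent.Helper86.CX (Cx andB)

variable {M PH : Type}

/-! ### the simple eigenvalue -/

def nuRc (a e : Nat) : Nat :=
  Bool.rec (motive := fun _ => Nat) (Nat.mul (nat_lit 3) a)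
    (Nat.add (Nat.add a (Nat.div (Nat.mul (Nat.mul (nat_lit 2) a) e) (nat_lit 281474976710656)))
      (nat_lit 1)) (Nat.ble (Nat.mul (nat_lit 2) e) (nat_lit 281474976710656))
/-- `a`: bound of `|χ / χ'|`, `b`: of `1 / |χ'|`, `g`: of `|3 v - T|` -/
def nuRb (a b g : Nat) : Nat :=
  nuRc a (Nat.add (Nat.div (Nat.mul (Nat.mul (Nat.mul (nat_lit 3) a) b)
    (Nat.add g (Nat.mul (nat_lit 3) a))) (nat_lit 79228162514264337593543950336)) (nat_lit 1))
def nuRa (f b g : Nat) : Nat :=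
  nuRb (Nat.add (Nat.div (Nat.mul f b) (nat_lit 281474976710656)) (nat_lit 1)) b g
/-- radius of the root near `v` -/
def nuR2 (A : Ar M PH) (v T E : M) : Nat :=
  nuRa (A.nb (cub A v T E)) (A.nb (A.inv (cubD A v T E))) (A.nb (A.sub (A.add v (dbl A v)) T))
def nuM2 (A : Ar M PH) (v T E : M) : M := A.wd (nuR2 A v T E) v

/-! ### the scaled family, `x = χ'(ν)` -/

def mkPx (A : Ar M PH) (S : Sc M) (W : F9 M) : F9 M :=
  adI A S.d (sub9 A (mul9 A W W) (smu9 A S.s W))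
def mkFx2 (A : Ar M PH) (S : Sc M) (x : M) (W P Q : F9 M) : Fm M :=
  ⟨sub9 A (smu9 A (dbl A S.is) (sub9 A (smu9 A x W) (smu9 A S.nu P))) Q, Q, P⟩
def mkFx1 (A : Ar M PH) (S : Sc M) (x : M) (W P : F9 M) : Fm M := mkFx2 A S x W P (Isb A x P)
def mkFx (A : Ar M PH) (S : Sc M) (x : M) (W : F9 M) : Fm M := mkFx1 A S x W (mkPx A S W)

/-! ### targets, direct tests -/

def tTgE (A : Ar M PH) (P1 P2 E : PH) (l1 l2 : LD M) : Bool :=
  andB (tLe A l1.d P1 E l1.l) (tLe A l2.d P2 E l2.l)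
def tOX2 (A : Ar M PH) (P0 P1 P2 E X : PH) (le1 le2 lx0 lx1 lx2 : LD M) : Bool :=
  andB (tTgE A P1 P2 E le1 le2) (tTgt A P0 P1 P2 X lx0 lx1 lx2)
/-- `E` into the targets after one and two runs, `X` into all three targets -/
def tOX (A : Ar M PH) (C : St M) (K0 K1 K2 E X : H6 M) (le1 le2 lx0 lx1 lx2 : LD M) : Bool :=
  tOX2 A (A.pk (cg A (lDl A C.g0 (one9 A)) K0)) (A.pk (cg A (lDl A C.g1 C.m0) K1))
    (A.pk (cg A (lDl A C.g2 C.m10) K2)) (A.pk E) (A.pk X) le1 le2 lx0 lx1 lx2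
/-- sources at `s1`, two runs into the target `K0` at `s0` -/
def tDX (A : Ar M PH) (C : St M) (K0 : H6 M) (d1 : List (SrcT M)) : Bool :=
  tSrc A (A.pk (cg A (lDl A C.g0 (rDg A C.m21 C.g1)) K0)) d1

/-! ### the first pairs by powers of the cycle -/

def tWp (A : Ar M PH) (e : PH) (x : H6 M) (b W : F9 M) (l : LD M) : Bool :=
  tLe A l.d (A.pk (cg A (mul9 A W b) x)) e l.l
def tQs (A : Ar M PH) (H : HR PH) (x : H6 M) (b W : F9 M) (l : LD M) (a r : M) (n : Nat) :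
    Bool :=
  Nat.rec (motive := fun _ => Bool) (tFam A l.d H a r l.l) (fun _ _ => tWp A H.e x b W l) n
/-- the pairs `m = 0, 1, ..`, the first `n` of them by the powers `W` of the cycle `w`; `T` is the
test of the last pair -/
def tQW (A : Ar M PH) (H : HR PH) (x : H6 M) (b w : F9 M) (c g : M) (T : M → M → Bool)
    (L : List (LD M)) : Nat → F9 M → M → M → Bool :=
  List.rec (motive := fun _ => Nat → F9 M → M → M → Bool) (fun _ _ => T)
    (fun l _ ih n W a r => andB (tQs A H x b W l a r n) (andB (A.ok (A.add (c1 A) a))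
      (ih (Nat.sub n (nat_lit 1)) (mul9 A w W) (A.sub (c1 A) (A.mul c (A.inv (A.add (c1 A) a))))
        (A.mul (A.mul g r) (A.inv (A.add (c1 A) a)))))) L

/-! ### one orientation -/

def chX3 (A : Ar M PH) (I : OI M) (kw : Nat) (Tt : Sc M → M → M → Bool) (S : Sc M) (w P : F9 M)
    (FB : Fm M) (H : HR PH) : Bool :=
  andB (tQW A H I.x I.b w S.c S.g (Tt S) I.lq kw w (c1 A) S.g) (chT A I H P FB)
def chX2 (A : Ar M PH) (I : OI M) (kw : Nat) (Tt : Sc M → M → M → Bool) (S : Sc M) (w P : F9 M)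
    (FB : Fm M) : Bool :=
  chX3 A I kw Tt S w P FB (mkHR A I.x I.e FB I.b)
def chX1 (A : Ar M PH) (I : OI M) (kw : Nat) (Tt : Sc M → M → M → Bool) (S : Sc M) (w : F9 M)
    (F : Fm M) : Bool :=
  chX2 A I kw Tt S w F.p (bsF A F I.b)
def chX0' (A : Ar M PH) (I : OI M) (kw : Nat) (Tt : Sc M → M → M → Bool) (S : Sc M) (x : M)
    (w : F9 M) : Bool :=
  chX1 A I kw Tt S w (mkFx A S x w)
def chX0 (A : Ar M PH) (I : OI M) (kw : Nat) (Tt : Sc M → M → M → Bool) (C : St M) (nu T E : M) :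
    Bool :=
  andB (scOK A nu T E) (chX0' A I kw Tt (mkSc A nu T E) (cubD A nu T E) (wM A I C))
def chXu (A : Ar M PH) (I : OI M) (kw : Nat) (Tt : Sc M → M → M → Bool) (C : St M) (T E : M) :
    Bool :=
  andB (A.ok (cubD A I.v T E)) (chX0 A I kw Tt C (nuM2 A I.v T E) T E)
def chX' (A : Ar M PH) (I : OI M) (d1 : List (SrcT M)) (kw : Nat) (Tt : Sc M → M → M → Bool)
    (C : St M) : Bool :=
  andB (A.ok (det9 A I.b))
    (andB (tOX A C I.k0 I.k1 I.k2 I.e I.x I.le1 I.le2 I.lx0 I.lx1 I.lx2)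
      (andB (tDX A C I.k0 d1)
        (andB (tIn A C I.e I.q0 I.q2 I.q1) (chXu A I kw Tt C (trM A I) (esM A I)))))
/-- ONE ORIENTATION, scaled family; the first `kw` pairs are powers of the cycle -/
def chX (A : Ar M PH) (I : OI M) (d1 : List (SrcT M)) (kw : Nat) (Tt : Sc M → M → M → Bool) :
    Bool :=
  chX' A I d1 kw Tt (mkSt A I.l0 I.l1 I.l2 I.s0 I.s1 I.s2 I.z)

end Pool.Agent.Helper57.KNB
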