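import Pool.Agent.Helper57.KNB.KT3
import Pool.Agent.Helper57.KNB.KU1

/-!
Row KFT, part 5: the B family in a near cell of a class with tails, over any arithmetic `R` with a
conversion `cv` of the models of KerT. Kernel side.
-/

set_option autoImplicit false
noncomputable section
namespace Pool.Agent.Helper57.KNB

open Pool.Agent.Helper86.C75 (Z)
open Pool.Agent.Helper86.CX (Cx andB u32)
open Pool.Agent.Helper86.CT (Alg Up Mc Vx KM mkKM Cls)
open Pool.Agent.Helper39.KNF (C9)

/-- a source: number of the form, multiplier -/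
structure SDT where
  k : Nat
  q : QL
/-- a polygon of the tail -/
structure PDT where
  V : List (Nat × Nat)
  cx : Nat
  cy : Nat
  R : Nat
  q : QL
  is : Nat
  sg : Nat
  w : Nat
/-- data of one orientation: numbers of the forms `X`, `E`, of the three targets, basis,
approximate root at the controls, table of multipliers, multipliers (`E`: targets after one and
two runs, `X`: three targets), sources, direct tests of two runs from `s1` to `s0`, number of the
exact pairs tested by powers of the cycle, multipliers of the exact pairs, polygons, bound of `ρ`,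
pivot, least abscissa, both signs of `Im τ`, controls of `τ` -/
structure BDT (α β : Type) where
  kx : Nat
  ke : Nat
  t0 : Nat
  t1 : Nat
  t2 : Nat
  B : C9
  v : α
  LT : β
  le1 : QL
  le2 : QL
  lx0 : QL
  lx1 : QL
  lx2 : QL
  q0 : List SDT
  q2 : List SDT
  q1 : List SDT
  d1 : List SDT
  kw : Nat
  lq : List QL
  tl : List PDT
  r0 : Nat
  pk : Nat
  e : Nat
  bj : Bool
  Ts : List (Nat × Nat)
  rho : Nat

variable {α β p v γ M PH : Type}

/-! ### all multipliers are positive -/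

def qPosS (T : Nat) (l : List SDT) : Bool :=
  List.rec (motive := fun _ => Bool) true (fun x _ ih => andB (qPos T x.q) ih) l
def qPosP (T : Nat) (l : List PDT) : Bool :=
  List.rec (motive := fun _ => Bool) true (fun x _ ih => andB (qPos T x.q) ih) l
def qPosB (T : Nat) (D : BDT α β) : Bool :=
  andB (qPosS T D.d1) (andB (qPos T D.le1) (andB (qPos T D.le2) (andB (qPos T D.lx0)
    (andB (qPos T D.lx1) (andB (qPos T D.lx2) (andB (qPosS T D.q0) (andB (qPosS T D.q2)
    (andB (qPosS T D.q1) (andB (qPosL T D.lq) (qPosP T D.tl))))))))))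
def posB (V : Vx β) (D : BDT α β) : Bool := V.al (fun T _ => qPosB T D) D.LT D.LT

/-! ### the inputs -/

/-- form number `k` -/
def fmT (A : Alg α) (U : Up β α) (w : Nat) (cv : Pool.Agent.Helper86.CT.Mo α → M) (KT : β)
    (k : Nat) : H6 M := hcv cv (mkKM A U w KT k)
def srT (A : Alg α) (U : Up β α) (w : Nat) (cv : Pool.Agent.Helper86.CT.Mo α → M) (KT LT : β)
    (l : List SDT) : List (SrcT M) :=
  List.rec (motive := fun _ => List (SrcT M)) []
    (fun x _ ih => ⟨fmT A U w cv KT x.k, ldT A U w cv LT x.q⟩ :: ih) l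
def tp1 (A : Alg α) (U : Up β α) (w : Nat) (cv : Pool.Agent.Helper86.CT.Mo α → M) (LT : β)
    (ng : Nat) (x : PDT) : TP M := ⟨x.V, x.cx, x.cy, x.R, ldT A U w cv LT x.q, x.is, x.sg, x.w, ng⟩
def tps (A : Alg α) (U : Up β α) (w : Nat) (cv : Pool.Agent.Helper86.CT.Mo α → M) (LT : β)
    (ng : Nat) (r : List (TP M)) (l : List PDT) : List (TP M) :=
  List.rec (motive := fun _ => List (TP M)) r (fun x _ ih => tp1 A U w cv LT ng x :: ih) l
def tpb (A : Alg α) (U : Up β α) (w : Nat) (cv : Pool.Agent.Helper86.CT.Mo α → M) (LT : β)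
    (bj : Bool) (l : List PDT) : List (TP M) :=
  Bool.rec (motive := fun _ => List (TP M)) (tps A U w cv LT (nat_lit 0) [] l)
    (tps A U w cv LT (nat_lit 0) (tps A U w cv LT (nat_lit 1) [] l) l) bj

/-- `q = k²`, ..: the squares of the weights; `ki` the weights, `z`, `zi` -/
def mkOIT (A : Alg α) (U : Up β α) (w : Nat) (R : Ar M PH)
    (cv : Pool.Agent.Helper86.CT.Mo α → M) (KT : β) (D : BDT α β)
    (l0 l1 l2 k0 k1 k2 a0 a1 a2 z zi : M) : OI M :=
  ⟨l0, l1, l2, sG R a0, sG R a1, sG R a2, z, zi, R.mul (R.mul k0 k1) k2,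
    R.sub (R.add a0 (R.add a1 a2)) (cR R (Z.p (nat_lit 844424930131968))),
    cv (Pool.Agent.Helper86.CT.mk A D.v (nat_lit 0)),
    fmT A U w cv KT D.t0, fmT A U w cv KT D.t1, fmT A U w cv KT D.t2, fmT A U w cv KT D.ke,
    fmT A U w cv KT D.kx, f9A R D.B, ldT A U w cv D.LT D.le1, ldT A U w cv D.LT D.le1,
    ldT A U w cv D.LT D.le2, ldT A U w cv D.LT D.lx0, ldT A U w cv D.LT D.lx1,
    ldT A U w cv D.LT D.lx2, srT A U w cv KT D.LT D.q0, srT A U w cv KT D.LT D.q2,
    srT A U w cv KT D.LT D.q1, ldsT A U w cv D.LT D.lq, tpb A U w cv D.LT D.bj D.tl, D.r0, D.pk⟩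

/-- the test of the last pair -/
def ttT (R : Ar M PH) (D : BDT α β) (S : Sc M) (_ r : M) : Bool :=
  andB (Nat.ble (R.nb r) D.r0)
    (andB (Nat.ble (R.nb S.g) (Nat.add (nat_lit 281474976710656) (Nat.mul (nat_lit 16777216) D.e)))
      (segG (R.rd S.c) D.rho (R.ctl S.c) D.Ts))

/-- one orientation, `ai` the squares of `ki` -/
def chBo1 (A : Alg α) (U : Up β α) (w : Nat) (V : Vx β) (R : Ar M PH)
    (cv : Pool.Agent.Helper86.CT.Mo α → M) (KT : β) (D : BDT α β)
    (l0 l1 l2 k0 k1 k2 a0 a1 a2 z zi : M) : Bool :=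
  andB (posB V D) (andB (R.ok a0) (andB (R.ok a1) (andB (R.ok a2)
    (chX R (mkOIT A U w R cv KT D l0 l1 l2 k0 k1 k2 a0 a1 a2 z zi) (srT A U w cv KT D.LT D.d1)
      D.kw (ttT R D)))))
/-- ONE ORIENTATION IN A CELL -/
def chBoT (A : Alg α) (U : Up β α) (w : Nat) (V : Vx β) (R : Ar M PH)
    (cv : Pool.Agent.Helper86.CT.Mo α → M) (KT : β) (D : BDT α β)
    (l0 l1 l2 k0 k1 k2 z zi : M) : Bool :=
  chBo1 A U w V R cv KT D l0 l1 l2 k0 k1 k2 (R.mul k0 k0) (R.mul k1 k1) (R.mul k2 k2) z zi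

def chBR1 (A : Alg α) (U : Up β α) (w : Nat) (V : Vx β) (R : Ar M PH)
    (cv : Pool.Agent.Helper86.CT.Mo α → M) (KT : β) (Dp Dm : BDT α β)
    (l0 l1 l2 k0 k1 k2 u z : M) : Bool :=
  andB (chBoT A U w V R cv KT Dp l0 l1 l2 k0 k1 k2 u z)
    (chBoT A U w V R cv KT Dm l0 l2 l1 k2 k1 k0 z u)
/-- BOTH ORIENTATIONS; `u = 1 / z` -/
def chBR (K : Mc α β p v γ) (V : Vx β) (R : Ar M PH) (cv : Pool.Agent.Helper86.CT.Mo α → M)
    (k0 k1 k2 : Pool.Agent.Helper86.CT.Mo α) (C : Cls α) (Dp Dm : BDT α β) (KT : β)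
    (u z : Pool.Agent.Helper86.CT.Mo α) : Bool :=
  chBR1 K.A K.U K.w V R cv KT Dp Dm (cv C.l0) (cv C.l1) (cv C.l2) (cv k0) (cv k1) (cv k2) (cv u)
    (cv z)

/-- the type of the B test of a cell: weights, class, data of the two orientations, forms, `1/z`,
`z` -/
abbrev BTT (α β : Type) := Pool.Agent.Helper86.CT.Mo α → Pool.Agent.Helper86.CT.Mo α →
  Pool.Agent.Helper86.CT.Mo α → Cls α → BDT α β → BDT α β → β →
  Pool.Agent.Helper86.CT.Mo α → Pool.Agent.Helper86.CT.Mo α → Bool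

/-- unpacked -/
def chBU (K : Mc α β p v γ) (V : Vx β) (W : Lw α) : BTT α β :=
  chBR K V (arT K.A W) (fun x => x)

end Pool.Agent.Helper57.KNB
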