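import Pool.Agent.Helper57.KNB.KT5
import Pool.Agent.Helper57.KNB.KT4
import Pool.Agent.Helper57.KNB.KO4

/-!
Row KFT, part 6: B families in near cells of classes with tails: the tail (powers of `τ`, bound of
`ρ`) over any arithmetic.
-/

set_option autoImplicit false
noncomputable section
namespace Pool.Agent.Helper57.KNB

open Pool.Agent.Helper86.C75 (Z)
open Pool.Agent.Helper86.CX (Cx andB u32 kf Hm mkH ev)
open Pool.Agent.Helper86.CT (Alg Up Mc Vx KM mkKM N3 Pr)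
open Pool.Agent.Helper90.C75
open Pool.Agent.Helper90.KMO
open Pool.Agent.Helper39.KNF (AD)
open Pool.Agent.Helper42.CH (powA)
open Pool.Agent.Helper32.C75 (pt InHull Near cell3 cell3_sound PK HP Tr powA_im powA_conj)
open Complex ComplexConjugate

variable {α β p v γ M PH : Type}

/-! ### the check of the powers -/

/-- the check of the powers (helper32) and of the box of `τ` -/
def chAT (Ts : List (ℕ × ℕ)) (rho n e : ℕ) (Vs : List (List (ℕ × ℕ))) (bj : Bool) (A : AD) : Bool :=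
  cell3 A.ax Vs A.K Ts rho A.H n A.x0 A.x1 A.y0 A.y1 A.T &&
    (Ts.all fun c => Nat.ble (A.x0 + rho) c.1 && Nat.ble (c.1 + rho) A.x1 &&
      Nat.ble (c.2 + rho) A.y1 && (bj || Nat.ble rho c.2)) &&
    Nat.ble A.x1 16777216 && Nat.ble (A.y1 * A.y1) (4 * A.x0 * 16777216) &&
    (Vs.all fun V => V.all fun v => Nat.ble e v.1) && (Nat.ble rho A.x1 && Nat.ble rho A.y1)

/-- the powers of `τ` are in the polygons -/
theorem chAT_sound {Ts : List (ℕ × ℕ)} {rho n e : ℕ} {Vs : List (List (ℕ × ℕ))} {bj : Bool}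
    {A : AD} (h : chAT Ts rho n e Vs bj A = true) {τ : ℂ}
    (hN : Near Ts rho τ) (m : ℕ) (hm : n ≤ m) :
    ((∃ V ∈ Vs, InHull V (powA τ m)) ∨ (bj = true ∧ ∃ V ∈ Vs, InHull V (conj (powA τ m)))) ∧
      (e : ℝ) / 16777216 ≤ (powA τ m).re := by
  unfold chAT at h
  simp only [Bool.and_eq_true] at h
  obtain ⟨⟨⟨⟨⟨hcell, hC⟩, hx1⟩, hy1⟩, he⟩, t1, t2⟩ := h
  rw [List.all_eq_true] at hC he
  have t1 : rho ≤ A.x1 := Nat.le_of_ble_eq_true t1
  have t2 : rho ≤ A.y1 := Nat.le_of_ble_eq_true t2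
  have hC' : ∀ c ∈ Ts, A.x0 + rho ≤ c.1 ∧ c.1 + rho ≤ A.x1 ∧
      c.2 + rho ≤ A.y1 ∧ (bj = true ∨ rho ≤ c.2) := by
    intro c hc
    have := hC c hc
    simp only [Bool.and_eq_true, Bool.or_eq_true] at this
    obtain ⟨⟨⟨h1, h2⟩, h3⟩, h4⟩ := this
    exact ⟨Nat.le_of_ble_eq_true h1, Nat.le_of_ble_eq_true h2, Nat.le_of_ble_eq_true h3,
      h4.imp id Nat.le_of_ble_eq_true⟩
  have he' : ∀ V ∈ Vs, ∀ v ∈ V, e ≤ v.1 := by
    intro T hT v hv
    have := he T hT
    rw [List.all_eq_true] at this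
    exact Nat.le_of_ble_eq_true (this v hv)
  have hx1' : A.x1 ≤ 16777216 := Nat.le_of_ble_eq_true hx1
  have hy1' : A.y1 * A.y1 ≤ 4 * A.x0 * 16777216 := Nat.le_of_ble_eq_true hy1
  -- the box
  have box : ∀ σ : ℂ, Near Ts rho σ → (A.x0 : ℝ) / 16777216 ≤ σ.re ∧
      σ.re ≤ (A.x1 : ℝ) / 16777216 ∧ σ.im ≤ (A.y1 : ℝ) / 16777216 ∧
      (bj = false → 0 ≤ σ.im) := by
    intro σ hσ
    obtain ⟨q, h1, h2⟩ := hσ
    rw [UU24] at h2
    obtain ⟨q1, q2, q3, q4⟩ := hull_le h1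
    have r1 := (abs_re_le_norm (σ - q)).trans h2
    have r2 := (abs_im_le_norm (σ - q)).trans h2
    rw [Complex.sub_re] at r1
    rw [Complex.sub_im] at r2
    obtain ⟨r3, r4⟩ := abs_le.1 r1
    obtain ⟨r5, r6⟩ := abs_le.1 r2
    have s1 := q1 (A.x0 + rho) (fun x hx => (hC' x hx).1)
    have s2 := q2 (A.x1 - rho) (fun x hx => by have := (hC' x hx).2.1; omega)
    have s4 := q4 (A.y1 - rho) (fun x hx => by have := (hC' x hx).2.2.1; omega)
    push_cast [Nat.cast_sub t1] at s1 s2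
    push_cast [Nat.cast_sub t2] at s4
    rw [add_div] at s1
    rw [sub_div] at s2 s4
    refine ⟨by linarith, by linarith, by linarith, fun hb => ?_⟩
    have s3 := q3 rho (fun x hx => by
      rcases (hC' x hx).2.2.2 with h5 | h5
      · rw [hb] at h5; cases h5
      · exact h5)
    linarith
  -- one sign
  have main : ∀ σ : ℂ, Near Ts rho σ → 0 ≤ σ.im →
      ∃ V ∈ Vs, InHull V (powA σ m) := by
    intro σ hσ hi
    obtain ⟨b1, b2, b3, -⟩ := box σ hσ
    have hre : 0 ≤ σ.re := le_trans (by positivity) b1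
    have hre1 : σ.re ≤ 1 := by
      refine b2.trans ?_
      rw [div_le_one (by norm_num)]
      exact_mod_cast hx1'
    have hq : σ.im ^ 2 ≤ 4 * σ.re := by
      have c1 : σ.im ^ 2 ≤ ((A.y1 : ℝ) / 16777216) ^ 2 := pow_le_pow_left₀ hi b3 2
      have c2 : ((A.y1 : ℝ) / 16777216) ^ 2 ≤ 4 * ((A.x0 : ℝ) / 16777216) := by
        have c3 : ((A.y1 * A.y1 : ℕ) : ℝ) ≤ ((4 * A.x0 * 16777216 : ℕ) : ℝ) := by
          exact_mod_cast hy1'
        push_cast at c3
        rw [div_pow, ← mul_div_assoc, div_le_div_iff₀ (by norm_num) (by norm_num)]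
        nlinarith
      linarith
    exact cell3_sound hcell hσ hi
      (by have := div_nonneg hi (by norm_num : (0 : ℝ) ≤ 100); rw [neg_div]; linarith)
      (fun _ i => powA_im hi hre1 hq i) m hm
  rcases lt_or_ge τ.im 0 with hi | hi
  · have hb : bj = true := by
      cases hbj : bj with
      | true => rfl
      | false =>
        have := (box τ hN).2.2.2 hbj
        linarith
    obtain ⟨V, hV, h5⟩ := main (conj τ) (near_conj hN hi) (by rw [Complex.conj_im]; linarith)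
    rw [powA_conj] at h5
    refine ⟨Or.inr ⟨hb, V, hV, h5⟩, ?_⟩
    have := (hull_le h5).1 e (he' V hV)
    rwa [Complex.conj_re] at this
  · obtain ⟨V, hV, h5⟩ := main τ hN hi
    exact ⟨Or.inl ⟨V, hV, h5⟩, (hull_le h5).1 e (he' V hV)⟩

section tp
variable {A : Alg α} {U : Up β α} {w : ℕ} {cv : Pool.Agent.Helper86.CT.Mo α → M} {LT : β}

theorem tps_mem (ng : ℕ) (r : List (TP M)) (l : List PDT) (T : TP M) :
    T ∈ tps A U w cv LT ng r l ↔ (∃ x ∈ l, T = tp1 A U w cv LT ng x) ∨ T ∈ r := by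
  induction l with
  | nil =>
    show T ∈ r ↔ _
    simp
  | cons y l ih =>
    show T ∈ tp1 A U w cv LT ng y :: tps A U w cv LT ng r l ↔ _
    rw [List.mem_cons, ih]
    constructor
    · rintro (h | ⟨x, hx, h⟩ | h)
      · exact Or.inl ⟨y, List.mem_cons_self .., h⟩
      · exact Or.inl ⟨x, List.mem_cons_of_mem _ hx, h⟩
      · exact Or.inr h
    · rintro (⟨x, hx, h⟩ | h)
      · rcases List.mem_cons.1 hx with rfl | hx
        · exact Or.inl h
        · exact Or.inr (Or.inl ⟨x, hx, h⟩)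
      · exact Or.inr (Or.inr h)

theorem tpb_mem0 (bj : Bool) {l : List PDT} {x : PDT} (hx : x ∈ l) :
    tp1 A U w cv LT 0 x ∈ tpb A U w cv LT bj l := by
  cases bj with
  | false => exact (tps_mem _ _ _ _).2 (Or.inl ⟨x, hx, rfl⟩)
  | true => exact (tps_mem _ _ _ _).2 (Or.inl ⟨x, hx, rfl⟩)

theorem tpb_mem1 {l : List PDT} {x : PDT} (hx : x ∈ l) :
    tp1 A U w cv LT 1 x ∈ tpb A U w cv LT true l :=
  (tps_mem _ _ _ _).2 (Or.inr ((tps_mem _ _ _ _).2 (Or.inl ⟨x, hx, rfl⟩)))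

/-- the polygons contain the powers -/
theorem tpb_in {bj : Bool} {l : List PDT} {a : ℂ}
    (h : (∃ V ∈ l.map fun T => T.V, InHull V a) ∨
      (bj = true ∧ ∃ V ∈ l.map fun T => T.V, InHull V (conj a))) :
    ∃ T ∈ tpb A U w cv LT bj l, InP T a := by
  rcases h with ⟨V, hV, h⟩ | ⟨hb, V, hV, h⟩
  · obtain ⟨T, hT, rfl⟩ := List.mem_map.1 hV
    exact ⟨tp1 A U w cv LT 0 T, tpb_mem0 bj hT, h⟩
  · obtain ⟨T, hT, rfl⟩ := List.mem_map.1 hV
    rw [hb]
    exact ⟨tp1 A U w cv LT 1 T, tpb_mem1 hT, h⟩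

end tp

/-! ### the tail -/

variable {R : Ar M PH} {OK : ℂ → M → Prop} {HK : Hm ℝ → PH → Prop}

theorem tailT_ok (hR : ArS R OK HK) {D : BDT α β} {Q : AD}
    (h : chAT D.Ts D.rho D.lq.length D.e (D.tl.map fun T => T.V) D.bj Q = true)
    {τ g : ℂ} {S : Sc M} (hc : OK (1 - τ) S.c) (hg : OK g S.g) {a r : M}
    (hr : OK (sqR g τ D.lq.length) r) (ht : ttT R D S a r = true)
    {A : Alg α} {U : Up β α} {w : ℕ} {cv : Pool.Agent.Helper86.CT.Mo α → M} :
    TailOK τ g D.lq.length (tpb A U w cv D.LT D.bj D.tl) D.r0 := by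
  have hU := UU_pos
  obtain ⟨t1, t2⟩ := andBt ht
  obtain ⟨t2, t3⟩ := andBt t2
  have hN := near_gen hR hc t3
  rw [sub_sub_cancel] at hN
  have t1' : ((R.nb r : ℕ) : ℝ) ≤ D.r0 := by exact_mod_cast Nat.le_of_ble_eq_true t1
  have t2' : ((R.nb S.g : ℕ) : ℝ) ≤ 281474976710656 + 16777216 * D.e := by
    have := Nat.le_of_ble_eq_true t2
    have h5 : ((R.nb S.g : ℕ) : ℝ) ≤
        ((Nat.add (nat_lit 281474976710656) (Nat.mul (nat_lit 16777216) D.e) : ℕ) : ℝ) := by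
      exact_mod_cast this
    rw [nadd, nmul] at h5
    norm_num at h5 ⊢
    exact h5
  have g1 := (hR.nb hg).trans t2'
  have r1 := (hR.nb hr).trans t1'
  have key := rho_le (g := g) (τ := τ) (m0 := D.lq.length) (R0 := (D.r0 : ℝ) / UU)
    (e := (D.e : ℝ) / 16777216) (by positivity) (by rw [le_div_iff₀ hU]; exact r1) (by
      rw [← le_div_iff₀ hU] at g1
      refine g1.trans (le_of_eq ?_)
      unfold UU
      ring) (fun q hq => (chAT_sound h hN q hq).2)
  intro m hm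
  refine ⟨tpb_in (chAT_sound h hN m hm).1, ?_⟩
  rw [← le_div_iff₀ hU]
  exact key m hm

end Pool.Agent.Helper57.KNB
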