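import Pool.Agent.Helper57.KNB.KN3

/-!
Row KFT, B families: the powers of the run of two letters from the cycle, where the form `E` has
targets only after one and two runs; arrivals at the base state are direct tests.
-/

set_option autoImplicit false
noncomputable section
namespace Pool.Agent.Helper57.KNB

open Pool.Agent.Helper6.MONO (sD omS kk zS trBs esBs tauBs RMb)
open Pool.Agent.Helper90.C75 (sqR)
open Pool.Agent.Helper42.CH (powA)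
open Pool.Agent.Helper86.CX (Hm ev)
open Pool.Agent.Helper21.SUP
open Pool.Agent.Helper39.SLT (swB_0 swB_1 swB_2 ExB)
open Matrix Complex

variable {p q r : ℕ} {w : ℂ}

/-- from the form `E` to the target cones after one and two runs -/
structure BTg2 (p q r : ℕ) (s0 : GS) (w : ℂ) (E : Hm ℝ) (Kt : GS → Hm ℝ) : Prop where
  t1 : Le E (Kt (nx s0 2)) (Dl (gS p q r (nx s0 2) w) * MT (gS p q r s0 w) (sS p q r s0))
  t2 : Le E (Kt (nx (nx s0 2) 2)) (Dl (gS p q r (nx (nx s0 2) 2) w) *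
    (MT (gS p q r (nx s0 2) w) (sS p q r (nx s0 2)) * MT (gS p q r s0 w) (sS p q r s0)))

theorem BTg2.x1 (hp : 3 ≤ p) (hq : 3 ≤ q) (hr : 3 ≤ r) {s0 : GS} {ν : ℂ} (h : BPt p q r s0 w ν)
    {E : Hm ℝ} {Kt : GS → Hm ℝ} (ht : BTg2 p q r s0 w E Kt) :
    ∀ v ∈ CS E (omS p q r s0 w), (RMb p q r s0 2 w).mulVec v ∈ Pos (Kt (nx s0 2)) := by
  intro v hv
  obtain ⟨c, hc, e⟩ := run_chart hp hq hr h.hs0 h.o0
  rw [e, smul_mulVec]
  refine Pos.smul hc ?_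
  have h1 := leave h.o1 ht.t1 hv
  rw [mulVec_mulVec, Matrix.mul_assoc] at h1
  exact h1

theorem BTg2.x2 (hp : 3 ≤ p) (hq : 3 ≤ q) (hr : 3 ≤ r) {s0 : GS} {ν : ℂ} (h : BPt p q r s0 w ν)
    {E : Hm ℝ} {Kt : GS → Hm ℝ} (ht : BTg2 p q r s0 w E Kt) :
    ∀ v ∈ CS E (omS p q r s0 w), (RMb p q r (nx s0 2) 2 w * RMb p q r s0 2 w).mulVec v ∈
      Pos (Kt (nx (nx s0 2) 2)) := by
  intro v hv
  obtain ⟨c, hc, e⟩ := run2_chart hp hq hr h.hs0 h.o0 h.o1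
  rw [e, smul_mulVec]
  refine Pos.smul hc ?_
  have h1 := leave h.o2 ht.t2 hv
  rw [mulVec_mulVec, Matrix.mul_assoc, Matrix.mul_assoc] at h1
  exact h1

/-- a direct test of two runs which arrive at the base state -/
theorem run2_dir (hp : 3 ≤ p) (hq : 3 ≤ q) (hr : 3 ≤ r) {s0 : GS} {ν : ℂ} (h : BPt p q r s0 w ν)
    {Kt : GS → Hm ℝ} {K : Hm ℝ}
    (hK : Le K (Kt s0) (Dl (gS p q r s0 w) * (MT (gS p q r (nx (nx s0 2) 2) w)
      (sS p q r (nx (nx s0 2) 2)) * (MT (gS p q r (nx s0 2) w) (sS p q r (nx s0 2)) *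
        Dg (2 * gS p q r (nx s0 2) w))))) :
    ∀ v ∈ Pos K, (RMb p q r (nx (nx s0 2) 2) 2 w * RMb p q r (nx s0 2) 2 w).mulVec v ∈
      Pos (Kt s0) := by
  intro v hv
  have e3 : nx (nx (nx s0 2) 2) 2 = s0 := nx_even3 s0 2 rfl
  obtain ⟨c, hc, e⟩ := run2_chart hp hq hr (DG_nx _ 2 h.hs0) h.o1 h.o2
  rw [e, e3, smul_mulVec]
  refine Pos.smul hc ?_
  rw [Dg_Dl' h.o1]
  exact leave h.o0 hK hv

/-- source at the base state -/
theorem b_src0' (hp : 3 ≤ p) (hq : 3 ≤ q) (hr : 3 ≤ r) {s0 : GS} {ν : ℂ} (h : BPt p q r s0 w ν)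
    {E X : Hm ℝ} {Kt : GS → Hm ℝ} (hE : BTg2 p q r s0 w E Kt) (hX : BTgt p q r s0 w X Kt)
    (fam : ∀ m : ℕ, Le E X (TF (WTs p q r s0 w) (trBs p q r s0 w) (esBs p q r s0 w) ν
      (powA (tauBs p q r s0 w ν) m)
      (sqR (2 * ν / (trBs p q r s0 w - ν)) (tauBs p q r s0 w ν) m)))
    {K : Hm ℝ} (hK : Le K E (Dg (2 * gS p q r s0 w))) (k : ℕ) :
    ∀ v ∈ Pos K, (gM (RMb p q r) s0 (List.replicate (k + 1) 2) w).mulVec v ∈
      Pos (Kt (sD s0 (List.replicate (k + 1) 2))) := by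
  have hent : ∀ v ∈ Pos K, v ∈ CS E (omS p q r s0 w) := by
    intro v hv
    show (Dg (omS p q r s0 w)⁻¹).mulVec v ∈ Pos E
    rw [Dg_Dl' h.o0]
    exact hK.pos hv
  have eX := hX.exB hp hq hr h
  exact swB_0 (T := fun s => Pos (Kt s)) (bfam hp hq hr h fam) hent eX.x0 eX.x1 eX.x2
    (fun v hv => hE.x1 hp hq hr h v (hent v hv)) (fun v hv => hE.x2 hp hq hr h v (hent v hv)) k

/-- source one run before the base state; the single run from there is a direct test -/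
theorem b_src1' (hp : 3 ≤ p) (hq : 3 ≤ q) (hr : 3 ≤ r) {s0 : GS} {ν : ℂ} (h : BPt p q r s0 w ν)
    {E X : Hm ℝ} {Kt : GS → Hm ℝ} (hE : BTg2 p q r s0 w E Kt) (hX : BTgt p q r s0 w X Kt)
    (fam : ∀ m : ℕ, Le E X (TF (WTs p q r s0 w) (trBs p q r s0 w) (esBs p q r s0 w) ν
      (powA (tauBs p q r s0 w ν) m)
      (sqR (2 * ν / (trBs p q r s0 w - ν)) (tauBs p q r s0 w ν) m)))
    {K : Hm ℝ} (hK : Le K E (MT (gS p q r (nx (nx s0 2) 2) w) (sS p q r (nx (nx s0 2) 2)) *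
      Dg (2 * gS p q r (nx (nx s0 2) 2) w)))
    (hd : ∀ v ∈ Pos K, (RMb p q r (nx (nx s0 2) 2) 2 w).mulVec v ∈ Pos (Kt s0)) (k : ℕ) :
    ∀ v ∈ Pos K, (gM (RMb p q r) (nx (nx s0 2) 2) (List.replicate (k + 1) 2) w).mulVec v ∈
      Pos (Kt (sD (nx (nx s0 2) 2) (List.replicate (k + 1) 2))) := by
  have e3 : nx (nx (nx s0 2) 2) 2 = s0 := nx_even3 s0 2 rfl
  have hs2 := DG_nx _ 2 (DG_nx _ 2 h.hs0)
  have hent : ∀ v ∈ Pos K, (RMb p q r (nx (nx s0 2) 2) 2 w).mulVec v ∈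
      CS E (omS p q r s0 w) := by
    intro v hv
    obtain ⟨c, hc, e⟩ := run_chart hp hq hr hs2 h.o2
    rw [e, e3, smul_mulVec]
    refine CS.smul hc ?_
    show (Dg (omS p q r s0 w)⁻¹).mulVec _ ∈ Pos E
    rw [← mulVec_mulVec, Dg_cancel h.o0, Dg_Dl' h.o2]
    exact hK.pos hv
  have eX := hX.exB hp hq hr h
  have hb := swB_1 (s := nx (nx s0 2) 2) (RM := RMb p q r) (w := w) (A0 := Pos K)
    (E := CS E (omS p q r s0 w)) (X := CS X (omS p q r s0 w)) (T := fun s => Pos (Kt s))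
  rw [e3] at hb
  refine hb (bfam hp hq hr h fam) hent eX hd ?_ ?_ k
  · intro v hv
    rw [← mulVec_mulVec]
    exact hE.x1 hp hq hr h _ (hent v hv)
  · intro v hv
    have h1 := hE.x2 hp hq hr h _ (hent v hv)
    rw [mulVec_mulVec, Matrix.mul_assoc] at h1
    exact h1

/-- source two runs before the base state; one and two runs from there are direct tests -/
theorem b_src2' (hp : 3 ≤ p) (hq : 3 ≤ q) (hr : 3 ≤ r) {s0 : GS} {ν : ℂ} (h : BPt p q r s0 w ν)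
    {E X : Hm ℝ} {Kt : GS → Hm ℝ} (hE : BTg2 p q r s0 w E Kt) (hX : BTgt p q r s0 w X Kt)
    (fam : ∀ m : ℕ, Le E X (TF (WTs p q r s0 w) (trBs p q r s0 w) (esBs p q r s0 w) ν
      (powA (tauBs p q r s0 w ν) m)
      (sqR (2 * ν / (trBs p q r s0 w - ν)) (tauBs p q r s0 w ν) m)))
    {K : Hm ℝ} (hK : Le K E (MT (gS p q r (nx (nx s0 2) 2) w) (sS p q r (nx (nx s0 2) 2)) *
      (MT (gS p q r (nx s0 2) w) (sS p q r (nx s0 2)) * Dg (2 * gS p q r (nx s0 2) w))))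
    (hd : ∀ v ∈ Pos K, (RMb p q r (nx s0 2) 2 w).mulVec v ∈ Pos (Kt (nx (nx s0 2) 2)))
    (hd2 : ∀ v ∈ Pos K, (RMb p q r (nx (nx s0 2) 2) 2 w * RMb p q r (nx s0 2) 2 w).mulVec v ∈
      Pos (Kt s0)) (k : ℕ) :
    ∀ v ∈ Pos K, (gM (RMb p q r) (nx s0 2) (List.replicate (k + 1) 2) w).mulVec v ∈
      Pos (Kt (sD (nx s0 2) (List.replicate (k + 1) 2))) := by
  have e3 : nx (nx (nx s0 2) 2) 2 = s0 := nx_even3 s0 2 rfl
  have hs1 := DG_nx _ 2 h.hs0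
  have hent : ∀ v ∈ Pos K, (RMb p q r (nx (nx s0 2) 2) 2 w * RMb p q r (nx s0 2) 2 w).mulVec v ∈
      CS E (omS p q r s0 w) := by
    intro v hv
    obtain ⟨c, hc, e⟩ := run2_chart hp hq hr hs1 h.o1 h.o2
    rw [e, e3, smul_mulVec]
    refine CS.smul hc ?_
    show (Dg (omS p q r s0 w)⁻¹).mulVec _ ∈ Pos E
    rw [← mulVec_mulVec, Dg_cancel h.o0, Dg_Dl' h.o1]
    exact hK.pos hv
  have eX := hX.exB hp hq hr h
  have hb := swB_2 (s := nx s0 2) (RM := RMb p q r) (w := w) (A0 := Pos K)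
    (E := CS E (omS p q r s0 w)) (X := CS X (omS p q r s0 w)) (T := fun s => Pos (Kt s))
  rw [e3] at hb
  refine hb (bfam hp hq hr h fam) hent eX hd hd2 ?_ ?_ k
  · intro v hv
    rw [← mulVec_mulVec]
    exact hE.x1 hp hq hr h _ (hent v hv)
  · intro v hv
    have h1 := hE.x2 hp hq hr h _ (hent v hv)
    rw [mulVec_mulVec, Matrix.mul_assoc] at h1
    exact h1

end Pool.Agent.Helper57.KNB
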