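import Pool.Agent.Helper57.KNB.KN13
import Pool.Agent.Helper57.KNB.KU1
import Pool.Agent.Helper57.KNB.KU0

/-!
Row KFT, B families: the scaled family and the sharper radius are sound.
-/

set_option autoImplicit false
noncomputable section
namespace Pool.Agent.Helper57.KNB

open Pool.Agent.Helper6.MONO (sD SbP Nm Wm WBn fBW TB trB esB tauB omS kk zS TBs trBs esBs tauBs lamS
  RMb NRB_RMb_two zS_om zS_nx2 LNI_kk LNI_kk_symm)
open Pool.Agent.Helper90.C75 (e2 prS prQ prN sqR cub_near cub_der pr_rel cay3_root)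
open Pool.Agent.Helper42.CH (powA)
open Pool.Agent.Helper21.SUP
open Pool.Agent.Helper86.C75 (Z)
open Pool.Agent.Helper86.CX (Cx andB Hm ev mkH)
open Pool.Agent.Helper90.KMO (zv cz UU UU_pos)
open Pool.Agent.Helper32.C75 (InHull pt)
open Complex ComplexConjugate Matrix

variable {M PH : Type} {A : Ar M PH} {OK : ℂ → M → Prop} {HK : Hm ℝ → PH → Prop} {p q r : ℕ} {w : ℂ}

/-! ### the simple eigenvalue -/

/-- a root near `v`, second order -/
theorem cub_near2 {v T E : ℂ} {a b g : ℝ} (ha : 0 ≤ a)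
    (hD : 3 * v ^ 2 + 2 * (-T) * v + E ≠ 0)
    (h1 : ‖v ^ 3 + (-T) * v ^ 2 + E * v + 1‖ ≤ a * ‖3 * v ^ 2 + 2 * (-T) * v + E‖)
    (h2 : 1 ≤ b * ‖3 * v ^ 2 + 2 * (-T) * v + E‖) (h3 : ‖3 * v - T‖ ≤ g)
    {e : ℝ} (he : 3 * a * b * (g + 3 * a) ≤ e) (he2 : e ≤ 1 / 2) :
    ∃ ν, ν ^ 3 + (-T) * ν ^ 2 + E * ν + 1 = 0 ∧ ‖v - ν‖ ≤ a * (1 + 2 * e) := by
  obtain ⟨ν, n1, n2⟩ := cub_near (-T) E 1 v (3 * a) (by nlinarith [h1]) hD
  refine ⟨ν, n1, ?_⟩
  set D := 3 * v ^ 2 + 2 * (-T) * v + E with hDd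
  set F := v ^ 3 + (-T) * v ^ 2 + E * v + 1 with hFd
  set δ := ‖v - ν‖ with hδ
  have hDn : 0 < ‖D‖ := norm_pos_iff.2 hD
  obtain ⟨G, hG⟩ : ∃ G : ℂ, G = v ^ 2 + v * ν + ν ^ 2 - T * (v + ν) + E := ⟨_, rfl⟩
  have f1 : F = (v - ν) * G := by
    rw [hFd, hG]
    linear_combination n1
  have f2 : D = G + (v - ν) * (2 * v + ν - T) := by
    rw [hDd, hG]
    ring
  have f3 : ‖2 * v + ν - T‖ ≤ g + 3 * a := by
    have : 2 * v + ν - T = (3 * v - T) - (v - ν) := by ring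
    rw [this]
    exact (norm_sub_le _ _).trans (add_le_add h3 n2)
  have hδ0 : 0 ≤ δ := norm_nonneg _
  have f4 : ‖D‖ ≤ ‖G‖ + δ * (g + 3 * a) := by
    rw [f2]
    refine (norm_add_le _ _).trans ?_
    rw [norm_mul]
    exact add_le_add le_rfl (mul_le_mul_of_nonneg_left f3 hδ0)
  have f5 : δ * ‖G‖ ≤ a * ‖D‖ := by
    rw [← norm_mul, ← f1]
    exact h1
  have hg0 : 0 ≤ g + 3 * a := (norm_nonneg _).trans f3
  have f6 : δ * ‖D‖ ≤ a * ‖D‖ + δ * (3 * a * (g + 3 * a)) := by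
    calc δ * ‖D‖ ≤ δ * (‖G‖ + δ * (g + 3 * a)) := mul_le_mul_of_nonneg_left f4 hδ0
      _ = δ * ‖G‖ + δ * (δ * (g + 3 * a)) := by ring
      _ ≤ a * ‖D‖ + δ * (3 * a * (g + 3 * a)) :=
        add_le_add f5 (mul_le_mul_of_nonneg_left (mul_le_mul_of_nonneg_right n2 hg0) hδ0)
  have f7 : 3 * a * (g + 3 * a) ≤ e * ‖D‖ := by
    have q0 : 0 ≤ 3 * a * (g + 3 * a) := mul_nonneg (by linarith) hg0
    calc 3 * a * (g + 3 * a) = 3 * a * (g + 3 * a) * 1 := by ring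
      _ ≤ 3 * a * (g + 3 * a) * (b * ‖D‖) := mul_le_mul_of_nonneg_left h2 q0
      _ = 3 * a * b * (g + 3 * a) * ‖D‖ := by ring
      _ ≤ e * ‖D‖ := mul_le_mul_of_nonneg_right he hDn.le
  have f8 : δ * ‖D‖ ≤ (a + δ * e) * ‖D‖ := by
    calc δ * ‖D‖ ≤ a * ‖D‖ + δ * (3 * a * (g + 3 * a)) := f6
      _ ≤ a * ‖D‖ + δ * (e * ‖D‖) := add_le_add le_rfl (mul_le_mul_of_nonneg_left f7 hδ0)
      _ = (a + δ * e) * ‖D‖ := by ring
  have f9 : δ ≤ a + δ * e := le_of_mul_le_mul_right f8 hDn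
  have he0 : 0 ≤ e := by
    refine le_trans ?_ he
    have hb0 : 0 ≤ b := by
      by_contra hb
      push Not at hb
      nlinarith
    exact mul_nonneg (mul_nonneg (by linarith) hb0) hg0
  have f10 : δ ≤ 2 * a := by
    have : δ * e ≤ δ * (1 / 2) := mul_le_mul_of_nonneg_left he2 hδ0
    linarith
  have f11 : δ * e ≤ 2 * a * e := mul_le_mul_of_nonneg_right f10 he0
  linarith

theorem ndivU2 (a : ℕ) : (a : ℝ) / UU ^ 2 ≤ (Nat.div a (nat_lit 79228162514264337593543950336) : ℕ) +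
    1 := by
  have h2 : a < (a / 79228162514264337593543950336 + 1) * 79228162514264337593543950336 := by
    have := Nat.lt_div_mul_add (a := a) (b := 79228162514264337593543950336) (by norm_num)
    linarith
  have h2' : (a : ℝ) < (((a / 79228162514264337593543950336 : ℕ) : ℝ) + 1) *
      79228162514264337593543950336 := by
    exact_mod_cast h2
  have e : (UU : ℝ) ^ 2 = 79228162514264337593543950336 := by unfold UU; norm_num
  rw [e, div_le_iff₀ (by norm_num)]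
  exact h2'.le

/-- THE ROOT near the data -/
theorem nuM2_sound (hA : ArS A OK HK) {v T E : ℂ} {v' T' E' : M} (hv : OK v v') (hT : OK T T')
    (hE : OK E E') (h : A.ok (cubD A v' T' E') = true) :
    ∃ ν : ℂ, ν ^ 3 - T * ν ^ 2 + E * ν + 1 = 0 ∧ OK ν (nuM2 A v' T' E') := by
  have hF := cub_ok hA hv hT hE
  have hD := cubD_ok hA hv hT hE
  obtain ⟨hD0, hDi⟩ := hA.inv hD h
  have n1 := hA.nb hF
  have n2 := hA.nb hDi
  have n3 := hA.nb (hA.sub (hA.add hv (okD hA hv)) hT)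
  have e3 : v + 2 * v - T = 3 * v - T := by ring
  rw [e3] at n3
  set F := v ^ 3 + (-T) * v ^ 2 + E * v + 1 with hFd
  set D := 3 * v ^ 2 + 2 * (-T) * v + E with hDd
  have hU := UU_pos
  have hDn : 0 < ‖D‖ := norm_pos_iff.2 hD0
  set f : ℕ := A.nb (cub A v' T' E') with hf
  set b : ℕ := A.nb (A.inv (cubD A v' T' E')) with hb
  set g : ℕ := A.nb (A.sub (A.add v' (dbl A v')) T') with hg
  obtain ⟨a, ha⟩ : ∃ a : ℕ, a = Nat.add (Nat.div (Nat.mul f b) (nat_lit 281474976710656))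
    (nat_lit 1) := ⟨_, rfl⟩
  obtain ⟨e, he⟩ : ∃ e : ℕ, e = Nat.add (Nat.div (Nat.mul (Nat.mul (Nat.mul (nat_lit 3) a) b)
    (Nat.add g (Nat.mul (nat_lit 3) a))) (nat_lit 79228162514264337593543950336)) (nat_lit 1) :=
    ⟨_, rfl⟩
  have hRR : nuR2 A v' T' E' = nuRc a e := by
    rw [he, ha]
    rfl
  have n2' : 1 ≤ (b : ℝ) / UU * ‖D‖ := by
    rw [norm_inv] at n2
    have := mul_le_mul_of_nonneg_right n2 hDn.le
    have e1 : ‖D‖⁻¹ * UU * ‖D‖ = UU := by field_simp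
    rw [e1] at this
    rw [div_mul_eq_mul_div, le_div_iff₀ hU, one_mul]
    exact this
  have a1 : ‖F‖ ≤ (a : ℝ) / UU * ‖D‖ := by
    have h1 : (‖F‖ * UU) * (‖D⁻¹‖ * UU) / UU ≤ a := by
      have : (a : ℝ) = (Nat.div (Nat.mul f b) (nat_lit 281474976710656) : ℕ) + 1 := by
        rw [ha, nadd]
        norm_num
      rw [this]
      refine le_trans ?_ (ndivU _)
      rw [nmul]
      apply div_le_div_of_nonneg_right _ hU.le
      exact mul_le_mul n1 n2 (mul_nonneg (norm_nonneg _) hU.le) (Nat.cast_nonneg _)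
    have e1 : (‖F‖ * UU) * (‖D⁻¹‖ * UU) / UU = ‖F‖ * UU / ‖D‖ := by
      rw [norm_inv]
      field_simp
    rw [e1, div_le_iff₀ hDn] at h1
    rw [div_mul_eq_mul_div, le_div_iff₀ hU]
    exact h1
  have key : ∃ ν : ℂ, ν ^ 3 + (-T) * ν ^ 2 + E * ν + 1 = 0 ∧
      ‖v - ν‖ * UU ≤ (nuRc a e : ℕ) := by
    by_cases hc : 2 * e ≤ 281474976710656
    · have hR : nuRc a e = a + 2 * a * e / 281474976710656 + 1 := by
        unfold nuRc
        have : Nat.ble (Nat.mul (nat_lit 2) e) (nat_lit 281474976710656) = true :=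
          Nat.ble_eq_true_of_le hc
        rw [this]
        rfl
      have he1 : 3 * ((a : ℝ) / UU) * ((b : ℝ) / UU) * ((g : ℝ) / UU + 3 * ((a : ℝ) / UU)) ≤
          (e : ℝ) / UU := by
        have h5 : (e : ℝ) = (Nat.div (Nat.mul (Nat.mul (Nat.mul (nat_lit 3) a) b)
            (Nat.add g (Nat.mul (nat_lit 3) a))) (nat_lit 79228162514264337593543950336) : ℕ) +
              1 := by
          rw [he, nadd]
          norm_num
        rw [h5]
        have h6 := ndivU2 (Nat.mul (Nat.mul (Nat.mul (nat_lit 3) a) b)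
          (Nat.add g (Nat.mul (nat_lit 3) a)))
        rw [nmul, nmul, nmul, nadd, nmul] at h6
        have t3 : ((nat_lit 3 : ℕ) : ℝ) = 3 := by norm_num
        rw [t3] at h6
        rw [le_div_iff₀ hU]
        refine le_trans (le_of_eq ?_) h6
        field_simp
      have he2 : (e : ℝ) / UU ≤ 1 / 2 := by
        have : (2 * e : ℝ) ≤ 281474976710656 := by exact_mod_cast hc
        have hUU : (UU : ℝ) = 281474976710656 := by unfold UU; norm_num
        rw [hUU, div_le_div_iff₀ (by norm_num) (by norm_num)]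
        linarith
      obtain ⟨ν, q1, q2⟩ := cub_near2 (T := T) (E := E) (v := v) (a := (a : ℝ) / UU)
        (b := (b : ℝ) / UU) (g := (g : ℝ) / UU) (e := (e : ℝ) / UU) (by positivity) hD0 a1 n2'
        (by rw [le_div_iff₀ hU]; exact n3) he1 he2
      refine ⟨ν, q1, ?_⟩
      rw [hR]
      have h7 := ndivU (2 * a * e)
      have h8 : ‖v - ν‖ * UU ≤ (a : ℝ) / UU * (1 + 2 * ((e : ℝ) / UU)) * UU :=
        mul_le_mul_of_nonneg_right q2 hU.le
      have h9 : (a : ℝ) / UU * (1 + 2 * ((e : ℝ) / UU)) * UU = a + (2 * a * e : ℝ) / UU := by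
        field_simp
      rw [h9] at h8
      refine h8.trans ?_
      push_cast at h7 ⊢
      have h10 : ((Nat.div (2 * a * e) (nat_lit 281474976710656) : ℕ) : ℝ) =
        ((2 * a * e / 281474976710656 : ℕ) : ℝ) := rfl
      rw [h10] at h7
      linarith
    · have hR : nuRc a e = 3 * a := by
        unfold nuRc
        have : Nat.ble (Nat.mul (nat_lit 2) e) (nat_lit 281474976710656) = false := by
          by_contra h0
          rw [Bool.not_eq_false] at h0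
          exact hc (Nat.le_of_ble_eq_true h0)
        rw [this]
        rfl
      obtain ⟨ν, q1, q2⟩ := cub_near (-T) E 1 v (3 * ((a : ℝ) / UU)) (by
        have := mul_le_mul_of_nonneg_left a1 (by norm_num : (0 : ℝ) ≤ 3)
        linarith) hD0
      refine ⟨ν, q1, ?_⟩
      rw [hR]
      have := mul_le_mul_of_nonneg_right q2 hU.le
      have e5 : 3 * ((a : ℝ) / UU) * UU = 3 * a := by field_simp
      rw [e5] at this
      push_cast
      exact this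
  obtain ⟨ν, q1, q2⟩ := key
  refine ⟨ν, by linear_combination q1, hA.wd hv ?_⟩
  rw [norm_sub_rev, hRR]
  exact q2

/-! ### the scaled family -/

theorem Le.of_smul {X E : Hm ℝ} {F : M3} {c : ℂ} (hc : c ≠ 0) (h : Le E X (c • F)) : Le E X F := by
  obtain ⟨lam, h0, h1⟩ := h
  have hn : 0 < normSq c := normSq_pos.2 hc
  refine ⟨lam / normSq c, div_pos h0 hn, fun v => ?_⟩
  have h2 := h1 v
  rw [Matrix.smul_mulVec, ev_smul] at h2
  rw [div_mul_eq_mul_div, div_le_iff₀ hn]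
  linarith

theorem fam_smul (c : ℂ) (N Q P : M3) (a r : ℂ) :
    c • N + a • (c • Q) + r • (c • P) = c • (N + a • Q + r • P) := by
  rw [smul_add, smul_add, smul_comm a c, smul_comm r c]

/-- models of the scaled family -/
theorem FmX.mk' (hA : ArS A OK HK) {W : M3} {T E ν : ℂ} (h : ChW W T E)
    (hν : ν ^ 3 - T * ν ^ 2 + E * ν + 1 = 0) (hs : T ≠ ν)
    (hD : 3 * ν ^ 2 - 2 * T * ν + E ≠ 0) {S : Sc M} (hS : ScK OK ν T E S) {w : F9 M}
    (hW : FOK OK W w) {x : M} (hx : OK (3 * ν ^ 2 - 2 * T * ν + E) x) :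
    FmK OK ((3 * ν ^ 2 - 2 * T * ν + E) • prS W ν (T - ν) (ν ^ 2 - T * ν + E))
      ((3 * ν ^ 2 - 2 * T * ν + E) • prQ W ν (T - ν) (ν ^ 2 - T * ν + E))
      ((3 * ν ^ 2 - 2 * T * ν + E) • prN W ν (T - ν) (ν ^ 2 - T * ν + E)) (mkFx A S x w) := by
  set c := 3 * ν ^ 2 - 2 * T * ν + E with hc
  have hcn : c • prN W ν (T - ν) (ν ^ 2 - T * ν + E) = W * W - (T - ν) • W +
      (ν ^ 2 - T * ν + E) • (1 : M3) := by
    unfold prN
    rw [cub_der, ← hc, smul_smul, mul_inv_cancel₀ hD, one_smul]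
  have hP : FOK OK (c • prN W ν (T - ν) (ν ^ 2 - T * ν + E)) (mkPx A S w) := by
    rw [hcn]
    exact FOK.adI hA hS.d (FOK.sub9 hA (FOK.mul9 hA hW hW) (FOK.smu9 hA hS.s hW))
  have hQ : FOK OK (c • prQ W ν (T - ν) (ν ^ 2 - T * ν + E)) (KNB.Isb A x (mkPx A S w)) := by
    have h1 := FOK.Isb hA hx hP
    have e : c • (1 : M3) - c • prN W ν (T - ν) (ν ^ 2 - T * ν + E) =
        c • prQ W ν (T - ν) (ν ^ 2 - T * ν + E) := by
      unfold prQ
      rw [smul_sub]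
    rw [e] at h1
    exact h1
  refine ⟨?_, hQ, hP⟩
  have h1 := FOK.sub9 hA (FOK.smu9 hA (okD hA hS.is) (FOK.sub9 hA (FOK.smu9 hA hx hW)
    (FOK.smu9 hA hS.nu hP))) hQ
  rw [prS_eq (h.rel hν hs hD)]
  have e : (2 * (T - ν)⁻¹) = 2 / (T - ν) := by rw [div_eq_mul_inv]
  rw [e] at h1
  have e2 : (2 / (T - ν)) • (c • W - ν • c • prN W ν (T - ν) (ν ^ 2 - T * ν + E)) -
      c • prQ W ν (T - ν) (ν ^ 2 - T * ν + E) =
      c • ((2 / (T - ν)) • (W - ν • prN W ν (T - ν) (ν ^ 2 - T * ν + E)) -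
        prQ W ν (T - ν) (ν ^ 2 - T * ν + E)) := by
    rw [smul_sub c, smul_comm c (2 / (T - ν)), smul_sub c W, smul_comm c ν]
  rw [e2] at h1
  exact h1

/-! ### the powers of the cycle -/

/-- the first power -/
theorem pw_base {W : M3} {T E ν : ℂ} (h : ChW W T E) (hν : ν ^ 3 - T * ν ^ 2 + E * ν + 1 = 0)
    (hs : T ≠ ν) (hD : 3 * ν ^ 2 - 2 * T * ν + E ≠ 0) :
    W = ((T - ν) / 2) • (prS W ν (T - ν) (ν ^ 2 - T * ν + E) +
      (1 : ℂ) • prQ W ν (T - ν) (ν ^ 2 - T * ν + E) +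
      (2 * ν / (T - ν)) • prN W ν (T - ν) (ν ^ 2 - T * ν + E)) := by
  have hmin := cay3_root W ν (by rw [h.t, h.e, h.d]; linear_combination hν)
  rw [h.t, h.e] at hmin
  obtain ⟨r1, r2, -⟩ := pr_rel (sub_ne_zero.2 hs) (by rw [cub_der]; exact hD) hmin
  have hs0 : T - ν ≠ 0 := sub_ne_zero.2 hs
  have h1 : W = W * prQ W ν (T - ν) (ν ^ 2 - T * ν + E) +
      W * prN W ν (T - ν) (ν ^ 2 - T * ν + E) := by
    rw [← mul_add]
    unfold prQ
    rw [sub_add_cancel, mul_one]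
  conv_lhs => rw [h1, r1, r2]
  rw [one_smul, smul_add, smul_add, smul_add, smul_smul]
  congr 2
  field_simp

/-- the next power -/
theorem pw_step {W : M3} {T E ν : ℂ} (h : ChW W T E) (hν : ν ^ 3 - T * ν ^ 2 + E * ν + 1 = 0)
    (hs : T ≠ ν) (hD : 3 * ν ^ 2 - 2 * T * ν + E ≠ 0) {a r a' r' : ℂ} (ha : 1 + a ≠ 0)
    (ha' : a' = 1 - 4 * (ν ^ 2 - T * ν + E) / (T - ν) ^ 2 * (1 + a)⁻¹)
    (hr' : r' = 2 * ν / (T - ν) * r * (1 + a)⁻¹) :
    W * (prS W ν (T - ν) (ν ^ 2 - T * ν + E) + a • prQ W ν (T - ν) (ν ^ 2 - T * ν + E) +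
      r • prN W ν (T - ν) (ν ^ 2 - T * ν + E)) =
    ((T - ν) / 2 * (1 + a)) • (prS W ν (T - ν) (ν ^ 2 - T * ν + E) +
      a' • prQ W ν (T - ν) (ν ^ 2 - T * ν + E) + r' • prN W ν (T - ν) (ν ^ 2 - T * ν + E)) := by
  have hmin := cay3_root W ν (by rw [h.t, h.e, h.d]; linear_combination hν)
  rw [h.t, h.e] at hmin
  obtain ⟨r1, r2, r3⟩ := pr_rel (sub_ne_zero.2 hs) (by rw [cub_der]; exact hD) hmin
  have hs0 : T - ν ≠ 0 := sub_ne_zero.2 hs
  rw [mul_add, mul_add, mul_smul_comm, mul_smul_comm, r1, r2, r3, ha', hr']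
  ext i j
  simp only [Matrix.add_apply, Matrix.smul_apply, smul_eq_mul]
  field_simp
  ring

theorem tWp_sound (hA : ArS A OK HK) {X E : Hm ℝ} {B W : M3} {e' : PH} {x' : H6 M} {b' w' : F9 M}
    {l : LD M} (hB : B.det ≠ 0) (hx : HOK OK X x') (hb : FOK OK B b') (hw : FOK OK W w')
    (he : HK (cgH B E) e') (hl : LOK OK l) (h : tWp A e' x' b' w' l = true) : Le E X W := by
  obtain ⟨lam, h0, h1⟩ := hl
  refine Le.of_basis hB h0 fun u => ?_
  have h2 := hA.lt (p := [((1 : ℝ), cgH (W * B) X), (-lam, cgH B E)]) (by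
    refine List.Forall₂.cons ⟨okE (ok1 hA) (by simp), hA.pk (hx.cg hA (hw.mul9 hA hb))⟩
      (List.Forall₂.cons ⟨okE (okN hA h1) (by simp), he⟩ List.Forall₂.nil)) h u
  simp only [List.map_cons, List.map_nil, List.sum_cons, List.sum_nil, add_zero, one_mul,
    ev_cgH] at h2
  linarith

/-- THE RECURSION with powers of the cycle: the pairs `m < L.length`, then `T` -/
theorem tQW_sound (hA : ArS A OK HK) {X E : Hm ℝ} {N Q P B W : M3} {H : HR PH} {x' : H6 M}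
    {b' w' : F9 M} (hH : HRK HK X E (N * B) (Q * B) (P * B) B H) (hB : B.det ≠ 0)
    (hx : HOK OK X x') (hb : FOK OK B b') (hw : FOK OK W w') {c g : ℂ} {c' g' : M}
    (hc : OK c c') (hg : OK g g') {T : M → M → Bool} :
    ∀ (L : List (LD M)), (∀ l ∈ L, LOK OK l) → ∀ {a r : ℕ → ℂ} {a' r' : M} {n : ℕ} {V : M3}
      {v' : F9 M},
      (∀ m, 1 + a m ≠ 0 → a (m + 1) = 1 - c * (1 + a m)⁻¹) →
      (∀ m, 1 + a m ≠ 0 → r (m + 1) = g * r m * (1 + a m)⁻¹) →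
      (∀ m, 1 + a m ≠ 0 → ∃ k : ℂ, k ≠ 0 ∧ W * (N + a m • Q + r m • P) =
        k • (N + a (m + 1) • Q + r (m + 1) • P)) →
      FOK OK V v' → (∃ k : ℂ, k ≠ 0 ∧ V = k • (N + a 0 • Q + r 0 • P)) →
      OK (a 0) a' → OK (r 0) r' → tQW A H x' b' w' c' g' T L n v' a' r' = true →
      (∀ m, m < L.length → Le E X (N + a m • Q + r m • P) ∧ 1 + a m ≠ 0) ∧
        ∃ a'' r'', OK (a L.length) a'' ∧ OK (r L.length) r'' ∧ T a'' r'' = true := by
  intro L
  induction L with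
  | nil =>
    intro _ a r a' r' n V v' _ _ _ _ _ ha hr h
    exact ⟨fun m hm => absurd hm (Nat.not_lt_zero _), a', r', ha, hr, h⟩
  | cons l L ih =>
    intro hL a r a' r' n V v' ra rr rk hV hVk ha hr h
    have h' : andB (tQs A H x' b' v' l a' r' n) (andB (A.ok (A.add (c1 A) a'))
      (tQW A H x' b' w' c' g' T L (n - 1) (KNB.mul9 A w' v')
        (A.sub (c1 A) (A.mul c' (A.inv (A.add (c1 A) a'))))
        (A.mul (A.mul g' r') (A.inv (A.add (c1 A) a'))))) = true := h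
    obtain ⟨h1, h2⟩ := andBt h'
    obtain ⟨h3, h4⟩ := andBt h2
    have hl := hL l (List.mem_cons_self ..)
    obtain ⟨n0, hi⟩ := hA.inv (hA.add (ok1 hA) ha) h3
    have ha1 : OK (a 1) (A.sub (c1 A) (A.mul c' (A.inv (A.add (c1 A) a')))) :=
      okE (hA.sub (ok1 hA) (hA.mul hc hi)) (ra 0 n0).symm
    have hr1 : OK (r 1) (A.mul (A.mul g' r') (A.inv (A.add (c1 A) a'))) :=
      okE (hA.mul (hA.mul hg hr) hi) (rr 0 n0).symm
    obtain ⟨k, k0, ek⟩ := hVk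
    obtain ⟨k', k0', ek'⟩ := rk 0 n0
    have hV1 : ∃ k : ℂ, k ≠ 0 ∧ W * V = k • (N + a 1 • Q + r 1 • P) := by
      refine ⟨k * k', mul_ne_zero k0 k0', ?_⟩
      rw [ek, mul_smul_comm, ek', smul_smul]
    obtain ⟨i1, i2⟩ := ih (fun x hx => hL x (List.mem_cons_of_mem _ hx))
      (a := fun m => a (m + 1)) (r := fun m => r (m + 1)) (fun m => ra (m + 1))
      (fun m => rr (m + 1)) (fun m => rk (m + 1)) (hw.mul9 hA hV) hV1 ha1 hr1 h4
    refine ⟨fun m hm => ?_, i2⟩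
    rcases m with _ | m
    · refine ⟨?_, n0⟩
      cases n with
      | zero =>
        obtain ⟨lam, l0, l1⟩ := hl
        refine Le.of_basis hB l0 fun u => ?_
        rw [fam_basis]
        exact tFam_sound hA hH ha hr l1 h1 u
      | succ n =>
        have h5 : tWp A H.e x' b' v' l = true := h1
        have h6 := tWp_sound hA hB hx hb hV hH.e hl h5
        rw [ek] at h6
        exact Le.of_smul k0 h6
    · exact i1 m (by simpa using hm)

section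

variable {s0 : GS} {E X : Hm ℝ} {B : M3} {Kt : GS → Hm ℝ} {I : OI M}

/-- what the test of one orientation gives -/
structure OTx (OK : ℂ → M → Prop) (p q r : ℕ) (w : ℂ) (s0 : GS) (E X : Hm ℝ) (Kt : GS → Hm ℝ)
    (I : OI M) (d1 : List (SrcT M)) (ν : ℂ) : Prop where
  bpt : BPt p q r s0 w ν
  hE : BTg2 p q r s0 w E Kt
  hX : BTgt p q r s0 w X Kt
  fam : ∀ m : ℕ, Le E X (TF (WTs p q r s0 w) (trBs p q r s0 w) (esBs p q r s0 w) ν
      (powA (tauBs p q r s0 w ν) m)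
      (sqR (2 * ν / (trBs p q r s0 w - ν)) (tauBs p q r s0 w ν) m))
  i0 : ∀ x ∈ I.q0, ∀ K, HOK OK K x.k → LOK OK x.l → Le K E (Dg (2 * gS p q r s0 w))
  i2 : ∀ x ∈ I.q2, ∀ K, HOK OK K x.k → LOK OK x.l → Le K E
    (MT (gS p q r (nx (nx s0 2) 2) w) (sS p q r (nx (nx s0 2) 2)) *
      Dg (2 * gS p q r (nx (nx s0 2) 2) w))
  i1 : ∀ x ∈ I.q1, ∀ K, HOK OK K x.k → LOK OK x.l → Le K E
    (MT (gS p q r (nx (nx s0 2) 2) w) (sS p q r (nx (nx s0 2) 2)) *
      (MT (gS p q r (nx s0 2) w) (sS p q r (nx s0 2)) * Dg (2 * gS p q r (nx s0 2) w)))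
  d1 : ∀ x ∈ d1, ∀ K, HOK OK K x.k → LOK OK x.l → Le K (Kt s0)
    (Dl (gS p q r s0 w) * (MT (gS p q r (nx (nx s0 2) 2) w) (sS p q r (nx (nx s0 2) 2)) *
      (MT (gS p q r (nx s0 2) w) (sS p q r (nx s0 2)) * Dg (2 * gS p q r (nx s0 2) w))))

/-- THE POWERS OF THE RUN OF TWO LETTERS from the three states of the orientation -/
theorem OTx.pow (hp : 3 ≤ p) (hq : 3 ≤ q) (hr : 3 ≤ r) {ν : ℂ} {d1 : List (SrcT M)}
    (h : OTx OK p q r w s0 E X Kt I d1 ν) :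
    (∀ x ∈ I.q0, ∀ K, HOK OK K x.k → LOK OK x.l → ∀ k : ℕ, ∀ v ∈ Pos K,
      (gM (RMb p q r) s0 (List.replicate (k + 1) 2) w).mulVec v ∈
        Pos (Kt (sD s0 (List.replicate (k + 1) 2)))) ∧
    (∀ x ∈ I.q2, ∀ K, HOK OK K x.k → LOK OK x.l →
      (∀ v ∈ Pos K, (RMb p q r (nx (nx s0 2) 2) 2 w).mulVec v ∈ Pos (Kt s0)) →
      ∀ k : ℕ, ∀ v ∈ Pos K,
      (gM (RMb p q r) (nx (nx s0 2) 2) (List.replicate (k + 1) 2) w).mulVec v ∈
        Pos (Kt (sD (nx (nx s0 2) 2) (List.replicate (k + 1) 2)))) ∧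
    (∀ x ∈ I.q1, ∀ K, HOK OK K x.k → LOK OK x.l → ∀ x' ∈ d1, HOK OK K x'.k → LOK OK x'.l →
      (∀ v ∈ Pos K, (RMb p q r (nx s0 2) 2 w).mulVec v ∈ Pos (Kt (nx (nx s0 2) 2))) →
      ∀ k : ℕ, ∀ v ∈ Pos K,
      (gM (RMb p q r) (nx s0 2) (List.replicate (k + 1) 2) w).mulVec v ∈
        Pos (Kt (sD (nx s0 2) (List.replicate (k + 1) 2)))) := by
  refine ⟨fun x hx K hK hl k => ?_, fun x hx K hK hl hd k => ?_,
    fun x hx K hK hl x' hx' hK' hl' hd k => ?_⟩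
  · exact b_src0' hp hq hr h.bpt h.hE h.hX h.fam (h.i0 x hx K hK hl) k
  · exact b_src1' hp hq hr h.bpt h.hE h.hX h.fam (h.i2 x hx K hK hl) hd k
  · exact b_src2' hp hq hr h.bpt h.hE h.hX h.fam (h.i1 x hx K hK hl) hd
      (run2_dir hp hq hr h.bpt (h.d1 x' hx' K hK' hl')) k

/-- SOUNDNESS OF ONE ORIENTATION, scaled family -/
theorem chX_sound (hA : ArS A OK HK) (hp : 3 ≤ p) (hq : 3 ≤ q) (hr : 3 ≤ r) (hs : DG s0)
    (o0 : omS p q r s0 w ≠ 0) (o1 : omS p q r (nx s0 2) w ≠ 0)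
    (o2 : omS p q r (nx (nx s0 2) 2) w ≠ 0) (hz : zS s0 w ≠ 0)
    (hI : OIK OK p q r s0 w E X B Kt I) {Tt : Sc M → M → M → Bool}
    (hTl : ∀ (ν : ℂ) (S : Sc M) (a b : M),
      ν ^ 3 - trBs p q r s0 w * ν ^ 2 + esBs p q r s0 w * ν + 1 = 0 →
      trBs p q r s0 w ≠ ν → ScK OK ν (trBs p q r s0 w) (esBs p q r s0 w) S →
      OK (powA (tauBs p q r s0 w ν) I.lq.length) a →
      OK (sqR (2 * ν / (trBs p q r s0 w - ν)) (tauBs p q r s0 w ν) I.lq.length) b →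
      Tt S a b = true →
      TailOK (tauBs p q r s0 w ν) (2 * ν / (trBs p q r s0 w - ν)) I.lq.length I.tl I.r0)
    {d1 : List (SrcT M)} {kw : ℕ} (h : chX A I d1 kw Tt = true) :
    ∃ ν, OTx OK p q r w s0 E X Kt I d1 ν := by
  have hC := hI.st hA hs o0 o1 o2
  unfold chX at h
  generalize mkSt A I.l0 I.l1 I.l2 I.s0 I.s1 I.s2 I.z = C at *
  obtain ⟨hdet, h⟩ := andBt h
  obtain ⟨hout, h⟩ := andBt h
  obtain ⟨hdr, h⟩ := andBt h
  obtain ⟨hin, h⟩ := andBt h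
  obtain ⟨hv1, h⟩ := andBt h
  obtain ⟨hout1, hout2⟩ := andBt hout
  obtain ⟨ht1, ht2⟩ := andBt hout1
  have hB : B.det ≠ 0 := (hA.inv (det9_sound hA hI.b) hdet).1
  have hE : BTg2 p q r s0 w E Kt := ⟨tLe_sound hA (hA.pk (hI.k1.cg hA (hC.m0.lDl hA hC.g1)))
    (hA.pk hI.e) hI.le1 ht1, tLe_sound hA (hA.pk (hI.k2.cg hA (hC.m10.lDl hA hC.g2)))
    (hA.pk hI.e) hI.le2 ht2⟩
  have hX := tTgt_sound hA hC hI.k0 hI.k1 hI.k2 (hA.pk hI.x) hI.lx0 hI.lx1 hI.lx2 hout2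
  obtain ⟨hi0, hin⟩ := andBt hin
  obtain ⟨hi2, hi1⟩ := andBt hin
  have j0 : ∀ x ∈ I.q0, ∀ K, HOK OK K x.k → LOK OK x.l → Le K E (Dg (2 * gS p q r s0 w)) := by
    intro x hx K hK hl
    have := tSrc_sound hA (hA.pk (hI.e.cg hA ((FOK.one9 hA).rDg hA hC.g0))) hi0 hx hK hl
    rw [Matrix.one_mul] at this
    exact this
  have j2 := fun x hx K hK hl =>
    tSrc_sound hA (hA.pk (hI.e.cg hA (hC.m2.rDg hA hC.g2))) hi2 (x := x) hx (K := K) hK hl
  have j1 : ∀ x ∈ I.q1, ∀ K, HOK OK K x.k → LOK OK x.l → Le K E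
      (MT (gS p q r (nx (nx s0 2) 2) w) (sS p q r (nx (nx s0 2) 2)) *
      (MT (gS p q r (nx s0 2) w) (sS p q r (nx s0 2)) * Dg (2 * gS p q r (nx s0 2) w))) := by
    intro x hx K hK hl
    have := tSrc_sound hA (hA.pk (hI.e.cg hA (hC.m21.rDg hA hC.g1))) hi1 hx hK hl
    rw [Matrix.mul_assoc] at this
    exact this
  have jd : ∀ x ∈ d1, ∀ K, HOK OK K x.k → LOK OK x.l → Le K (Kt s0)
      (Dl (gS p q r s0 w) * (MT (gS p q r (nx (nx s0 2) 2) w) (sS p q r (nx (nx s0 2) 2)) *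
      (MT (gS p q r (nx s0 2) w) (sS p q r (nx s0 2)) * Dg (2 * gS p q r (nx s0 2) w)))) := by
    intro x hx K hK hl
    have := tSrc_sound hA (hA.pk (hI.k0.cg hA ((hC.m21.rDg hA hC.g1).lDl hA hC.g0))) hdr hx hK hl
    rw [Matrix.mul_assoc (MT _ _)] at this
    exact this
  -- the root
  obtain ⟨v0, hv0⟩ := hI.v
  have hT := hI.tr hA
  have hEs := hI.es hA
  obtain ⟨ν, hν, hνM⟩ := nuM2_sound hA hv0 hT hEs hv1
  have hsc : scOK A (nuM2 A I.v (trM A I) (esM A I)) (trM A I) (esM A I) = true := (andBt h).1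
  obtain ⟨hsp, hD, hS⟩ := ScK.mk' hA hνM hT hEs hsc
  have h := (andBt h).2
  have hxM : OK (3 * ν ^ 2 - 2 * trBs p q r s0 w * ν + esBs p q r s0 w)
      (cubD A (nuM2 A I.v (trM A I) (esM A I)) (trM A I) (esM A I)) :=
    okE (cubD_ok hA hνM hT hEs) (by ring)
  generalize cubD A (nuM2 A I.v (trM A I) (esM A I)) (trM A I) (esM A I) = xx at *
  generalize mkSc A (nuM2 A I.v (trM A I) (esM A I)) (trM A I) (esM A I) = S at *
  have hW := hI.wt hA hC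
  have hch := WTs_ChW hp hq hr hs o0 o1 o2 hz
  have hF := FmX.mk' hA hch hν hsp hD hS hW hxM
  have h0 : chX1 A I kw Tt S (wM A I C) (mkFx A S xx (wM A I C)) = true := h
  clear h
  generalize wM A I C = wm at *
  generalize mkFx A S xx wm = F at *
  have h1 : chX2 A I kw Tt S wm F.p (bsF A F I.b) = true := h0
  have hFB := hF.bs hA hI.b
  have hP := hF.p
  generalize bsF A F I.b = FB at *
  have h2 : chX3 A I kw Tt S wm F.p FB (mkHR A I.x I.e FB I.b) = true := h1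
  have hH := HRK.mk' hA hI.x hI.e hFB hI.b
  generalize mkHR A I.x I.e FB I.b = H at *
  obtain ⟨hq1, ht1⟩ := andBt h2
  set W := WTs p q r s0 w with hWd
  set T := trBs p q r s0 w with hTd
  set Es := esBs p q r s0 w with hEd
  set τ := tauBs p q r s0 w ν with hτ
  set g := 2 * ν / (T - ν) with hg
  set c := 3 * ν ^ 2 - 2 * T * ν + Es with hcd
  have hcv : 4 * (ν ^ 2 - T * ν + Es) / (T - ν) ^ 2 = 1 - τ := by
    rw [hτ]; unfold tauBs; ring
  have hcOK : OK (1 - τ) S.c := okE hS.c hcv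
  have hst : ∀ m, 1 + powA τ m ≠ 0 → ∃ k : ℂ, k ≠ 0 ∧ W * (c • prS W ν (T - ν)
      (ν ^ 2 - T * ν + Es) + powA τ m • c • prQ W ν (T - ν) (ν ^ 2 - T * ν + Es) +
      sqR g τ m • c • prN W ν (T - ν) (ν ^ 2 - T * ν + Es)) = k • (c • prS W ν (T - ν)
      (ν ^ 2 - T * ν + Es) + powA τ (m + 1) • c • prQ W ν (T - ν) (ν ^ 2 - T * ν + Es) +
      sqR g τ (m + 1) • c • prN W ν (T - ν) (ν ^ 2 - T * ν + Es)) := by
    intro m hm
    refine ⟨(T - ν) / 2 * (1 + powA τ m), mul_ne_zero (div_ne_zero (sub_ne_zero.2 hsp)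
      two_ne_zero) hm, ?_⟩
    rw [fam_smul, fam_smul, mul_smul_comm, smul_comm _ c]
    congr 1
    refine pw_step hch hν hsp hD hm ?_ ?_
    · rw [powA_step τ m hm, hcv]
    · rw [sqR_step g τ m]
  have hba : ∃ k : ℂ, k ≠ 0 ∧ W = k • (c • prS W ν (T - ν) (ν ^ 2 - T * ν + Es) +
      powA τ 0 • c • prQ W ν (T - ν) (ν ^ 2 - T * ν + Es) +
      sqR g τ 0 • c • prN W ν (T - ν) (ν ^ 2 - T * ν + Es)) := by
    refine ⟨(T - ν) / 2 * c⁻¹, mul_ne_zero (div_ne_zero (sub_ne_zero.2 hsp) two_ne_zero)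
      (inv_ne_zero hD), ?_⟩
    rw [fam_smul, smul_smul, mul_assoc, inv_mul_cancel₀ hD, mul_one]
    exact pw_base hch hν hsp hD
  obtain ⟨fam1, a'', r'', ha'', hr'', hTt⟩ := tQW_sound hA hH hB hI.x hI.b hW hcOK hS.g I.lq hI.lq
    (a := fun m => powA τ m) (r := fun m => sqR g τ m) (fun m hm => powA_step τ m hm)
    (fun m _ => sqR_step g τ m) hst hW hba (ok1 hA) hS.g hq1
  have htail := hTl ν S a'' r'' hν hsp hS ha'' hr'' hTt
  -- the tail
  obtain ⟨hpk, htl⟩ := andBt ht1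
  have hpiv := piv_ok hP I.pk
  obtain ⟨hpk0, hpki⟩ := hA.inv hpiv hpk
  have hrk : ∀ i j k l, (c • prN W ν (T - ν) (ν ^ 2 - T * ν + Es)) i j *
      (c • prN W ν (T - ν) (ν ^ 2 - T * ν + Es)) k l =
      (c • prN W ν (T - ν) (ν ^ 2 - T * ν + Es)) i l *
      (c • prN W ν (T - ν) (ν ^ 2 - T * ν + Es)) k j := by
    intro i j k l
    have h5 := hch.rank hν i j k l
    simp only [Matrix.smul_apply, smul_eq_mul]
    linear_combination c ^ 2 * h5
  have hT' := TlD.mk' (X := X) (E := E) (N := c • prS W ν (T - ν) (ν ^ 2 - T * ν + Es))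
    (Q := c • prQ W ν (T - ν) (ν ^ 2 - T * ν + Es)) (B := B) hrk I.pk hpk0
  have hR := BRK.mk' hA hI.x hP hFB I.pk
  have hrr : ∀ m, 1 + powA τ m ≠ 0 := by
    intro m
    rcases lt_or_ge m I.lq.length with hm | hm
    · exact (fam1 m hm).2
    · obtain ⟨⟨T1, -, h3⟩, -⟩ := htail m hm
      intro h0
      have := congrArg Complex.re h0
      rw [Complex.add_re, Complex.one_re, Complex.zero_re] at this
      linarith [h3.re]
  refine ⟨ν, ⟨⟨hs, o0, o1, o2, hz, hν, hsp, hD, hrr⟩, hE, hX, ?_, j0, j2, j1, jd⟩⟩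
  intro m
  refine Le.of_smul (c := c) hD ?_
  unfold TF
  rw [← fam_smul]
  rcases lt_or_ge m I.lq.length with hm | hm
  · exact (fam1 m hm).1
  · obtain ⟨h3, h4⟩ := htail m hm
    exact tPL_sound hA hH hR hT' hB (hA.nb hpki) hI.tl htl h3 h4

end

end Pool.Agent.Helper57.KNB
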