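import Pool.Agent.Helper57.KNB.KT6
import Pool.Agent.Helper57.KNB.KO6
import Pool.Agent.Helper57.KNB.KU2

/-!
Row KFT, part 7: SOUNDNESS OF THE B FAMILIES OF A NEAR CELL OF A CLASS WITH TAILS.
-/

set_option autoImplicit false
noncomputable section
namespace Pool.Agent.Helper57.KNB

open Pool.Agent.Helper86.C75 (Z)
open Pool.Agent.Helper86.CX (Cx andB u32 kf Hm mkH ev)
open Pool.Agent.Helper86.CT (Alg Up Mc Vx KM mkKM N3 Pr Cls)
open Pool.Agent.Helper90.C75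
open Pool.Agent.Helper90.KMO
open Pool.Agent.Helper90.KMT (lf0 nlf AOK TOK PT UOK mf0 nmf KTab KMK mkKM_ok vt_mk CLT)
open Pool.Agent.Helper39.KNF (C9 Sm AD)
open Pool.Agent.Helper39.SLT (T4 ML)
open Pool.Agent.Helper42.CH (powA)
open Pool.Agent.Helper6.MONO (sD SbP omS kk zS trBs esBs tauBs lamS RMb zS_om zS_nx2 LNI_kk
  LNI_kk_symm mm)
open Pool.Agent.Helper21.SUP
open Complex ComplexConjugate

variable {α β p' v' γ M PH : Type} {D : ℕ} {lf : α → Vt D → ℂ}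
  {mf : (ℕ → ℝ) → β → (ℕ → ℝ) → ℝ} {t : ℕ → ℝ} {A : Alg α} {U : Up β α} {w' : ℕ} {V : Vx β}
  {OK : ℂ → M → Prop} {HK : Hm ℝ → PH → Prop} {cv : Pool.Agent.Helper86.CT.Mo α → M}
  {R : Ar M PH}

/-! ### the multipliers -/

theorem qPosS_mem {T : ℕ} {l : List SDT} (h : qPosS T l = true) {x : SDT} (hx : x ∈ l) :
    qPos T x.q = true := by
  induction l with
  | nil => cases hx
  | cons y l ih =>
    obtain ⟨a, b⟩ := andBt (show andB (qPos T y.q) (qPosS T l) = true from h)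
    rcases List.mem_cons.1 hx with rfl | hx
    · exact a
    · exact ih b hx

theorem qPosP_mem {T : ℕ} {l : List PDT} (h : qPosP T l = true) {x : PDT} (hx : x ∈ l) :
    qPos T x.q = true := by
  induction l with
  | nil => cases hx
  | cons y l ih =>
    obtain ⟨a, b⟩ := andBt (show andB (qPos T y.q) (qPosP T l) = true from h)
    rcases List.mem_cons.1 hx with rfl | hx
    · exact a
    · exact ih b hx

/-- the multipliers of a record which are used -/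
def UsedQ (B : BDT α β) (q : QL) : Prop :=
  (∃ x ∈ B.d1, q = x.q) ∨ q = B.le1 ∨ q = B.le2 ∨ q = B.lx0 ∨ q = B.lx1 ∨ q = B.lx2 ∨
    (∃ x ∈ B.q0, q = x.q) ∨ (∃ x ∈ B.q2, q = x.q) ∨ (∃ x ∈ B.q1, q = x.q) ∨ q ∈ B.lq ∨
    ∃ x ∈ B.tl, q = x.q

theorem qPosB_used {T : ℕ} {B : BDT α β} (h : qPosB T B = true) {q : QL} (hq : UsedQ B q) :
    qPos T q = true := by
  obtain ⟨c0, h⟩ := andBt h
  obtain ⟨c1, h⟩ := andBt h
  obtain ⟨c2, h⟩ := andBt h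
  obtain ⟨c3, h⟩ := andBt h
  obtain ⟨c4, h⟩ := andBt h
  obtain ⟨c5, h⟩ := andBt h
  obtain ⟨c6, h⟩ := andBt h
  obtain ⟨c7, h⟩ := andBt h
  obtain ⟨c8, h⟩ := andBt h
  obtain ⟨c9, c10⟩ := andBt h
  rcases hq with ⟨x, hx, rfl⟩ | rfl | rfl | rfl | rfl | rfl | ⟨x, hx, rfl⟩ | ⟨x, hx, rfl⟩ |
    ⟨x, hx, rfl⟩ | hx | ⟨x, hx, rfl⟩
  · exact qPosS_mem c0 hx
  · exact c1
  · exact c2
  · exact c3
  · exact c4
  · exact c5
  · exact qPosS_mem c6 hx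
  · exact qPosS_mem c7 hx
  · exact qPosS_mem c8 hx
  · exact qPosL_mem c9 hx
  · exact qPosP_mem c10 hx

theorem used_pos (hV : VLw D mf V) (hP : PT D t) {B : BDT α β} (h : posB V B = true) {q : QL}
    (hq : UsedQ B q) : 0 < lvT mf B.LT t q.l :=
  lvT_pos hV hP h fun _ _ hb => qPosB_used hb hq

/-- form number `k` -/
theorem fmT_ok (hA : AOK D lf A) (hU : UOK D lf mf U) (hw : w' * 2 ^ D = 2 ^ 28)
    (hcv : ∀ {f : ℂ} {m : Pool.Agent.Helper86.CT.Mo α}, TOK D lf t f m → OK f (cv m))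
    (KT : β) (k : ℕ) : HOK OK (KTab mf KT k t) (fmT A U w' cv KT k) :=
  hcv_ok hcv (mkKM_ok hA hU hw KT k)

theorem srT_mem {KT LT : β} {l : List SDT} {x : SDT} (hx : x ∈ l) :
    (⟨fmT A U w' cv KT x.k, ldT A U w' cv LT x.q⟩ : SrcT M) ∈ srT A U w' cv KT LT l := by
  induction l with
  | nil => cases hx
  | cons y l ih =>
    show _ ∈ (⟨fmT A U w' cv KT y.k, ldT A U w' cv LT y.q⟩ : SrcT M) :: srT A U w' cv KT LT l
    rcases List.mem_cons.1 hx with rfl | hx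
    · exact List.mem_cons_self ..
    · exact List.mem_cons_of_mem _ (ih hx)

variable {p q r : ℕ} {w : ℂ}

/-- ONE ORIENTATION IN A CELL -/
theorem chBoT_sound (hA : AOK D lf A) (hU : UOK D lf mf U) (hw : w' * 2 ^ D = 2 ^ 28)
    (hV : VLw D mf V) (hP : PT D t) (hR : ArS R OK HK)
    (hcv : ∀ {f : ℂ} {m : Pool.Agent.Helper86.CT.Mo α}, TOK D lf t f m → OK f (cv m))
    (hp : 3 ≤ p) (hq : 3 ≤ q) (hr : 3 ≤ r)
    {s0 : GS} (hs : DG s0) (hom : ∀ s, DG s → omS p q r s w ≠ 0) (hz : zS s0 w ≠ 0)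
    {l0 l1 l2 k0 k1 k2 z zi : M}
    (hl0 : OK ((lamS p q r s0 : ℝ) : ℂ) l0)
    (hl1 : OK ((lamS p q r (nx s0 2) : ℝ) : ℂ) l1)
    (hl2 : OK ((lamS p q r (nx (nx s0 2) 2) : ℝ) : ℂ) l2)
    (hk0 : OK ((kk p q r s0.1 s0.2.1 : ℝ) : ℂ) k0)
    (hk1 : OK ((kk p q r s0.2.1 s0.2.2 : ℝ) : ℂ) k1)
    (hk2 : OK ((kk p q r s0.1 s0.2.2 : ℝ) : ℂ) k2)
    (hzz : OK (zS s0 w) z) (hzi : OK (zS s0 w)⁻¹ zi)
    {KT : β} {B : BDT α β} {Q : AD}
    (hQ : chAT B.Ts B.rho B.lq.length B.e (B.tl.map fun T => T.V) B.bj Q = true)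
    {Kt : GS → Hm ℝ} (e0 : Kt s0 = KTab mf KT B.t0 t)
    (e1 : Kt (nx s0 2) = KTab mf KT B.t1 t)
    (e2 : Kt (nx (nx s0 2) 2) = KTab mf KT B.t2 t)
    (h : chBoT A U w' V R cv KT B l0 l1 l2 k0 k1 k2 z zi = true) :
    ∃ ν, OTx OK p q r w s0 (KTab mf KT B.ke t) (KTab mf KT B.kx t) Kt
      (mkOIT A U w' R cv KT B l0 l1 l2 k0 k1 k2 (R.mul k0 k0) (R.mul k1 k1) (R.mul k2 k2) z zi)
      (srT A U w' cv KT B.LT B.d1) ν := by
  obtain ⟨b0, h⟩ := andBt h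
  obtain ⟨b1, h⟩ := andBt h
  obtain ⟨b2, h⟩ := andBt h
  obtain ⟨b3, h⟩ := andBt h
  have hu : ∀ {q : QL}, UsedQ B q → 0 < lvT mf B.LT t q.l := fun hq => used_pos hV hP b0 hq
  have hld : ∀ {q : QL}, UsedQ B q → LOK OK (ldT A U w' cv B.LT q) := fun hq =>
    ldT_ok hA hU hw hcv hP (hu hq)
  have hs' := DG_nx s0 2 hs
  have hs'' := DG_nx _ 2 hs'
  have n1 : nx s0 2 = (s0.2.1, s0.2.2, s0.1) := nx_even s0 2 rfl
  have n2 : nx (nx s0 2) 2 = (s0.2.2, s0.1, s0.2.1) := by rw [nx_even _ 2 rfl, n1]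
  have p1 := (LNI_kk hp hq hr _ _ hs.1).1
  have p2 := (LNI_kk hp hq hr _ _ hs'.1).1
  have p3 := (LNI_kk hp hq hr _ _ hs''.1).1
  rw [n1] at p2
  rw [n2] at p3
  have p3' : 0 < kk p q r s0.1 s0.2.2 := by
    have : kk p q r s0.1 s0.2.2 = kk p q r s0.2.2 s0.1 := LNI_kk_symm p q r _ _
    rw [this]; exact p3
  have S0 := sG_ok hR p1.ne' hk0 b1
  have S1 := sG_ok hR p2.ne' hk1 b2
  have S2 := sG_ok hR p3'.ne' hk2 b3
  have hI : OIK OK p q r s0 w (KTab mf KT B.ke t) (KTab mf KT B.kx t) (Sm B.B) Kt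
      (mkOIT A U w' R cv KT B l0 l1 l2 k0 k1 k2 (R.mul k0 k0) (R.mul k1 k1) (R.mul k2 k2) z
        zi) := by
    refine ⟨hl0, hl1, hl2, S0, ?_, ?_, hzz, hzi, ?_, ?_, ?_, ?_, ?_, ?_, fmT_ok hA hU hw hcv _ _,
      fmT_ok hA hU hw hcv _ _, f9A_ok hR _, hld (Or.inr (Or.inl rfl)), hld (Or.inr (Or.inl rfl)),
      hld (Or.inr (Or.inr (Or.inl rfl))), hld (Or.inr (Or.inr (Or.inr (Or.inl rfl)))),
      hld (Or.inr (Or.inr (Or.inr (Or.inr (Or.inl rfl))))),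
      hld (Or.inr (Or.inr (Or.inr (Or.inr (Or.inr (Or.inl rfl)))))),
      ldsT_ok hA hU hw hcv hP fun q hq => hu (by
        refine Or.inr (Or.inr (Or.inr (Or.inr (Or.inr (Or.inr (Or.inr (Or.inr (Or.inr
          (Or.inl hq)))))))))), ?_⟩
    · unfold sS; rw [n1]; exact S1
    · unfold sS; rw [n2]
      have : kk p q r s0.2.2 s0.1 = kk p q r s0.1 s0.2.2 := LNI_kk_symm p q r _ _
      rw [show kk p q r ((s0.2.2, s0.1, s0.2.1) : GS).1 ((s0.2.2, s0.1, s0.2.1) : GS).2.1 =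
        kk p q r s0.2.2 s0.1 from rfl, this]
      exact S2
    · exact okE (hR.mul (hR.mul hk0 hk1) hk2) (by push_cast; ring)
    · refine okE (hR.sub (hR.add (hR.mul hk0 hk0) (hR.add (hR.mul hk1 hk1) (hR.mul hk2 hk2)))
        (ok3 hR)) ?_
      push_cast
      ring
    · refine ⟨avg (wtT D t) (lf B.v) / UU, hcv ⟨vt_mk hA _ _, ?_⟩⟩
      show ‖(UU : ℂ) * (avg (wtT D t) (lf B.v) / UU) - avg (wtT D t) (lf B.v)‖ ≤
        ((nat_lit 0 : ℕ) : ℝ)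
      have : (UU : ℂ) ≠ 0 := UUc_ne
      rw [mul_div_cancel₀ _ this, sub_self, norm_zero]
      exact Nat.cast_nonneg _
    · rw [e0]; exact fmT_ok hA hU hw hcv _ _
    · rw [e1]; exact fmT_ok hA hU hw hcv _ _
    · rw [e2]; exact fmT_ok hA hU hw hcv _ _
    · have hx : ∀ x ∈ B.tl, LOK OK (ldT A U w' cv B.LT x.q) := fun x hx => hld (by
        refine Or.inr (Or.inr (Or.inr (Or.inr (Or.inr (Or.inr (Or.inr (Or.inr (Or.inr
          (Or.inr ⟨x, hx, rfl⟩))))))))))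
      have key : ∀ ng (l : List (TP M)), (∀ T ∈ l, LOK OK T.l) →
          ∀ T ∈ tps A U w' cv B.LT ng l B.tl, LOK OK T.l := by
        intro ng l hl T hT
        rcases (tps_mem _ _ _ _).1 hT with ⟨x, hx', rfl⟩ | hT
        · exact hx x hx'
        · exact hl T hT
      show ∀ T ∈ tpb A U w' cv B.LT B.bj B.tl, LOK OK T.l
      cases B.bj with
      | false => exact key 0 [] (fun T hT => by cases hT)
      | true => exact key 0 _ (key 1 [] (fun T hT => by cases hT))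
  refine chX_sound hR hp hq hr hs (hom _ hs) (hom _ hs') (hom _ hs'') hz hI (Tt := ttT R B) ?_ h
  intro ν S a b hν hsp hS ha hb ht
  have elen : (mkOIT A U w' R cv KT B l0 l1 l2 k0 k1 k2 (R.mul k0 k0) (R.mul k1 k1)
      (R.mul k2 k2) z zi).lq.length = B.lq.length := ldsT_len B.lq
  rw [elen] at hb ⊢
  refine tailT_ok hR hQ ?_ hS.g hb ht
  refine okE hS.c ?_
  unfold tauBs
  ring

end Pool.Agent.Helper57.KNB
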